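import Pool.Agent.Lib.MP_f9eb18_lc.W.Defs

/-!
Definitions used in the statement. `N` is a transitive class of sets (a model); every notion is
read in `(N, ∈)`.
-/

namespace Pool.Agent.Lib.MP_c8ac39_lc.WF

open Ordinal ZFSet Pool.Agent.Lib.MP_f9eb18_lc Pool.Agent.Lib.MP_f9eb18_lc.W

/-- `|a| ≤ |b|` in `N`. -/
def CardLe (N : Set V) (a b : V) : Prop := ∃ f ∈ N, IsInj f a b

/-- `|a| = |b|` in `N`: injections both ways. -/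
def CardEq (N : Set V) (a b : V) : Prop := CardLe N a b ∧ CardLe N b a

/-- `|C| < κ` in `N`. -/
def Small (N : Set V) (κ : Ordinal.{0}) (C : V) : Prop := ∃ α < κ, CardLe N C α.toZFSet

/-- `κ` is measurable in `N`: an uncountable cardinal with a nonprincipal `κ`-complete
ultrafilter. -/
def Meas (N : Set V) (κ : Ordinal.{0}) : Prop :=
  ω < κ ∧ κ.toZFSet ∈ N ∧ ¬ Small N κ κ.toZFSet ∧ ∃ U ∈ N,
    (∀ A ∈ U, A ⊆ κ.toZFSet) ∧ κ.toZFSet ∈ U ∧ (∅ : V) ∉ U ∧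
    (∀ A ∈ U, ∀ B ∈ N, A ⊆ B → B ⊆ κ.toZFSet → B ∈ U) ∧
    (∀ A ∈ N, A ⊆ κ.toZFSet → A ∈ U ∨ κ.toZFSet \ A ∈ U) ∧
    (∀ x : V, ({x} : V) ∉ U) ∧
    ∀ F ∈ N, F ⊆ U → Small N κ F → ZFSet.sep (fun z => ∀ A ∈ F, z ∈ A) κ.toZFSet ∈ U

/-- `κ` is `γ`-strong in `N`: there are, in `N`, a transitive model `H ⊇ V_γ` of ZF without power
set, a transitive `M ⊇ V_γ` and an elementary `j : H → M` with critical point `κ`. -/
def Strong (N : Set V) (κ γ : Ordinal.{0}) : Prop :=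
  ∃ H ∈ N, ∃ M ∈ N, ∃ j ∈ N, IsZ (H : Set V) ∧ M.IsTransitive ∧ IsElem j H M ∧
    (∀ x ∈ N, x.rank < γ → x ∈ H ∧ x ∈ M) ∧ (∀ β < κ, pair β.toZFSet β.toZFSet ∈ j) ∧
    ∃ k : Ordinal.{0}, κ < k ∧ pair κ.toZFSet k.toZFSet ∈ j

/-- `t` is a sequence of length `ζ < κ` with values in `κ`. -/
def Lv (κ : Ordinal.{0}) (t : V) (ζ : Ordinal.{0}) : Prop :=
  ζ < κ ∧ IsFunc ζ.toZFSet κ.toZFSet t

/-- `T` is a tree: a set of sequences of length `< κ` with values in `κ`, closed under initial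
segments. End-extension of sequences is inclusion. -/
def IsTree (κ : Ordinal.{0}) (T : V) : Prop :=
  ∀ t ∈ T, (∃ ζ, Lv κ t ζ) ∧ ∀ s η, Lv κ s η → s ⊆ t → s ∈ T

/-- `s` is an immediate successor of `t` in `T`. -/
def IsSucc (κ : Ordinal.{0}) (T t s : V) : Prop :=
  s ∈ T ∧ t ⊆ s ∧ ∃ ζ, Lv κ t ζ ∧ Lv κ s (ζ + 1)

/-- `t` has two different immediate successors in `T`. -/
def Splits (κ : Ordinal.{0}) (T t : V) : Prop :=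
  ∃ s s', IsSucc κ T t s ∧ IsSucc κ T t s' ∧ s ≠ s'

/-- `B ⊆ T` is linearly ordered by end-extension. -/
def IsChn (T B : V) : Prop := B ⊆ T ∧ ∀ s ∈ B, ∀ t ∈ B, s ⊆ t ∨ t ⊆ s

/-- `B` is a maximal branch (a maximal chain of `N`) of `T`. -/
def IsBranch (N : Set V) (T B : V) : Prop :=
  IsChn T B ∧ ∀ C ∈ N, IsChn T C → B ⊆ C → C = B

/-- The chain `B` has a cofinal subset of size `κ` and no cofinal subset of size `< κ`. -/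
def CofKappa (N : Set V) (κ : Ordinal.{0}) (B : V) : Prop :=
  (∃ C ∈ N, C ⊆ B ∧ (∀ t ∈ B, ∃ s ∈ C, t ⊆ s) ∧ CardEq N C κ.toZFSet) ∧
    ∀ C ∈ N, C ⊆ B → (∀ t ∈ B, ∃ s ∈ C, t ⊆ s) → ¬ Small N κ C

/-- A tree of size `κ` with levels of size `< κ` all of whose maximal branches have
cofinality `κ`. -/
def WeakRegular (N : Set V) (κ : Ordinal.{0}) (T : V) : Prop :=
  IsTree κ T ∧ CardEq N T κ.toZFSet ∧
    (∀ ζ < κ, Small N κ (ZFSet.sep (fun t => Lv κ t ζ) T)) ∧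
    ∀ B ∈ N, IsBranch N T B → CofKappa N κ B

/-- Every node of `T` has an extension that splits in `T`. -/
def Perfect (κ : Ordinal.{0}) (T : V) : Prop := ∀ t ∈ T, ∃ s ∈ T, t ⊆ s ∧ Splits κ T s

/-- Regular trees. -/
def IsRegular (N : Set V) (κ : Ordinal.{0}) (T : V) : Prop := WeakRegular N κ T ∧ Perfect κ T

/-- `S` is a strong subtree of `T` witnessed by `A`. It is required to be perfect (so regular)
whenever every node of `T` splits. -/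
def IsStrong (N : Set V) (κ : Ordinal.{0}) (T S A : V) : Prop :=
  S ⊆ T ∧ WeakRegular N κ S ∧ ((∀ t ∈ T, Splits κ T t) → Perfect κ S) ∧
    ∀ ζ, ∀ t ∈ S, Lv κ t ζ →
      (ζ.toZFSet ∉ A → ∃! s, IsSucc κ S t s) ∧ (ζ.toZFSet ∈ A → ∀ s, IsSucc κ T t s → s ∈ S)

/-- `z` is a function with domain `δ`. -/
def IsSeq (z δ : V) : Prop :=
  (∀ p ∈ z, ∃ a ∈ δ, ∃ b, p = pair a b) ∧ ∀ a ∈ δ, ∃! b, pair a b ∈ z

/-- `z` is a `δ`-sequence whose `j`-th term is a node of level `ζ` of the `j`-th tree of `𝕋`. -/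
def InLevel (κ : Ordinal.{0}) (δ 𝕋 : V) (ζ : Ordinal.{0}) (z : V) : Prop :=
  IsSeq z δ ∧ ∀ j T x, pair j T ∈ 𝕋 → pair j x ∈ z → x ∈ T ∧ Lv κ x ζ

/-- The statement `HL(δ, σ, κ)` in `N`. -/
def HL (N : Set V) (δ σ : V) (κ : Ordinal.{0}) : Prop :=
  ∀ 𝕋 ∈ N, ∀ D ∈ N, ∀ c ∈ N, IsSeq 𝕋 δ → (∀ j T, pair j T ∈ 𝕋 → IsRegular N κ T) →
    (∀ z, z ∈ D ↔ z ∈ N ∧ ∃ ζ < κ, InLevel κ δ 𝕋 ζ z) → IsFunc D σ c →
    ∃ A ∈ N, ∃ 𝕊 ∈ N, ∃ σ' ∈ σ, A ⊆ κ.toZFSet ∧ (∀ ζ < κ, ∃ α, α.toZFSet ∈ A ∧ ζ ≤ α) ∧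
      IsSeq 𝕊 δ ∧ (∀ j T S, pair j T ∈ 𝕋 → pair j S ∈ 𝕊 → IsStrong N κ T S A) ∧
      ∀ ζ : Ordinal.{0}, ζ.toZFSet ∈ A →
        (∃ z ∈ N, InLevel κ δ 𝕊 ζ z) ∧ ∀ z ∈ N, InLevel κ δ 𝕊 ζ z → pair z σ' ∈ c

/-- `N` is a transitive model of ZFC with a measurable `κ` such that `HL(d, σ, κ)` holds for all
finite `d > 0` and all `0 < σ < κ`. -/
def T1 (N : Set V) : Prop :=
  IsZFC N ∧ ∃ κ, Meas N κ ∧ ∀ d : ℕ, 0 < d → ∀ σ < κ, 0 < σ → HL N (natZ d) σ.toZFSet κ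

/-- `N` is a transitive model of ZFC with a `(κ + d)`-strong cardinal `κ`. -/
def T2 (d : ℕ) (N : Set V) : Prop := IsZFC N ∧ ∃ κ : Ordinal.{0}, Strong N κ (κ + d)

end Pool.Agent.Lib.MP_c8ac39_lc.WF
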