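import Pool.Agent.Lib.MP_f9eb18_lc.W.F0
import Pool.Agent.Lib.MP_c8ac39_lc.WF.Defs

/-! # Working definitions: smallness, good measures, the forcing, tuples -/

namespace Pool.Agent.Lib.MP_c8ac39_lc.WF

open Ordinal ZFSet Pool.Agent.Lib.MP_f9eb18_lc Pool.Agent.Lib.MP_f9eb18_lc.W
set_option linter.style.haveILetI false
set_option linter.unusedVariables false
set_option synthInstance.maxSize 100000

/-- `a` is small for `o`: functions of `N` from `a` to `V_o` are bounded (same as `z5c_B`) -/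
def Bd (N : Set V) (o : Ordinal.{0}) (a : V) : Prop :=
  ∀ f ∈ N, (∀ x ∈ a, (app f x).rank < o) → ∃ γ < o, ∀ x ∈ a, (app f x).rank < γ

/-- `o` is closed under `h` -/
def Mp (h : V) (o : Ordinal.{0}) : Prop := ∀ β < o, (oat h β : Ordinal.{0}) < o

/-- `κ` is regular and uncountable in `N` -/
def RegK (N : Set V) (κ : Ordinal.{0}) : Prop :=
  ω < κ ∧ κ.toZFSet ∈ N ∧ Order.IsSuccLimit κ ∧ ∀ β < κ, Bd N κ β.toZFSet

/-- `U` behaves like (a base of) a normal measure on `κ` -/
def GM (N : Set V) (κ : Ordinal.{0}) (U : V) : Prop :=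
  Inac N κ ∧ U ∈ N ∧ (∀ A ∈ U, A ⊆ κ.toZFSet ∧ A.Nonempty) ∧ (∀ A ∈ U, ∀ B ∈ U, A ∩ B ∈ U) ∧
  (∀ β < κ, ∃ A ∈ U, ∀ a ∈ A, β < a.rank ∧ Inac N a.rank) ∧
  ∀ x ∈ N, ∃ y ∈ N, ∃ A ∈ U, ∀ a ∈ A, cut (app x a) a.rank = cut y a.rank

/-- `o` is a limit of cardinals with a good measure -/
def LimM (N : Set V) (o : Ordinal.{0}) : Prop := ∀ β < o, ∃ l < o, β < l ∧ ∃ W ∈ N, GM N l W

/-- the ground model hypothesis -/
def T0 (N : Set V) (κ : Ordinal.{0}) : Prop := (∃ U ∈ N, GM N κ U) ∧ LimM N κ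

/-- the data of the forcing construction -/
structure Ctx (N : Set V) (κ : Ordinal.{0}) (U S L : V) : Prop where
  gm : GM N κ U
  memS : S ∈ N
  memL : L ∈ N
  subS : S ⊆ κ.toZFSet
  inS : ∀ z ∈ S, Inac N z.rank ∧ Mp L z.rank
  mapL : Mp L κ
  ltL : ∀ α < κ, α < oat L α ∧ LimM N (oat L α)
  monoL : ∀ β < κ, ∀ α ≤ β, (oat L α : Ordinal.{0}) ≤ oat L β
  stat : ∀ h ∈ N, Mp h κ → ∃ ζ : Ordinal.{0}, ζ.toZFSet ∈ S ∧ Mp h ζ
  null : ∃ A ∈ U, ∀ a ∈ A, a ∉ S

/-- level of an element `((ζ, y), v)` of a condition -/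
noncomputable def lv (x : V) : Ordinal.{0} := (fst (fst x)).rank
noncomputable def lo (p : V) (α : Ordinal.{0}) : V := ZFSet.sep (fun x => lv x ≤ α) p
noncomputable def hi (p : V) (α : Ordinal.{0}) : V := ZFSet.sep (fun x => α < lv x) p
noncomputable def atl (p : V) (α : Ordinal.{0}) : V := ZFSet.sep (fun x => lv x = α) p
/-- all levels of `p` are at most `α` -/
def Low (p : V) (α : Ordinal.{0}) : Prop := ∀ x ∈ p, lv x ≤ α
/-- `p` is a function whose elements are `((ζ, y), v)` with `ζ ∈ S`, `y ∈ V_(L ζ)`, `v < ζ` -/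
def Shape (S L p : V) : Prop :=
  IsFn p ∧ ∀ x ∈ p, fst (fst x) ∈ S ∧ fst x = pair (fst (fst x)) (snd (fst x)) ∧
    (snd (fst x)).rank < oat L (lv x) ∧ snd x ∈ fst (fst x)
/-- the levels of `p` below `μ` are nonstationary in `μ`, and level `μ` is small -/
def Loc (N : Set V) (μ : Ordinal.{0}) (p : V) : Prop :=
  (∃ f ∈ N, Mp f μ ∧ ∀ x ∈ p, lv x < μ → ¬ Mp f (lv x)) ∧ Bd N μ (atl p μ)
/-- conditions -/
def Cnd (N : Set V) (κ : Ordinal.{0}) (S L p : V) : Prop :=
  p ∈ N ∧ Shape S L p ∧ ∀ μ ≤ κ, Inac N μ → Loc N μ p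
noncomputable def PP (N : Set V) (κ : Ordinal.{0}) (S L : V) : V :=
  ZFSet.sep (Cnd N κ S L) (pw N (Vs N κ))
/-- the order of reverse inclusion -/
noncomputable def LEo (P : V) : V := rel P P (fun q p => p ⊆ q)
/-- open dense sets -/
def OD (P D : V) : Prop := D ⊆ P ∧ (∀ p ∈ P, ∃ q ∈ D, p ⊆ q) ∧ ∀ q ∈ D, ∀ r ∈ P, q ⊆ r → r ∈ D
/-- the part of `q` above `α` reduces the dense sets `D j`, `j ∈ J`, to the levels `≤ α` -/
def Good (P : V) (α : Ordinal.{0}) (J D q : V) : Prop :=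
  ∀ j ∈ J, ∀ r ∈ P, Low r α → ∃ r' ∈ P, Low r' α ∧ r ⊆ r' ∧ r' ∪ hi q α ∈ app D j
/-- `R` is a monotone set of triples `(p, j, i)` -/
def Mon (P R : V) : Prop :=
  ∀ p ∈ P, ∀ q ∈ P, p ⊆ q → ∀ w, pair p w ∈ R → pair q w ∈ R
/-- conditions that decide a value at `j` or rule out all values -/
noncomputable def Dec (P R B j : V) : V :=
  ZFSet.sep (fun p => (∃ i ∈ B, pair p (pair j i) ∈ R) ∨
    ∀ q ∈ P, p ⊆ q → ¬ ∃ i ∈ B, pair q (pair j i) ∈ R) P

/-- `z` is a tuple with `z i ∈ K i` for `i ∈ d` -/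
def IsTup (d K z : V) : Prop := IsFn z ∧ dom z = d ∧ ∀ i ∈ d, app z i ∈ app K i
noncomputable def Tup (N : Set V) (d K : V) : V :=
  ZFSet.sep (IsTup d K) (pw N (prod d (⋃₀ (ran K))))
/-- the pairs `(z, w)` and `(z', w')` have the same order pattern -/
def Pat (d z w z' w' : V) : Prop :=
  ∀ i ∈ d, (app z i ∈ app w i ↔ app z' i ∈ app w' i) ∧ (app w i ∈ app z i ↔ app w' i ∈ app z' i)
/-- an increasing sequence of `n` cardinals above `ρ` with good measures -/
def Blk (N : Set V) (n : ℕ) (ρ : Ordinal.{0}) (Λ W : V) : Prop :=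
  Λ ∈ N ∧ W ∈ N ∧ ∀ i < n, (app Λ (natZ i)).IsOrdinal ∧ ρ < (app Λ (natZ i)).rank ∧
    GM N (app Λ (natZ i)).rank (app W (natZ i)) ∧ ∀ k < i, app Λ (natZ k) ∈ app Λ (natZ i)
/-- each `K i` is an unbounded subset of the ordinal `Λ i` -/
def Wide (d Λ K : V) : Prop := ∀ i ∈ d, app K i ⊆ app Λ i ∧ ∀ b ∈ app Λ i, ∃ a ∈ app K i, b ∈ a
/-- the coordinate `β` of column `(i, a)` at level `ζ` -/
noncomputable def crd (ζ : Ordinal.{0}) (i a β : V) : V := pair ζ.toZFSet (pair (pair i a) β)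
/-- column `(i, a)` of `p` at level `ζ` -/
noncomputable def clm (ζ : Ordinal.{0}) (p i a : V) : V :=
  rel ζ.toZFSet ζ.toZFSet (fun β v => pair (crd ζ i a β) v ∈ p)
/-- the system of conditions `r e`, `e ∈ ∏ K`, at level `ζ`, with root inside `p` -/
def Nice (N : Set V) (P : V) (ζ : Ordinal.{0}) (d K : V) (ξ : Ordinal.{0}) (u r p : V) : Prop :=
  (∀ i ∈ d, dom (app u i) = ξ.toZFSet) ∧
  ∀ e ∈ Tup N d K, app r e ∈ P ∧ Low (app r e) ζ ∧
    (∀ i ∈ d, clm ζ (app r e) i (app e i) = app u i) ∧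
    (∀ x ∈ dom (app r e), fst x = ζ.toZFSet → snd (snd x) ∈ ζ.toZFSet →
      snd (snd x) ∈ ξ.toZFSet) ∧
    (∀ x ∈ app r e, lv x < ζ → x ∈ p) ∧
    (∀ x ∈ app r e, (∀ e' ∈ Tup N d K, x ∈ app r e') → x ∈ p) ∧
    ∀ e' ∈ Tup N d K, IsFn (app r e ∪ app r e') ∧ ((∀ i ∈ d, app e i ≠ app e' i) →
      ∀ x ∈ dom (app r e), x ∈ dom (app r e') → ∀ e'' ∈ Tup N d K, x ∈ dom (app r e''))
/-- tuples of functions that are subsets of `ζ × ζ` -/
def FT (d : V) (ζ : Ordinal.{0}) (z : V) : Prop :=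
  IsFn z ∧ dom z = d ∧ ∀ i ∈ d, IsFn (app z i) ∧ app z i ⊆ prod ζ.toZFSet ζ.toZFSet
/-- the conclusion of the Harrington argument at `ζ` -/
def Har (N : Set V) (d : V) (ζ : Ordinal.{0}) (χ : V) (ξ : Ordinal.{0}) (u j : V) : Prop :=
  ∀ ρ < ζ, ∃ a ∈ N, (∀ i ∈ d, ∀ γ < ρ, IsFn (app a (pair i γ.toZFSet)) ∧
      app a (pair i γ.toZFSet) ⊆ prod ζ.toZFSet ζ.toZFSet ∧
      (∀ β < ξ, app (app a (pair i γ.toZFSet)) β.toZFSet = app (app u i) β.toZFSet) ∧
      app (app a (pair i γ.toZFSet)) ξ.toZFSet = γ.toZFSet) ∧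
    ∀ w ∈ N, IsFn w → dom w = d → (∀ i ∈ d, app w i ∈ ρ.toZFSet) →
      app χ (lam d fun i => app a (pair i (app w i))) = j
/-- the combinatorial principle that the forcing adds -/
def COH (N : Set V) (κ : Ordinal.{0}) (d σ : V) : Prop :=
  ∀ F ∈ N, Mp F κ → ∃ ζ < κ, 0 < ζ ∧ Mp F ζ ∧ ∀ χ ∈ N, (∀ z ∈ N, FT d ζ z → app χ z ∈ σ) →
    ∃ ξ < ζ, ∃ η < ζ, ∃ u ∈ N, ∃ j ∈ σ,
      (∀ i ∈ d, ∀ β < ξ, (oat F (app (app u i) β.toZFSet).rank : Ordinal.{0}) < η) ∧
      Har N d ζ χ ξ u j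

/-- length of a node -/
noncomputable def lh (t : V) : Ordinal.{0} := (dom t).rank
/-- trees without leaves that are closed under unions of bounded chains -/
def Cl (N : Set V) (κ : Ordinal.{0}) (T : V) : Prop :=
  IsTree κ T ∧ (∀ t ∈ T, ∃ s, IsSucc κ T t s) ∧
    ∀ C ∈ N, IsChn T C → ∀ η < κ, (∀ t ∈ C, lh t ≤ η) → (⋃₀ C : V) ∈ T
/-- `e` extends the nodes of level `ξ` above `t` to level `ζ` with colour `j` -/
def EX (N : Set V) (d 𝕋 c t j : V) (ξ ζ : Ordinal.{0}) (e : V) : Prop :=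
  (∀ i ∈ d, ∀ s ∈ app 𝕋 i, lh s = ξ → app t i ⊆ s → app e (pair i s) ∈ app 𝕋 i ∧
    s ⊆ app e (pair i s) ∧ lh (app e (pair i s)) = ζ) ∧
  ∀ z ∈ N, IsTup d 𝕋 z → (∀ i ∈ d, lh (app z i) = ξ ∧ app t i ⊆ app z i) →
    app c (lam d fun i => app e (pair i (app z i))) = j
/-- the dense set version of the Halpern-Lauchli statement above `t` with colour `j` -/
def DSP (N : Set V) (κ : Ordinal.{0}) (d 𝕋 c t j : V) : Prop :=
  ∀ ξ < κ, (∀ i ∈ d, lh (app t i) ≤ ξ) → ∃ ζ < κ, ξ < ζ ∧ ∃ e ∈ N, EX N d 𝕋 c t j ξ ζ e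

section inst
variable {F : Fr} {D : Set V → (ℕ → V) → Set V} {a b c e f g h : Set V → (ℕ → V) → V}
  {o p : Set V → (ℕ → V) → Ordinal.{0}}
instance ud_bd [UC F D] [UF F o] [UF F a] : UD F (fun M v => Bd (D M v) (o M v) (a M v)) := by
  have := UF.lift (F := F) o; have := UF.lift (F := F) a; unfold Bd; infer_instance
instance ud_mp [UF F a] [UF F o] : UD F (fun M v => Mp (a M v) (o M v)) := by
  have := UF.lift (F := F) o; have := UF.lift (F := F) a; unfold Mp; infer_instance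
instance ud_gm [UC F D] [UF F o] [UF F a] : UD F (fun M v => GM (D M v) (o M v) (a M v)) := by
  have := UF.lift (F := F) o; have := UF.lift (F := F) a; have := UC.lift (F := F) D
  unfold GM; infer_instance
instance ud_limM [UC F D] [UF F o] : UD F (fun M v => LimM (D M v) (o M v)) := by
  have := UF.lift (F := F) o; have := UC.lift (F := F) D
  unfold LimM; infer_instance
instance ud_t0 [UC F D] [UF F o] : UD F (fun M v => T0 (D M v) (o M v)) := by
  have := UF.lift (F := F) o; have := UC.lift (F := F) D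
  unfold T0; infer_instance
instance uf_lv [UF F a] : UF F (fun M v => lv (a M v)) := by unfold lv; infer_instance
instance uf_lo [UF F a] [UF F o] : UF F (fun M v => lo (a M v) (o M v)) := by
  have := UF.lift (F := F) o; unfold lo; infer_instance
instance uf_hi [UF F a] [UF F o] : UF F (fun M v => hi (a M v) (o M v)) := by
  have := UF.lift (F := F) o; unfold hi; infer_instance
instance uf_atl [UF F a] [UF F o] : UF F (fun M v => atl (a M v) (o M v)) := by
  have := UF.lift (F := F) o; unfold atl; infer_instance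
instance ud_low [UF F a] [UF F o] : UD F (fun M v => Low (a M v) (o M v)) := by
  have := UF.lift (F := F) o; unfold Low; infer_instance
instance ud_shape [UF F a] [UF F b] [UF F c] :
    UD F (fun M v => Shape (a M v) (b M v) (c M v)) := by
  have := UF.lift (F := F) a; have := UF.lift (F := F) b; unfold Shape; infer_instance
instance ud_loc [UC F D] [UF F o] [UF F a] : UD F (fun M v => Loc (D M v) (o M v) (a M v)) := by
  have := UF.lift (F := F) o; have := UF.lift (F := F) a; unfold Loc; infer_instance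
instance ud_cnd [UC F D] [UF F o] [UF F a] [UF F b] [UF F c] :
    UD F (fun M v => Cnd (D M v) (o M v) (a M v) (b M v) (c M v)) := by
  have := UF.lift (F := F) c; have := UC.lift (F := F) D; unfold Cnd; infer_instance
instance uf_PP [F.P] [UC F D] [UF F o] [UF F a] [UF F b] :
    UF F (fun M v => PP (D M v) (o M v) (a M v) (b M v)) := by
  have := UF.lift (F := F) o; have := UF.lift (F := F) a; have := UF.lift (F := F) b
  have := UC.lift (F := F) D; unfold PP; infer_instance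
instance uf_LEo [UF F a] : UF F (fun M v => LEo (a M v)) := by unfold LEo; infer_instance
instance ud_od [UF F a] [UF F b] : UD F (fun M v => OD (a M v) (b M v)) := by
  have := UF.lift (F := F) a; have := UF.lift (F := F) b; unfold OD; infer_instance
instance ud_good [UF F a] [UF F o] [UF F b] [UF F c] [UF F e] :
    UD F (fun M v => Good (a M v) (o M v) (b M v) (c M v) (e M v)) := by
  have := UF.lift (F := F) a; have := UF.lift (F := F) o; have := UF.lift (F := F) c
  have := UF.lift (F := F) e; unfold Good; infer_instance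
instance uf_dec' [UF F a] [UF F b] [UF F c] [UF F e] :
    UF F (fun M v => Dec (a M v) (b M v) (c M v) (e M v)) := by
  have := UF.lift (F := F) a; have := UF.lift (F := F) b; have := UF.lift (F := F) c
  have := UF.lift (F := F) e; unfold Dec; infer_instance
instance ud_isTup [UF F a] [UF F b] [UF F c] :
    UD F (fun M v => IsTup (a M v) (b M v) (c M v)) := by
  have := UF.lift (F := F) b; have := UF.lift (F := F) c; unfold IsTup; infer_instance
instance uf_tup [F.P] [UC F D] [UF F a] [UF F b] :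
    UF F (fun M v => Tup (D M v) (a M v) (b M v)) := by
  have := UF.lift (F := F) a; have := UF.lift (F := F) b; unfold Tup; infer_instance
instance uf_crd [UF F o] [UF F a] [UF F b] [UF F c] :
    UF F (fun M v => crd (o M v) (a M v) (b M v) (c M v)) := by unfold crd; infer_instance
instance uf_clm [UF F o] [UF F a] [UF F b] [UF F c] :
    UF F (fun M v => clm (o M v) (a M v) (b M v) (c M v)) := by
  have := UF.lift (F := F) o; have := UF.lift (F := F) a; have := UF.lift (F := F) b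
  have := UF.lift (F := F) c; unfold clm; infer_instance
instance ud_nice [F.P] [UC F D] [UF F a] [UF F o] [UF F b] [UF F c] [UF F p] [UF F e] [UF F f]
    [UF F g] : UD F (fun M v => Nice (D M v) (a M v) (o M v) (b M v) (c M v) (p M v) (e M v)
      (f M v) (g M v)) := by
  have := UF.lift (F := F) a; have := UF.lift (F := F) o; have := UF.lift (F := F) b
  have := UF.lift (F := F) c; have := UF.lift (F := F) p; have := UF.lift (F := F) e
  have := UF.lift (F := F) f; have := UF.lift (F := F) g; have := UC.lift (F := F) D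
  unfold Nice; infer_instance
instance ud_ft [UF F a] [UF F o] [UF F b] : UD F (fun M v => FT (a M v) (o M v) (b M v)) := by
  have := UF.lift (F := F) o; have := UF.lift (F := F) b; unfold FT; infer_instance
instance ud_wide [UF F a] [UF F b] [UF F c] :
    UD F (fun M v => Wide (a M v) (b M v) (c M v)) := by
  have := UF.lift (F := F) b; have := UF.lift (F := F) c; unfold Wide; infer_instance
instance uf_lh [UF F a] : UF F (fun M v => lh (a M v)) := by unfold lh; infer_instance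
instance ud_ex [UC F D] [UF F a] [UF F b] [UF F c] [UF F e] [UF F f] [UF F o] [UF F p] [UF F g] :
    UD F (fun M v => EX (D M v) (a M v) (b M v) (c M v) (e M v) (f M v) (o M v) (p M v)
      (g M v)) := by
  have := UF.lift (F := F) a; have := UF.lift (F := F) o; have := UF.lift (F := F) b
  have := UF.lift (F := F) c; have := UF.lift (F := F) p; have := UF.lift (F := F) e
  have := UF.lift (F := F) f; have := UF.lift (F := F) g; have := UC.lift (F := F) D
  unfold EX; infer_instance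
instance ud_lvT [UF F o] [UF F a] [UF F p] : UD F (fun M v => Lv (o M v) (a M v) (p M v)) := by
  unfold Lv; infer_instance
instance ud_strong [UC F D] [UF F o] [UF F p] :
    UD F (fun M v => Strong (D M v) (o M v) (p M v)) := by
  have := UF.lift (F := F) o; have := UF.lift (F := F) p; have := UC.lift (F := F) D
  refine (inferInstance : UD F (fun M v => ∃ H ∈ D M v, ∃ M' ∈ D M v, ∃ j ∈ D M v,
    IsZ (H : Set V) ∧ M'.IsTransitive ∧ IsElem j H M' ∧
    (∀ x ∈ D M v, x.rank < p M v → x ∈ H ∧ x ∈ M') ∧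
    (∀ β < o M v, pair β.toZFSet β.toZFSet ∈ j) ∧ ∃ k ∈ ran j, o M v < k.rank ∧
      k = k.rank.toZFSet ∧ pair (o M v).toZFSet k ∈ j)).congr fun M _ v _ => ?_
  unfold Strong
  refine exists_congr fun H => and_congr_right fun _ => exists_congr fun M' =>
    and_congr_right fun _ => exists_congr fun j => and_congr_right fun _ =>
    and_congr_right fun _ => and_congr_right fun _ => and_congr_right fun _ =>
    and_congr_right fun _ => and_congr_right fun _ => ⟨fun ⟨k, h1, h2⟩ => ?_, fun ⟨k, _, h1, h2, h3⟩ => ?_⟩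
  · exact ⟨_, mem_ran.2 ⟨_, h2⟩, by rwa [rank_toZFSet], by rw [rank_toZFSet], h2⟩
  · exact ⟨k.rank, h1, h2 ▸ h3⟩
end inst

end Pool.Agent.Lib.MP_c8ac39_lc.WF
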