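import Pool.Agent.Lib.MP_c8ac39_lc.WF.Gm

/-! # The data of the construction exist -/

namespace Pool.Agent.Lib.MP_c8ac39_lc.WF

open Ordinal ZFSet Pool.Agent.Lib.MP_f9eb18_lc Pool.Agent.Lib.MP_f9eb18_lc.W
set_option linter.style.haveILetI false
set_option linter.unusedVariables false
set_option linter.unusedSectionVars false
set_option synthInstance.maxSize 100000

variable {N : Set V} {κ : Ordinal.{0}} {U : V}

theorem exists_L [IsZFC N] (h : GM N κ U) (h' : LimM N κ) : ∃ L ∈ N, Mp L κ ∧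
    (∀ α < κ, α < oat L α ∧ LimM N (oat L α)) ∧
    ∀ β < κ, ∀ α ≤ β, (oat L α : Ordinal.{0}) ≤ oat L β := by
  haveI : In N κ := ⟨h.1.2.1⟩
  have k1 : ∀ β < κ, olst κ (fun l => β < l ∧ ∃ W ∈ N, GM N l W) < κ := fun β hβ => by
    obtain ⟨l, h1, h2, h3⟩ := h' β hβ
    exact (olst_le_of h1 ⟨h2, h3⟩).trans_lt h1
  obtain ⟨A, hA, hc⟩ := h.club
    (memV_of N (sq κ fun β => olst κ (fun l => β < l ∧ ∃ W ∈ N, GM N l W)))
    ((mp_sq le_rfl).2 k1)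
  have k2 : ∀ α < κ, olst κ (fun η => α < η ∧ LimM N η) < κ := fun α hα => by
    obtain ⟨a, ha, h1, -⟩ := h.unb hA hα
    have h2 := (h.ord hA ha).2
    refine (olst_le_of h2 ⟨h1, fun β hβ => ?_⟩).trans_lt h2
    have h3 := olst_spec (k1 β (hβ.trans h2))
    exact ⟨_, (mp_sq h2.le).1 (hc a ha) β hβ, h3.1, h3.2⟩
  refine ⟨sq κ fun α => olst κ (fun η => α < η ∧ LimM N η), memV_of N _, (mp_sq le_rfl).2 k2,
    fun α hα => ?_, fun β hβ α hα => ?_⟩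
  · rw [oat_sq _ hα]
    exact olst_spec (k2 α hα)
  · rw [oat_sq _ hβ, oat_sq _ (hα.trans_lt hβ)]
    have h3 := olst_spec (k2 β hβ)
    exact olst_le_of (k2 β hβ) ⟨hα.trans_lt h3.1, h3.2⟩
theorem exists_S [IsZFC N] (h : GM N κ U) {L : V} (hL : L ∈ N) (hm : Mp L κ) :
    ∃ S ∈ N, S ⊆ κ.toZFSet ∧ (∀ z ∈ S, Inac N z.rank ∧ Mp L z.rank) ∧
      (∀ f ∈ N, Mp f κ → ∃ ζ : Ordinal.{0}, ζ.toZFSet ∈ S ∧ Mp f ζ) ∧
      ∃ A ∈ U, ∀ a ∈ A, a ∉ S := by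
  haveI : In N κ := ⟨h.1.2.1⟩
  haveI : In N L := ⟨hL⟩
  obtain ⟨S, hS⟩ : ∃ S, S = ZFSet.sep (fun z : V => Inac N z.rank ∧ Mp L z.rank ∧
      ∃ f ∈ N, Mp f z.rank ∧ ∀ η < z.rank, Inac N η → ¬ Mp f η) κ.toZFSet := ⟨_, rfl⟩
  have hSN : S ∈ N := hS ▸ sep_mem N _ h.1.2.1
  have mS : ∀ z, z ∈ S ↔ z ∈ κ.toZFSet ∧ Inac N z.rank ∧ Mp L z.rank ∧
      ∃ f ∈ N, Mp f z.rank ∧ ∀ η < z.rank, Inac N η → ¬ Mp f η := fun z => by
    rw [hS, mem_sep]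
  refine ⟨S, hSN, fun z hz => ((mS z).1 hz).1,
    fun z hz => ⟨((mS z).1 hz).2.1, ((mS z).1 hz).2.2.1⟩, fun f hf hfm => ?_, ?_⟩
  · haveI : In N f := ⟨hf⟩
    obtain ⟨g, hg⟩ : ∃ g, g = sq κ fun β => max (oat f β : Ordinal.{0}) (oat L β) := ⟨_, rfl⟩
    have hgN : g ∈ N := hg ▸ memV_of N _
    have mg : ∀ o ≤ κ, (Mp g o ↔ Mp f o ∧ Mp L o) := fun o ho => by
      rw [hg, mp_sq ho]
      exact ⟨fun H => ⟨fun β hβ => (max_lt_iff.1 (H β hβ)).1, fun β hβ => (max_lt_iff.1 (H β hβ)).2⟩,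
        fun H β hβ => max_lt (H.1 β hβ) (H.2 β hβ)⟩
    obtain ⟨A, hA, hc⟩ := h.club hgN ((mg κ le_rfl).2 ⟨hfm, hm⟩)
    obtain ⟨a, ha, -, h1⟩ := h.unb hA h.1.2.2.1.pos
    have h2 := (h.ord hA ha).2
    have h3 : olst κ (fun η => Inac N η ∧ Mp g η) < κ :=
      (olst_le_of h2 ⟨h1, hc a ha⟩).trans_lt h2
    have h4 := olst_spec h3
    have h5 := (mg _ h3.le).1 h4.2
    refine ⟨_, (mS _).2 ⟨toZFSet_mem_toZFSet_iff.2 h3, ?_⟩, h5.1⟩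
    rw [rank_toZFSet]
    exact ⟨h4.1, h5.2, g, hgN, h4.2, fun η hη h6 h7 => not_of_lt_olst hη ⟨h6, h7⟩⟩
  · obtain ⟨c, hc, -, -, hP⟩ := choice_fn N
      (fun z f => Mp f z.rank ∧ ∀ η < z.rank, Inac N η → ¬ Mp f η) hSN
      fun z hz => ((mS z).1 hz).2.2.2
    haveI : In N c := ⟨hc⟩
    haveI : In N S := ⟨hSN⟩
    obtain ⟨y, -, A, hA, hy⟩ := h.2.2.2.2.2 _
      (memV_of N (lam S fun a => sq a.rank fun β => (oat (app c a) β : Ordinal.{0})))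
    by_cases h0 : ∃ a ∈ A, a ∈ S
    · obtain ⟨a₀, ha₀, hs₀⟩ := h0
      obtain ⟨B, hB, hb⟩ := h.2.2.2.2.1 _ (h.ord hA ha₀).2
      refine ⟨_, h.2.2.2.1 A hA B hB, fun a ha hs => ?_⟩
      have h1 := (hb a (mem_inter.1 ha).2).1
      have h2 := ((mS _).1 hs₀).2.1
      refine (hP a hs).2 _ h1 h2 fun β hβ => ?_
      have h3 := (hP a₀ hs₀).1 β hβ
      have h4 : (pair β.toZFSet (oat (app c a₀) β : Ordinal.{0}).toZFSet).rank < a₀.rank :=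
        (rank_pair_lt h2.2.2.1).2 ⟨by rwa [rank_toZFSet], by rwa [rank_toZFSet]⟩
      have h5 : pair β.toZFSet (oat (app c a₀) β : Ordinal.{0}).toZFSet ∈ cut y a₀.rank := by
        rw [← hy a₀ ha₀, app_lam _ hs₀, mem_cut]
        refine ⟨pair_mem_lam.2 ⟨toZFSet_mem_toZFSet_iff.2 hβ, ?_⟩, h4⟩
        rw [rank_toZFSet]; rfl
      have h6 : pair β.toZFSet (oat (app c a₀) β : Ordinal.{0}).toZFSet ∈ cut y a.rank :=
        mem_cut.2 ⟨(mem_cut.1 h5).1, h4.trans h1⟩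
      rw [← hy a (mem_inter.1 ha).1, app_lam _ hs, mem_cut] at h6
      have h7 := (pair_mem_lam.1 h6.1).2
      rw [rank_toZFSet] at h7
      have h8 := congrArg ZFSet.rank h7
      rw [enc_ord, rank_toZFSet, rank_toZFSet] at h8
      exact h8.symm.trans_lt h3
    · exact ⟨A, hA, fun a ha hs => h0 ⟨a, ha, hs⟩⟩
theorem exists_ctx [IsZFC N] (h : T0 N κ) : ∃ U S L, Ctx N κ U S L := by
  obtain ⟨⟨U, -, hU⟩, h'⟩ := h
  obtain ⟨L, l1, l2, l3, l4⟩ := exists_L hU h'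
  obtain ⟨S, s1, s2, s3, s4, s5⟩ := exists_S hU l1 l2
  exact ⟨U, S, L, hU, s1, l1, s2, s3, l2, l3, l4, s4, s5⟩

end Pool.Agent.Lib.MP_c8ac39_lc.WF
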