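import Pool.Agent.Lib.MP_c8ac39_lc.WF.Po

/-! # Generic filters and names -/

namespace Pool.Agent.Lib.MP_c8ac39_lc.WF

open Ordinal ZFSet Pool.Agent.Lib.MP_f9eb18_lc Pool.Agent.Lib.MP_f9eb18_lc.W
set_option linter.style.haveILetI false
set_option linter.unusedVariables false
set_option linter.unusedSectionVars false
set_option synthInstance.maxSize 100000

variable {N : Set V} {P G R B p q : V}

theorem gen_sub (hG : Gen N P (LEo P) G) (hq : q ∈ G) (hp : p ∈ P) (h : p ⊆ q) : p ∈ G :=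
  hG.up q hq p hp (mem_LEo.2 ⟨hG.sub hq, hp, h⟩)
theorem gen_dir (hG : Gen N P (LEo P) G) (hp : p ∈ G) (hq : q ∈ G) : ∃ r ∈ G, p ⊆ r ∧ q ⊆ r := by
  obtain ⟨r, hr, h1, h2⟩ := hG.dir p hp q hq
  exact ⟨r, hr, (mem_LEo.1 h1).2.2, (mem_LEo.1 h2).2.2⟩
theorem LEo_mem [IsZ N] (hP : P ∈ N) : LEo P ∈ N :=
  haveI : In N P := ⟨hP⟩
  memV_of N _
theorem gen_below [IsZ N] (hP : P ∈ N) (hG : Gen N P (LEo P) G) (hp : p ∈ G) (E : V → Prop)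
    [UD (loc N) (fun _ v => E (vr v 0))] (h : ∀ q ∈ P, p ⊆ q → ∃ r ∈ P, q ⊆ r ∧ E r) :
    ∃ r ∈ G, E r := by
  obtain ⟨r, h1, h2⟩ := hG.meet_below (isPO_LEo P) hP (LEo_mem hP) hp (sep_mem N E hP)
    fun q hq k => by
      obtain ⟨r, r1, r2, r3⟩ := h q hq (mem_LEo.1 k).2.2
      exact ⟨r, mem_sep.2 ⟨r1, r3⟩, r1, mem_LEo.2 ⟨r1, hq, r2⟩⟩
  exact ⟨r, h1, (mem_sep.1 h2).2⟩
theorem gen_dense [IsZ N] (hP : P ∈ N) (hG : Gen N P (LEo P) G) (E : V → Prop)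
    [UD (loc N) (fun _ v => E (vr v 0))] (h : ∀ q ∈ P, ∃ r ∈ P, q ⊆ r ∧ E r) :
    ∃ r ∈ G, E r := by
  obtain ⟨p, hp⟩ := (nonempty_def G).1 hG.ne
  exact gen_below hP hG hp E fun q hq _ => h q hq
theorem zfc_gext [IsZFC N] (hP : P ∈ N) (hG : Gen N P (LEo P) G) : IsZFC (gext N G) :=
  isZFC_gext (isPO_LEo P) hP (LEo_mem hP) hG
theorem exists_name [IsZ N] (hP : P ∈ N) (hG : Gen N P (LEo P) G) {F J : V}
    (hF : F ∈ gext N G) (hJ : J ∈ N) (hB : B ∈ N) : ∃ R ∈ N, Mon P R ∧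
      ∀ j ∈ J, ∀ i ∈ B, (pair j i ∈ F ↔ ∃ p ∈ G, pair p (pair j i) ∈ R) := by
  obtain ⟨τ, hτ, rfl⟩ := hF
  haveI : In N P := ⟨hP⟩
  haveI : In N τ := ⟨hτ⟩
  haveI : In N J := ⟨hJ⟩
  haveI : In N B := ⟨hB⟩
  obtain ⟨le, hle⟩ : ∃ le, le = LEo P := ⟨_, rfl⟩
  haveI : In N le := ⟨hle ▸ LEo_mem hP⟩
  refine ⟨rel P (prod J B) (fun p w => FM P le p (chk P w) τ), memV_of N _, ?_, ?_⟩
  · intro p hp q hq hpq w hw
    obtain ⟨-, h2, h3⟩ := pair_mem_rel.1 hw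
    subst hle
    exact pair_mem_rel.2 ⟨hq, h2, (f0c_mono (isPO_LEo P) (mem_LEo.2 ⟨hq, hp, hpq⟩)).1 h3⟩
  · intro j hj i hi
    haveI : In N j := ⟨IsZ.trans _ hJ _ hj⟩
    haveI : In N i := ⟨IsZ.trans _ hB _ hi⟩
    have h1 := (f0c_atom (isPO_LEo P) hP (LEo_mem hP) hG (memV_of N (chk P (pair j i))) hτ).1
    rw [val_chk hG.sub hG.ne] at h1
    rw [h1]
    subst hle
    refine exists_congr fun p => and_congr_right fun hp => ?_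
    rw [pair_mem_rel]
    exact ⟨fun h => ⟨hG.sub hp, pair_mem_prod.2 ⟨hj, hi⟩, h⟩, fun h => h.2.2⟩
theorem od_dec (h : Mon P R) (j : V) : OD P (Dec P R B j) := by
  refine ⟨fun p hp => (mem_sep.1 hp).1, fun p hp => ?_, fun q hq r hr hqr => ?_⟩
  · by_cases hc : ∃ q ∈ P, p ⊆ q ∧ ∃ i ∈ B, pair q (pair j i) ∈ R
    · obtain ⟨q, hq, hpq, hi⟩ := hc
      exact ⟨q, mem_sep.2 ⟨hq, Or.inl hi⟩, hpq⟩
    · exact ⟨p, mem_sep.2 ⟨hp, Or.inr fun q hq hpq hi => hc ⟨q, hq, hpq, hi⟩⟩, fun _ hx => hx⟩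
  · obtain ⟨hqP, h1 | h1⟩ := mem_sep.1 hq
    · obtain ⟨i, hi, h2⟩ := h1
      exact mem_sep.2 ⟨hr, Or.inl ⟨i, hi, h q hqP r hr hqr _ h2⟩⟩
    · exact mem_sep.2 ⟨hr, Or.inr fun s hs hrs => h1 s hs fun _ hx => hrs (hqr hx)⟩
theorem dec_gen (hG : Gen N P (LEo P) G) (h : Mon P R) {j : V} (hp : p ∈ G)
    (hd : p ∈ Dec P R B j) (hq : ∃ i ∈ B, ∃ q ∈ G, pair q (pair j i) ∈ R) :
    ∃ i ∈ B, pair p (pair j i) ∈ R := by
  obtain ⟨-, h1 | h1⟩ := mem_sep.1 hd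
  · exact h1
  · obtain ⟨i, hi, q, hqG, h2⟩ := hq
    obtain ⟨r, hr, h3, h4⟩ := gen_dir hG hp hqG
    exact (h1 r (hG.sub hr) h3 ⟨i, hi, h q (hG.sub hqG) r (hG.sub hr) h4 _ h2⟩).elim
/-- the generic filter meets the dense sets through its low part -/
theorem Ctx.good_gen [IsZFC N] {κ α : Ordinal.{0}} {U S L J D j : V} (C : Ctx N κ U S L)
    (hG : Gen N (PP N κ S L) (LEo (PP N κ S L)) G) (hα : α ≤ κ) (hD : D ∈ N) (hj : j ∈ J)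
    (hJ : J ∈ N) (hd : OD (PP N κ S L) (app D j)) (hq : q ∈ G)
    (h : Good (PP N κ S L) α J D q) :
    ∃ r ∈ PP N κ S L, Low r α ∧ r ∪ hi q α ∈ G ∧ r ∪ hi q α ∈ app D j := by
  have hglue := fun r p => C.pp_glue (N := N) (r := r) (p := p) (α := α)
  have hlo := fun p => C.pp_lo (N := N) (p := p) (α := α)
  have hPN := C.PP_mem
  generalize PP N κ S L = P at *
  haveI : In N P := ⟨hPN⟩
  haveI : In N q := ⟨IsZ.trans _ hPN _ (hG.sub hq)⟩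
  haveI : In N D := ⟨hD⟩
  haveI : In N j := ⟨IsZ.trans _ hJ _ hj⟩
  haveI : In N α := ⟨IsZ.ord_mem_of_le N C.inac.2.1 hα⟩
  obtain ⟨t, ht, r, hr, h1, h2, h3⟩ := gen_dense hPN hG
    (fun t => ∃ r ∈ P, Low r α ∧ r ∪ hi q α ∈ app D j ∧ r ⊆ t) fun t ht => by
      obtain ⟨r, hr, h1, h2, h3⟩ := h j hj (lo t α) (hlo t ht hα) low_lo
      exact ⟨r ∪ t, hglue r t hr ht h1 h2, fun _ hx => mem_union.2 (Or.inr hx), r, hr, h1, h3,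
        fun _ hx => mem_union.2 (Or.inl hx)⟩
  obtain ⟨s, hs, h4, h5⟩ := gen_dir hG ht hq
  refine ⟨r, hr, h1, gen_sub hG hs (hd.1 h2) fun x hx => ?_, h2⟩
  rcases mem_union.1 hx with h6 | h6
  · exact h4 (h3 h6)
  · exact h5 (mem_hi.1 h6).1

end Pool.Agent.Lib.MP_c8ac39_lc.WF
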