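import Pool.Agent.Lib.MP_c8ac39_lc.WF.Fus
import Pool.Agent.Lib.MP_c8ac39_lc.WF.Nm

/-! # Functions of the extension are dominated by ground model functions -/

namespace Pool.Agent.Lib.MP_c8ac39_lc.WF

open Ordinal ZFSet Pool.Agent.Lib.MP_f9eb18_lc Pool.Agent.Lib.MP_f9eb18_lc.W
set_option linter.style.haveILetI false
set_option linter.unusedVariables false
set_option linter.unusedSectionVars false
set_option synthInstance.maxSize 100000

/-- the least positive closure point of `h` that is at least `β` -/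
noncomputable def dm_a (κ : Ordinal.{0}) (h : V) (β : Ordinal.{0}) : Ordinal.{0} :=
  olst κ fun α => β ≤ α ∧ 0 < α ∧ Mp h α
/-- the least value that `p` gives at `β` -/
noncomputable def dm_k (κ : Ordinal.{0}) (R p : V) (β : Ordinal.{0}) : Ordinal.{0} :=
  olst κ fun i => pair p (pair β.toZFSet i.toZFSet) ∈ R
/-- the same value, or `0` -/
noncomputable def dm_v (κ : Ordinal.{0}) (R p : V) (β : Ordinal.{0}) : Ordinal.{0} :=
  if dm_k κ R p β < κ then dm_k κ R p β else 0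
/-- the bound for the values at `β` -/
noncomputable def dm_h (κ : Ordinal.{0}) (P R q : V) (α β : Ordinal.{0}) : Ordinal.{0} :=
  osup (ZFSet.sep (fun r => Low r α) P) fun r => dm_v κ R (r ∪ hi q α) β

section inst
variable {F : Fr} {a b c : Set V → (ℕ → V) → V} {o p p' : Set V → (ℕ → V) → Ordinal.{0}}
instance dm_uf_a [UF F o] [UF F a] [UF F p] : UF F (fun M v => dm_a (o M v) (a M v) (p M v)) := by
  have := UF.lift (F := F) a; have := UF.lift (F := F) p; unfold dm_a; infer_instance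
instance dm_uf_k [UF F o] [UF F a] [UF F b] [UF F p] :
    UF F (fun M v => dm_k (o M v) (a M v) (b M v) (p M v)) := by
  have := UF.lift (F := F) a; have := UF.lift (F := F) b; have := UF.lift (F := F) p
  unfold dm_k; infer_instance
instance dm_uf_v [UF F o] [UF F a] [UF F b] [UF F p] :
    UF F (fun M v => dm_v (o M v) (a M v) (b M v) (p M v)) := by
  unfold dm_v; infer_instance
instance dm_uf_h [UF F o] [UF F a] [UF F b] [UF F c] [UF F p] [UF F p'] :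
    UF F (fun M v => dm_h (o M v) (a M v) (b M v) (c M v) (p M v) (p' M v)) := by
  have := UF.lift (F := F) o; have := UF.lift (F := F) b; have := UF.lift (F := F) c
  have := UF.lift (F := F) p; have := UF.lift (F := F) p'
  unfold dm_h; infer_instance
end inst

variable {N : Set V} [IsZFC N] {κ : Ordinal.{0}} {U S L G : V}

theorem dm_a_lt (h : GM N κ U) {f : V} (hf : f ∈ N) (hm : Mp f κ) {β : Ordinal.{0}}
    (hβ : β < κ) : dm_a κ f β < κ := by
  obtain ⟨A, hA, H⟩ := h.club hf hm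
  obtain ⟨a, ha, h1, -⟩ := h.unb hA hβ
  have h2 := (h.ord hA ha).2
  exact (olst_le_of h2 ⟨h1.le, lt_of_le_of_lt zero_le h1, H a ha⟩).trans_lt h2

theorem dm_h_lt (C : Ctx N κ U S L) {R q : V} (hR : R ∈ N) (hq : q ∈ N) {α β : Ordinal.{0}}
    (hα : α < κ) (hβ : β < κ) : dm_h κ (PP N κ S L) R q α β < κ := by
  have hl := C.inac.2.2.1
  haveI : In N κ := ⟨C.inac.2.1⟩
  haveI : In N α := ⟨IsZ.ord_mem_of_le N C.inac.2.1 hα.le⟩
  haveI : In N β := ⟨IsZ.ord_mem_of_le N C.inac.2.1 hβ.le⟩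
  haveI : In N R := ⟨hR⟩
  haveI : In N q := ⟨hq⟩
  have hI : ZFSet.sep (fun r => Low r α) (PP N κ S L) ∈ N := sep_mem N _ C.PP_mem
  have hr : (ZFSet.sep (fun r => Low r α) (PP N κ S L)).rank < κ := by
    refine lt_of_le_of_lt (ZFSet.rank_le_iff.2 fun r hr => ?_)
      (hl.succ_lt (C.mapL α hα))
    exact Order.lt_succ_iff.2 (C.low_rank (mem_sep.1 hr).1 (mem_sep.1 hr).2 hα)
  refine (bd_of_rank C.inac hI hr).osup_lt hI _ fun r _ => ?_
  unfold dm_v
  split_ifs with h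
  · exact h
  · exact hl.pos

theorem Ctx.dom_gext (C : Ctx N κ U S L) (hG : Gen N (PP N κ S L) (LEo (PP N κ S L)) G) {F : V}
    (hF : F ∈ gext N G) (hm : Mp F κ) :
    ∃ h ∈ N, Mp h κ ∧ ∀ β < κ, (oat F β : Ordinal.{0}) ≤ oat h β := by
  have hP := C.PP_mem
  have hκ : κ.toZFSet ∈ N := C.inac.2.1
  have hF' : sq κ (fun β => (oat F β : Ordinal.{0})) ∈ gext N G := by
    haveI := zfc_gext hP hG
    haveI : In (gext N G) κ := ⟨subset_gext hP hG hκ⟩
    haveI : In (gext N G) F := ⟨hF⟩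
    exact memV_of _ _
  obtain ⟨R, hR, hmon, hname⟩ := exists_name hP hG hF' hκ hκ
  obtain ⟨P, hPe⟩ : ∃ P, P = PP N κ S L := ⟨_, rfl⟩
  haveI : In N κ := ⟨hκ⟩
  haveI : In N R := ⟨hR⟩
  haveI : In N P := ⟨hPe ▸ hP⟩
  haveI : In N L := ⟨C.memL⟩
  obtain ⟨D, hDe⟩ : ∃ D, D = lam κ.toZFSet fun j => Dec P R κ.toZFSet j := ⟨_, rfl⟩
  have hD : D ∈ N := hDe ▸ memV_of N _
  haveI : In N D := ⟨hD⟩
  have happ : ∀ j ∈ κ.toZFSet, app D j = Dec (PP N κ S L) R κ.toZFSet j := fun j hj => by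
    rw [hDe, app_lam _ hj, hPe]
  have hd : ∀ j ∈ κ.toZFSet, OD (PP N κ S L) (app D j) := fun j hj => by
    rw [happ j hj]; exact od_dec hmon j
  obtain ⟨q, hqG, h0, hh0, hm0, hgood⟩ := gen_dense hP hG
    (fun q => ∃ h ∈ N, Mp h κ ∧ ∀ α < κ, 0 < α → Mp h α →
      Good P α (cut κ.toZFSet (oat L α + 1)) D q) fun p hp => by
      rw [hPe]; exact C.fusion hκ hD hd hp
  have hq : q ∈ N := IsZ.trans _ hP _ (hG.sub hqG)
  haveI : In N q := ⟨hq⟩
  haveI : In N h0 := ⟨hh0⟩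
  refine ⟨sq κ fun β => dm_h κ P R q (dm_a κ h0 β) β, memV_of N _, ?_, fun β hβ => ?_⟩
  · refine (mp_sq le_rfl).2 fun β hβ => ?_
    rw [hPe]
    exact dm_h_lt C hR hq (dm_a_lt C.gm hh0 hm0 hβ) hβ
  rw [oat_sq _ hβ]
  have hα := dm_a_lt C.gm hh0 hm0 hβ
  obtain ⟨a1, a2, a3⟩ : β ≤ dm_a κ h0 β ∧ 0 < dm_a κ h0 β ∧ Mp h0 (dm_a κ h0 β) := olst_spec hα
  generalize dm_a κ h0 β = α at hα a1 a2 a3 ⊢
  have hj : β.toZFSet ∈ κ.toZFSet := toZFSet_mem_toZFSet_iff.2 hβ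
  have hJ : cut κ.toZFSet (oat L α + 1) ∈ N := by
    haveI : In N α := ⟨IsZ.ord_mem_of_le N hκ hα.le⟩
    exact memV_of N _
  have hjJ : β.toZFSet ∈ cut κ.toZFSet (oat L α + 1) := by
    refine mem_cut.2 ⟨hj, ?_⟩
    rw [rank_toZFSet]
    exact (a1.trans_lt (C.ltL α hα).1).trans_le le_self_add
  obtain ⟨r, hr, hlow, hrG, hrD⟩ := C.good_gen hG hα.le hD hjJ hJ (hd _ hj) hqG
    (hPe ▸ hgood α hα a2 a3)
  rw [happ _ hj] at hrD
  have hpair : ∀ i : V, pair β.toZFSet i ∈ sq κ (fun β => (oat F β : Ordinal.{0})) ↔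
      i = (oat F β : Ordinal.{0}).toZFSet := fun i => by
    rw [W.sq, pair_mem_lam, rank_toZFSet]
    exact ⟨fun h => h.2, fun h => ⟨hj, h⟩⟩
  have hv : (oat F β : Ordinal.{0}).toZFSet ∈ κ.toZFSet := toZFSet_mem_toZFSet_iff.2 (hm β hβ)
  obtain ⟨i, hi1, hi2⟩ := dec_gen hG hmon hrG hrD
    ⟨_, hv, (hname _ hj _ hv).1 ((hpair _).2 rfl)⟩
  have hk : dm_k κ R (r ∪ hi q α) β < κ := by
    obtain ⟨e1, e2⟩ := mem_ord hi1
    exact (olst_le_of e2 (by rw [← e1]; exact hi2)).trans_lt e2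
  have hk2 : pair (r ∪ hi q α) (pair β.toZFSet (dm_k κ R (r ∪ hi q α) β).toZFSet) ∈ R :=
    olst_spec hk
  have hk3 := (hpair _).1 ((hname _ hj _ (toZFSet_mem_toZFSet_iff.2 hk)).2 ⟨_, hrG, hk2⟩)
  have hk4 : dm_v κ R (r ∪ hi q α) β = oat F β := by
    rw [dm_v, if_pos hk]
    simpa using congrArg ZFSet.rank hk3
  rw [← hk4]
  exact le_osup (fun r => dm_v κ R (r ∪ hi q α) β) (mem_sep.2 ⟨hPe ▸ hr, hlow⟩)
theorem Ctx.regK_gext (C : Ctx N κ U S L) (hG : Gen N (PP N κ S L) (LEo (PP N κ S L)) G) :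
    RegK (gext N G) κ := by
  have hP := C.PP_mem
  have hκ : κ.toZFSet ∈ N := C.inac.2.1
  have hl := C.inac.2.2.1
  refine ⟨C.inac.1, subset_gext hP hG hκ, hl, fun β hβ f hf hb => ?_⟩
  have hβN : β.toZFSet ∈ N := IsZ.ord_mem_of_le N hκ hβ.le
  have hF : sq κ (fun δ => if δ < β then (app f δ.toZFSet).rank else 0) ∈ gext N G := by
    haveI := zfc_gext hP hG
    haveI : In (gext N G) κ := ⟨subset_gext hP hG hκ⟩
    haveI : In (gext N G) β := ⟨subset_gext hP hG hβN⟩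
    haveI : In (gext N G) f := ⟨hf⟩
    exact memV_of _ _
  obtain ⟨h, hh, hm, hle⟩ := C.dom_gext hG hF ((mp_sq le_rfl).2 fun δ _ => by
    split_ifs with k
    · exact hb _ (toZFSet_mem_toZFSet_iff.2 k)
    · exact hl.pos)
  haveI : In N h := ⟨hh⟩
  have hs : osup β.toZFSet (fun x => (oat h x.rank : Ordinal.{0})) < κ :=
    (bd_of_rank C.inac hβN ((rank_toZFSet β).trans_lt hβ)).osup_lt hβN _ fun x hx =>
      hm _ ((mem_ord hx).2.trans hβ)
  refine ⟨_, hl.succ_lt hs, fun x hx => Order.lt_succ_iff.2 ?_⟩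
  obtain ⟨e1, e2⟩ := mem_ord hx
  have h1 := hle x.rank (e2.trans hβ)
  rw [oat_sq _ (e2.trans hβ), if_pos e2, ← e1] at h1
  exact h1.trans (le_osup (fun x => (oat h x.rank : Ordinal.{0})) hx)

end Pool.Agent.Lib.MP_c8ac39_lc.WF
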