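import Pool.Agent.Lib.MP_c8ac39_lc.WF.Pr

/-! # Uniform systems of small functions -/

namespace Pool.Agent.Lib.MP_c8ac39_lc.WF

open Ordinal ZFSet Pool.Agent.Lib.MP_f9eb18_lc Pool.Agent.Lib.MP_f9eb18_lc.W
set_option linter.style.haveILetI false
set_option linter.unusedVariables false
set_option linter.unusedSectionVars false
set_option synthInstance.maxSize 100000

variable {N : Set V} [IsZFC N]

noncomputable def ds_v (r en z : V) : V :=
  img (fun x => pair (app (app en z) x) (app (app r z) x)) (dom (app r z))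
noncomputable def ds_E (r en z w : V) : V :=
  img (fun x => pair (app (app en z) x) (app (app en w) x)) (dom (app r z) ∩ dom (app r w))
instance ds_uf_v {F : Fr} {a b c : Set V → (ℕ → V) → V} [UF F a] [UF F b] [UF F c] :
    UF F (fun M v => ds_v (a M v) (b M v) (c M v)) := by
  have := UF.lift (F := F) a; have := UF.lift (F := F) b; have := UF.lift (F := F) c
  unfold ds_v; infer_instance
instance ds_uf_E {F : Fr} {a b c e : Set V → (ℕ → V) → V} [UF F a] [UF F b] [UF F c] [UF F e] :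
    UF F (fun M v => ds_E (a M v) (b M v) (c M v) (e M v)) := by
  have := UF.lift (F := F) b; have := UF.lift (F := F) c; have := UF.lift (F := F) e
  unfold ds_E; infer_instance

theorem ds_mem_iff {o : Ordinal.{0}} {a b : V} (ha : a ∈ o.toZFSet) (hb : b ∈ o.toZFSet) :
    a ∈ b ↔ a.rank < b.rank := by
  refine ⟨rank_lt_of_mem, fun h => ?_⟩
  rw [(mem_ord ha).1, (mem_ord hb).1]
  exact toZFSet_mem_toZFSet_iff.2 h

theorem ds_coord {o : Ordinal.{0}} {H x y w : V} (hs : H ⊆ o.toZFSet)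
    (hu : ∀ b ∈ o.toZFSet, ∃ a ∈ H, b ∈ a) (hx : x ∈ H) (hy : y ∈ H) (hw : w ∈ H)
    (hx' : ∃ b ∈ H, b ∈ x) (hw' : ∃ b ∈ H, b ∈ w) (e : x = y → w = x) :
    ∃ c ∈ H, ((x ∈ y ↔ x ∈ c) ∧ (y ∈ x ↔ c ∈ x)) ∧ (x ∈ y ↔ w ∈ c) ∧ (y ∈ x ↔ c ∈ w) := by
  have k : ∀ {a b : V}, a ∈ H → b ∈ H → (a ∈ b ↔ a.rank < b.rank) := fun ha hb =>
    ds_mem_iff (hs ha) (hs hb)
  rcases lt_trichotomy x.rank y.rank with h | h | h
  · obtain ⟨c1, a1, b1⟩ := hu x (hs hx)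
    obtain ⟨c2, a2, b2⟩ := hu w (hs hw)
    have b1' := rank_lt_of_mem b1
    have b2' := rank_lt_of_mem b2
    rcases le_total c1.rank c2.rank with l | l
    · refine ⟨c2, a2, ?_⟩
      rw [k hx hy, k hy hx, k hx a2, k a2 hx, k hw a2, k a2 hw]
      have := b1'.trans_le l
      exact ⟨⟨iff_of_true h this, iff_of_false h.asymm this.asymm⟩, iff_of_true h b2',
        iff_of_false h.asymm b2'.asymm⟩
    · refine ⟨c1, a1, ?_⟩
      rw [k hx hy, k hy hx, k hx a1, k a1 hx, k hw a1, k a1 hw]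
      have := b2'.trans_le l
      exact ⟨⟨iff_of_true h b1', iff_of_false h.asymm b1'.asymm⟩, iff_of_true h this,
        iff_of_false h.asymm this.asymm⟩
  · obtain rfl : x = y := by rw [(mem_ord (hs hx)).1, (mem_ord (hs hy)).1, h]
    obtain rfl := e rfl
    exact ⟨w, hw, ⟨Iff.rfl, Iff.rfl⟩, Iff.rfl, Iff.rfl⟩
  · obtain ⟨c1, a1, b1⟩ := hx'
    obtain ⟨c2, a2, b2⟩ := hw'
    have b1' := rank_lt_of_mem b1
    have b2' := rank_lt_of_mem b2
    rcases le_total c1.rank c2.rank with l | l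
    · refine ⟨c1, a1, ?_⟩
      rw [k hx hy, k hy hx, k hx a1, k a1 hx, k hw a1, k a1 hw]
      have := l.trans_lt b2'
      exact ⟨⟨iff_of_false h.asymm b1'.asymm, iff_of_true h b1'⟩,
        iff_of_false h.asymm this.asymm, iff_of_true h this⟩
    · refine ⟨c2, a2, ?_⟩
      rw [k hx hy, k hy hx, k hx a2, k a2 hx, k hw a2, k a2 hw]
      have := l.trans_lt b1'
      exact ⟨⟨iff_of_false h.asymm this.asymm, iff_of_true h this⟩,
        iff_of_false h.asymm b2'.asymm, iff_of_true h b2'⟩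

theorem ds_rank {ζ : Ordinal.{0}} (hζ : Order.IsSuccLimit ζ) {a : V} {f g : V → V}
    (h : ∀ x ∈ a, f x ∈ ζ.toZFSet ∧ g x ∈ ζ.toZFSet) :
    (img (fun x => pair (f x) (g x)) a).rank < ζ + ω := by
  refine lt_of_le_of_lt (rank_le_iff.2 fun p hp => ?_) (lt_add_of_pos_right ζ omega0_pos)
  obtain ⟨x, hx, rfl⟩ := mem_img.1 hp
  exact (rank_pair_lt hζ).2 ⟨(mem_ord (h x hx).1).2, (mem_ord (h x hx).2).2⟩

theorem ds_key {r en e e' g c x ζ : V} (h1 : IsInj (app en e) (dom (app r e)) ζ)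
    (h2 : IsInj (app en c) (dom (app r c)) ζ) (e1 : ds_E r en e e' = ds_E r en e c)
    (e2 : ds_E r en e e' = ds_E r en g c) (hx : x ∈ dom (app r e)) (hx' : x ∈ dom (app r e')) :
    x ∈ dom (app r g) ∧ app (app en g) x = app (app en e) x := by
  have k : pair (app (app en e) x) (app (app en e') x) ∈ ds_E r en e e' :=
    mem_img.2 ⟨x, mem_inter.2 ⟨hx, hx'⟩, rfl⟩
  obtain ⟨y, hy, ey⟩ := mem_img.1 (e1 ▸ k : _ ∈ ds_E r en e c)
  obtain ⟨z, hz, ez⟩ := mem_img.1 (e2 ▸ k : _ ∈ ds_E r en g c)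
  obtain ⟨y1, y2⟩ := pair_injective ey
  obtain ⟨z1, z2⟩ := pair_injective ez
  obtain rfl : y = x := (isInj_iff.1 h1).2 y (mem_inter.1 hy).1 x hx y1
  obtain rfl : z = y := (isInj_iff.1 h2).2 z (mem_inter.1 hz).2 y (mem_inter.1 hy).2
    (z2.trans y2.symm)
  exact ⟨(mem_inter.1 hz).1, z1⟩

theorem ds_fn {a b : V} (ha : IsFn a) (hb : IsFn b)
    (h : ∀ x ∈ dom a, x ∈ dom b → app a x = app b x) : IsFn (a ∪ b) := by
  refine ⟨fun p hp => (mem_union.1 hp).elim (ha.1 p) (hb.1 p), fun x y y' k k' => ?_⟩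
  rcases mem_union.1 k with k | k <;> rcases mem_union.1 k' with k' | k'
  · exact ha.2 x y y' k k'
  · rw [← ha.app_eq k, ← hb.app_eq k']
    exact h x (mem_dom.2 ⟨_, k⟩) (mem_dom.2 ⟨_, k'⟩)
  · rw [← hb.app_eq k, ← ha.app_eq k']
    exact (h x (mem_dom.2 ⟨_, k'⟩) (mem_dom.2 ⟨_, k⟩)).symm
  · exact hb.2 x y y' k k'

theorem ds {n : ℕ} {ζ : Ordinal.{0}} {Λ W r c : V} (hζ : Inac N ζ) (h : Blk N n (ζ + ω) Λ W)
    (hr : r ∈ N) (hc : c ∈ N)
    (h1 : ∀ z ∈ Tup N (natZ n) Λ, IsFn (app r z) ∧ Bd N ζ (app r z) ∧ ran (app r z) ⊆ ζ.toZFSet ∧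
      (app c z).rank < ζ + ω) :
    ∃ K ∈ N, Wide (natZ n) Λ K ∧ ∀ e ∈ Tup N (natZ n) K, ∀ e' ∈ Tup N (natZ n) K,
      app c e = app c e' ∧ IsFn (app r e ∪ app r e') ∧ ((∀ i ∈ natZ n, app e i ≠ app e' i) →
        ∀ x ∈ dom (app r e), x ∈ dom (app r e') →
          ∀ e'' ∈ Tup N (natZ n) K, x ∈ dom (app r e'')) := by
  classical
  haveI : In N Λ := ⟨h.1⟩
  haveI : In N r := ⟨hr⟩
  haveI : In N c := ⟨hc⟩
  haveI : In N ζ := ⟨hζ.2.1⟩
  have hl := hζ.2.2.1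
  obtain ⟨T, hT⟩ : ∃ T, T = Tup N (natZ n) Λ := ⟨_, rfl⟩
  have hTN : T ∈ N := hT ▸ memV_of N _
  haveI : In N T := ⟨hTN⟩
  obtain ⟨en, hen, -, -, hi⟩ := choice_fn N (fun z f => IsInj f (dom (app r z)) ζ.toZFSet) hTN
    fun z hz => by
      haveI : In N z := ⟨IsZ.trans _ hTN _ hz⟩
      have k1 : Bd N ζ (img fst (app r z)) := (h1 z (hT ▸ hz)).2.1.img (memV_of N _) fst
      have k2 : Bd N ζ (dom (app r z)) := k1.sub hl.pos (memV_of N _) fun x hx => by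
        obtain ⟨y, hy⟩ := mem_dom.1 hx
        exact mem_img.2 ⟨_, hy, by simp⟩
      obtain ⟨α, hα, k3⟩ := k2.small hl.pos hζ.2.1 (memV_of N _)
      exact InjIn.trans k3 (InjIn.of_subset (IsZ.ord_mem_of_le N hζ.2.1 hα.le)
        (toZFSet_monotone hα.le))
  haveI : In N en := ⟨hen⟩
  have hval : ∀ z ∈ T, ∀ x ∈ dom (app r z), app (app en z) x ∈ ζ.toZFSet := fun z hz x hx =>
    (isFunc_iff.1 (hi z hz).1).2.2 x hx
  have hl' : Order.IsSuccLimit (ζ + ω) := isSuccLimit_add ζ isSuccLimit_omega0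
  obtain ⟨H, hH, hW, hP⟩ := pr n h (memV_of N (lam (prod T T) fun p =>
      pair (app c (fst p)) (pair (ds_v r en (fst p)) (ds_E r en (fst p) (snd p)))))
    fun z hz w hw => by
      rw [← hT] at hz hw
      rw [app_lam _ (pair_mem_prod.2 ⟨hz, hw⟩), fst_pair, snd_pair]
      have k := h1 z (hT ▸ hz)
      refine (rank_pair_lt hl').2 ⟨k.2.2.2, (rank_pair_lt hl').2 ⟨ds_rank hl fun x hx =>
        ⟨hval z hz x hx, k.2.2.1 (mem_ran.2 ⟨x, k.1.pair_app_mem hx⟩)⟩, ds_rank hl fun x hx =>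
        ⟨hval z hz x (mem_inter.1 hx).1, hval w hw x (mem_inter.1 hx).2⟩⟩⟩
  haveI : In N H := ⟨hH⟩
  have hHi : ∀ i ∈ natZ n, app Λ i = (app Λ i).rank.toZFSet ∧ app H i ⊆ app Λ i ∧
      ∀ b ∈ app Λ i, ∃ a ∈ app H i, b ∈ a := fun i hi => by
    obtain ⟨k, hk, rfl⟩ := mem_natZ.1 hi
    obtain ⟨b1, -, b3, -⟩ := h.2.2 k hk
    have e : app Λ (natZ k) = (app Λ (natZ k)).rank.toZFSet := b1.toZFSet_rank_eq.symm
    have s : app H (natZ k) ⊆ (app Λ (natZ k)).rank.toZFSet := (b3.2.2.1 _ (hW k hk)).1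
    refine ⟨e, e ▸ s, fun b hb => ?_⟩
    obtain ⟨a, ha, a1, -⟩ := b3.unb (hW k hk) (rank_lt_of_mem hb)
    exact ⟨a, ha, (ds_mem_iff (e ▸ hb) (s ha)).2 a1⟩
  obtain ⟨K, hK⟩ : ∃ K, K = lam (natZ n) fun i =>
    ZFSet.sep (fun a => ∃ b ∈ app H i, b ∈ a) (app H i) := ⟨_, rfl⟩
  have hKi : ∀ i ∈ natZ n, ∀ a, a ∈ app K i ↔ a ∈ app H i ∧ ∃ b ∈ app H i, b ∈ a :=
    fun i hi a => by rw [hK, app_lam _ hi, mem_sep]
  have hKH : Tup N (natZ n) K ⊆ Tup N (natZ n) H :=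
    Tup_mono fun i hi a ha => ((hKi i hi a).1 ha).1
  have hHT : Tup N (natZ n) H ⊆ T := hT ▸ Tup_mono fun i hi => (hHi i hi).2.1
  have hF : ∀ z ∈ Tup N (natZ n) H, ∀ w ∈ Tup N (natZ n) H, ∀ z' ∈ Tup N (natZ n) H,
      ∀ w' ∈ Tup N (natZ n) H, Pat (natZ n) z w z' w' → app c z = app c z' ∧
        ds_v r en z = ds_v r en z' ∧ ds_E r en z w = ds_E r en z' w' :=
    fun z hz w hw z' hz' w' hw' hp => by
      have k := hP z hz w hw z' hz' w' hw' hp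
      rw [app_lam _ (pair_mem_prod.2 ⟨hHT hz, hHT hw⟩),
        app_lam _ (pair_mem_prod.2 ⟨hHT hz', hHT hw'⟩)] at k
      simp only [fst_pair, snd_pair] at k
      exact ⟨(pair_injective k).1, pair_injective (pair_injective k).2⟩
  have key : ∀ e ∈ Tup N (natZ n) K, ∀ e' ∈ Tup N (natZ n) K, ∀ g ∈ Tup N (natZ n) K,
      (∀ i ∈ natZ n, app e i = app e' i → app g i = app e i) → ∀ x ∈ dom (app r e),
        x ∈ dom (app r e') → x ∈ dom (app r g) ∧ app (app en g) x = app (app en e) x := by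
    intro e he e' he' g hg hh x hx hx'
    have ex : ∀ i, ∃ a, i ∈ natZ n → a ∈ app H i ∧
        ((app e i ∈ app e' i ↔ app e i ∈ a) ∧ (app e' i ∈ app e i ↔ a ∈ app e i)) ∧
        (app e i ∈ app e' i ↔ app g i ∈ a) ∧ (app e' i ∈ app e i ↔ a ∈ app g i) := fun i => by
      by_cases hi : i ∈ natZ n
      · obtain ⟨a1, a2, a3⟩ := hHi i hi
        have b1 := (hKi i hi _).1 ((mem_Tup.1 he).2.2.2 i hi)
        have b2 := (hKi i hi _).1 ((mem_Tup.1 he').2.2.2 i hi)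
        have b3 := (hKi i hi _).1 ((mem_Tup.1 hg).2.2.2 i hi)
        obtain ⟨a, ha⟩ := ds_coord (a1 ▸ a2) (a1 ▸ a3) b1.1 b2.1 b3.1 b1.2 b3.2 (hh i hi)
        exact ⟨a, fun _ => ha⟩
      · exact ⟨∅, fun k => absurd k hi⟩
    choose f hf using ex
    have hm : lam (natZ n) f ∈ Tup N (natZ n) H := lam_mem_Tup hH fun i hi => (hf i hi).1
    refine ds_key (hi e (hHT (hKH he))) (hi _ (hHT hm))
      (hF e (hKH he) e' (hKH he') e (hKH he) _ hm fun i hi => ?_).2.2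
      (hF e (hKH he) e' (hKH he') g (hKH hg) _ hm fun i hi => ?_).2.2 hx hx'
    · rw [app_lam _ hi]; exact (hf i hi).2.1
    · rw [app_lam _ hi]; exact (hf i hi).2.2
  refine ⟨K, hK ▸ memV_of N _, fun i hi => ⟨fun a ha => (hHi i hi).2.1 ((hKi i hi a).1 ha).1,
    fun b hb => ?_⟩, fun e he e' he' => ?_⟩
  · obtain ⟨a1, a2, a3⟩ := hHi i hi
    obtain ⟨a, ha, k⟩ := a3 b hb
    obtain ⟨a', ha', k'⟩ := a3 a (a2 ha)
    refine ⟨a', (hKi i hi a').2 ⟨ha', a, ha, k'⟩, ?_⟩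
    exact (ds_mem_iff (a1 ▸ hb) (a1 ▸ a2 ha')).2 ((rank_lt_of_mem k).trans (rank_lt_of_mem k'))
  · have k := hF e (hKH he) e (hKH he) e' (hKH he') e' (hKH he') fun i _ =>
      ⟨iff_of_false (mem_irrefl _) (mem_irrefl _), iff_of_false (mem_irrefl _) (mem_irrefl _)⟩
    refine ⟨k.1, ds_fn (h1 e (hT ▸ hHT (hKH he))).1 (h1 e' (hT ▸ hHT (hKH he'))).1
      fun x hx hx' => ?_, fun hd x hx hx' g hg =>
        (key e he e' he' g hg (fun i hi k => absurd k (hd i hi)) x hx hx').1⟩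
    have k1 := (key e he e' he' e' he' (fun i _ k => k.symm) x hx hx').2
    have k2 : pair (app (app en e) x) (app (app r e) x) ∈ ds_v r en e' :=
      k.2.1 ▸ mem_img.2 ⟨x, hx, rfl⟩
    obtain ⟨w, hw, ew⟩ := mem_img.1 k2
    obtain ⟨w1, w2⟩ := pair_injective ew
    obtain rfl : w = x := (isInj_iff.1 (hi e' (hHT (hKH he')))).2 w hw x hx' (w1.trans k1.symm)
    exact w2.symm

end Pool.Agent.Lib.MP_c8ac39_lc.WF
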