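import Pool.Agent.Lib.MP_c8ac39_lc.WF.Gm

/-! # From a strong cardinal to the ground model hypothesis -/

namespace Pool.Agent.Lib.MP_c8ac39_lc.WF

open Ordinal ZFSet Pool.Agent.Lib.MP_f9eb18_lc Pool.Agent.Lib.MP_f9eb18_lc.W
set_option linter.style.haveILetI false
set_option linter.unusedVariables false
set_option linter.unusedSectionVars false
set_option synthInstance.maxSize 100000

/-- the embedding of a `(κ + 2)`-strong cardinal -/
structure Emb (M : Set V) (κ : Ordinal.{0}) (H M' j : V) : Prop where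
  zH : IsZ (H : Set V)
  zM : IsZ (M' : Set V)
  memH : H ∈ M
  memM : M' ∈ M
  memj : j ∈ M
  elem : Elem (app j) (H : Set V) (M' : Set V)
  big : ∀ x ∈ M, x.rank < κ + 2 → x ∈ H ∧ x ∈ M'
  memk : κ.toZFSet ∈ H
  fix : ∀ β < κ, jm (app j) β = β
  mov : κ < jm (app j) κ

variable {M : Set V} {κ : Ordinal.{0}} {H M' j : V}

theorem emb_of_strong [IsZFC M] {d : ℕ} (hd : 2 ≤ d) (h : Strong M κ (κ + d)) :
    ∃ H M' j, Emb M κ H M' j := by
  obtain ⟨H, hH, M', hM, j, hj, zH, tM, el, big, fx, k, hk, pk⟩ := h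
  have fn := (isFunc_iff.1 el.1).1
  refine ⟨H, M', j, zH, el.elem.isZ_right fun x hx y hy => tM x hx hy, hH, hM, hj, el.elem,
    fun x hx hr => big x hx (hr.trans_le (add_le_add_right (by exact_mod_cast hd) κ)),
    (pair_mem_prod.1 (el.1.1 pk)).1, fun β hβ => jm_of_fix (fn.app_eq (fx β hβ)), ?_⟩
  change κ < (app j κ.toZFSet).rank
  rwa [fn.app_eq pk, rank_toZFSet]
theorem Emb.fixV [IsZFC M] (h : Emb M κ H M' j) {x : V} (hx : x ∈ M) (hr : x.rank < κ) :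
    app j x = x := by
  haveI := h.zH
  haveI := h.zM
  have k2 : κ ≤ κ + 2 := le_self_add
  generalize e : x.rank = o at hr
  induction o using WellFoundedLT.induction generalizing x with
  | ind o ih =>
    subst e
    have xH := (h.big x hx (hr.trans_le k2)).1
    have key : ∀ y ∈ M, y.rank < x.rank → (y ∈ app j x ↔ y ∈ x) := fun y hy hl => by
      have a := h.elem.mem_iff (h.big y hy ((hl.trans hr).trans_le k2)).1 xH
      rwa [ih _ hl hy rfl (hl.trans hr)] at a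
    ext y
    refine ⟨fun hy => (key y ?_ ?_).1 hy, fun hy =>
      (key y (IsZ.trans x hx y hy) (rank_lt_of_mem hy)).2 hy⟩
    · exact IsZ.trans _ h.memM y (h.zM.trans _ (h.elem.1 x xH) y hy)
    · have := rank_lt_of_mem hy
      rwa [h.elem.rank_map xH, h.fix _ hr] at this
theorem Emb.inac [IsZFC M] (h : Emb M κ H M' j) : Inac M κ := by
  haveI := h.zH
  haveI := h.zM
  have k2 : κ < κ + 2 := lt_add_of_pos_right κ two_pos
  have kM : κ.toZFSet ∈ M := IsZ.trans _ h.memH _ h.memk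
  have w : ω < κ := by
    by_contra c
    refine h.mov.ne' (jm_of_fix ?_)
    rcases (not_lt.1 c).eq_or_lt with rfl | c
    · exact h.elem.map_omega
    · exact h.elem.fix_HF (mem_HF.2 (by rwa [enc_ord, rank_toZFSet]))
  have lim : Order.IsSuccLimit κ := by
    refine ⟨(omega0_pos.trans w).not_isMin, Order.isSuccPrelimit_of_succ_ne fun β e => ?_⟩
    have l : β < κ := e ▸ Order.lt_succ β
    have a := h.elem.map1 pZ (fun _ (a : Ordinal.{0}) => a + 1)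
      (a := β) (IsZ.ord_mem_of_le (H : Set V) h.memk l.le)
    rw [h.fix β l, ← Order.succ_eq_add_one, e] at a
    exact h.mov.ne' a
  refine ⟨w, kM, lim, fun a ha hr f hf hb => ?_⟩
  haveI : In M a := ⟨ha⟩
  haveI : In M f := ⟨hf⟩
  obtain ⟨g, hg⟩ : ∃ g, g = lam a fun x => app f x := ⟨_, rfl⟩
  have gM : g ∈ M := hg ▸ memV_of M _
  have ga : ∀ x ∈ a, app g x = app f x := fun x hx => by rw [hg, app_lam _ hx]
  have gH : g ∈ H := (h.big g gM (lt_of_le_of_lt (rank_le_iff.2 fun p hp => by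
    rw [hg] at hp
    obtain ⟨x, hx, rfl⟩ := mem_lam.1 hp
    exact (rank_pair_lt lim).2 ⟨(rank_lt_of_mem hx).trans hr, hb x hx⟩) k2)).1
  have aH : a ∈ H := (h.big a ha (hr.trans k2)).1
  obtain ⟨γ, h1, h2⟩ := (h.elem.iff3 pZ
    (fun _ (a g : V) (k : Ordinal.{0}) => ∃ γ < k, ∀ x ∈ a, (app g x).rank < γ)
    (a := a) (b := g) (c := κ) aH gH h.memk).2 ⟨κ, h.mov, fun x hx => by
      rw [jm_V, h.fixV ha hr] at hx
      have xM := IsZ.trans a ha x hx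
      haveI : In M x := ⟨xM⟩
      have e := h.elem.map_app gH (h.zH.trans a aH x hx)
      rw [h.fixV xM ((rank_lt_of_mem hx).trans hr), ga x hx,
        h.fixV (memV_of M (app f x)) (hb x hx)] at e
      rw [jm_V, ← e]
      exact hb x hx⟩
  exact ⟨γ, h1, fun x hx => ga x hx ▸ h2 x hx⟩
theorem emb_rank_cut (x : V) (o : Ordinal.{0}) : (cut x o).rank ≤ o :=
  rank_le_iff.2 fun _ hz => (mem_cut.1 hz).2
theorem Emb.gm [IsZFC M] (h : Emb M κ H M' j) : ∃ U ∈ M, GM M κ U := by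
  haveI := h.zH
  haveI := h.zM
  have hi := h.inac
  have hl := hi.2.2.1
  have hHM : ∀ x ∈ H, x ∈ M := fun x hx => IsZ.trans _ h.memH _ hx
  have hMM : ∀ x ∈ M', x ∈ M := fun x hx => IsZ.trans _ h.memM _ hx
  have hb : ∀ x ∈ M, x.rank ≤ κ → x ∈ H ∧ x ∈ M' := fun x hx hr =>
    h.big x hx (hr.trans_lt (lt_add_of_pos_right κ two_pos))
  have hkM : κ.toZFSet ∈ M' := (hb _ hi.2.1 (by rw [rank_toZFSet])).2
  have hkj : κ.toZFSet ∈ app j κ.toZFSet := by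
    rw [h.elem.map_ord h.memk]
    exact toZFSet_mem_toZFSet_iff.2 h.mov
  haveI : In M κ := ⟨hi.2.1⟩
  haveI : In M j := ⟨h.memj⟩
  haveI : In (H : Set V) κ := ⟨h.memk⟩
  haveI : In (M' : Set V) κ := ⟨hkM⟩
  obtain ⟨U, hUM, hU⟩ : ∃ U ∈ M, ∀ A : V, A ∈ U ↔ (A ∈ M ∧ A ⊆ κ.toZFSet) ∧ κ.toZFSet ∈ app j A :=
    ⟨ZFSet.sep (fun A => κ.toZFSet ∈ app j A) (pw M κ.toZFSet), memV_of M _,
      fun A => by rw [mem_sep, mem_pw]⟩
  have hUH : ∀ A ∈ U, A ∈ H := fun A hA => (hb A ((hU A).1 hA).1.1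
    ((rank_mono ((hU A).1 hA).1.2).trans_eq (rank_toZFSet κ))).1
  refine ⟨U, hUM, hi, hUM, fun A hA => ⟨((hU A).1 hA).1.2, ?_⟩, fun A hA B hB => ?_,
    fun β hβ => ?_, fun x hx => ?_⟩
  · rcases eq_empty_or_nonempty A with rfl | hne
    · have h1 := ((hU _).1 hA).2
      rw [h.elem.map_empty] at h1
      exact (notMem_empty _ h1).elim
    · exact hne
  · have h1 : app j (A ∩ B) = app j A ∩ app j B :=
      h.elem.map2 pZ (fun _ (a b : V) => a ∩ b) (hUH A hA) (hUH B hB)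
    haveI : In M A := ⟨((hU A).1 hA).1.1⟩
    haveI : In M B := ⟨((hU B).1 hB).1.1⟩
    refine (hU _).2 ⟨⟨memV_of M _, fun z hz => ((hU A).1 hA).1.2 (mem_inter.1 hz).1⟩, ?_⟩
    rw [h1]
    exact mem_inter.2 ⟨((hU A).1 hA).2, ((hU B).1 hB).2⟩
  · have hβH : β.toZFSet ∈ H := IsZ.ord_mem_of_le (H : Set V) h.memk hβ.le
    haveI : In (H : Set V) β := ⟨hβH⟩
    have h1 : app j (ZFSet.sep (fun a => β < a.rank ∧ Inac (H : Set V) a.rank) κ.toZFSet) =
        ZFSet.sep (fun a => jm (app j) β < a.rank ∧ Inac (M' : Set V) a.rank) (app j κ.toZFSet) :=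
      h.elem.map2 pZ (fun N (b : Ordinal.{0}) (k : V) =>
        ZFSet.sep (fun a => b < a.rank ∧ Inac N a.rank) k) hβH h.memk
    refine ⟨ZFSet.sep (fun a => β < a.rank ∧ Inac (H : Set V) a.rank) κ.toZFSet,
      (hU _).2 ⟨⟨hHM _ (sep_mem (H : Set V) _ h.memk), sep_subset⟩, ?_⟩, fun a ha => ?_⟩
    · rw [h1, mem_sep, h.fix β hβ, rank_toZFSet]
      exact ⟨hkj, hβ, hi.of_Vs (fun x hx _ => hMM x hx) hkM⟩
    · obtain ⟨h2, h3, h4⟩ := mem_sep.1 ha
      exact ⟨h3, h4.of_Vs (fun x hx hr => (hb x hx (hr.trans (mem_ord h2).2.le)).1)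
        (hHM _ h4.2.1)⟩
  · haveI : In M x := ⟨hx⟩
    obtain ⟨x', hx', hxa⟩ : ∃ x' ∈ H, ∀ a ∈ κ.toZFSet, app x' a = cut (app x a) a.rank := by
      refine ⟨lam κ.toZFSet fun a => cut (app x a) a.rank, (hb _ (memV_of M _) ?_).1,
        fun a ha => app_lam _ ha⟩
      refine rank_le_iff.2 fun p hp => ?_
      obtain ⟨a, ha, rfl⟩ := mem_lam.1 hp
      exact (rank_pair_lt hl).2 ⟨(mem_ord ha).2, (emb_rank_cut _ _).trans_lt (mem_ord ha).2⟩
    haveI : In (M' : Set V) (app j x') := ⟨h.elem.1 _ hx'⟩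
    obtain ⟨y, hy⟩ : ∃ y, y = cut (app (app j x') κ.toZFSet) κ := ⟨_, rfl⟩
    have hyM : y ∈ M := hMM _ (hy ▸ memV_of (M' : Set V) _)
    have hyH : y ∈ H := (hb y hyM (hy ▸ emb_rank_cut _ _)).1
    have hjy : cut (app j y) κ = y := by
      ext z
      rw [mem_cut]
      refine ⟨fun ⟨h1, h2⟩ => ?_, fun hz => ?_⟩
      · have h3 : z ∈ M := hMM z (IsZ.trans (M := (M' : Set V)) _ (h.elem.1 _ hyH) _ h1)
        rw [← h.fixV h3 h2] at h1
        exact (h.elem.mem_iff (hb z h3 h2.le).1 hyH).1 h1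
      · have h2 : z.rank < κ := (mem_cut.1 (hy ▸ hz)).2
        have h3 : z ∈ M := IsZ.trans _ hyM _ hz
        have h4 := (h.elem.mem_iff (hb z h3 h2.le).1 hyH).2 hz
        rw [h.fixV h3 h2] at h4
        exact ⟨h4, h2⟩
    haveI : In (H : Set V) x' := ⟨hx'⟩
    haveI : In (H : Set V) y := ⟨hyH⟩
    have h1 : app j (ZFSet.sep (fun a => cut (app x' a) a.rank = cut y a.rank) κ.toZFSet) =
        ZFSet.sep (fun a => cut (app (app j x') a) a.rank = cut (app j y) a.rank)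
          (app j κ.toZFSet) :=
      h.elem.map3 pZ (fun _ (s t k : V) =>
        ZFSet.sep (fun a => cut (app s a) a.rank = cut t a.rank) k) hx' hyH h.memk
    refine ⟨y, hyM, ZFSet.sep (fun a => cut (app x' a) a.rank = cut y a.rank) κ.toZFSet,
      (hU _).2 ⟨⟨hHM _ (sep_mem (H : Set V) _ h.memk), sep_subset⟩, ?_⟩, fun a ha => ?_⟩
    · rw [h1, mem_sep, rank_toZFSet, hjy]
      exact ⟨hkj, hy.symm⟩
    · obtain ⟨h2, h3⟩ := mem_sep.1 ha
      rw [← h3, hxa a h2]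
      ext z
      simp only [mem_cut, and_self_right]
theorem emb_phi {N N' : Set V} [IsZ N] [IsZ N'] {o l : Ordinal.{0}}
    (hs : ∀ x : V, x.rank < o → (x ∈ N ↔ x ∈ N')) (hl : l + 1 < o)
    (h : ∃ W ∈ N, GM N l W) : ∃ W ∈ N', GM N' l W := by
  obtain ⟨W, hW, hg⟩ := h
  have h1 : W ∈ N' := (hs W (hg.rank_le.trans_lt hl)).1 hW
  exact ⟨W, h1, hg.transfer (fun x hx => hs x (hx.trans_lt ((lt_add_one l).trans hl))) h1⟩
theorem emb_lim {N N' : Set V} [IsZ N] [IsZ N'] {o l : Ordinal.{0}}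
    (hs : ∀ x : V, x.rank < o → (x ∈ N ↔ x ∈ N')) (hl : l < o) (h : LimM N l) : LimM N' l := by
  intro β hβ
  obtain ⟨m, h1, h2, h3⟩ := h β hβ
  exact ⟨m, h1, h2, emb_phi hs ((Order.add_one_le_of_lt h1).trans_lt hl) h3⟩
theorem Emb.t0 [IsZFC M] (h : Emb M κ H M' j) : ∃ μ < κ, T0 (Vs M κ : Set V) μ := by
  haveI := h.zH
  haveI := h.zM
  have hi := h.inac
  haveI := hi.isZFC_Vs
  have k1 : κ + 1 < κ + 2 := by
    rw [← one_add_one_eq_two, ← add_assoc]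
    exact lt_add_one _
  have k0 : κ < κ + 2 := (lt_add_one κ).trans k1
  have aH : ∀ x : V, x.rank < κ + 2 → (x ∈ M ↔ x ∈ (H : Set V)) := fun x hx =>
    ⟨fun h1 => (h.big x h1 hx).1, fun h1 => IsZ.trans H h.memH x h1⟩
  have aM : ∀ x : V, x.rank < κ + 2 → (x ∈ M ↔ x ∈ (M' : Set V)) := fun x hx =>
    ⟨fun h1 => (h.big x h1 hx).2, fun h1 => IsZ.trans M' h.memM x h1⟩
  have aV : ∀ x : V, x.rank < κ → (x ∈ (H : Set V) ↔ x ∈ (Vs M κ : Set V)) := fun x hx =>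
    ⟨fun h1 => mem_Vs.2 ⟨IsZ.trans H h.memH x h1, hx⟩,
      fun h1 => (aH x (hx.trans k0)).1 (mem_Vs.1 h1).1⟩
  have p1 : ∃ W ∈ (M' : Set V), GM (M' : Set V) κ W := emb_phi aM k1 h.gm
  have p2 : LimM (H : Set V) κ := fun β hβ =>
    (h.elem.iff2 pZ (fun N (k β : Ordinal.{0}) => ∃ l < k, β < l ∧ ∃ W ∈ N, GM N l W)
      (a := κ) (b := β) h.memk (IsZ.ord_mem_of_le (H : Set V) h.memk hβ.le)).2
      ⟨κ, h.mov, by rw [h.fix β hβ]; exact hβ, p1⟩
  have p3 : LimM (M' : Set V) κ :=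
    emb_lim (fun x hx => (aH x hx).symm.trans (aM x hx)) k0 p2
  obtain ⟨μ, hμ, h1, h2⟩ := (h.elem.iff1 pZ (fun N (k : Ordinal.{0}) => ∃ μ < k, T0 N μ)
    (a := κ) h.memk).2 ⟨κ, h.mov, p1, p3⟩
  exact ⟨μ, hμ, emb_phi aV (hi.2.2.1.add_one_lt hμ) h1, emb_lim aV hμ h2⟩

end Pool.Agent.Lib.MP_c8ac39_lc.WF
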