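import Pool.Agent.Lib.MP_c8ac39_lc.WF.Uc

/-! # Fusion -/

namespace Pool.Agent.Lib.MP_c8ac39_lc.WF

open Ordinal ZFSet Pool.Agent.Lib.MP_f9eb18_lc Pool.Agent.Lib.MP_f9eb18_lc.W
set_option linter.style.haveILetI false
set_option linter.unusedVariables false
set_option linter.unusedSectionVars false
set_option synthInstance.maxSize 100000

/-- the union of `p` and the first `β` conditions of a fusion sequence -/
noncomputable def uu (p s : V) (β : Ordinal.{0}) : V :=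
  p ∪ bU β.toZFSet (fun g => fst (app s g))
/-- `β` is closed under the earlier witnesses -/
def cls (s : V) (β : Ordinal.{0}) : Prop := 0 < β ∧ ∀ g ∈ β.toZFSet, Mp (snd (app s g)) β
/-- diagonal supremum of the witnesses -/
noncomputable def hh (s : V) (α : Ordinal.{0}) : V :=
  sq α fun β => osup (prod (β + 1).toZFSet (β + 1).toZFSet)
    fun w => (oat (snd (app s (fst w))) (snd w).rank : Ordinal.{0})
/-- `y = (q, f)` is a correct next term at stage `β` -/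
def Nx (P : V) (κ : Ordinal.{0}) (p s : V) (β : Ordinal.{0}) (y : V) : Prop :=
  fst y ∈ P ∧ uu p s β ⊆ fst y ∧ lo (fst y) β ⊆ uu p s β ∧ Mp (snd y) κ ∧
    (∀ x ∈ fst y, ¬ Mp (snd y) (lv x)) ∧ (¬ cls s β → fst y ⊆ uu p s β)

section inst
variable {F : Fr} {a b c e : Set V → (ℕ → V) → V} {o o' : Set V → (ℕ → V) → Ordinal.{0}}
instance uf_uu [UF F a] [UF F b] [UF F o] : UF F (fun M v => uu (a M v) (b M v) (o M v)) := by
  have := UF.lift (F := F) b; unfold uu; infer_instance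
instance ud_cls [UF F a] [UF F o] : UD F (fun M v => cls (a M v) (o M v)) := by
  have := UF.lift (F := F) a; have := UF.lift (F := F) o; unfold cls; infer_instance
instance uf_hh [UF F a] [UF F o] : UF F (fun M v => hh (a M v) (o M v)) := by
  have := UF.lift (F := F) a; unfold hh; infer_instance
instance ud_nx [UF F a] [UF F o] [UF F b] [UF F c] [UF F o'] [UF F e] :
    UD F (fun M v => Nx (a M v) (o M v) (b M v) (c M v) (o' M v) (e M v)) := by
  have := UF.lift (F := F) e; unfold Nx; infer_instance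
end inst

variable {N : Set V} [IsZFC N] {κ : Ordinal.{0}} {U S L p s : V} {α : Ordinal.{0}}

theorem fus_app {g : V} {β : Ordinal.{0}} (hg : g ∈ β.toZFSet) :
    app (restr s β.toZFSet) g = app s g := by
  obtain ⟨e, h⟩ := mem_ord hg
  rw [e]
  exact oat_restr (α := V) h
theorem fus_uu {β : Ordinal.{0}} : uu p (restr s β.toZFSet) β = uu p s β := by
  ext x
  simp only [uu, mem_union, mem_bU]
  refine or_congr Iff.rfl (exists_congr fun g => and_congr_right fun hg => ?_)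
  rw [fus_app hg]
theorem fus_dom {β : Ordinal.{0}} (hd : dom s = α.toZFSet) (hβ : β ≤ α) :
    (dom (restr s β.toZFSet)).rank = β := by
  have : dom (restr s β.toZFSet) = β.toZFSet := by
    ext x
    rw [mem_dom]
    simp only [pair_mem_restr]
    refine ⟨fun ⟨_, _, h⟩ => h, fun h => ?_⟩
    obtain ⟨y, hy⟩ := mem_dom.1 (hd ▸ toZFSet_monotone hβ h : x ∈ dom s)
    exact ⟨y, hy, h⟩
  rw [this, rank_toZFSet]
theorem hh_mp (hα : Inac N α) (hs : s ∈ N) (h : cls s α) : Mp (hh s α) α := by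
  refine (mp_sq le_rfl).2 fun β hβ => ?_
  have h1 : β + 1 < α := hα.2.2.1.add_one_lt hβ
  have h2 : (β + 1).toZFSet ∈ N := IsZ.ord_mem_of_le N hα.2.1 h1.le
  have h3 : Bd N α (β + 1).toZFSet := bd_of_rank hα h2 (by rwa [rank_toZFSet])
  haveI : In N s := ⟨hs⟩
  haveI : In N (β + 1).toZFSet := ⟨h2⟩
  refine (h3.prod h3 h2 h2).osup_lt (memV_of N _) _ fun w hw => ?_
  obtain ⟨a, ha, b, hb, rfl⟩ := mem_prod.1 hw
  rw [fst_pair, snd_pair]
  exact h.2 a (toZFSet_monotone h1.le ha) _ ((mem_ord hb).2.trans h1)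
theorem cls_of_hh {β : Ordinal.{0}} (hβ : β ≤ α) (h0 : 0 < β) (h : Mp (hh s α) β) : cls s β := by
  refine ⟨h0, fun g hg δ hδ => ?_⟩
  obtain ⟨e, hg'⟩ := mem_ord hg
  refine lt_of_le_of_lt ?_ ((mp_sq hβ).1 h (max g.rank δ) (max_lt hg' hδ))
  refine le_trans (le_of_eq ?_) (le_osup _ (x := pair g δ.toZFSet) (mem_prod.2 ⟨g, ?_, δ.toZFSet,
    toZFSet_mem_toZFSet_iff.2 ((le_max_right _ _).trans_lt (lt_add_one _)), rfl⟩))
  · rw [fst_pair, snd_pair, rank_toZFSet]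
  · rw [e, rank_toZFSet]
    exact toZFSet_mem_toZFSet_iff.2 ((le_max_left _ _).trans_lt (lt_add_one _))
theorem nx_restr {P y : V} {β : Ordinal.{0}} :
    Nx P κ p (restr s β.toZFSet) β y ↔ Nx P κ p s β y := by
  have e : cls (restr s β.toZFSet) β ↔ cls s β :=
    and_congr_right fun _ => forall₂_congr fun g hg => by rw [fus_app hg]
  unfold Nx
  rw [fus_uu, e]
theorem cls_restr {β : Ordinal.{0}} : cls (restr s β.toZFSet) β ↔ cls s β := by
  exact and_congr_right fun _ => forall₂_congr fun g hg => by rw [fus_app hg]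
/-- low levels are frozen -/
theorem fus_low {P : V} (h : ∀ β < α, Nx P κ p s β (app s β.toZFSet)) {μ : Ordinal.{0}}
    (hμ : μ ≤ α) {x : V} (hx : x ∈ uu p s α) (hl : lv x ≤ μ) : x ∈ uu p s μ := by
  induction α using WellFoundedLT.induction with
  | ind α ih =>
    rcases mem_union.1 hx with h1 | h1
    · exact mem_union.2 (Or.inl h1)
    obtain ⟨g, hg, h1⟩ := mem_bU.1 h1
    obtain ⟨γ, hγ, rfl⟩ := mem_toZFSet_iff.1 hg
    rcases lt_or_ge γ μ with h2 | h2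
    · exact mem_union.2 (Or.inr (mem_bU.2 ⟨_, toZFSet_mem_toZFSet_iff.2 h2, h1⟩))
    · exact ih γ hγ (fun β hβ => h β (hβ.trans hγ)) h2
        ((h γ hγ).2.2.1 (mem_lo.2 ⟨h1, hl.trans h2⟩))
theorem fc_mem {x : V} {β : Ordinal.{0}} :
    x ∈ uu p s β ↔ x ∈ p ∨ ∃ g < β, x ∈ fst (app s g.toZFSet) := by
  unfold uu
  rw [ZFSet.mem_union, mem_bU]
  refine or_congr_right ⟨fun ⟨g, hg, hx⟩ => ?_, fun ⟨g, hg, hx⟩ => ?_⟩
  · obtain ⟨β', hβ', rfl⟩ := mem_toZFSet_iff.1 hg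
    exact ⟨β', hβ', hx⟩
  · exact ⟨_, mem_toZFSet_iff.2 ⟨g, hg, rfl⟩, hx⟩
theorem fc_mono {P : V} (h : ∀ β < α, Nx P κ p s β (app s β.toZFSet)) {g β : Ordinal.{0}}
    (hg : g ≤ β) (hβ : β < α) {x : V} (hx : x ∈ fst (app s g.toZFSet)) :
    x ∈ fst (app s β.toZFSet) := by
  rcases hg.eq_or_lt with rfl | hlt
  · exact hx
  · exact (h β hβ).2.1 (fc_mem.2 (Or.inr ⟨g, hlt, hx⟩))
/-- every element of the union lies in a term -/
theorem fc_term {P : V} (h : ∀ β < α, Nx P κ p s β (app s β.toZFSet)) {μ : Ordinal.{0}}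
    (hμ : μ ≤ α) (h0 : 0 < μ) {x : V} (hx : x ∈ uu p s μ) :
    ∃ g < μ, x ∈ fst (app s g.toZFSet) := by
  rcases fc_mem.1 hx with h1 | h1
  · exact ⟨0, h0, (h 0 (h0.trans_le hμ)).2.1 (fc_mem.2 (Or.inl h1))⟩
  · exact h1
theorem fc_stop {P : V} (h : ∀ β < α, Nx P κ p s β (app s β.toZFSet)) (h0 : 0 < α)
    (hc : ¬ cls s α) : ∃ m < α, uu p s α ⊆ fst (app s m.toZFSet) := by
  have h1 : ∃ g < α, ∃ δ < α, α ≤ (oat (snd (app s g.toZFSet)) δ : Ordinal.{0}) := by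
    by_contra hn
    refine hc ⟨h0, fun g hg δ hδ => ?_⟩
    obtain ⟨g', hg', rfl⟩ := mem_toZFSet_iff.1 hg
    exact lt_of_not_ge fun hle => hn ⟨g', hg', δ, hδ, hle⟩
  obtain ⟨g, hg, δ, hδ, hle⟩ := h1
  have hm : max g δ < α := max_lt hg hδ
  have key : ∀ β : Ordinal.{0}, β < α → ∀ x ∈ fst (app s β.toZFSet),
      x ∈ fst (app s (max g δ).toZFSet) := by
    intro β
    induction β using WellFoundedLT.induction with
    | ind β ih =>
      intro hβ x hx
      rcases le_or_gt β (max g δ) with h2 | h2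
      · exact fc_mono h h2 hm hx
      · have hn : ¬ cls s β := fun hcl => by
          have h3 := hcl.2 _ (mem_toZFSet_iff.2 ⟨g, (le_max_left g δ).trans_lt h2, rfl⟩) δ
            ((le_max_right g δ).trans_lt h2)
          exact absurd (hle.trans_lt (h3.trans hβ)) (lt_irrefl _)
        obtain ⟨g', hg', hx'⟩ := fc_term h hβ.le (lt_of_le_of_lt zero_le h2)
          ((h β hβ).2.2.2.2.2 hn hx)
        exact ih g' hg' (hg'.trans hβ) x hx'
  refine ⟨max g δ, hm, fun x hx => ?_⟩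
  obtain ⟨g', hg', hx'⟩ := fc_term h le_rfl h0 hx
  exact key g' hg' x hx'
theorem Ctx.fus_cnd (C : Ctx N κ U S L) (hp : p ∈ PP N κ S L) (hs : s ∈ N) (hα : α ≤ κ)
    (h : ∀ β < α, Nx (PP N κ S L) κ p s β (app s β.toZFSet)) : uu p s α ∈ PP N κ S L := by
  have hαN : α.toZFSet ∈ N := IsZ.ord_mem_of_le N C.inac.2.1 hα
  have hpN : p ∈ N := (C.mem_PP.1 hp).1
  haveI : In N α := ⟨hαN⟩
  haveI : In N p := ⟨hpN⟩
  haveI : In N s := ⟨hs⟩
  have huN : uu p s α ∈ N := memV_of N _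
  rcases (zero_le : (0 : Ordinal.{0}) ≤ α).eq_or_lt with h0 | h0
  · refine C.pp_sub hp huN fun x hx => ?_
    rcases fc_mem.1 hx with h1 | ⟨g, hg, -⟩
    · exact h1
    · exact absurd (hg.trans_le h0.ge) not_lt_zero
  by_cases hc : cls s α
  swap
  · obtain ⟨m, hm, hsub⟩ := fc_stop h h0 hc
    exact C.pp_sub (h m hm).1 huN hsub
  have hq : ∀ β < α, Cnd N κ S L (fst (app s β.toZFSet)) := fun β hβ => C.mem_PP.1 (h β hβ).1
  have hsh : Shape S L (uu p s α) := by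
    refine ⟨isFn_of_dir fun x hx y hy => ?_, fun x hx => ?_⟩
    · obtain ⟨g, hg, hx'⟩ := fc_term h le_rfl h0 hx
      obtain ⟨g', hg', hy'⟩ := fc_term h le_rfl h0 hy
      have hm : max g g' < α := max_lt hg hg'
      exact ⟨_, (hq _ hm).2.1.1, fc_mono h (le_max_left _ _) hm hx',
        fc_mono h (le_max_right _ _) hm hy'⟩
    · obtain ⟨g, hg, hx'⟩ := fc_term h le_rfl h0 hx
      exact (hq g hg).2.1.2 x hx'
  refine C.mem_PP.2 ⟨huN, hsh, fun μ hμ hi => ?_⟩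
  rcases lt_trichotomy μ α with hlt | rfl | hlt
  · exact Loc.mono hi.2.2.1.pos hi.2.1 ((hq μ hlt).2.2 μ hμ hi) huN fun x hx hl =>
      (h μ hlt).2.1 (fus_low h hlt.le hx hl)
  · refine ⟨⟨hh s μ, memV_of N _, hh_mp hi hs hc, fun x hx hl hm => ?_⟩, ?_⟩
    · have h1 : 0 < lv x := (C.lv_spec hsh hx).2.2.2.1.2.2.1.pos
      have h2 : cls s (lv x) := cls_of_hh hl.le h1 hm
      obtain ⟨g, hg, hx'⟩ := fc_term h hl.le h1 (fus_low h hl.le hx le_rfl)
      exact (h g (hg.trans hl)).2.2.2.2.1 x hx' (h2.2 _ (mem_toZFSet_iff.2 ⟨g, hg, rfl⟩))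
    · have e : atl (uu p s μ) μ = ∅ := by
        refine (ZFSet.eq_empty _).2 fun x hx => ?_
        obtain ⟨hx1, hx2⟩ := mem_atl.1 hx
        obtain ⟨g, hg, hx'⟩ := fc_term h le_rfl h0 hx1
        refine (h g hg).2.2.2.2.1 x hx' ?_
        rw [hx2]
        exact hc.2 _ (mem_toZFSet_iff.2 ⟨g, hg, rfl⟩)
      rw [e]
      exact bd_empty h0
  · have e : uu p s α =
        p ∪ bU α.toZFSet (app (lam α.toZFSet fun g => fst (app s g))) := by
      unfold uu
      refine congrArg (p ∪ ·) (ZFSet.ext fun x => ?_)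
      rw [mem_bU, mem_bU]
      exact exists_congr fun g => and_congr_right fun hg => by rw [app_lam _ hg]
    rw [e]
    refine Loc.union hi.2.1 ((C.mem_PP.1 hp).2.2 μ hμ hi) (Loc.bU hi.2.1 hαN (memV_of N _)
      (bd_of_rank hi hαN (by rwa [rank_toZFSet])) fun i hi' => ?_)
    rw [app_lam _ hi']
    obtain ⟨g, hg, rfl⟩ := mem_toZFSet_iff.1 hi'
    exact (hq g hg).2.2 μ hμ hi
theorem Ctx.fusion (C : Ctx N κ U S L) {J D : V} (hJ : J ∈ N) (hD : D ∈ N)
    (hd : ∀ j ∈ J, OD (PP N κ S L) (app D j)) (hp : p ∈ PP N κ S L) :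
    ∃ q ∈ PP N κ S L, p ⊆ q ∧ ∃ h ∈ N, Mp h κ ∧ ∀ α < κ, 0 < α → Mp h α →
      Good (PP N κ S L) α (cut J (oat L α + 1)) D q := by
  have hκ := C.inac
  obtain ⟨P, hP⟩ : ∃ P, P = PP N κ S L := ⟨_, rfl⟩
  haveI : In N κ := ⟨hκ.2.1⟩
  haveI : In N P := ⟨hP ▸ C.PP_mem⟩
  haveI : In N p := ⟨(C.mem_PP.1 hp).1⟩
  haveI : In N J := ⟨hJ⟩
  haveI : In N D := ⟨hD⟩
  haveI : In N L := ⟨C.memL⟩
  obtain ⟨s, hs, -, hds, H⟩ := trans_dc N (fun s y => Nx P κ p s (dom s).rank y ∧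
      (cls s (dom s).rank → Good P (dom s).rank (cut J (oat L (dom s).rank + 1)) D (fst y)))
      hκ.2.1 (fun α hα s hs _ hds H => by
    subst hP
    have hN : ∀ β < α, Nx (PP N κ S L) κ p s β (app s β.toZFSet) := fun β hβ => by
      have := (H β hβ).1
      rwa [fus_dom hds hβ.le, nx_restr] at this
    have hu := C.fus_cnd hp hs hα.le hN
    rw [hds, rank_toZFSet]
    obtain ⟨q, q1, q2, q3, q4, q5⟩ : ∃ q ∈ PP N κ S L, uu p s α ⊆ q ∧ lo q α ⊆ uu p s α ∧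
        (¬ cls s α → q ⊆ uu p s α) ∧
        (cls s α → Good (PP N κ S L) α (cut J (oat L α + 1)) D q) := by
      by_cases hc : cls s α
      · haveI : In N α := ⟨IsZ.ord_mem_of_le N hκ.2.1 hα.le⟩
        obtain ⟨q, q1, q2, q3, q4⟩ := C.uc hα (J := cut J (oat L α + 1)) (memV_of N _) hD
          (fun j hj => Order.lt_add_one_iff.1 (mem_cut.1 hj).2)
          (fun j hj => hd j (mem_cut.1 hj).1) hu
        exact ⟨q, q1, q2, q3, fun h => absurd hc h, fun _ => q4⟩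
      · exact ⟨_, hu, fun _ h => h, fun _ h => (mem_lo.1 h).1, fun _ _ h => h,
          fun h => absurd h hc⟩
    obtain ⟨c1, c2, c3⟩ := C.mem_PP.1 q1
    obtain ⟨⟨f, f1, f2, f3⟩, -⟩ := c3 κ le_rfl hκ
    refine ⟨pair q f, (IsZ.pair_mem_iff N).2 ⟨c1, f1⟩, ?_, ?_⟩
    · unfold Nx
      rw [fst_pair, snd_pair]
      exact ⟨q1, q2, q3, f2, fun x hx => f3 x hx (C.lv_spec c2 hx).2.2.1, q4⟩
    · rw [fst_pair]
      exact q5)
  subst hP
  have hN : ∀ β < κ, Nx (PP N κ S L) κ p s β (app s β.toZFSet) := fun β hβ => by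
    have := (H β hβ).1
    rwa [fus_dom hds hβ.le, nx_restr] at this
  have hu := C.fus_cnd hp hs le_rfl hN
  haveI : In N s := ⟨hs⟩
  refine ⟨uu p s κ, hu, fun x hx => mem_union.2 (Or.inl hx), hh s κ, memV_of N _,
    hh_mp hκ hs ⟨hκ.2.2.1.pos, fun g hg => ?_⟩, fun α hα h0 hm => ?_⟩
  · obtain ⟨γ, hγ, rfl⟩ := mem_toZFSet_iff.1 hg
    exact (hN γ hγ).2.2.2.1
  · have h1 := (H α hα).2
    rw [fus_dom hds hα.le, cls_restr] at h1
    exact C.good_mono hα.le (fun j hj => hd j (mem_cut.1 hj).1) hu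
      (fun x hx => mem_union.2 (Or.inr (mem_bU.2 ⟨_, toZFSet_mem_toZFSet_iff.2 hα, hx⟩)))
      (h1 (cls_of_hh hα.le h0 hm))

end Pool.Agent.Lib.MP_c8ac39_lc.WF
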