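import Pool.Agent.Lib.MP_c8ac39_lc.WF.Sm

/-! # Good measures -/

namespace Pool.Agent.Lib.MP_c8ac39_lc.WF

open Ordinal ZFSet Pool.Agent.Lib.MP_f9eb18_lc Pool.Agent.Lib.MP_f9eb18_lc.W
set_option linter.style.haveILetI false
set_option linter.unusedVariables false
set_option linter.unusedSectionVars false
set_option synthInstance.maxSize 100000

variable {N : Set V} {κ : Ordinal.{0}} {U : V}

theorem GM.ord (h : GM N κ U) {A a : V} (hA : A ∈ U) (ha : a ∈ A) :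
    a = a.rank.toZFSet ∧ a.rank < κ := mem_ord ((h.2.2.1 A hA).1 ha)
theorem GM.unb (h : GM N κ U) {A : V} (hA : A ∈ U) {β : Ordinal.{0}} (hβ : β < κ) :
    ∃ a ∈ A, β < a.rank ∧ Inac N a.rank := by
  obtain ⟨B, hB, H⟩ := h.2.2.2.2.1 β hβ
  obtain ⟨a, ha⟩ := (nonempty_def _).1 (h.2.2.1 _ (h.2.2.2.1 A hA B hB)).2
  exact ⟨a, (mem_inter.1 ha).1, H a (mem_inter.1 ha).2⟩
theorem gm_cut_rank (A : V) (o : Ordinal.{0}) : (cut A o).rank ≤ o :=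
  rank_le_iff.2 fun z hz => (mem_cut.1 hz).2
theorem gm_cut_cut (A : V) {o o' : Ordinal.{0}} (h : o ≤ o') : cut (cut A o') o = cut A o := by
  refine ZFSet.ext fun z => ?_
  simp only [mem_cut]
  exact ⟨fun h1 => ⟨h1.1.1, h1.2⟩, fun h1 => ⟨⟨h1.1, h1.2.trans_le h⟩, h1.2⟩⟩
theorem LimM.limit {o : Ordinal.{0}} (h : LimM N o) (h0 : 0 < o) : Order.IsSuccLimit o := by
  refine Ordinal.isSuccLimit_iff.2 ⟨h0.ne', Order.isSuccPrelimit_of_succ_lt fun β hβ => ?_⟩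
  obtain ⟨l, hl, hβl, -⟩ := h β hβ
  exact (Order.succ_le_of_lt hβl).trans_lt hl
theorem GM.const [IsZ N] (h : GM N κ U) {x : V} (hx : x ∈ N) {ρ : Ordinal.{0}} (hρ : ρ < κ)
    (hb : ∀ a ∈ κ.toZFSet, (app x a).rank < ρ) : ∃ A ∈ U, ∃ y, ∀ a ∈ A, app x a = y := by
  obtain ⟨y, -, A, hA, H⟩ := h.2.2.2.2.2 x hx
  obtain ⟨B, hB, H'⟩ := h.2.2.2.2.1 ρ hρ
  refine ⟨A ∩ B, h.2.2.2.1 A hA B hB, cut y ρ, fun a ha => ZFSet.ext fun z => ?_⟩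
  obtain ⟨ha1, ha2⟩ := mem_inter.1 ha
  have h1 := H a ha1
  have h2 := (H' a ha2).1
  have h3 := hb a ((h.2.2.1 A hA).1 ha1)
  constructor
  · intro hz
    have h4 : z.rank < ρ := (rank_lt_of_mem hz).trans h3
    have h5 : z ∈ cut (app x a) a.rank := mem_cut.2 ⟨hz, h4.trans h2⟩
    rw [h1] at h5
    exact mem_cut.2 ⟨(mem_cut.1 h5).1, h4⟩
  · intro hz
    have h5 : z ∈ cut y a.rank := mem_cut.2 ⟨(mem_cut.1 hz).1, (mem_cut.1 hz).2.trans h2⟩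
    rw [← h1] at h5
    exact (mem_cut.1 h5).1
theorem GM.club [IsZ N] (h : GM N κ U) {f : V} (hf : f ∈ N) (hm : Mp f κ) :
    ∃ A ∈ U, ∀ a ∈ A, Mp f a.rank := by
  haveI : In N κ := ⟨h.1.2.1⟩
  haveI : In N f := ⟨hf⟩
  obtain ⟨g, hg⟩ : ∃ g : Ordinal.{0} → Ordinal.{0},
      g = fun α => olst α (fun β => α ≤ (oat f β : Ordinal.{0})) := ⟨_, rfl⟩
  have hx : sq κ g ∈ N := by
    rw [hg]
    exact memV_of N _
  obtain ⟨y, -, A, hA, H⟩ := h.2.2.2.2.2 _ hx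
  have key : ∀ a ∈ A, ∀ β < a.rank, (β.toZFSet ∈ y ↔ β < g a.rank) := by
    intro a ha β hβ
    have h1 := H a ha
    rw [W.sq, app_lam _ ((h.2.2.1 A hA).1 ha), enc_ord] at h1
    have h2 : β.toZFSet ∈ cut (g a.rank).toZFSet a.rank ↔ β.toZFSet ∈ cut y a.rank := by rw [h1]
    rw [mem_cut, mem_cut, rank_toZFSet, toZFSet_mem_toZFSet_iff] at h2
    exact ⟨fun h3 => (h2.2 ⟨h3, hβ⟩).1, fun h3 => (h2.1 ⟨h3, hβ⟩).1⟩
  refine ⟨A, hA, fun a ha β hβ => ?_⟩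
  by_contra hcon
  have h1 : g a.rank < a.rank := by
    rw [hg]
    exact (olst_le_of (P := fun β => a.rank ≤ (oat f β : Ordinal.{0})) hβ
      (not_lt.1 hcon)).trans_lt hβ
  have h2 := (h.ord hA ha).2
  obtain ⟨b, hb, hab, -⟩ := h.unb hA (max_lt h2 (hm _ (h1.trans h2)))
  obtain ⟨h3, h4⟩ := max_lt_iff.1 hab
  have h5 : g b.rank = g a.rank := by
    refine le_antisymm (not_lt.1 fun h6 => ?_) (not_lt.1 fun h6 => ?_)
    · exact lt_irrefl _ ((key a ha _ h1).1 ((key b hb _ (h1.trans h3)).2 h6))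
    · exact lt_irrefl _ ((key b hb _ ((h6.trans h1).trans h3)).1 ((key a ha _ (h6.trans h1)).2 h6))
  have h6 : b.rank ≤ (oat f (g b.rank) : Ordinal.{0}) := by
    have h7 : g b.rank < b.rank := h5 ▸ h1.trans h3
    rw [hg] at h7 ⊢
    exact olst_spec h7
  rw [h5] at h6
  exact lt_irrefl _ (h4.trans_le h6)
theorem GM.transfer {N' : Set V} [IsZ N] [IsZ N'] (h : GM N κ U)
    (hs : ∀ x : V, x.rank ≤ κ → (x ∈ N ↔ x ∈ N')) (hU : U ∈ N') : GM N' κ U := by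
  have hI : ∀ o ≤ κ, Inac N o → Inac N' o := fun o ho hi =>
    hi.of_Vs (fun x hx hr => (hs x (hr.trans ho)).2 hx)
      ((hs _ (by rwa [rank_toZFSet])).1 hi.2.1)
  have hκ := hI κ le_rfl h.1
  refine ⟨hκ, hU, h.2.2.1, h.2.2.2.1, fun β hβ => ?_, fun x hx => ?_⟩
  · obtain ⟨A, hA, H⟩ := h.2.2.2.2.1 β hβ
    exact ⟨A, hA, fun a ha => ⟨(H a ha).1, hI _ (h.ord hA ha).2.le (H a ha).2⟩⟩
  · haveI : In N' κ := ⟨hκ.2.1⟩
    haveI : In N' x := ⟨hx⟩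
    have h1 : lam κ.toZFSet (fun a => cut (app x a) a.rank) ∈ N := by
      refine (hs _ (rank_le_iff.2 fun p hp => ?_)).2 (memV_of N' _)
      obtain ⟨a, ha, rfl⟩ := mem_lam.1 hp
      exact (rank_pair_lt h.1.2.2.1).2
        ⟨(mem_ord ha).2, (gm_cut_rank _ _).trans_lt (mem_ord ha).2⟩
    obtain ⟨y, hy, A, hA, H⟩ := h.2.2.2.2.2 _ h1
    haveI : In N κ := ⟨h.1.2.1⟩
    haveI : In N y := ⟨hy⟩
    refine ⟨cut y κ, (hs _ (gm_cut_rank _ _)).1 (memV_of N _), A, hA, fun a ha => ?_⟩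
    have h2 := H a ha
    rw [app_lam _ ((h.2.2.1 A hA).1 ha), gm_cut_cut _ le_rfl] at h2
    rw [h2, gm_cut_cut _ (h.ord hA ha).2.le]
theorem GM.rank_le (h : GM N κ U) : U.rank ≤ κ + 1 := by
  refine rank_le_iff.2 fun A hA => ?_
  have h1 := rank_mono (h.2.2.1 A hA).1
  rw [rank_toZFSet] at h1
  exact h1.trans_lt (lt_add_one κ)
/-- partition of pairs -/
theorem GM.pairs [IsZ N] (h : GM N κ U) {F : V} (hF : F ∈ N) {ρ : Ordinal.{0}} (hρ : ρ < κ)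
    (hb : ∀ a ∈ κ.toZFSet, ∀ b ∈ κ.toZFSet, (app F (pair a b)).rank < ρ) :
    ∃ H ∈ U, ∃ y, ∀ a ∈ H, ∀ b ∈ H, a ∈ b → app F (pair a b) = y := by
  haveI : In N F := ⟨hF⟩
  haveI : In N κ := ⟨h.1.2.1⟩
  obtain ⟨y, hy, A, hA, H1⟩ := h.2.2.2.2.2 _
    (memV_of N (lam κ.toZFSet fun b => lam b fun a => app F (pair a b)))
  obtain ⟨B, hB, H2⟩ := h.2.2.2.2.1 ρ hρ
  have hAB := h.2.2.2.1 A hA B hB
  have hκ : ∀ b ∈ A ∩ B, b ∈ κ.toZFSet := fun b hb' => (h.2.2.1 _ hAB).1 hb'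
  have htr : ∀ b ∈ A ∩ B, ∀ a ∈ b, a ∈ κ.toZFSet := fun b hb' a ha =>
    (isOrdinal_toZFSet κ).mem_trans ha (hκ b hb')
  have e1 : ∀ b ∈ A ∩ B, ∀ a v, pair a v ∈ cut y b.rank ↔ a ∈ b ∧ v = app F (pair a b) := by
    intro b hb' a v
    rw [← H1 b (mem_inter.1 hb').1, app_lam _ (hκ b hb'), mem_cut, pair_mem_lam]
    refine ⟨fun H => H.1, fun H => ⟨H, ?_⟩⟩
    obtain ⟨h1, h2⟩ := H2 b (mem_inter.1 hb').2
    rw [rank_pair_lt h2.2.2.1]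
    refine ⟨rank_lt_of_mem H.1, ?_⟩
    rw [H.2]
    exact (hb a (htr b hb' a H.1) b (hκ b hb')).trans h1
  have e2 : ∀ b ∈ A ∩ B, ∀ a ∈ b, app (cut y κ) a = app F (pair a b) := by
    intro b hb' a ha
    have h1 := mem_cut.1 ((e1 b hb' a _).2 ⟨ha, rfl⟩)
    have hbκ := (h.ord hAB hb').2
    refine app_eq_of_unique (mem_cut.2 ⟨h1.1, h1.2.trans hbκ⟩) fun v hv => ?_
    obtain ⟨hv1, hv2⟩ := mem_cut.1 hv
    obtain ⟨c, hc, hc', -⟩ := h.unb hAB (max_lt hv2 hbκ)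
    have h3 := ((e1 c hc a v).1 (mem_cut.2 ⟨hv1, (le_max_left _ _).trans_lt hc'⟩)).2
    have h4 := ((e1 c hc a _).1
      (mem_cut.2 ⟨h1.1, h1.2.trans ((le_max_right _ _).trans_lt hc')⟩)).2
    exact h3.trans h4.symm
  haveI : In N y := ⟨hy⟩
  obtain ⟨C, hC, z, hz⟩ := h.const (memV_of N (cut y κ)) hρ (fun a ha => by
    obtain ⟨ha1, ha2⟩ := mem_ord ha
    obtain ⟨b, hb', hab, -⟩ := h.unb hAB ha2
    have hm : a ∈ b := by
      rw [ha1, (h.ord hAB hb').1]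
      exact mem_toZFSet_iff.2 ⟨_, hab, rfl⟩
    rw [e2 b hb' a hm]
    exact hb a ha b (hκ b hb'))
  refine ⟨A ∩ B ∩ C, h.2.2.2.1 _ hAB C hC, z, fun a ha b hb' hab => ?_⟩
  rw [← e2 b (mem_inter.1 hb').1 a hab]
  exact hz a (mem_inter.1 ha).2
theorem exists_blk [IsZ N] {o ρ : Ordinal.{0}} (h : LimM N o) (hρ : ρ < o) (n : ℕ) :
    ∃ Λ W, Blk N n ρ Λ W ∧ ∀ i < n, (app Λ (natZ i)).rank < o := by
  have h1 : ∀ β : {β // β < o}, ∃ l : {β // β < o}, β.1 < l.1 ∧ ∃ W ∈ N, GM N l.1 W := by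
    intro β
    obtain ⟨l, hl, h2⟩ := h β.1 β.2
    exact ⟨⟨l, hl⟩, h2⟩
  choose nx hnx w hw hgm using h1
  let t : ℕ → {β // β < o} := fun i => nx^[i] ⟨ρ, hρ⟩
  have ht : ∀ i, t (i + 1) = nx (t i) := fun i => Function.iterate_succ_apply' _ _ _
  have hmono : StrictMono fun i => (t i).1 :=
    strictMono_nat_of_lt_succ fun i => by rw [ht]; exact hnx _
  have hm : ∀ i < n, natZ i ∈ natZ n := fun i hi => mem_natZ.2 ⟨i, hi, rfl⟩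
  have eΛ : ∀ i < n, app (lam (natZ n) fun i => (nx (t (natOf i))).1.toZFSet) (natZ i) =
      (nx (t i)).1.toZFSet := fun i hi => by rw [app_lam _ (hm i hi), natOf_natZ]
  have eW : ∀ i < n, app (lam (natZ n) fun i => w (t (natOf i))) (natZ i) = w (t i) :=
    fun i hi => by rw [app_lam _ (hm i hi), natOf_natZ]
  refine ⟨lam (natZ n) fun i => (nx (t (natOf i))).1.toZFSet, lam (natZ n) fun i => w (t (natOf i)),
    ⟨tup_mem (isFn_lam _ _) (dom_lam _ _) fun i hi => ?_,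
      tup_mem (isFn_lam _ _) (dom_lam _ _) fun i hi => ?_, fun i hi => ?_⟩, fun i hi => ?_⟩
  · rw [app_lam _ hi]; exact (hgm _).1.2.1
  · rw [app_lam _ hi]; exact hw _
  · rw [eΛ i hi, eW i hi, rank_toZFSet]
    refine ⟨isOrdinal_toZFSet _, ?_, hgm _, fun k hk => ?_⟩
    · rw [← ht]
      exact hmono (Nat.succ_pos i)
    · rw [eΛ k (hk.trans hi), ← ht, ← ht]
      exact mem_toZFSet_iff.2 ⟨_, hmono (Nat.succ_lt_succ hk), rfl⟩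
  · rw [eΛ i hi, rank_toZFSet]; exact (nx _).2

end Pool.Agent.Lib.MP_c8ac39_lc.WF
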