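import Pool.Agent.Lib.MP_c8ac39_lc.WF.Po
import Pool.Agent.Lib.MP_c8ac39_lc.WF.Ds

/-! # The first density argument -/

namespace Pool.Agent.Lib.MP_c8ac39_lc.WF

open Ordinal ZFSet Pool.Agent.Lib.MP_f9eb18_lc Pool.Agent.Lib.MP_f9eb18_lc.W
set_option linter.style.haveILetI false
set_option linter.unusedVariables false
set_option linter.unusedSectionVars false
set_option synthInstance.maxSize 100000

variable {N : Set V} [IsZFC N] {κ ζ : Ordinal.{0}} {U S L : V} {n : ℕ}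

@[simp] theorem pair_mem_clm {p i a β v : V} : pair β v ∈ clm ζ p i a ↔
    β ∈ ζ.toZFSet ∧ v ∈ ζ.toZFSet ∧ pair (crd ζ i a β) v ∈ p := by
  unfold clm; exact pair_mem_rel
theorem clm_sub {p i a : V} : clm ζ p i a ⊆ prod ζ.toZFSet ζ.toZFSet := by
  unfold clm rel; exact sep_subset
theorem isFn_clm {p i a : V} (h : IsFn p) : IsFn (clm ζ p i a) := by
  refine ⟨fun x hx => ?_, fun x y y' h1 h2 =>
    h.2 _ y y' (pair_mem_clm.1 h1).2.2 (pair_mem_clm.1 h2).2.2⟩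
  unfold clm at hx
  obtain ⟨u, -, v, -, rfl, -⟩ := mem_rel.1 hx
  rw [fst_pair, snd_pair]
theorem lv_crd (i a β v : V) : lv (pair (crd ζ i a β) v) = ζ := by
  rw [lv_pair, crd, fst_pair, rank_toZFSet]
theorem crd_inj {i a β i' a' β' : V} : crd ζ i a β = crd ζ i' a' β' ↔ i = i' ∧ a = a' ∧ β = β' := by
  unfold crd
  rw [pair_inj, pair_inj, pair_inj]
  exact ⟨fun h => ⟨h.2.1.1, h.2.1.2, h.2.2⟩, fun h => ⟨rfl, ⟨h.1, h.2.1⟩, h.2.2⟩⟩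
/-- the columns of `z` can be filled up to a common length that bounds all columns -/
theorem Ctx.fill (C : Ctx N κ U S L) (hζ : ζ.toZFSet ∈ S) {r z : V} (hr : r ∈ PP N κ S L)
    (hl : Low r ζ) (hz : z ∈ N) (hb : ∀ i ∈ natZ n, (app z i).rank < oat L ζ) :
    ∃ ξ < ζ, ∃ r' ∈ PP N κ S L, Low r' ζ ∧ r ⊆ r' ∧
      (∀ i ∈ natZ n, dom (clm ζ r' i (app z i)) = ξ.toZFSet) ∧
      ∀ x ∈ dom r', fst x = ζ.toZFSet → snd (snd x) ∈ ζ.toZFSet → snd (snd x) ∈ ξ.toZFSet := by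
  obtain ⟨hrN, hsh, hloc⟩ := C.mem_PP.1 hr
  have hζκ : ζ < κ := by
    have h := (mem_ord (C.subS hζ)).2
    rwa [rank_toZFSet] at h
  have hin : Inac N ζ := by
    have h := (C.inS _ hζ).1
    rwa [rank_toZFSet] at h
  have hlim := hin.2.2.1
  have h0 : 0 < ζ := hlim.pos
  haveI : In N ζ := ⟨hin.2.1⟩
  haveI : In N r := ⟨hrN⟩
  haveI : In N z := ⟨hz⟩
  haveI : In N (natZ n) := ⟨memV_of N _⟩
  obtain ⟨A, hA⟩ : ∃ A : V, A = ZFSet.sep (fun x => snd (snd (fst x)) ∈ ζ.toZFSet) (atl r ζ) :=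
    ⟨_, rfl⟩
  have hAN : A ∈ N := by rw [hA]; exact memV_of N _
  have hAb : Bd N ζ A := (hloc ζ hζκ.le hin).2.sub h0 hAN (by rw [hA]; exact sep_subset)
  have hξ0 : osup A (fun x => (snd (snd (fst x))).rank) < ζ :=
    hAb.osup_lt hAN _ fun x hx => by
      rw [hA] at hx
      exact (mem_ord (mem_sep.1 hx).2).2
  obtain ⟨ξ, hξζ, hξ⟩ : ∃ ξ < ζ, ∀ x v, pair x v ∈ r → fst x = ζ.toZFSet →
      snd (snd x) ∈ ζ.toZFSet → snd (snd x) ∈ ξ.toZFSet := by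
    refine ⟨_, hlim.succ_lt hξ0, fun x v h1 h2 h3 => ?_⟩
    have hx : pair x v ∈ A := by
      rw [hA, mem_sep, mem_atl, lv_pair, h2, rank_toZFSet, fst_pair]
      exact ⟨⟨h1, rfl⟩, h3⟩
    have h4 := le_osup (fun x => (snd (snd (fst x))).rank) hx
    simp only [fst_pair] at h4
    rw [(mem_ord h3).1]
    exact mem_toZFSet_iff.2 ⟨_, Order.lt_succ_of_le h4, rfl⟩
  have hsub : ∀ β ∈ ξ.toZFSet, β ∈ ζ.toZFSet := fun β hβ => by
    obtain ⟨h1, h2⟩ := mem_ord hβ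
    rw [h1]
    exact mem_toZFSet_iff.2 ⟨_, h2.trans hξζ, rfl⟩
  have hξN : ξ.toZFSet ∈ N :=
    IsZ.trans _ hin.2.1 _ (mem_toZFSet_iff.2 ⟨_, hξζ, rfl⟩)
  haveI : In N ξ := ⟨hξN⟩
  have hPN : prod (natZ n) ξ.toZFSet ∈ N := memV_of N _
  obtain ⟨B, hB⟩ : ∃ B : V, B = img (fun y => pair (crd ζ (fst y) (app z (fst y)) (snd y)) ∅)
      (prod (natZ n) ξ.toZFSet) := ⟨_, rfl⟩
  have hBN : B ∈ N := by rw [hB]; exact memV_of N _
  have hBb : Bd N ζ B := by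
    rw [hB]
    exact (Bd.prod (bd_natZ hlim n) (bd_of_rank hin hξN (by rwa [rank_toZFSet])) (memV_of N _)
      hξN).img hPN _
  have hw : ∃ w ∈ N, Bd N ζ w ∧ ∀ x, x ∈ w ↔ fst x ∉ dom r ∧
      ∃ i ∈ natZ n, ∃ β ∈ ξ.toZFSet, x = pair (crd ζ i (app z i) β) ∅ := by
    have hN : ZFSet.sep (fun x => fst x ∉ dom r) B ∈ N := sep_mem N _ hBN
    refine ⟨_, hN, hBb.sub h0 hN sep_subset, fun x => ?_⟩
    rw [mem_sep, and_comm, hB, mem_img]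
    refine and_congr_right fun _ => ⟨?_, ?_⟩
    · rintro ⟨y, hy, rfl⟩
      obtain ⟨i, hi, β, hβ, rfl⟩ := mem_prod.1 hy
      exact ⟨i, hi, β, hβ, by rw [fst_pair, snd_pair]⟩
    · rintro ⟨i, hi, β, hβ, rfl⟩
      exact ⟨pair i β, pair_mem_prod.2 ⟨hi, hβ⟩, by rw [fst_pair, snd_pair]⟩
  obtain ⟨w, hwN, hwb, hw⟩ := hw
  have he : (∅ : V) ∈ ζ.toZFSet := mem_toZFSet_iff.2 ⟨0, h0, toZFSet_zero⟩
  have hwl : ∀ x ∈ w, lv x = ζ := fun x hx => by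
    obtain ⟨-, i, -, β, -, rfl⟩ := (hw x).1 hx
    exact lv_crd _ _ _ _
  have hwv : ∀ x v, pair x v ∈ w → x ∉ dom r ∧ v = ∅ := fun x v hx => by
    obtain ⟨h1, i, -, β, -, h2⟩ := (hw _).1 hx
    rw [fst_pair] at h1
    exact ⟨h1, (pair_inj.1 h2).2⟩
  have hwf : IsFn w := by
    refine ⟨fun x hx => ?_, fun x y y' h1 h2 => (hwv x y h1).2.trans (hwv x y' h2).2.symm⟩
    obtain ⟨-, i, -, β, -, rfl⟩ := (hw x).1 hx
    rw [fst_pair, snd_pair]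
  have hζL := (C.ltL ζ hζκ).1
  have hws : Shape S L w := by
    refine ⟨hwf, fun x hx => ?_⟩
    obtain ⟨-, i, hi, β, hβ, rfl⟩ := (hw x).1 hx
    rw [lv_crd]
    simp only [crd, fst_pair, snd_pair]
    refine ⟨hζ, trivial, ?_, he⟩
    rw [rank_pair_lt (C.limL hζκ), rank_pair_lt (C.limL hζκ)]
    refine ⟨⟨?_, hb i hi⟩, ((mem_ord hβ).2.trans hξζ).trans hζL⟩
    obtain ⟨k, -, rfl⟩ := mem_natZ.1 hi
    rw [rank_natZ]
    exact ((natCast_lt_omega0 k).trans hin.1).trans hζL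
  have hfn : IsFn (r ∪ w) := by
    refine ⟨fun x hx => (mem_union.1 hx).elim (hsh.1.1 x) (hwf.1 x), fun x y y' h1 h2 => ?_⟩
    rcases mem_union.1 h1 with h1 | h1 <;> rcases mem_union.1 h2 with h2 | h2
    · exact hsh.1.2 x y y' h1 h2
    · exact absurd (mem_dom.2 ⟨y, h1⟩) (hwv x y' h2).1
    · exact absurd (mem_dom.2 ⟨y', h2⟩) (hwv x y h1).1
    · exact hwf.2 x y y' h1 h2
  have hlast : ∀ x ∈ dom (r ∪ w), fst x = ζ.toZFSet → snd (snd x) ∈ ζ.toZFSet →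
      snd (snd x) ∈ ξ.toZFSet := by
    intro x hx h2 h3
    obtain ⟨v, hv⟩ := mem_dom.1 hx
    rcases mem_union.1 hv with hv | hv
    · exact hξ x v hv h2 h3
    · obtain ⟨-, i, -, β, hβ, h4⟩ := (hw _).1 hv
      rw [(pair_inj.1 h4).1, crd, snd_pair, snd_pair]
      exact hβ
  refine ⟨ξ, hξζ, r ∪ w, C.pp_union hr (C.pp_level hζ hwN hws hwl hwb) hfn,
    fun x hx => (mem_union.1 hx).elim (hl x) fun h => (hwl x h).le,
    fun x hx => mem_union.2 (Or.inl hx), fun i hi => ?_, hlast⟩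
  ext β
  rw [mem_dom]
  constructor
  · rintro ⟨v, hv⟩
    obtain ⟨h1, -, h3⟩ := pair_mem_clm.1 hv
    have h4 := hlast _ (mem_dom.2 ⟨v, h3⟩) (by rw [crd, fst_pair])
      (by rw [crd, snd_pair, snd_pair]; exact h1)
    rwa [crd, snd_pair, snd_pair] at h4
  · intro hβ
    by_cases hc : crd ζ i (app z i) β ∈ dom r
    · obtain ⟨v, hv⟩ := mem_dom.1 hc
      have h1 := (hsh.2 _ hv).2.2.2
      rw [snd_pair, fst_pair, crd, fst_pair] at h1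
      exact ⟨v, pair_mem_clm.2 ⟨hsub β hβ, h1, mem_union.2 (Or.inl hv)⟩⟩
    · exact ⟨∅, pair_mem_clm.2 ⟨hsub β hβ, he, mem_union.2 (Or.inr
        ((hw _).2 ⟨by rwa [fst_pair], i, hi, β, hβ, rfl⟩))⟩⟩
theorem hz1_cases (C : Ctx N κ U S L) {r x : V} (hr : r ∈ PP N κ S L) (hl : Low r ζ)
    (hx : x ∈ r) : x ∈ ZFSet.sep (fun x => lv x < ζ) r ∨ x ∈ atl r ζ :=
  (hl x hx).lt_or_eq.imp (fun h => mem_sep.2 ⟨hx, h⟩) fun h => mem_atl.2 ⟨hx, h⟩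

theorem hz1_rank_u (hl : Order.IsSuccLimit ζ) (hω : ω ≤ ζ) (f : V → V)
    (h : ∀ i, f i ⊆ prod ζ.toZFSet ζ.toZFSet) : (lam (natZ n) f).rank < ζ + ω := by
  have hl' : Order.IsSuccLimit (ζ + ω) := isSuccLimit_add ζ isSuccLimit_omega0
  refine lt_of_le_of_lt (rank_le_iff.2 fun p hp => ?_)
    ((add_lt_add_iff_left ζ).2 (natCast_lt_omega0 3))
  obtain ⟨i, hi, rfl⟩ := mem_lam.1 hp
  have k1 : (f i).rank ≤ ζ := rank_le_iff.2 fun w hw => by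
    obtain ⟨a, ha, b, hb, rfl⟩ := mem_prod.1 (h i hw)
    exact (rank_pair_lt hl).2 ⟨(mem_ord ha).2, (mem_ord hb).2⟩
  have k2 : i.rank ≤ ζ := ((mem_ord hi).2.trans (natCast_lt_omega0 n)).le.trans hω
  rw [rank_zpair]
  refine (add_le_add (max_le k2 k1) le_rfl).trans_lt ((add_lt_add_iff_left ζ).2 ?_)
  exact_mod_cast (by norm_num : (2 : ℕ) < 3)

theorem Ctx.hz1 (C : Ctx N κ U S L) (hζ : ζ.toZFSet ∈ S) {Λ W D q c p : V}
    (hB : Blk N n (ζ + ω) Λ W) (hL : ∀ i < n, (app Λ (natZ i)).rank < oat L ζ) (hD : D ∈ N)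
    (hd : ∀ j ∈ Tup N (natZ n) Λ, OD (PP N κ S L) (app D j)) (hq : q ∈ PP N κ S L)
    (hg : Good (PP N κ S L) ζ (Tup N (natZ n) Λ) D q) (hc : c ∈ N) (hr : ∀ w, (app c w).rank ≤ ζ)
    (hp : p ∈ PP N κ S L) :
    ∃ p' ∈ PP N κ S L, p ⊆ p' ∧ ∃ K ∈ N, ∃ ξ < ζ, ∃ u ∈ N, ∃ r ∈ N, ∃ j ∈ N,
      Nice N (PP N κ S L) ζ (natZ n) K ξ u r p' ∧ Wide (natZ n) Λ K ∧
      ∀ e ∈ Tup N (natZ n) K, app r e ∪ hi q ζ ∈ app D e ∧ app c (pair e (app r e)) = j := by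
  obtain ⟨P, hP⟩ : ∃ P, P = PP N κ S L := ⟨_, rfl⟩
  have hPN : P ∈ N := hP ▸ C.PP_mem
  have hζκ : ζ < κ := by simpa using (mem_ord (C.subS hζ)).2
  have hiζ : Inac N ζ := by simpa using (C.inS _ hζ).1
  have hmL : Mp L ζ := by simpa using (C.inS _ hζ).2
  have hl := hiζ.2.2.1
  have hl' : Order.IsSuccLimit (ζ + ω) := isSuccLimit_add ζ isSuccLimit_omega0
  have hζω : ζ < ζ + ω := lt_add_of_pos_right ζ omega0_pos
  haveI : In N Λ := ⟨hB.1⟩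
  haveI : In N ζ := ⟨hiζ.2.1⟩
  haveI : In N P := ⟨hPN⟩
  haveI : In N D := ⟨hD⟩
  haveI : In N c := ⟨hc⟩
  haveI : In N q := ⟨(C.mem_PP.1 hq).1⟩
  haveI : In N p := ⟨(C.mem_PP.1 hp).1⟩
  obtain ⟨J, hJ⟩ : ∃ J, J = Tup N (natZ n) Λ := ⟨_, rfl⟩
  have hJN : J ∈ N := hJ ▸ memV_of N _
  haveI : In N J := ⟨hJN⟩
  rw [← hJ] at hd hg
  have hΛ : ∀ i ∈ natZ n, (app Λ i).rank < oat L ζ ∧ ζ + ω < (app Λ i).rank ∧
      (app Λ i).IsOrdinal := fun i hi => by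
    obtain ⟨k, hk, rfl⟩ := mem_natZ.1 hi
    exact ⟨hL k hk, (hB.2.2 k hk).2.1, (hB.2.2 k hk).1⟩
  obtain ⟨ch, hch, -, -, H⟩ := choice_fn N (fun z y => fst y ∈ P ∧ Low (fst y) ζ ∧
      lo p ζ ⊆ fst y ∧ fst y ∪ hi q ζ ∈ app D z ∧ snd y ∈ ζ.toZFSet ∧
      (∀ i ∈ natZ n, dom (clm ζ (fst y) i (app z i)) = snd y) ∧
      ∀ x ∈ dom (fst y), fst x = ζ.toZFSet → snd (snd x) ∈ ζ.toZFSet → snd (snd x) ∈ snd y) hJN
    fun z hz => by
      obtain ⟨r1, a1, a2, a3, a4⟩ := hg z hz _ (C.pp_lo hp hζκ.le) low_lo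
      obtain ⟨ξ, hξ, r2, b1, b2, b3, b4, b5⟩ := C.fill (n := n) hζ a1 a2 (IsZ.trans _ hJN _ hz)
        fun i hi => (rank_lt_of_mem ((mem_Tup.1 (hJ ▸ hz)).2.2.2 i hi)).trans (hΛ i hi).1
      refine ⟨pair r2 ξ.toZFSet, (IsZ.pair_mem_iff N).2 ⟨(C.mem_PP.1 b1).1,
        IsZ.ord_mem_of_le N hiζ.2.1 hξ.le⟩, ?_⟩
      rw [fst_pair, snd_pair]
      exact ⟨hP ▸ b1, b2, a3.trans b3, (hd z hz).2.2 _ a4 _ (C.pp_hi b1 hq b2 hζκ.le)
        fun x hx => (mem_union.1 hx).elim (fun k => mem_union.2 (Or.inl (b3 k)))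
          fun k => mem_union.2 (Or.inr k), toZFSet_mem_toZFSet_iff.2 hξ, b4, b5⟩
  haveI : In N ch := ⟨hch⟩
  subst hP
  obtain ⟨r, hr'⟩ : ∃ r, r = lam J fun z => fst (app ch z) := ⟨_, rfl⟩
  have hrN : r ∈ N := hr' ▸ memV_of N _
  haveI : In N r := ⟨hrN⟩
  have hrz : ∀ z ∈ J, fst (app ch z) = app r z := fun z hz => by rw [hr', app_lam _ hz]
  have hsh : ∀ z ∈ J, Cnd N κ S L (app r z) := fun z hz => C.mem_PP.1 (hrz z hz ▸ (H z hz).1)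
  obtain ⟨K, hK, hW, hK'⟩ := ds hiζ hB (memV_of N (lam J fun z => atl (app r z) ζ))
    (memV_of N (lam J fun z => pair (ZFSet.sep (fun x => lv x < ζ) (app r z))
      (pair (snd (app ch z)) (pair (lam (natZ n) fun i => clm ζ (app r z) i (app z i))
        (app c (pair z (app r z))))))) fun z hz => by
    rw [← hJ] at hz
    rw [app_lam _ hz, app_lam _ hz]
    have s := hsh z hz
    refine ⟨isFn_sub s.2.1.1 fun x hx => (mem_atl.1 hx).1, (s.2.2 ζ hζκ.le hiζ).2, fun y hy => ?_,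
      (rank_pair_lt hl').2 ⟨lt_of_le_of_lt (rank_le_iff.2 fun x hx => ?_) hζω,
        (rank_pair_lt hl').2 ⟨(mem_ord (H z hz).2.2.2.2.1).2.trans hζω, (rank_pair_lt hl').2
          ⟨hz1_rank_u hl hiζ.1.le _ fun _ => clm_sub, (hr _).trans_lt hζω⟩⟩⟩⟩
    · obtain ⟨x, hx⟩ := mem_ran.1 hy
      obtain ⟨x1, x2⟩ := mem_atl.1 hx
      have k := (s.2.1.2 _ x1).2.2.2
      rwa [(C.lv_spec s.2.1 x1).1, x2, snd_pair] at k
    · exact (C.rank_lt s.2.1 (mem_sep.1 hx).1).trans (hmL _ (mem_sep.1 hx).2)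
  haveI : In N K := ⟨hK⟩
  have hKJ : Tup N (natZ n) K ⊆ J := hJ ▸ Tup_mono fun i hi => (hW i hi).1
  obtain ⟨z, hz⟩ : ∃ z, z ∈ Tup N (natZ n) K := by
    have ex : ∀ i, ∃ a, i ∈ natZ n → a ∈ app K i := fun i => by
      by_cases hi : i ∈ natZ n
      · obtain ⟨-, a2, a3⟩ := hΛ i hi
        obtain ⟨a, ha, -⟩ := (hW i hi).2 (0 : Ordinal.{0}).toZFSet (by
          rw [← a3.toZFSet_rank_eq]
          exact toZFSet_mem_toZFSet_iff.2 (hl'.pos.trans a2))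
        exact ⟨a, fun _ => ha⟩
      · exact ⟨∅, fun k => absurd k hi⟩
    choose f hf using ex
    exact ⟨_, lam_mem_Tup hK hf⟩
  have hzJ := hKJ hz
  haveI : In N z := ⟨IsZ.trans _ hJN _ hzJ⟩
  have K1 : ∀ e ∈ Tup N (natZ n) K, ∀ e' ∈ Tup N (natZ n) K,
      (ZFSet.sep (fun x => lv x < ζ) (app r e) = ZFSet.sep (fun x => lv x < ζ) (app r e') ∧
        snd (app ch e) = snd (app ch e') ∧ (lam (natZ n) fun i => clm ζ (app r e) i (app e i)) =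
          (lam (natZ n) fun i => clm ζ (app r e') i (app e' i)) ∧
        app c (pair e (app r e)) = app c (pair e' (app r e'))) ∧
      IsFn (atl (app r e) ζ ∪ atl (app r e') ζ) ∧ ((∀ i ∈ natZ n, app e i ≠ app e' i) →
        ∀ x ∈ dom (atl (app r e) ζ), x ∈ dom (atl (app r e') ζ) →
          ∀ e'' ∈ Tup N (natZ n) K, x ∈ dom (atl (app r e'') ζ)) := fun e he e' he' => by
    obtain ⟨k1, k2, k3⟩ := hK' e he e' he'
    rw [app_lam _ (hKJ he), app_lam _ (hKJ he')] at k1 k2 k3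
    obtain ⟨l1, l2⟩ := pair_injective k1
    obtain ⟨l2, l3⟩ := pair_injective l2
    refine ⟨⟨l1, l2, pair_injective l3⟩, k2, fun hne x hx hx' e'' he'' => ?_⟩
    have k := k3 hne x hx hx' e'' he''
    rwa [app_lam _ (hKJ he'')] at k
  have hrP : ∀ e ∈ J, app r e ∈ PP N κ S L ∧ Low (app r e) ζ := fun e he =>
    hrz e he ▸ ⟨(H e he).1, (H e he).2.1⟩
  have K2 : ∀ e ∈ Tup N (natZ n) K, ∀ e' ∈ Tup N (natZ n) K, ∀ x ∈ app r e, lv x < ζ →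
      x ∈ app r e' := fun e he e' he' x hx hlt =>
    (mem_sep.1 ((K1 e he e' he').1.1 ▸ mem_sep.2 ⟨hx, hlt⟩ :
      x ∈ ZFSet.sep (fun x => lv x < ζ) (app r e'))).1
  obtain ⟨ρ, hρ⟩ : ∃ ρ, ρ = ZFSet.sep (fun x => ∀ e ∈ Tup N (natZ n) K, x ∈ app r e) (app r z) :=
    ⟨_, rfl⟩
  have hρm : ∀ x, x ∈ ρ ↔ ∀ e ∈ Tup N (natZ n) K, x ∈ app r e := fun x => by
    rw [hρ, mem_sep]; exact ⟨fun k => k.2, fun k => ⟨k z hz, k⟩⟩
  have hρs : ρ ⊆ app r z := fun x hx => (hρm x).1 hx z hz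
  have hξ := mem_ord (H z hzJ).2.2.2.2.1
  refine ⟨ρ ∪ p, C.pp_glue (C.pp_sub (hrP z hzJ).1 (hρ ▸ memV_of N _) hρs) hp
    (fun x hx => (hrP z hzJ).2 x (hρs hx)) fun x hx => (hρm x).2 fun e he =>
      hrz e (hKJ he) ▸ (H e (hKJ he)).2.2.1 hx, fun x hx => mem_union.2 (Or.inr hx), K, hK,
    (snd (app ch z)).rank, hξ.2, lam (natZ n) fun i => clm ζ (app r z) i (app z i), memV_of N _,
    r, hrN, app c (pair z (app r z)), memV_of N _, ⟨fun i hi => ?_, fun e he => ?_⟩, hW,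
    fun e he => ⟨hrz e (hKJ he) ▸ (H e (hKJ he)).2.2.2.1, (K1 e he z hz).1.2.2.2⟩⟩
  · rw [app_lam _ hi, ← hξ.1, ← hrz z hzJ]
    exact (H z hzJ).2.2.2.2.2.1 i hi
  have heJ := hKJ he
  refine ⟨(hrP e heJ).1, (hrP e heJ).2, fun i hi => ?_, fun x hx x1 x2 => ?_,
    fun x hx hlt => mem_union.2 (Or.inl ((hρm x).2 fun e' he' => K2 e he e' he' x hx hlt)),
    fun x _ k => mem_union.2 (Or.inl ((hρm x).2 k)), fun e' he' => ⟨?_, fun hne x hx hx' g hg => ?_⟩⟩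
  · rw [← (K1 e he z hz).1.2.2.1, app_lam _ hi]
  · rw [← hξ.1, ← (K1 e he z hz).1.2.1]
    exact (H e heJ).2.2.2.2.2.2 x (hrz e heJ ▸ hx) x1 x2
  · have he'J := hKJ he'
    refine ⟨fun x hx => (mem_union.1 hx).elim ((hsh e heJ).2.1.1.1 x) ((hsh e' he'J).2.1.1.1 x),
      fun x y y' k k' => ?_⟩
    have hlv : lv (pair x y') = lv (pair x y) := by rw [lv_pair, lv_pair]
    have hle : lv (pair x y) ≤ ζ :=
      (mem_union.1 k).elim ((hrP e heJ).2 _) ((hrP e' he'J).2 _)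
    rcases hle.lt_or_eq with hlt | heq
    · exact (hsh e heJ).2.1.1.2 x y y'
        ((mem_union.1 k).elim id fun k => K2 e' he' e he _ k hlt)
        ((mem_union.1 k').elim id fun k' => K2 e' he' e he _ k' (hlv ▸ hlt))
    · exact (K1 e he e' he').2.1.2 x y y'
        (mem_union.2 ((mem_union.1 k).imp (fun k => mem_atl.2 ⟨k, heq⟩)
          fun k => mem_atl.2 ⟨k, heq⟩))
        (mem_union.2 ((mem_union.1 k').imp (fun k => mem_atl.2 ⟨k, hlv.trans heq⟩)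
          fun k => mem_atl.2 ⟨k, hlv.trans heq⟩))
  · obtain ⟨y, hy⟩ := mem_dom.1 hx
    obtain ⟨y', hy'⟩ := mem_dom.1 hx'
    have hlv : lv (pair x y') = lv (pair x y) := by rw [lv_pair, lv_pair]
    rcases ((hrP e heJ).2 _ hy).lt_or_eq with hlt | heq
    · exact mem_dom.2 ⟨y, K2 e he g hg _ hy hlt⟩
    · obtain ⟨w, hw⟩ := mem_dom.1 ((K1 e he e' he').2.2 hne x (mem_dom.2 ⟨y, mem_atl.2 ⟨hy, heq⟩⟩)
        (mem_dom.2 ⟨y', mem_atl.2 ⟨hy', hlv.trans heq⟩⟩) g hg)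
      exact mem_dom.2 ⟨w, (mem_atl.1 hw).1⟩

end Pool.Agent.Lib.MP_c8ac39_lc.WF
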