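import Pool.Agent.Lib.MP_c8ac39_lc.WF.Hz1

/-! # The second density argument -/

namespace Pool.Agent.Lib.MP_c8ac39_lc.WF

open Ordinal ZFSet Pool.Agent.Lib.MP_f9eb18_lc Pool.Agent.Lib.MP_f9eb18_lc.W
set_option linter.style.haveILetI false
set_option linter.unusedVariables false
set_option linter.unusedSectionVars false
set_option synthInstance.maxSize 100000

variable {N : Set V} [IsZFC N] {κ ζ ξ ρ : Ordinal.{0}} {U S L : V} {n : ℕ} {Λ W K u r p p' : V}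

/-- fresh columns -/
theorem Ctx.fresh (C : Ctx N κ U S L) (hζ : ζ.toZFSet ∈ S) (hB : Blk N n (ζ + ω) Λ W)
    (hK : K ∈ N) (hr : r ∈ N) (hN : Nice N (PP N κ S L) ζ (natZ n) K ξ u r p)
    (hW : Wide (natZ n) Λ K) (hρ : ρ < ζ) (hp' : p' ∈ PP N κ S L) (hs : p ⊆ p') :
    ∃ a ∈ N, (∀ i ∈ natZ n, ∀ g ∈ ρ.toZFSet, app a (pair i g) ∈ app K i ∧
        (∀ β, crd ζ i (app a (pair i g)) β ∉ dom p') ∧
        ∀ g' ∈ ρ.toZFSet, app a (pair i g) = app a (pair i g') → g = g') ∧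
      ∀ e ∈ Tup N (natZ n) K, (∀ i ∈ natZ n, ∃ g ∈ ρ.toZFSet, app e i = app a (pair i g)) →
        IsFn (app r e ∪ p') := by
  obtain ⟨hpN, hsh, hloc⟩ := C.mem_PP.1 hp'
  have hζκ : ζ < κ := by
    have h := (mem_ord (C.subS hζ)).2
    rwa [rank_toZFSet] at h
  have hin : Inac N ζ := by
    have h := (C.inS _ hζ).1
    rwa [rank_toZFSet] at h
  have hlim := hin.2.2.1
  have h0 : 0 < ζ := hlim.pos
  haveI : In N ζ := ⟨hin.2.1⟩
  haveI : In N p' := ⟨hpN⟩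
  haveI : In N K := ⟨hK⟩
  haveI : In N r := ⟨hr⟩
  have hdN : natZ n ∈ N := memV_of N _
  haveI : In N (natZ n) := ⟨hdN⟩
  have hρN : ρ.toZFSet ∈ N := IsZ.trans _ hin.2.1 _ (mem_toZFSet_iff.2 ⟨_, hρ, rfl⟩)
  haveI : In N ρ := ⟨hρN⟩
  have hTN : Tup N (natZ n) K ∈ N := memV_of N _
  obtain ⟨T, hT⟩ : ∃ T, T = Tup N (natZ n) K := ⟨_, rfl⟩
  unfold Nice at hN
  rw [← hT] at hTN hN ⊢
  haveI : In N T := ⟨hTN⟩
  obtain ⟨X, hXN, hXb, hX⟩ : ∃ X ∈ N, Bd N ζ X ∧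
      ∀ x v, pair x v ∈ p' → (fst x).rank = ζ → x ∈ X :=
    ⟨img fst (atl p' ζ), memV_of N _, (hloc ζ hζκ.le hin).2.img (memV_of N _) _,
      fun x v h1 h2 => mem_img.2 ⟨pair x v, mem_atl.2 ⟨h1, (lv_pair x v).trans h2⟩, fst_pair x v⟩⟩
  haveI : In N X := ⟨hXN⟩
  obtain ⟨Y, hYN, hYb, hY⟩ : ∃ Y ∈ N, Bd N ζ Y ∧
      ∀ x, x ∈ Y ↔ x ∈ X ∧ ∃ e ∈ T, x ∈ dom (app r e) := by
    have h : ZFSet.sep (fun x => ∃ e ∈ T, x ∈ dom (app r e)) X ∈ N := sep_mem N _ hXN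
    exact ⟨_, h, hXb.sub h0 h sep_subset, fun x => mem_sep⟩
  haveI : In N Y := ⟨hYN⟩
  obtain ⟨ch, hchN, -, -, hch⟩ := choice_fn N (fun x e => e ∈ T ∧ x ∈ dom (app r e)) hYN
    fun x hx => by
      obtain ⟨-, e, he, h⟩ := (hY x).1 hx
      exact ⟨e, IsZ.trans _ hTN _ he, he, h⟩
  haveI : In N ch := ⟨hchN⟩
  obtain ⟨B, hBN, hBb, hB1, hB2⟩ : ∃ B ∈ N, Bd N ζ B ∧ (∀ x ∈ X, snd (fst (snd x)) ∈ B) ∧
      ∀ x ∈ Y, ∀ i ∈ natZ n, app (app ch x) i ∈ B := by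
    refine ⟨img (fun x => snd (fst (snd x))) X ∪
      img (fun y => app (app ch (fst y)) (snd y)) (prod Y (natZ n)), memV_of N _,
      (hXb.img hXN _).union ((hYb.prod (bd_natZ hlim n) hYN hdN).img (memV_of N _) _),
      fun x hx => mem_union.2 (Or.inl (mem_img.2 ⟨x, hx, rfl⟩)), fun x hx i hi =>
        mem_union.2 (Or.inr (mem_img.2 ⟨pair x i, pair_mem_prod.2 ⟨hx, hi⟩, ?_⟩))⟩
    rw [fst_pair, snd_pair]
  haveI : In N B := ⟨hBN⟩
  obtain ⟨F, hFN, -, -, hF⟩ := choice_fn N (fun i f => IsInj f ρ.toZFSet (app K i \ B)) hdN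
    fun i hi => by
      obtain ⟨k, hk, rfl⟩ := mem_natZ.1 hi
      obtain ⟨h1, h2, h3, -⟩ := hB.2.2 k hk
      have h4 : ζ ≤ (app Λ (natZ k)).rank := le_self_add.trans h2.le
      have h5 := hW _ hi
      rw [← h1.toZFSet_rank_eq] at h5
      exact exists_inj_avoid h3.1 (memV_of N _) h5.1 h5.2 hBN (hBb.up hBN h0 h4 h3.1)
        (hρ.trans_le h4)
  haveI : In N F := ⟨hFN⟩
  obtain ⟨a, haN, ha⟩ : ∃ a ∈ N, ∀ i ∈ natZ n, ∀ g ∈ ρ.toZFSet,
      app a (pair i g) = app (app F i) g :=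
    ⟨lam (prod (natZ n) ρ.toZFSet) (fun y => app (app F (fst y)) (snd y)), memV_of N _,
      fun i hi g hg => by rw [app_lam _ (pair_mem_prod.2 ⟨hi, hg⟩), fst_pair, snd_pair]⟩
  have hav : ∀ i ∈ natZ n, ∀ g ∈ ρ.toZFSet, app a (pair i g) ∈ app K i ∧ app a (pair i g) ∉ B :=
    fun i hi g hg => by
      rw [ha i hi g hg]
      exact mem_sdiff.1 ((isFunc_iff.1 (hF i hi).1).2.2 g hg)
  refine ⟨a, haN, fun i hi g hg => ⟨(hav i hi g hg).1, fun β hβ => ?_, fun g' hg' h => ?_⟩,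
    fun e he hfr => ?_⟩
  · obtain ⟨v, hv⟩ := mem_dom.1 hβ
    have h := hB1 _ (hX _ v hv (by rw [crd, fst_pair, rank_toZFSet]))
    rw [crd, snd_pair, fst_pair, snd_pair] at h
    exact (hav i hi g hg).2 h
  · rw [ha i hi g hg, ha i hi g' hg'] at h
    exact (isInj_iff.1 (hF i hi)).2 g hg g' hg' h
  · obtain ⟨k1, k2, -, -, k5, k6, k7⟩ := hN.2 e he
    have hfe : IsFn (app r e) := (C.mem_PP.1 k1).2.1.1
    have key : ∀ x y y', pair x y ∈ app r e → pair x y' ∈ p' → y = y' := by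
      intro x y y' h1 h2
      refine hsh.1.2 x y y' (hs ?_) h2
      rcases (k2 _ h1).lt_or_eq with h3 | h3
      · exact k5 _ h1 h3
      · rw [lv_pair] at h3
        have hx : x ∈ Y := (hY x).2 ⟨hX x y' h2 h3, e, he, mem_dom.2 ⟨y, h1⟩⟩
        have h4 := (k7 _ (hch x hx).1).2 (fun i hi h => by
          obtain ⟨g, hg, h5⟩ := hfr i hi
          exact (hav i hi g hg).2 (h5 ▸ h ▸ hB2 x hx i hi)) x (mem_dom.2 ⟨y, h1⟩) (hch x hx).2
        refine k6 _ h1 fun e' he' => ?_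
        obtain ⟨y'', h5⟩ := mem_dom.1 (h4 e' he')
        rw [(k7 e' he').1.2 x y y'' (mem_union.2 (Or.inl h1)) (mem_union.2 (Or.inr h5))]
        exact h5
    refine ⟨fun x hx => (mem_union.1 hx).elim (hfe.1 x) (hsh.1.1 x), fun x y y' h1 h2 => ?_⟩
    rcases mem_union.1 h1 with h1 | h1 <;> rcases mem_union.1 h2 with h2 | h2
    · exact hfe.2 x y y' h1 h2
    · exact key x y y' h1 h2
    · exact (key x y' y h2 h1).symm
    · exact hsh.1.2 x y y' h1 h2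
theorem Ctx.hz2 (C : Ctx N κ U S L) (hζ : ζ.toZFSet ∈ S) (hB : Blk N n (ζ + ω) Λ W)
    (hL : ∀ i < n, (app Λ (natZ i)).rank < oat L ζ) (hK : K ∈ N) (hr : r ∈ N) (hξ : ξ < ζ)
    (hN : Nice N (PP N κ S L) ζ (natZ n) K ξ u r p) (hW : Wide (natZ n) Λ K) (hρ : ρ < ζ)
    (hp' : p' ∈ PP N κ S L) (hs : p ⊆ p') :
    ∃ p'' ∈ PP N κ S L, p' ⊆ p'' ∧ ∃ a ∈ N,
      (∀ i ∈ natZ n, ∀ g ∈ ρ.toZFSet, app a (pair i g) ∈ app K i ∧
        pair (crd ζ i (app a (pair i g)) ξ.toZFSet) g ∈ p'') ∧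
      ∀ e ∈ Tup N (natZ n) K, (∀ i ∈ natZ n, ∃ g ∈ ρ.toZFSet, app e i = app a (pair i g)) →
        app r e ⊆ p'' := by
  obtain ⟨a, haN, h1, h2⟩ := C.fresh hζ hB hK hr hN hW hρ hp' hs
  obtain ⟨hpN, hsh, -⟩ := C.mem_PP.1 hp'
  have hζκ : ζ < κ := by
    have h := (mem_ord (C.subS hζ)).2
    rwa [rank_toZFSet] at h
  have hin : Inac N ζ := by
    have h := (C.inS _ hζ).1
    rwa [rank_toZFSet] at h
  have hlim := hin.2.2.1
  have hξN : ξ.toZFSet ∈ N := IsZ.ord_mem_of_le N hin.2.1 hξ.le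
  have hρN : ρ.toZFSet ∈ N := IsZ.ord_mem_of_le N hin.2.1 hρ.le
  haveI : In N ζ := ⟨hin.2.1⟩
  haveI : In N ξ := ⟨hξN⟩
  haveI : In N ρ := ⟨hρN⟩
  haveI : In N r := ⟨hr⟩
  haveI : In N a := ⟨haN⟩
  have hnN : natZ n ∈ N := IsZ.natZ_mem N n
  haveI : In N (natZ n) := ⟨hnN⟩
  have hρb : Bd N ζ ρ.toZFSet := bd_of_rank hin hρN (by rwa [rank_toZFSet])
  -- the index set of the conditions that are added
  have hT : ∃ T ∈ N, Bd N ζ T ∧ ∀ e, e ∈ T ↔ e ∈ Tup N (natZ n) K ∧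
      ∀ i ∈ natZ n, ∃ g ∈ ρ.toZFSet, app e i = app a (pair i g) := by
    obtain ⟨K', hK'⟩ : ∃ K' : V, K' = lam (natZ n) fun i =>
      img (fun g => app a (pair i g)) ρ.toZFSet := ⟨_, rfl⟩
    have hK'N : K' ∈ N := by rw [hK']; exact memV_of N _
    haveI : In N K' := ⟨hK'N⟩
    have hm : ∀ i ∈ natZ n, ∀ x, x ∈ app K' i ↔ ∃ g ∈ ρ.toZFSet, x = app a (pair i g) :=
      fun i hi x => by
        rw [hK', app_lam _ hi, mem_img]
        exact ⟨fun ⟨g, hg, h⟩ => ⟨g, hg, h.symm⟩, fun ⟨g, hg, h⟩ => ⟨g, hg, h.symm⟩⟩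
    refine ⟨Tup N (natZ n) K', memV_of N _, bd_tup hlim hK'N n fun i hi => ?_, fun e => ?_⟩
    · haveI : In N i := ⟨IsZ.trans _ hnN _ hi⟩
      rw [hK', app_lam _ hi]
      exact hρb.img hρN _
    · rw [mem_Tup, mem_Tup]
      constructor
      · rintro ⟨e0, e1, e2, e3⟩
        refine ⟨⟨e0, e1, e2, fun i hi => ?_⟩, fun i hi => (hm i hi _).1 (e3 i hi)⟩
        obtain ⟨g, hg, h⟩ := (hm i hi _).1 (e3 i hi)
        rw [h]
        exact (h1 i hi g hg).1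
      · rintro ⟨⟨e0, e1, e2, -⟩, e3⟩
        exact ⟨e0, e1, e2, fun i hi => (hm i hi _).2 (e3 i hi)⟩
  obtain ⟨T, hTN, hTb, hT⟩ := hT
  haveI : In N T := ⟨hTN⟩
  have hre : ∀ e ∈ T, Cnd N κ S L (app r e) := fun e he =>
    C.mem_PP.1 (hN.2 e ((hT e).1 he).1).1
  -- the union of the top levels
  have hY : ∃ Y ∈ N, Bd N ζ Y ∧ ∀ x, x ∈ Y ↔ ∃ e ∈ T, x ∈ app r e ∧ lv x = ζ := by
    have hsN : (lam T fun e => atl (app r e) ζ) ∈ N := memV_of N _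
    haveI : In N (lam T fun e => atl (app r e) ζ) := ⟨hsN⟩
    refine ⟨bU T (app (lam T fun e => atl (app r e) ζ)), memV_of N _,
      Bd.bU hTN hsN hTb fun e he => ?_, fun x => ?_⟩
    · rw [app_lam _ he]
      exact ((hre e he).2.2 ζ hζκ.le hin).2
    · rw [mem_bU]
      refine exists_congr fun e => and_congr_right fun he => ?_
      rw [app_lam _ he, mem_atl]
  obtain ⟨Y, hYN, hYb, hY⟩ := hY
  -- the new values
  have hw : ∃ w ∈ N, Bd N ζ w ∧ ∀ x, x ∈ w ↔ ∃ i ∈ natZ n, ∃ g ∈ ρ.toZFSet,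
      x = pair (crd ζ i (app a (pair i g)) ξ.toZFSet) g := by
    have hPN : prod (natZ n) ρ.toZFSet ∈ N := memV_of N _
    refine ⟨img (fun y => pair (crd ζ (fst y) (app a y) ξ.toZFSet) (snd y))
      (prod (natZ n) ρ.toZFSet), memV_of N _,
      (Bd.prod (bd_natZ hlim n) hρb hnN hρN).img hPN _, fun x => ?_⟩
    rw [mem_img]
    constructor
    · rintro ⟨y, hy, rfl⟩
      obtain ⟨i, hi, g, hg, rfl⟩ := mem_prod.1 hy
      exact ⟨i, hi, g, hg, by rw [fst_pair, snd_pair]⟩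
    · rintro ⟨i, hi, g, hg, rfl⟩
      exact ⟨pair i g, pair_mem_prod.2 ⟨hi, hg⟩, by rw [fst_pair, snd_pair]⟩
  obtain ⟨w, hwN, hwb, hw⟩ := hw
  haveI : In N w := ⟨hwN⟩
  haveI : In N Y := ⟨hYN⟩
  have hwv : ∀ x v, pair x v ∈ w → ∃ i ∈ natZ n, v ∈ ρ.toZFSet ∧
      x = crd ζ i (app a (pair i v)) ξ.toZFSet := fun x v hx => by
    obtain ⟨i, hi, g, hg, h⟩ := (hw _).1 hx
    obtain ⟨rfl, rfl⟩ := pair_inj.1 h
    exact ⟨i, hi, hg, rfl⟩
  have k1 : ∀ x v v', pair x v ∈ w → pair x v' ∉ p' := fun x v v' hx hx' => by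
    obtain ⟨i, hi, hg, rfl⟩ := hwv x v hx
    exact (h1 i hi v hg).2.1 _ (mem_dom.2 ⟨v', hx'⟩)
  have k2 : ∀ x v v', pair x v ∈ w → pair x v' ∉ Y := fun x v v' hx hx' => by
    obtain ⟨i, hi, hg, rfl⟩ := hwv x v hx
    obtain ⟨e, he, he1, -⟩ := (hY _).1 hx'
    have h := (hN.2 e ((hT e).1 he).1).2.2.2.1 _ (mem_dom.2 ⟨v', he1⟩) (by rw [crd, fst_pair])
      (by rw [crd, snd_pair, snd_pair]; exact toZFSet_mem_toZFSet_iff.2 hξ)
    rw [crd, snd_pair, snd_pair] at h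
    exact mem_irrefl _ h
  have k3 : ∀ x v v', pair x v ∈ w → pair x v' ∈ w → v = v' := fun x v v' hx hx' => by
    obtain ⟨i, hi, hg, e1⟩ := hwv x v hx
    obtain ⟨i', hi', hg', e2⟩ := hwv x v' hx'
    obtain ⟨rfl, e3, -⟩ := crd_inj.1 (e1.symm.trans e2)
    exact (h1 i hi v hg).2.2 v' hg' e3
  have k4 : ∀ x v v', pair x v ∈ Y → pair x v' ∈ p' → v = v' := fun x v v' hx hx' => by
    obtain ⟨e, he, he1, -⟩ := (hY _).1 hx
    exact (h2 e ((hT e).1 he).1 ((hT e).1 he).2).2 x v v' (mem_union.2 (Or.inl he1))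
      (mem_union.2 (Or.inr hx'))
  have k5 : ∀ x v v', pair x v ∈ Y → pair x v' ∈ Y → v = v' := fun x v v' hx hx' => by
    obtain ⟨e, he, he1, -⟩ := (hY _).1 hx
    obtain ⟨e', he', he1', -⟩ := (hY _).1 hx'
    exact ((hN.2 e ((hT e).1 he).1).2.2.2.2.2.2 e' ((hT e').1 he').1).1.2 x v v'
      (mem_union.2 (Or.inl he1)) (mem_union.2 (Or.inr he1'))
  have hfn : IsFn (p' ∪ (w ∪ Y)) := by
    refine ⟨fun x hx => ?_, fun x v v' hx hx' => ?_⟩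
    · rcases mem_union.1 hx with hx | hx
      · exact hsh.1.1 x hx
      rcases mem_union.1 hx with hx | hx
      · obtain ⟨i, -, g, -, rfl⟩ := (hw x).1 hx
        rw [fst_pair, snd_pair]
      · obtain ⟨e, he, he1, -⟩ := (hY x).1 hx
        exact (hre e he).2.1.1.1 x he1
    · rw [mem_union, mem_union] at hx hx'
      rcases hx with hx | hx | hx <;> rcases hx' with hx' | hx' | hx'
      · exact hsh.1.2 x v v' hx hx'
      · exact absurd hx (k1 x v' v hx')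
      · exact (k4 x v' v hx' hx).symm
      · exact absurd hx' (k1 x v v' hx)
      · exact k3 x v v' hx hx'
      · exact absurd hx' (k2 x v v' hx)
      · exact k4 x v v' hx hx'
      · exact absurd hx (k2 x v' v hx')
      · exact k5 x v v' hx hx'
  have hζL := (C.ltL ζ hζκ).1
  have hq : w ∪ Y ∈ PP N κ S L := by
    refine C.pp_level hζ (memV_of N _)
      ⟨isFn_sub hfn fun x hx => mem_union.2 (Or.inr hx), fun x hx => ?_⟩ (fun x hx => ?_)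
      (hwb.union hYb)
    · rcases mem_union.1 hx with hx | hx
      · obtain ⟨i, hi, g, hg, rfl⟩ := (hw x).1 hx
        rw [lv_crd]
        simp only [crd, fst_pair, snd_pair]
        refine ⟨hζ, trivial, ?_, ?_⟩
        · rw [rank_pair_lt (C.limL hζκ), rank_pair_lt (C.limL hζκ), rank_toZFSet]
          have ha := rank_lt_of_mem ((hW i hi).1 (h1 i hi g hg).1)
          obtain ⟨k, hk, rfl⟩ := mem_natZ.1 hi
          refine ⟨⟨?_, ha.trans (hL k hk)⟩, hξ.trans hζL⟩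
          rw [rank_natZ]
          exact ((natCast_lt_omega0 k).trans hin.1).trans hζL
        · obtain ⟨e1, e2⟩ := mem_ord hg
          rw [e1]
          exact toZFSet_mem_toZFSet_iff.2 (e2.trans hρ)
      · obtain ⟨e, he, he1, -⟩ := (hY x).1 hx
        exact (hre e he).2.1.2 x he1
    · rcases mem_union.1 hx with hx | hx
      · obtain ⟨i, -, g, -, rfl⟩ := (hw x).1 hx
        exact lv_crd _ _ _ _
      · obtain ⟨e, -, -, he2⟩ := (hY x).1 hx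
        exact he2
  refine ⟨p' ∪ (w ∪ Y), C.pp_union hp' hq hfn, fun x hx => mem_union.2 (Or.inl hx), a, haN,
    fun i hi g hg => ⟨(h1 i hi g hg).1,
      mem_union.2 (Or.inr (mem_union.2 (Or.inl ((hw _).2 ⟨i, hi, g, hg, rfl⟩))))⟩,
    fun e he he' x hx => ?_⟩
  rcases ((hN.2 e he).2.1 x hx).lt_or_eq with hlt | heq
  · exact mem_union.2 (Or.inl (hs ((hN.2 e he).2.2.2.2.1 x hx hlt)))
  · exact mem_union.2 (Or.inr (mem_union.2 (Or.inr
      ((hY x).2 ⟨e, (hT e).2 ⟨he, he'⟩, hx, heq⟩))))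

end Pool.Agent.Lib.MP_c8ac39_lc.WF
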