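import Pool.Agent.Lib.MP_c8ac39_lc.WF.Hz2
import Pool.Agent.Lib.MP_c8ac39_lc.WF.Dm

/-! # The Harrington argument in the extension -/

namespace Pool.Agent.Lib.MP_c8ac39_lc.WF

open Ordinal ZFSet Pool.Agent.Lib.MP_f9eb18_lc Pool.Agent.Lib.MP_f9eb18_lc.W
set_option linter.style.haveILetI false
set_option linter.unusedVariables false
set_option linter.unusedSectionVars false
set_option synthInstance.maxSize 100000

variable {N : Set V} [IsZFC N] {κ ζ σ : Ordinal.{0}} {U S L G : V}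

theorem hz3_app {f g x : V} (hf : IsFn f) (hg : IsFn g) (h : f ⊆ g) (hx : x ∈ dom f) :
    app g x = app f x := hg.app_eq (h (hf.pair_app_mem hx))

theorem hz3_clm_mono {p q i a : V} (h : p ⊆ q) : clm ζ p i a ⊆ clm ζ q i a := fun w hw => by
  obtain ⟨x, -, y, -, rfl⟩ := mem_prod.1 (clm_sub hw)
  obtain ⟨a1, a2, a3⟩ := pair_mem_clm.1 hw
  exact pair_mem_clm.2 ⟨a1, a2, h a3⟩

theorem Ctx.har_gext (C : Ctx N κ U S L) (hG : Gen N (PP N κ S L) (LEo (PP N κ S L)) G)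
    (hζ : ζ.toZFSet ∈ S) (n : ℕ) (hσ : σ ≤ ζ) {χ : V} (hχ : χ ∈ gext N G)
    (hc : ∀ z ∈ gext N G, FT (natZ n) ζ z → app χ z ∈ σ.toZFSet) :
    ∃ ξ < ζ, ∃ u ∈ N, ∃ j ∈ σ.toZFSet,
      (∀ i ∈ natZ n, ∀ β < ξ, app (app u i) β.toZFSet ∈ ζ.toZFSet) ∧
      Har (gext N G) (natZ n) ζ χ ξ u j := by
  obtain ⟨P, hP⟩ : ∃ P, P = PP N κ S L := ⟨_, rfl⟩
  have hPN : P ∈ N := hP ▸ C.PP_mem
  have hζκ : ζ < κ := by simpa using (mem_ord (C.subS hζ)).2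
  have hiζ : Inac N ζ := by simpa using (C.inS _ hζ).1
  have hlζ := hiζ.2.2.1
  have hlt : ζ + ω < oat L ζ := by
    obtain ⟨l, l1, l2, W, -, l3⟩ := (C.ltL ζ hζκ).2 ζ (C.ltL ζ hζκ).1
    exact (l3.1.add_lt l2 l3.1.1).1.trans l1
  obtain ⟨Λ, W, hB, hL⟩ := exists_blk (C.ltL ζ hζκ).2 hlt n
  haveI : In N Λ := ⟨hB.1⟩
  haveI : In N ζ := ⟨hiζ.2.1⟩
  haveI : In N σ := ⟨IsZ.ord_mem_of_le N hiζ.2.1 hσ⟩
  haveI : In N P := ⟨hPN⟩
  obtain ⟨J, hJ⟩ : ∃ J, J = Tup N (natZ n) Λ := ⟨_, rfl⟩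
  have hJN : J ∈ N := hJ ▸ memV_of N _
  haveI : In N J := ⟨hJN⟩
  have hG' : Gen N P (LEo P) G := hP ▸ hG
  haveI := zfc_gext hPN hG'
  have hsub : N ⊆ gext N G := subset_gext hPN hG'
  haveI : In (gext N G) G := ⟨gen_mem_gext hPN hG'⟩
  haveI : In (gext N G) χ := ⟨hχ⟩
  haveI : In (gext N G) J := ⟨hsub hJN⟩
  haveI : In (gext N G) ζ := ⟨hsub hiζ.2.1⟩
  have hfn : ∀ p ∈ P, IsFn p := fun p hp => (C.mem_PP.1 (hP ▸ hp)).2.1.1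
  have hUf : IsFn (⋃₀ G : V) := isFn_of_dir fun x hx y hy => by
    obtain ⟨a, ha, xa⟩ := mem_sUnion.1 hx
    obtain ⟨b, hb, yb⟩ := mem_sUnion.1 hy
    obtain ⟨r, hr, r1, r2⟩ := gen_dir hG' ha hb
    exact ⟨r, hfn r (hG'.sub hr), r1 xa, r2 yb⟩
  have hft : ∀ f : V → V, FT (natZ n) ζ (lam (natZ n) fun i => clm ζ (⋃₀ G) i (f i)) := fun f =>
    ⟨isFn_lam _ _, dom_lam _ _, fun i hi => by
      rw [app_lam _ hi]; exact ⟨isFn_clm hUf, clm_sub⟩⟩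
  obtain ⟨F, hF⟩ : ∃ F, F = lam J fun z =>
    app χ (lam (natZ n) fun i => clm ζ (⋃₀ G) i (app z i)) := ⟨_, rfl⟩
  have hFσ : ∀ z ∈ J, app χ (lam (natZ n) fun i => clm ζ (⋃₀ G) i (app z i)) ∈ σ.toZFSet :=
    fun z hz => by
      haveI : In (gext N G) z := ⟨hsub (IsZ.trans _ hJN _ hz)⟩
      exact hc _ (memV_of _ _) (hft _)
  obtain ⟨R, hR, hm, hRF⟩ := exists_name hPN hG' (F := F) (hF ▸ memV_of _ _) hJN (mem_of N σ)
  haveI : In N R := ⟨hR⟩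
  obtain ⟨D, hD⟩ : ∃ D, D = lam J fun j => Dec P R σ.toZFSet j := ⟨_, rfl⟩
  have hDN : D ∈ N := hD ▸ memV_of N _
  haveI : In N D := ⟨hDN⟩
  have hDj : ∀ j ∈ J, app D j = Dec P R σ.toZFSet j := fun j hj => by rw [hD, app_lam _ hj]
  have hd : ∀ j ∈ J, OD P (app D j) := fun j hj => hDj j hj ▸ od_dec hm j
  obtain ⟨q, hq, hgood⟩ := gen_dense hPN hG' (fun q => Good P ζ J D q) fun p hp => by
    obtain ⟨q, q1, q2, -, q3⟩ := C.uc hζκ hJN hDN (fun j hj => (tup_rank (C.limL hζκ)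
      (hJ ▸ hj) fun i hi => by
        obtain ⟨k, hk, rfl⟩ := mem_natZ.1 hi
        exact (hL k hk).le).le) (hP ▸ hd) (hP ▸ hp)
    exact ⟨q, hP ▸ q1, q2, hP ▸ q3⟩
  have hqP := hG'.sub hq
  haveI : In N q := ⟨IsZ.trans _ hPN _ hqP⟩
  obtain ⟨c, hcc⟩ : ∃ c, c = lam (prod J P) fun w => (olst σ fun i =>
    pair (snd w ∪ hi q ζ) (pair (fst w) i.toZFSet) ∈ R).toZFSet := ⟨_, rfl⟩
  have hcN : c ∈ N := hcc ▸ memV_of N _
  haveI : In N c := ⟨hcN⟩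
  have hcr : ∀ w, (app c w).rank ≤ ζ := fun w => by
    by_cases hw : w ∈ prod J P
    · rw [hcc, app_lam _ hw, rank_toZFSet]
      exact (olst_le _ _).trans hσ
    · rw [app_of_not_mem_dom (by rwa [hcc, dom_lam]), rank_empty]
      exact zero_le
  obtain ⟨p, hp, K, hK, ξ, hξ, u, hu, r, hr, j, hj, hN, hW, hdec⟩ := gen_dense hPN hG'
    (fun p => ∃ K ∈ N, ∃ ξ < ζ, ∃ u ∈ N, ∃ r ∈ N, ∃ j ∈ N,
      Nice N P ζ (natZ n) K ξ u r p ∧ Wide (natZ n) Λ K ∧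
      ∀ e ∈ Tup N (natZ n) K, app r e ∪ hi q ζ ∈ app D e ∧ app c (pair e (app r e)) = j)
    fun p hp => by
      subst hP
      exact C.hz1 hζ hB hL hDN (hJ ▸ hd) hqP (hJ ▸ hgood) hcN hcr hp
  haveI : In N K := ⟨hK⟩
  haveI : In N r := ⟨hr⟩
  haveI : In N ξ := ⟨IsZ.ord_mem_of_le N hiζ.2.1 hξ.le⟩
  have hKJ : Tup N (natZ n) K ⊆ J := hJ ▸ Tup_mono fun i hi => (hW i hi).1
  have main : ∀ ρ < ζ, ∃ a ∈ gext N G, (∀ i ∈ natZ n, ∀ γ < ρ, IsFn (app a (pair i γ.toZFSet)) ∧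
      app a (pair i γ.toZFSet) ⊆ prod ζ.toZFSet ζ.toZFSet ∧
      (∀ β < ξ, app (app a (pair i γ.toZFSet)) β.toZFSet = app (app u i) β.toZFSet ∧
        app (app u i) β.toZFSet ∈ ζ.toZFSet) ∧
      app (app a (pair i γ.toZFSet)) ξ.toZFSet = γ.toZFSet) ∧
      ∀ w ∈ gext N G, IsFn w → dom w = natZ n → (∀ i ∈ natZ n, app w i ∈ ρ.toZFSet) →
        app χ (lam (natZ n) fun i => app a (pair i (app w i))) = j ∧ j ∈ σ.toZFSet := by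
    intro ρ hρ
    haveI : In N ρ := ⟨IsZ.ord_mem_of_le N hiζ.2.1 hρ.le⟩
    haveI : In (gext N G) ρ := ⟨hsub (mem_of N ρ)⟩
    obtain ⟨t, ht, a, ha, a1, a2⟩ := gen_below hPN hG' hp (fun t => ∃ a ∈ N,
      (∀ i ∈ natZ n, ∀ g ∈ ρ.toZFSet, app a (pair i g) ∈ app K i ∧
        pair (crd ζ i (app a (pair i g)) ξ.toZFSet) g ∈ t) ∧
      ∀ e ∈ Tup N (natZ n) K, (∀ i ∈ natZ n, ∃ g ∈ ρ.toZFSet, app e i = app a (pair i g)) →
        app r e ⊆ t) fun p' hp' hs => by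
      subst hP
      exact C.hz2 hζ hB hL hK hr hξ hN hW hρ hp' hs
    haveI : In (gext N G) a := ⟨hsub ha⟩
    have htU : t ⊆ ⋃₀ G := fun x hx => mem_sUnion.2 ⟨t, ht, hx⟩
    have htup : ∀ f : V → V, (∀ i ∈ natZ n, f i ∈ ρ.toZFSet) →
        lam (natZ n) (fun i => app a (pair i (f i))) ∈ Tup N (natZ n) K ∧
        app r (lam (natZ n) fun i => app a (pair i (f i))) ⊆ t := fun f hf => by
      have k := lam_mem_Tup (f := fun i => app a (pair i (f i))) hK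
        fun i hi => (a1 i hi _ (hf i hi)).1
      exact ⟨k, a2 _ k fun i hi => ⟨_, hf i hi, app_lam _ hi⟩⟩
    refine ⟨lam (prod (natZ n) ρ.toZFSet) fun w => clm ζ (⋃₀ G) (fst w) (app a w), memV_of _ _,
      fun i hi γ hγ => ?_, fun w _ _ _ hw => ?_⟩
    · have hγ' : γ.toZFSet ∈ ρ.toZFSet := toZFSet_mem_toZFSet_iff.2 hγ
      rw [app_lam _ (pair_mem_prod.2 ⟨hi, hγ'⟩), fst_pair]
      obtain ⟨k1, k2⟩ := htup (fun _ => γ.toZFSet) fun _ _ => hγ'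
      obtain ⟨b1, -, b3, -⟩ := hN.2 _ k1
      have b4 := b3 i hi
      rw [app_lam _ hi] at b4
      have b5 : IsFn (app u i) := b4 ▸ isFn_clm (hfn _ b1)
      refine ⟨isFn_clm hUf, clm_sub, fun β hβ => ?_, (isFn_clm hUf).app_eq (pair_mem_clm.2
        ⟨toZFSet_mem_toZFSet_iff.2 hξ, toZFSet_monotone hρ.le hγ', htU (a1 i hi _ hγ').2⟩)⟩
      have b6 : β.toZFSet ∈ dom (app u i) := hN.1 i hi ▸ toZFSet_mem_toZFSet_iff.2 hβ
      refine ⟨hz3_app b5 (isFn_clm hUf) (b4 ▸ hz3_clm_mono (k2.trans htU)) b6, ?_⟩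
      have b7 := b5.pair_app_mem b6
      rw [← b4] at b7
      rw [← b4]
      exact (pair_mem_clm.1 b7).2.1
    · obtain ⟨k1, k2⟩ := htup (app w) hw
      obtain ⟨e, he⟩ : ∃ e, e = lam (natZ n) fun i => app a (pair i (app w i)) := ⟨_, rfl⟩
      rw [← he] at k1 k2
      have heJ := hKJ k1
      obtain ⟨d1, d2⟩ := hdec e k1
      obtain ⟨s, hs, s1, s2⟩ := gen_dir hG' ht hq
      have d3 : app r e ∪ hi q ζ ∈ G := gen_sub hG' hs ((hd e heJ).1 d1) fun x hx =>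
        (mem_union.1 hx).elim (fun k => s1 (k2 k)) fun k => s2 (mem_hi.1 k).1
      have d4 : pair e (app χ (lam (natZ n) fun i => clm ζ (⋃₀ G) i (app e i))) ∈ F :=
        hF ▸ pair_mem_lam.2 ⟨heJ, rfl⟩
      obtain ⟨i, hi', d5⟩ := dec_gen hG' hm d3 (hDj e heJ ▸ d1)
        ⟨_, hFσ e heJ, (hRF e heJ _ (hFσ e heJ)).1 d4⟩
      rw [hcc, app_lam _ (pair_mem_prod.2 ⟨heJ, (hN.2 e k1).1⟩), fst_pair, snd_pair] at d2
      have d6 : olst σ (fun i => pair (app r e ∪ hi q ζ) (pair e i.toZFSet) ∈ R) < σ :=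
        (olst_le_of (mem_ord hi').2 (by rwa [← (mem_ord hi').1])).trans_lt (mem_ord hi').2
      have d7 := olst_spec d6
      have d8 : j ∈ σ.toZFSet := d2 ▸ toZFSet_mem_toZFSet_iff.2 d6
      rw [d2] at d7
      have d9 := (hRF e heJ j d8).2 ⟨_, d3, d7⟩
      rw [hF] at d9
      refine ⟨?_, d8⟩
      rw [(pair_mem_lam.1 d9).2]
      refine congrArg (app χ) (z2a_congr fun i hi => ?_)
      rw [app_lam _ (pair_mem_prod.2 ⟨hi, hw i hi⟩), fst_pair, he, app_lam _ hi]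
  obtain ⟨a, -, a1, a2⟩ := main 1 (one_lt_omega0.trans hiζ.1)
  have h01 : (0 : Ordinal.{0}).toZFSet ∈ (1 : Ordinal.{0}).toZFSet :=
    toZFSet_mem_toZFSet_iff.2 zero_lt_one
  refine ⟨ξ, hξ, u, hu, j, (a2 (lam (natZ n) fun _ => (0 : Ordinal.{0}).toZFSet) (memV_of _ _)
    (isFn_lam _ _) (dom_lam _ _) fun i hi => by rwa [app_lam _ hi]).2,
    fun i hi β hβ => ((a1 i hi 0 zero_lt_one).2.2.1 β hβ).2, fun ρ hρ => ?_⟩
  obtain ⟨a, ha, a1, a2⟩ := main ρ hρ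
  exact ⟨a, ha, fun i hi γ hγ => ⟨(a1 i hi γ hγ).1, (a1 i hi γ hγ).2.1,
    fun β hβ => ((a1 i hi γ hγ).2.2.1 β hβ).1, (a1 i hi γ hγ).2.2.2⟩,
    fun w hw w1 w2 w3 => (a2 w hw w1 w2 w3).1⟩
theorem Ctx.coh_gext (C : Ctx N κ U S L) (hG : Gen N (PP N κ S L) (LEo (PP N κ S L)) G)
    (n : ℕ) (hσ : σ < κ) : COH (gext N G) κ (natZ n) σ.toZFSet := by
  intro F hF hm
  obtain ⟨h, hh, h1, h2⟩ := C.dom_gext hG hF hm
  haveI : In N h := ⟨hh⟩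
  haveI : In N κ := ⟨C.inac.2.1⟩
  haveI : In N σ := ⟨IsZ.ord_mem_of_le N C.inac.2.1 hσ.le⟩
  obtain ⟨ζ, hζ, h3⟩ := C.stat _ (memV_of N (sq κ fun β => max (oat h β : Ordinal.{0}) σ))
    ((mp_sq le_rfl).2 fun β hβ => max_lt (h1 β hβ) hσ)
  have hζκ : ζ < κ := by simpa using (mem_ord (C.subS hζ)).2
  have hiζ : Inac N ζ := by simpa using (C.inS _ hζ).1
  have hl := hiζ.2.2.1
  rw [mp_sq hζκ.le] at h3
  refine ⟨ζ, hζκ, hl.pos, fun β hβ => (h2 β (hβ.trans hζκ)).trans_lt (max_lt_iff.1 (h3 β hβ)).1,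
    fun χ hχ hc => ?_⟩
  obtain ⟨ξ, hξ, u, hu, j, hj, k1, k2⟩ :=
    C.har_gext hG hζ n (max_lt_iff.1 (h3 0 hl.pos)).2.le hχ hc
  haveI : In N u := ⟨hu⟩
  haveI : In N ξ := ⟨IsZ.ord_mem_of_le N hiζ.2.1 hξ.le⟩
  have hb : Bd N ζ (prod (natZ n) ξ.toZFSet) := (bd_natZ hl n).prod
    (bd_of_rank hiζ (mem_of N ξ) (by rwa [rank_toZFSet])) (memV_of N _) (mem_of N ξ)
  have hs := hb.osup_lt (memV_of N _)
    (fun w => (oat h (app (app u (fst w)) (snd w)).rank : Ordinal.{0})) fun w hw => by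
      obtain ⟨i, hi, b, hb, rfl⟩ := mem_prod.1 hw
      rw [fst_pair, snd_pair, (mem_ord hb).1]
      exact (max_lt_iff.1 (h3 _ (mem_ord (k1 i hi _ (mem_ord hb).2)).2)).1
  refine ⟨ξ, hξ, _, hl.succ_lt hs, u, subset_gext C.PP_mem hG hu, j, hj, fun i hi β hβ => ?_, k2⟩
  refine Order.lt_succ_of_le ((h2 _ ((mem_ord (k1 i hi β hβ)).2.trans hζκ)).trans ?_)
  have k := le_osup (fun w => (oat h (app (app u (fst w)) (snd w)).rank : Ordinal.{0}))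
    (pair_mem_prod.2 ⟨hi, toZFSet_mem_toZFSet_iff.2 hβ⟩)
  simpa only [fst_pair, snd_pair] using k

end Pool.Agent.Lib.MP_c8ac39_lc.WF
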