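import Pool.Agent.Lib.MP_c8ac39_lc.WF.Fus
import Pool.Agent.Lib.MP_c8ac39_lc.WF.Nm

/-! # The measure generates an ultrafilter in the extension -/

namespace Pool.Agent.Lib.MP_c8ac39_lc.WF

open Ordinal ZFSet Pool.Agent.Lib.MP_f9eb18_lc Pool.Agent.Lib.MP_f9eb18_lc.W
set_option linter.style.haveILetI false
set_option linter.unusedVariables false
set_option linter.unusedSectionVars false
set_option synthInstance.maxSize 100000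

variable {N : Set V} [IsZFC N] {κ : Ordinal.{0}} {U S L G : V}

/-- conditions `x a` below `a` glue on a measure one set -/
theorem Ctx.glue_pp (C : Ctx N κ U S L) {A x : V} (hA : A ∈ U) (hx : x ∈ N)
    (h : ∀ a ∈ A, app x a ∈ PP N κ S L ∧ Low (app x a) a.rank) :
    ∃ B ∈ U, B ⊆ A ∧ ∃ r ∈ PP N κ S L, ∀ a ∈ B, app x a ⊆ r := by
  have gm := C.gm
  have hκ := C.inac
  have inter := gm.2.2.2.1
  obtain ⟨A1, hA1, n1⟩ := C.null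
  obtain ⟨A2, hA2, n2⟩ := gm.club C.memL C.mapL
  obtain ⟨A3, hA3, n3⟩ := gm.2.2.2.2.1 0 hκ.2.2.1.pos
  obtain ⟨B0, hB0, b0⟩ : ∃ B0 ∈ U, ∀ a ∈ B0, a ∈ A ∧ a ∉ S ∧ Mp L a.rank ∧ Inac N a.rank :=
    ⟨_, inter _ (inter _ (inter _ hA _ hA1) _ hA2) _ hA3, fun a ha => by
      simp only [mem_inter] at ha
      exact ⟨ha.1.1.1, n1 a ha.1.1.2, n2 a ha.1.2, (n3 a ha.2).2⟩⟩
  have cn : ∀ a ∈ B0, Cnd N κ S L (app x a) := fun a ha => C.mem_PP.1 (h a (b0 a ha).1).1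
  have lvl : ∀ a ∈ B0, ∀ z ∈ app x a, lv z < a.rank := by
    intro a ha z hz
    refine lt_of_le_of_ne ((h a (b0 a ha).1).2 z hz) fun e => (b0 a ha).2.1 ?_
    rw [(gm.ord hB0 ha).1, ← e]
    exact (C.lv_spec (cn a ha).2.1 hz).2.1
  have rk : ∀ a ∈ B0, ∀ z ∈ app x a, z.rank < a.rank := fun a ha z hz =>
    (C.rank_lt (cn a ha).2.1 hz).trans ((b0 a ha).2.2.1 _ (lvl a ha z hz))
  haveI : In N x := ⟨hx⟩
  obtain ⟨g, hg, -, -, gs⟩ := choice_fn N (fun a f => IsFn f ∧ dom f = a ∧ Mp f a.rank ∧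
      (∀ z ∈ app x a, ¬ Mp f (lv z)) ∧ ∀ w ∈ f, w.rank < a.rank)
      (IsZ.trans U gm.2.1 B0 hB0) fun a ha => by
    have ia := (b0 a ha).2.2.2
    obtain ⟨f0, hf0, m0, k0⟩ := ((cn a ha).2.2 a.rank (gm.ord hB0 ha).2.le ia).1
    haveI : In N f0 := ⟨hf0⟩
    haveI : In N a.rank := ⟨ia.2.1⟩
    refine ⟨sq a.rank fun β => (oat f0 β : Ordinal.{0}), memV_of N _, isFn_sq _ _,
      (dom_sq _ _).trans (gm.ord hB0 ha).1.symm, fun β hβ => ?_, fun z hz hm => ?_,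
      fun w hw => ?_⟩
    · rw [oat_sq _ hβ]
      exact m0 β hβ
    · refine k0 z hz (lvl a ha z hz) fun β hβ => ?_
      have := hm β hβ
      rwa [oat_sq _ (hβ.trans (lvl a ha z hz))] at this
    · obtain ⟨u, hu, rfl⟩ := mem_lam.1 hw
      have h1 : u.rank < a.rank := z5c_mem hu
      refine (rank_pair_lt ia.2.2.1).2 ⟨h1, ?_⟩
      exact (rank_toZFSet _).trans_lt (m0 _ h1)
  obtain ⟨y, hy, A4, hA4, n4⟩ := gm.2.2.2.2.2 x hx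
  obtain ⟨y', hy', A5, hA5, n5⟩ := gm.2.2.2.2.2 g hg
  obtain ⟨B, hB, b1⟩ : ∃ B ∈ U, ∀ a ∈ B, a ∈ B0 ∧ (∀ z, z ∈ app x a ↔ z ∈ y ∧ z.rank < a.rank) ∧
      ∀ z, z ∈ app g a ↔ z ∈ y' ∧ z.rank < a.rank :=
    ⟨_, inter _ (inter _ hB0 _ hA4) _ hA5, fun a ha => by
      simp only [mem_inter] at ha
      refine ⟨ha.1.1, fun z => ?_, fun z => ?_⟩
      · rw [← mem_cut, ← n4 a ha.1.2, mem_cut]
        exact ⟨fun hz => ⟨hz, rk a ha.1.1 z hz⟩, fun hz => hz.1⟩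
      · rw [← mem_cut, ← n5 a ha.2, mem_cut]
        exact ⟨fun hz => ⟨hz, (gs a ha.1.1).2.2.2.2 z hz⟩, fun hz => hz.1⟩⟩
  haveI : In N y := ⟨hy⟩
  haveI : In N y' := ⟨hy'⟩
  haveI : In N κ := ⟨hκ.2.1⟩
  have hr : cut y κ ∈ N := memV_of N _
  have hf : cut y' κ ∈ N := memV_of N _
  have two : ∀ u v : V, u.rank < κ → v.rank < κ → ∃ a ∈ B, u.rank < a.rank ∧ v.rank < a.rank := by
    intro u v hu hv
    obtain ⟨a, ha, h1, -⟩ := gm.unb hB (max_lt hu hv)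
    exact ⟨a, ha, max_lt_iff.1 h1⟩
  have sub : ∀ a ∈ B, app x a ⊆ cut y κ := fun a ha z hz =>
    mem_cut.2 ⟨(((b1 a ha).2.1 z).1 hz).1, (((b1 a ha).2.1 z).1 hz).2.trans (gm.ord hB ha).2⟩
  have up : ∀ z ∈ cut y κ, ∃ a ∈ B, z ∈ app x a := by
    intro z hz
    obtain ⟨a, ha, h1, -⟩ := gm.unb hB (mem_cut.1 hz).2
    exact ⟨a, ha, ((b1 a ha).2.1 z).2 ⟨(mem_cut.1 hz).1, h1⟩⟩
  have sh : Shape S L (cut y κ) := by
    refine ⟨isFn_of_dir fun u hu v hv => ?_, fun z hz => ?_⟩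
    · obtain ⟨a, ha, h1, h2⟩ := two u v (mem_cut.1 hu).2 (mem_cut.1 hv).2
      exact ⟨app x a, (cn a (b1 a ha).1).2.1.1, ((b1 a ha).2.1 u).2 ⟨(mem_cut.1 hu).1, h1⟩,
        ((b1 a ha).2.1 v).2 ⟨(mem_cut.1 hv).1, h2⟩⟩
    · obtain ⟨a, ha, h1⟩ := up z hz
      exact (cn a (b1 a ha).1).2.1.2 z h1
  have fn : IsFn (cut y' κ) := by
    refine isFn_of_dir fun u hu v hv => ?_
    obtain ⟨a, ha, h1, h2⟩ := two u v (mem_cut.1 hu).2 (mem_cut.1 hv).2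
    exact ⟨app g a, (gs a (b1 a ha).1).1, ((b1 a ha).2.2 u).2 ⟨(mem_cut.1 hu).1, h1⟩,
      ((b1 a ha).2.2 v).2 ⟨(mem_cut.1 hv).1, h2⟩⟩
  have val : ∀ a ∈ B, ∀ β < a.rank, (oat (cut y' κ) β : Ordinal.{0}) = oat (app g a) β := by
    intro a ha β hβ
    have g1 := gs a (b1 a ha).1
    have h1 : β.toZFSet ∈ dom (app g a) := by
      rw [g1.2.1, (gm.ord hB ha).1]
      exact toZFSet_mem_toZFSet_iff.2 hβ
    have h2 := ((b1 a ha).2.2 _).1 (g1.1.pair_app_mem h1)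
    have h3 := fn.app_eq (mem_cut.2 ⟨h2.1, h2.2.trans (gm.ord hB ha).2⟩)
    unfold oat
    rw [h3]
  refine ⟨B, hB, fun a ha => (b0 a (b1 a ha).1).1, cut y κ, C.mem_PP.2 ⟨hr, sh, fun μ hμ iμ => ?_⟩,
    sub⟩
  rcases hμ.eq_or_lt with rfl | hμ
  · refine ⟨⟨_, hf, fun β hβ => ?_, fun z hz _ hm => ?_⟩, fun f _ _ => ⟨0, hκ.2.2.1.pos,
      fun z hz => absurd (mem_atl.1 hz).2 (C.lv_spec sh (mem_atl.1 hz).1).2.2.1.ne⟩⟩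
    · obtain ⟨a, ha, h1, -⟩ := gm.unb hB hβ
      rw [val a ha β h1]
      exact ((gs a (b1 a ha).1).2.2.1 β h1).trans (gm.ord hB ha).2
    · obtain ⟨a, ha, h1⟩ := up z hz
      refine (gs a (b1 a ha).1).2.2.2.1 z h1 fun β hβ => ?_
      rw [← val a ha β (hβ.trans (lvl a (b1 a ha).1 z h1))]
      exact hm β hβ
  · obtain ⟨a, ha, h1, -⟩ := gm.unb hB hμ
    refine Loc.mono iμ.2.2.1.pos iμ.2.1 ((cn a (b1 a ha).1).2.2 μ hμ.le iμ) hr fun z hz hl => ?_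
    exact ((b1 a ha).2.1 z).2 ⟨(mem_cut.1 hz).1,
      (C.rank_lt sh hz).trans ((b0 a (b1 a ha).1).2.2.1 _ (hl.trans_lt h1))⟩
theorem Ctx.ml_dense (C : Ctx N κ U S L) {R p : V} (hR : R ∈ N) (hm : Mon (PP N κ S L) R)
    {γ : Ordinal.{0}} (hγ : γ < κ) (hp : p ∈ PP N κ S L) : ∃ r ∈ PP N κ S L, p ⊆ r ∧
      ((∃ A ∈ U, ∃ i ∈ γ.toZFSet, ∀ a ∈ A, pair r (pair a i) ∈ R) ∨
        ∃ a ∈ κ.toZFSet, ∀ q ∈ PP N κ S L, r ⊆ q → ¬ ∃ i ∈ γ.toZFSet, pair q (pair a i) ∈ R) := by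
  have hκ : κ.toZFSet ∈ N := C.inac.2.1
  have hγN : γ.toZFSet ∈ N := IsZ.ord_mem_of_le N hκ hγ.le
  have hP := C.PP_mem
  have hfus := @Ctx.fusion N _ κ U S L
  have hglue := @Ctx.glue_pp N _ κ U S L
  have hlo := fun (q : V) (α : Ordinal.{0}) => C.pp_lo (p := q) (α := α)
  have hlv : ∀ q ∈ PP N κ S L, ∀ y ∈ q, lv y < κ := fun q hq y hy =>
    (C.lv_spec (C.mem_PP.1 hq).2.1 hy).2.2.1
  generalize PP N κ S L = P at hm hp hP hfus hglue hlo hlv ⊢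
  haveI : In N κ := ⟨hκ⟩
  haveI : In N γ := ⟨hγN⟩
  haveI : In N P := ⟨hP⟩
  haveI : In N R := ⟨hR⟩
  obtain ⟨q, hq, hpq, h, hh, hmp, hgood⟩ := hfus C hκ
    (memV_of N (lam κ.toZFSet fun j => Dec P R γ.toZFSet j))
    (fun j hj => by rw [app_lam _ hj]; exact od_dec hm j) hp
  obtain ⟨A1, hA1, H1⟩ := C.gm.club hh hmp
  obtain ⟨A2, hA2, H2⟩ := C.gm.2.2.2.2.1 0 (lt_of_le_of_lt zero_le hγ)
  have hA := C.gm.2.2.2.1 A1 hA1 A2 hA2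
  have hAN : A1 ∩ A2 ∈ N := IsZ.trans _ C.gm.2.1 _ hA
  haveI : In N q := ⟨IsZ.trans _ hP _ hq⟩
  obtain ⟨x, hx, -, -, Hx⟩ := choice_fn N (fun a r => r ∈ P ∧ Low r a.rank ∧ lo q a.rank ⊆ r ∧
      r ∪ hi q a.rank ∈ Dec P R γ.toZFSet a) hAN (fun a ha => by
    obtain ⟨e1, e2⟩ := C.gm.ord hA ha
    have haκ : a ∈ κ.toZFSet := (C.gm.2.2.1 _ hA).1 ha
    obtain ⟨r, r1, r2, r3, r4⟩ := hgood a.rank e2 (H2 a (mem_inter.1 ha).2).1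
      (H1 a (mem_inter.1 ha).1) a
      (mem_cut.2 ⟨haκ, (C.ltL _ e2).1.trans (lt_add_one _)⟩) _ (hlo q a.rank hq e2.le) low_lo
    rw [app_lam _ haκ] at r4
    exact ⟨r, IsZ.trans _ hP _ r1, r1, r2, r3, r4⟩)
  haveI : In N x := ⟨hx⟩
  obtain ⟨A3, hA3, y, Hy⟩ := C.gm.const (memV_of N (lam κ.toZFSet fun a =>
      (olst γ fun i => pair (app x a ∪ hi q a.rank) (pair a i.toZFSet) ∈ R).toZFSet))
    (C.inac.2.2.1.add_one_lt hγ) (fun a ha => by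
      rw [app_lam _ ha, rank_toZFSet]
      exact (olst_le _ _).trans_lt (lt_add_one _))
  obtain ⟨B, hB, hBs, r, hr, Hr⟩ := hglue C (C.gm.2.2.2.1 _ hA A3 hA3) hx
    (fun a ha => ⟨(Hx a (mem_inter.1 ha).1).1, (Hx a (mem_inter.1 ha).1).2.1⟩)
  have hqr : q ⊆ r := fun z hz => by
    obtain ⟨a, ha, h1, -⟩ := C.gm.unb hB (hlv q hq z hz)
    exact Hr a ha ((Hx a (mem_inter.1 (hBs ha)).1).2.2.1 (mem_lo.2 ⟨hz, h1.le⟩))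
  have hsub : ∀ a ∈ B, app x a ∪ hi q a.rank ⊆ r := fun a ha z hz => by
    rcases mem_union.1 hz with h1 | h1
    · exact Hr a ha h1
    · exact hqr (mem_hi.1 h1).1
  have hy : ∀ a ∈ B, (olst γ fun i =>
      pair (app x a ∪ hi q a.rank) (pair a i.toZFSet) ∈ R).toZFSet = y := fun a ha => by
    have h1 := Hy a (mem_inter.1 (hBs ha)).2
    rwa [app_lam _ ((C.gm.2.2.1 _ hB).1 ha)] at h1
  refine ⟨r, hr, fun z hz => hqr (hpq hz), ?_⟩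
  by_cases hc : y ∈ γ.toZFSet
  · refine Or.inl ⟨B, hB, y, hc, fun a ha => ?_⟩
    have h1 := hy a ha
    have h2 := olst_spec (toZFSet_mem_toZFSet_iff.1 (h1.symm ▸ hc))
    rw [h1] at h2
    exact hm _ (mem_sep.1 (Hx a (mem_inter.1 (hBs ha)).1).2.2.2).1 r hr (hsub a ha) _ h2
  · obtain ⟨a, ha⟩ := (nonempty_def _).1 (C.gm.2.2.1 _ hB).2
    refine Or.inr ⟨a, (C.gm.2.2.1 _ hB).1 ha, fun q' hq' hs => ?_⟩
    rcases (mem_sep.1 (Hx a (mem_inter.1 (hBs ha)).1).2.2.2).2 with ⟨i, hi, h1⟩ | h1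
    · obtain ⟨e1, e2⟩ := mem_ord hi
      rw [e1] at h1
      exact absurd (hy a ha ▸ toZFSet_mem_toZFSet_iff.2 ((olst_le_of e2 h1).trans_lt e2)) hc
    · exact h1 q' hq' fun z hz => hs (hsub a ha hz)
theorem Ctx.ml (C : Ctx N κ U S L) (hG : Gen N (PP N κ S L) (LEo (PP N κ S L)) G) {f : V}
    (hf : f ∈ gext N G) {γ : Ordinal.{0}} (hγ : γ < κ)
    (h : ∀ a ∈ κ.toZFSet, ∃ i ∈ γ.toZFSet, pair a i ∈ f) :
    ∃ A ∈ U, ∃ i ∈ γ.toZFSet, ∀ a ∈ A, pair a i ∈ f := by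
  have hκ : κ.toZFSet ∈ N := C.inac.2.1
  have hγN : γ.toZFSet ∈ N := IsZ.ord_mem_of_le N hκ hγ.le
  have hP := C.PP_mem
  obtain ⟨R, hR, hm, H⟩ := exists_name hP hG hf hκ hγN
  have hd := fun (p : V) => C.ml_dense (p := p) hR hm hγ
  generalize PP N κ S L = P at hm hP hG hd
  haveI : In N κ := ⟨hκ⟩
  haveI : In N γ := ⟨hγN⟩
  haveI : In N P := ⟨hP⟩
  haveI : In N R := ⟨hR⟩
  haveI : In N U := ⟨C.gm.2.1⟩
  obtain ⟨r, hr, ⟨A, hA, i, hi, h1⟩ | ⟨a, ha, h1⟩⟩ := gen_dense hP hG (fun r =>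
    (∃ A ∈ U, ∃ i ∈ γ.toZFSet, ∀ a ∈ A, pair r (pair a i) ∈ R) ∨
      ∃ a ∈ κ.toZFSet, ∀ q ∈ P, r ⊆ q → ¬ ∃ i ∈ γ.toZFSet, pair q (pair a i) ∈ R) hd
  · exact ⟨A, hA, i, hi, fun a ha =>
      (H a ((C.gm.2.2.1 _ hA).1 ha) i hi).2 ⟨r, hr, h1 a ha⟩⟩
  · obtain ⟨i, hi, h2⟩ := h a ha
    obtain ⟨p, hp, h3⟩ := (H a ha i hi).1 h2
    obtain ⟨s, hs, h4, h5⟩ := gen_dir hG hp hr
    exact absurd ⟨i, hi, hm p (hG.sub hp) s (hG.sub hs) h4 _ h3⟩ (h1 s (hG.sub hs) h5)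

end Pool.Agent.Lib.MP_c8ac39_lc.WF
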