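import Pool.Agent.Lib.MP_c8ac39_lc.WF.Gm

/-! # Measurability from a generating family -/

namespace Pool.Agent.Lib.MP_c8ac39_lc.WF

open Ordinal ZFSet Pool.Agent.Lib.MP_f9eb18_lc Pool.Agent.Lib.MP_f9eb18_lc.W
set_option linter.style.haveILetI false
set_option linter.unusedVariables false
set_option linter.unusedSectionVars false
set_option synthInstance.maxSize 100000

theorem meas_of_ml {N N' : Set V} [IsZFC N'] {κ : Ordinal.{0}} {U : V} (h : GM N κ U)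
    (hU : U ∈ N') (hk : RegK N' κ)
    (ml : ∀ f ∈ N', ∀ γ < κ, (∀ a ∈ κ.toZFSet, ∃ i ∈ γ.toZFSet, pair a i ∈ f) →
      ∃ A ∈ U, ∃ i ∈ γ.toZFSet, ∀ a ∈ A, pair a i ∈ f) : Meas N' κ := by
  have hκ : κ.toZFSet ∈ N' := hk.2.1
  have hlim : Order.IsSuccLimit κ := hk.2.2.1
  haveI : In N' κ := ⟨hκ⟩
  haveI : In N' U := ⟨hU⟩
  obtain ⟨W, hWN, hW⟩ : ∃ W ∈ N', ∀ X, X ∈ W ↔ (X ∈ N' ∧ X ⊆ κ.toZFSet) ∧ ∃ A ∈ U, A ⊆ X :=
    ⟨ZFSet.sep (fun X => ∃ A ∈ U, A ⊆ X) (pw N' κ.toZFSet), memV_of N' _,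
      fun X => by rw [mem_sep, mem_pw]⟩
  have hne : ∀ A ∈ U, ∃ a, a ∈ A := fun A hA => (nonempty_def _).1 (h.2.2.1 A hA).2
  refine ⟨hk.1, hκ, fun hs => ?_, W, hWN, fun A hA => ((hW A).1 hA).1.2, ?_, fun h0 => ?_,
    fun A hA B hB hAB hBκ => ?_, fun A hA hAκ => ?_, fun x hx => ?_, fun F hF hFW hs => ?_⟩
  · have h2 := (hk.bd hs).rank_lt hκ fun x hx => (mem_ord hx).2
    rw [rank_toZFSet] at h2
    exact h2.false
  · obtain ⟨A, hA, -⟩ := h.2.2.2.2.1 0 h.1.2.2.1.pos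
    exact (hW _).2 ⟨⟨hκ, subset_rfl⟩, A, hA, (h.2.2.1 A hA).1⟩
  · obtain ⟨-, A, hA, hs⟩ := (hW _).1 h0
    obtain ⟨a, ha⟩ := hne A hA
    exact notMem_empty a (hs ha)
  · obtain ⟨-, C, hC, hs⟩ := (hW _).1 hA
    exact (hW _).2 ⟨⟨hB, hBκ⟩, C, hC, hs.trans hAB⟩
  · haveI : In N' A := ⟨hA⟩
    have h2 : (2 : Ordinal.{0}) < κ := lt_trans (by exact_mod_cast natCast_lt_omega0 2) hk.1
    haveI : In N' (2 : Ordinal.{0}) := ⟨IsZ.ord_mem_of_le N' hκ h2.le⟩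
    obtain ⟨B, hB, i, -, H⟩ := ml _ (memV_of N' (rel κ.toZFSet (2 : Ordinal.{0}).toZFSet
      fun b i => (i = ∅ ↔ b ∈ A))) 2 h2 fun a ha => by
        by_cases k : a ∈ A
        · have e : ((0 : Ordinal.{0}).toZFSet : V) ∈ (2 : Ordinal.{0}).toZFSet :=
            toZFSet_mem_toZFSet_iff.2 zero_lt_two
          exact ⟨_, e, pair_mem_rel.2 ⟨ha, e, iff_of_true (by simp) k⟩⟩
        · have e : ((1 : Ordinal.{0}).toZFSet : V) ∈ (2 : Ordinal.{0}).toZFSet :=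
            toZFSet_mem_toZFSet_iff.2 one_lt_two
          refine ⟨_, e, pair_mem_rel.2 ⟨ha, e, iff_of_false (fun e1 => ?_) k⟩⟩
          have e2 : ((0 : Ordinal.{0}).toZFSet : V) ∈ (1 : Ordinal.{0}).toZFSet :=
            toZFSet_mem_toZFSet_iff.2 zero_lt_one
          rw [e1] at e2
          exact notMem_empty _ e2
    by_cases k : i = ∅
    · exact Or.inl ((hW _).2 ⟨⟨hA, hAκ⟩, B, hB, fun a ha => (pair_mem_rel.1 (H a ha)).2.2.1 k⟩)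
    · refine Or.inr ((hW _).2 ⟨⟨memV_of N' _, fun a ha => (mem_sdiff.1 ha).1⟩, B, hB,
        fun a ha => ?_⟩)
      obtain ⟨h1, -, h3⟩ := pair_mem_rel.1 (H a ha)
      exact mem_sdiff.2 ⟨h1, fun k' => k (h3.2 k')⟩
  · obtain ⟨-, A, hA, hs⟩ := (hW _).1 hx
    obtain ⟨a, ha⟩ := hne A hA
    obtain ⟨b, hb, hab, -⟩ := h.unb hA (h.ord hA ha).2
    rw [mem_singleton.1 (hs ha), mem_singleton.1 (hs hb)] at hab
    exact hab.false
  · obtain ⟨α, hα, e, he, hi⟩ := hs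
    haveI : In N' F := ⟨hF⟩
    haveI : In N' e := ⟨he⟩
    haveI : In N' α := ⟨IsZ.ord_mem_of_le N' hκ hα.le⟩
    have hα1 : α + 1 < κ := hlim.add_one_lt hα
    have e1 : ∀ X ∈ F, app e X ∈ α.toZFSet := (isFunc_iff.1 hi.1).2.2
    have e2 := (isInj_iff.1 hi).2
    obtain ⟨B, hB, i, -, H⟩ := ml _ (memV_of N' (rel κ.toZFSet (α + 1).toZFSet
      fun b i => (i = α.toZFSet ∧ ∀ X ∈ F, b ∈ X) ∨ ∃ X ∈ F, app e X = i ∧ b ∉ X)) (α + 1) hα1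
      fun a ha => by
        by_cases k : ∀ X ∈ F, a ∈ X
        · have e3 : (α.toZFSet : V) ∈ (α + 1).toZFSet := toZFSet_mem_toZFSet_iff.2 (lt_add_one α)
          exact ⟨_, e3, pair_mem_rel.2 ⟨ha, e3, Or.inl ⟨rfl, k⟩⟩⟩
        · push Not at k
          obtain ⟨X, hX, k⟩ := k
          have e3 : app e X ∈ (α + 1).toZFSet :=
            toZFSet_subset_toZFSet_iff.2 (lt_add_one α).le (e1 X hX)
          exact ⟨_, e3, pair_mem_rel.2 ⟨ha, e3, Or.inr ⟨X, hX, rfl, k⟩⟩⟩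
    refine (hW _).2 ⟨⟨memV_of N' _, fun a ha => (mem_sep.1 ha).1⟩, B, hB, fun a ha => ?_⟩
    obtain ⟨h1, -, h3⟩ := pair_mem_rel.1 (H a ha)
    rcases h3 with h3 | ⟨X, hX, eX, -⟩
    · exact mem_sep.2 ⟨h1, h3.2⟩
    · exfalso
      obtain ⟨-, A, hA, hs⟩ := (hW _).1 (hFW hX)
      obtain ⟨b, hb⟩ := hne _ (h.2.2.2.1 B hB A hA)
      obtain ⟨b1, b2⟩ := mem_inter.1 hb
      rcases (pair_mem_rel.1 (H b b1)).2.2 with ⟨k, -⟩ | ⟨Y, hY, eY, k⟩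
      · have e3 := e1 X hX
        rw [eX, k] at e3
        exact mem_irrefl _ e3
      · rw [e2 Y hY X hX (eY.trans eX.symm)] at k
        exact k (hs b2)

end Pool.Agent.Lib.MP_c8ac39_lc.WF
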