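import Pool.Agent.Lib.MP_c8ac39_lc.WF.Tr1

/-! # The strong subtree given by a system of extension maps -/

namespace Pool.Agent.Lib.MP_c8ac39_lc.WF

open Ordinal ZFSet Pool.Agent.Lib.MP_f9eb18_lc Pool.Agent.Lib.MP_f9eb18_lc.W
set_option linter.style.haveILetI false
set_option linter.unusedVariables false
set_option linter.unusedSectionVars false
set_option synthInstance.maxSize 100000

/-- `B` cuts the levels from `ξ₀` on into the intervals `[b, z b]`, `b ∈ B` -/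
def Cuts (κ ξ₀ : Ordinal.{0}) (z B : V) : Prop :=
  B ⊆ κ.toZFSet ∧ (∀ b ∈ B, ξ₀ ≤ b.rank ∧ b.rank < oat z b.rank ∧ (oat z b.rank : Ordinal.{0}) < κ) ∧
    (∀ η < κ, ξ₀ ≤ η → ∃ b ∈ B, b.rank ≤ η ∧ η ≤ oat z b.rank) ∧
    ∀ b ∈ B, ∀ b' ∈ B, b.rank < b'.rank → oat z b.rank < b'.rank
/-- the subtree that follows `t` and then the maps `e` -/
noncomputable def subT (T t B e : V) : V :=
  ZFSet.sep (fun s => (s ⊆ t ∨ t ⊆ s) ∧ ∀ b ∈ B, b.rank ≤ lh s →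
    s ⊆ app e (restr s b) ∨ app e (restr s b) ⊆ s) T
/-- the set of splitting levels -/
noncomputable def topS (z B : V) : V := img (fun b => (oat z b.rank : Ordinal.{0}).toZFSet) B
/-- `e` extends the nodes above `t` of level `b ∈ B` to level `z b` -/
def ExtM (T t z B e : V) : Prop :=
  ∀ b ∈ B, ∀ s ∈ T, lh s = b.rank → t ⊆ s → app e s ∈ T ∧ s ⊆ app e s ∧ lh (app e s) = oat z b.rank

instance uf_subT {F : Fr} {a b c e : Set V → (ℕ → V) → V} [UF F a] [UF F b] [UF F c] [UF F e] :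
    UF F (fun M v => subT (a M v) (b M v) (c M v) (e M v)) := by
  have := UF.lift (F := F) b; have := UF.lift (F := F) c; have := UF.lift (F := F) e
  unfold subT; infer_instance
instance uf_topS {F : Fr} {a b : Set V → (ℕ → V) → V} [UF F a] [UF F b] :
    UF F (fun M v => topS (a M v) (b M v)) := by
  have := UF.lift (F := F) a; unfold topS; infer_instance

variable {N : Set V} [IsZFC N] {κ ξ₀ : Ordinal.{0}} {T t z B e s : V}

theorem exists_cuts (hκ : κ.toZFSet ∈ N) (hz : z ∈ N)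
    (h : ∀ ξ < κ, ξ₀ ≤ ξ → ξ < oat z ξ ∧ (oat z ξ : Ordinal.{0}) < κ) :
    ∃ B ∈ N, Cuts κ ξ₀ z B := by
  classical
  by_cases h0 : ξ₀ < κ
  swap
  · refine ⟨∅, IsZ.empty_mem N, fun x hx => absurd hx (ZFSet.notMem_empty x),
      fun x hx => absurd hx (ZFSet.notMem_empty x),
      fun η h1 h2 => absurd (h2.trans_lt h1) h0, fun x hx => absurd hx (ZFSet.notMem_empty x)⟩
  haveI : In N κ := ⟨hκ⟩
  haveI : In N z := ⟨hz⟩
  haveI : In N ξ₀ := ⟨IsZ.ord_mem_of_le N hκ h0.le⟩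
  obtain ⟨f, hf, hr⟩ : ∃ f : Ordinal.{0} → Ordinal.{0},
      (∀ η, f η = if ξ₀ ≤ η ∧ ¬ ∃ ξ < η, (oat (sq η f) ξ : Ordinal.{0}) = 1 ∧ η ≤ oat z ξ
        then 1 else 0) ∧ sq κ f ∈ N :=
    ⟨orec fun η r => if ξ₀ ≤ η ∧ ¬ ∃ ξ < η, (oat r ξ : Ordinal.{0}) = 1 ∧ η ≤ oat z ξ
      then 1 else 0, fun η => orec_eq _ η, memV_of N _⟩
  have key : ∀ η, f η = 1 ↔ ξ₀ ≤ η ∧ ¬ ∃ ξ < η, f ξ = 1 ∧ η ≤ oat z ξ := by
    intro η
    have e : (∃ ξ < η, (oat (sq η f) ξ : Ordinal.{0}) = 1 ∧ η ≤ oat z ξ) ↔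
        ∃ ξ < η, f ξ = 1 ∧ η ≤ oat z ξ :=
      exists_congr fun ξ => and_congr_right fun hξ => by rw [oat_sq f hξ]
    rw [hf η, e]
    split_ifs with hc
    · exact iff_of_true rfl hc
    · exact iff_of_false zero_ne_one hc
  obtain ⟨r, hr'⟩ : ∃ r, r = sq κ f := ⟨_, rfl⟩
  haveI : In N r := ⟨hr' ▸ hr⟩
  have mem : ∀ b, b ∈ ZFSet.sep (fun b => (oat r b.rank : Ordinal.{0}) = 1) κ.toZFSet ↔
      b ∈ κ.toZFSet ∧ f b.rank = 1 := fun b => by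
    rw [mem_sep]
    refine and_congr_right fun hb => ?_
    rw [hr', oat_sq f ((rank_lt_of_mem hb).trans_eq (rank_toZFSet _))]
  refine ⟨ZFSet.sep (fun b => (oat r b.rank : Ordinal.{0}) = 1) κ.toZFSet, sep_mem N _ hκ,
    fun b hb => ((mem b).1 hb).1, fun b hb => ?_, fun η h1 h2 => ?_, fun b hb b' hb' hlt => ?_⟩
  · obtain ⟨b1, b2⟩ := (mem b).1 hb
    have b3 := ((key _).1 b2).1
    exact ⟨b3, h _ ((rank_lt_of_mem b1).trans_eq (rank_toZFSet _)) b3⟩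
  · by_cases hη : f η = 1
    · refine ⟨η.toZFSet, (mem _).2 ⟨toZFSet_mem_toZFSet_iff.2 h1, by rwa [rank_toZFSet]⟩, ?_⟩
      rw [rank_toZFSet]
      exact ⟨le_rfl, (h η h1 h2).1.le⟩
    · rw [key, not_and, not_not] at hη
      obtain ⟨ξ, x1, x2, x3⟩ := hη h2
      refine ⟨ξ.toZFSet, (mem _).2 ⟨toZFSet_mem_toZFSet_iff.2 (x1.trans h1),
        by rwa [rank_toZFSet]⟩, ?_⟩
      rw [rank_toZFSet]
      exact ⟨x1.le, x3⟩
  · by_contra hc
    exact ((key _).1 ((mem b').1 hb').2).2 ⟨_, hlt, ((mem b).1 hb).2, not_lt.1 hc⟩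
theorem trs1_ord (hB : Cuts κ ξ₀ z B) {b : V} (hb : b ∈ B) : b.rank.toZFSet = b := by
  obtain ⟨a, -, rfl⟩ := mem_toZFSet_iff.1 (hB.1 hb)
  rw [rank_toZFSet]
theorem trs1_base (hT : IsTree κ T) (ht : t ∈ T) (hB : Cuts κ (lh t) z B) (hs : s ∈ T)
    (hc : s ⊆ t ∨ t ⊆ s) {b : V} (hb : b ∈ B) (hl : b.rank ≤ lh s) :
    restr s b ∈ T ∧ lh (restr s b) = b.rank ∧ t ⊆ restr s b ∧ restr s b ⊆ s ∧
      Lv κ (restr s b) b.rank := by
  have h1 := (hB.2.1 b hb).1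
  have ls := hT.lv hs
  have lt := hT.lv ht
  have hts : t ⊆ s := by
    rcases hc with hc | hc
    · have e : lh s = lh t := le_antisymm (ls.eq_restr lt hc).1 (h1.trans hl)
      rw [ls.eq_of_sub (e ▸ lt) hc]
    · exact hc
  have h2 := hT.restr_mem hs hl
  have h3 := ls.restr hl
  rw [trs1_ord hB hb] at h2 h3
  exact ⟨h2.1, h2.2, lt.sub_of_le h3.1 ls hts h3.2 h1, h3.2, h3.1⟩
theorem trs1_restr (hB : Cuts κ ξ₀ z B) {s' : V} {η ζ : Ordinal.{0}} (h1 : Lv κ s' η)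
    (h2 : Lv κ s ζ) (h : s' ⊆ s) {b : V} (hb : b ∈ B) (hl : b.rank ≤ η) :
    restr s' b = restr s b := by
  have a1 := h1.restr hl
  have a2 := (a1.1.eq_restr h2 (subset_trans a1.2 h)).2
  rwa [trs1_ord hB hb] at a2
theorem subT_tree (hT : IsTree κ T) (ht : t ∈ T) (hB : Cuts κ (lh t) z B) (he : ExtM T t z B e) :
    IsTree κ (subT T t B e) := by
  intro s hs
  obtain ⟨hsT, hc, hall⟩ := mem_sep.1 hs
  have ls := hT.lv hsT
  refine ⟨⟨_, ls⟩, fun s' η l' hsub => ?_⟩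
  have hle := (l'.eq_restr ls hsub).1
  refine mem_sep.2 ⟨(hT s hsT).2 s' η l' hsub, ?_, fun b hb hl => ?_⟩
  · rcases hc with hc | hc
    · exact Or.inl (subset_trans hsub hc)
    · rcases le_total η (lh t) with h | h
      · exact Or.inl (l'.sub_of_le (hT.lv ht) ls hsub hc h)
      · exact Or.inr ((hT.lv ht).sub_of_le l' ls hc hsub h)
  · rw [l'.spec.2.2] at hl
    rw [trs1_restr hB l' ls hsub hb hl]
    obtain ⟨b1, b2, b3, -, -⟩ := trs1_base hT ht hB hsT hc hb (hl.trans hle)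
    have lx := hT.lv (he b hb _ b1 b2 b3).1
    rcases hall b hb (hl.trans hle) with h | h
    · exact Or.inl (subset_trans hsub h)
    · rcases le_total η (lh (app e (restr s b))) with h' | h'
      · exact Or.inl (l'.sub_of_le lx ls hsub h h')
      · exact Or.inr (lx.sub_of_le l' ls h hsub h')
theorem subT_top (hT : IsTree κ T) (ht : t ∈ T) (hB : Cuts κ (lh t) z B) (he : ExtM T t z B e)
    {b : V} (hb : b ∈ B) (hs : s ∈ subT T t B e) (hl : lh s = oat z b.rank) :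
    restr s b ∈ T ∧ lh (restr s b) = b.rank ∧ t ⊆ restr s b ∧ s = app e (restr s b) := by
  obtain ⟨hsT, hc, hall⟩ := mem_sep.1 hs
  have hle : b.rank ≤ lh s := hl ▸ (hB.2.1 b hb).2.1.le
  obtain ⟨b1, b2, b3, -, -⟩ := trs1_base hT ht hB hsT hc hb hle
  obtain ⟨x1, -, x3⟩ := he b hb _ b1 b2 b3
  have ls := hT.lv hsT
  have lx := hT.lv x1
  rw [x3, ← hl] at lx
  refine ⟨b1, b2, b3, ?_⟩
  rcases hall b hb hle with h | h
  · exact ls.eq_of_sub lx h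
  · exact (lx.eq_of_sub ls h).symm
theorem subT_split (hT : IsTree κ T) (ht : t ∈ T) (hB : Cuts κ (lh t) z B) (he : ExtM T t z B e)
    (hs : s ∈ subT T t B e) (hl : (lh s).toZFSet ∈ topS z B) {s' : V} (h : IsSucc κ T s s') :
    s' ∈ subT T t B e := by
  obtain ⟨hsT, hc, hall⟩ := mem_sep.1 hs
  obtain ⟨b0, hb0, e0⟩ := mem_img.1 hl
  have e1 : (oat z b0.rank : Ordinal.{0}) = lh s := by
    have := congrArg ZFSet.rank e0
    rwa [rank_toZFSet, rank_toZFSet] at this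
  have ls := hT.lv hsT
  obtain ⟨s1, s2, s3⟩ := (isSucc_iff hT ls).1 h
  have l' := hT.lv s1
  have hb0s : b0.rank < lh s := e1 ▸ (hB.2.1 b0 hb0).2.1
  obtain ⟨-, -, c3, c4, -⟩ := trs1_base hT ht hB hsT hc hb0 hb0s.le
  have hts : t ⊆ s' := subset_trans c3 (subset_trans c4 s2)
  refine mem_sep.2 ⟨s1, Or.inr hts, fun b hb hbl => ?_⟩
  rcases le_or_gt b.rank (lh s) with hle | hlt
  · rw [← trs1_restr hB ls l' s2 hb hle]
    obtain ⟨b1, b2, b3, -, -⟩ := trs1_base hT ht hB hsT hc hb hle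
    obtain ⟨x1, -, x3⟩ := he b hb _ b1 b2 b3
    have lx := hT.lv x1
    have hz : (oat z b.rank : Ordinal.{0}) ≤ lh s := by
      rcases lt_trichotomy b.rank b0.rank with h' | h' | h'
      · exact ((hB.2.2.2 b hb b0 hb0 h').trans hb0s).le
      · rw [h', e1]
      · exact absurd (e1 ▸ hB.2.2.2 b0 hb0 b hb h') (not_lt.2 hle)
    refine Or.inr (subset_trans ?_ s2)
    rcases hall b hb hle with h' | h'
    · have e2 : lh (app e (restr s b)) = lh s :=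
        le_antisymm (x3 ▸ hz) (ls.eq_restr lx h').1
      rw [← ls.eq_of_sub (e2 ▸ lx) h']
    · exact h'
  · have e2 : lh s' = b.rank := le_antisymm (s3 ▸ Order.add_one_le_of_lt hlt) hbl
    obtain ⟨-, -, -, b4, b5⟩ := trs1_base hT ht hB s1 (Or.inr hts) hb hbl
    rw [b5.eq_of_sub (e2 ▸ l') b4]
    exact Or.inl (he b hb s' s1 e2 hts).2.1
theorem trs_le (hT : IsTree κ T) {x y : V} (hx : x ∈ T) (hy : y ∈ T) (h : x ⊆ y) : lh x ≤ lh y :=
  ((hT.lv hx).eq_restr (hT.lv hy) h).1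
theorem trs_eq (hT : IsTree κ T) {x y : V} (hx : x ∈ T) (hy : y ∈ T) (h : x ⊆ y)
    (hl : lh y ≤ lh x) : x = y :=
  (hT.lv hx).eq_of_sub (le_antisymm hl (trs_le hT hx hy h) ▸ hT.lv hy) h
theorem trs_cmp (hT : IsTree κ T) {x y : V} (hx : x ∈ T) (hy : y ∈ T) (h : x ⊆ y ∨ y ⊆ x)
    (hl : lh x ≤ lh y) : x ⊆ y := by
  rcases h with h | h
  · exact h
  · rw [trs_eq hT hy hx h hl]
theorem trs_sub (hT : IsTree κ T) {x y w : V} (hx : x ∈ T) (hy : y ∈ T) (hw : w ∈ T) (h : x ⊆ w)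
    (h' : y ⊆ w) (hl : lh x ≤ lh y) : x ⊆ y :=
  (hT.lv hx).sub_of_le (hT.lv hy) (hT.lv hw) h h' hl
theorem trs_res (hT : IsTree κ T) {x : V} (hx : x ∈ T) {β : Ordinal.{0}} (hβ : β ≤ lh x) :
    restr x β.toZFSet ∈ T ∧ lh (restr x β.toZFSet) = β ∧ restr x β.toZFSet ⊆ x :=
  ⟨(hT.restr_mem hx hβ).1, (hT.restr_mem hx hβ).2, ((hT.lv hx).restr hβ).2⟩
theorem trs_restr (hT : IsTree κ T) (hB : B ⊆ κ.toZFSet) {x y b : V} (hx : x ∈ T) (hy : y ∈ T)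
    (h : x ⊆ y) (hb : b ∈ B) (hl : b.rank ≤ lh x) : restr y b = restr x b := by
  rw [(mem_ord (hB hb)).1]
  exact (((hT.lv hx).restr hl).1.eq_restr (hT.lv hy)
    fun _ hw => h (((hT.lv hx).restr hl).2 hw)).2.symm
theorem trs_base (hT : IsTree κ T) (ht : t ∈ T) (hB : Cuts κ (lh t) z B) (he : ExtM T t z B e)
    {x b : V} (hx : x ∈ T) (hc : x ⊆ t ∨ t ⊆ x) (hb : b ∈ B) (hl : b.rank ≤ lh x) :
    restr x b ∈ T ∧ lh (restr x b) = b.rank ∧ restr x b ⊆ x ∧ app e (restr x b) ∈ T ∧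
      restr x b ⊆ app e (restr x b) ∧ lh (app e (restr x b)) = oat z b.rank := by
  have h1 := trs_res hT hx hl
  rw [← (mem_ord (hB.1 hb)).1] at h1
  have h2 := (hB.2.1 b hb).1
  have h3 : t ⊆ x := trs_cmp hT ht hx hc.symm (h2.trans hl)
  exact ⟨h1.1, h1.2.1, h1.2.2, he b hb _ h1.1 h1.2.1
    (trs_sub hT ht h1.1 hx h3 h1.2.2 (h2.trans h1.2.1.ge))⟩
theorem trs_top (hT : IsTree κ T) (ht : t ∈ T) (hB : Cuts κ (lh t) z B) (he : ExtM T t z B e)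
    {x b : V} (hx : x ∈ T) (hc : x ⊆ t ∨ t ⊆ x) (hb : b ∈ B) (hl : b.rank = lh x) :
    x ⊆ app e (restr x b) := by
  obtain ⟨h1, h2, h3, -, h5, -⟩ := trs_base hT ht hB he hx hc hb hl.le
  exact fun w hw => h5 ((trs_eq hT h1 hx h3 (hl.symm.trans h2.symm).le).symm ▸ hw)
theorem subT_uniq (hκ : Order.IsSuccLimit κ) (hT : IsTree κ T) (ht : t ∈ T)
    (hB : Cuts κ (lh t) z B) (he : ExtM T t z B e) (hs : s ∈ subT T t B e)
    (hl : (lh s).toZFSet ∉ topS z B) : ∃! s', IsSucc κ (subT T t B e) s s' := by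
  obtain ⟨hsT, hc, hs2⟩ := mem_sep.1 hs
  have hS := subT_tree hT ht hB he
  simp only [isSucc_iff hS (hT.lv hsT)]
  rcases lt_or_ge (lh s) (lh t) with h | h
  · have h1 : lh s + 1 ≤ lh t := Order.add_one_le_iff.2 h
    obtain ⟨r1, r2, r3⟩ := trs_res hT ht h1
    refine ⟨restr t (lh s + 1).toZFSet, ⟨mem_sep.2 ⟨r1, Or.inl r3, fun b hb hbl => Or.inl ?_⟩,
      trs_sub hT hsT r1 ht (trs_cmp hT hsT ht hc h.le) r3 (r2.symm ▸ le_self_add), r2⟩, ?_⟩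
    · exact trs_top hT ht hB he r1 (Or.inl r3) hb
        (le_antisymm hbl (r2.le.trans (h1.trans (hB.2.1 b hb).1)))
    · rintro y ⟨hy, -, y2⟩
      obtain ⟨y3, y4, -⟩ := mem_sep.1 hy
      exact trs_eq hT y3 r1 (trs_sub hT y3 r1 ht (trs_cmp hT y3 ht y4 (y2.le.trans h1)) r3
        (y2.trans r2.symm).le) (r2.trans y2.symm).le
  · obtain ⟨b, hb, b1, b2⟩ := hB.2.2.1 (lh s) (hT.lv hsT).1 h
    have b3 : lh s < oat z b.rank := lt_of_le_of_ne b2 fun h' =>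
      hl (mem_img.2 ⟨b, hb, by rw [h']⟩)
    obtain ⟨-, -, -, e1, -, e3⟩ := trs_base hT ht hB he hsT hc hb b1
    have h1 : lh s + 1 ≤ lh (app e (restr s b)) := e3.symm ▸ Order.add_one_le_iff.2 b3
    have hsE : s ⊆ app e (restr s b) := trs_cmp hT hsT e1 (hs2 b hb b1) (e3.symm ▸ b2)
    obtain ⟨r1, r2, r3⟩ := trs_res hT e1 h1
    generalize restr (app e (restr s b)) (lh s + 1).toZFSet = y at r1 r2 r3
    have hsy : s ⊆ y := trs_sub hT hsT r1 e1 hsE r3 (r2.symm ▸ le_self_add)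
    have hty : t ⊆ y := fun w hw => hsy (trs_cmp hT ht hsT hc.symm h hw)
    refine ⟨y, ⟨mem_sep.2 ⟨r1, Or.inr hty, fun b' hb' hbl => ?_⟩, hsy, r2⟩, ?_⟩
    · rcases hbl.lt_or_eq with h2 | h2
      · have h3 : b'.rank ≤ lh s := Order.lt_add_one_iff.1 (r2 ▸ h2)
        rw [trs_restr hT hB.1 hsT r1 hsy hb' h3]
        rcases lt_trichotomy b'.rank b.rank with h4 | h4 | h4
        · obtain ⟨-, -, -, f1, -, f3⟩ := trs_base hT ht hB he hsT hc hb' h3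
          exact Or.inr fun w hw => hsy (trs_cmp hT f1 hsT (hs2 b' hb' h3).symm
            (f3.le.trans ((hB.2.2.2 b' hb' b hb h4).le.trans b1)) hw)
        · rw [(mem_ord (hB.1 hb')).1, h4, ← (mem_ord (hB.1 hb)).1]
          exact Or.inl r3
        · exact absurd ((hB.2.2.2 b hb b' hb' h4).trans_le h3) (not_lt.2 b2)
      · exact Or.inl (trs_top hT ht hB he r1 (Or.inr hty) hb' h2)
    · rintro y' ⟨hy, y1, y2⟩
      obtain ⟨y3, -, y5⟩ := mem_sep.1 hy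
      have h2 := y5 b hb (b1.trans (y2.symm ▸ le_self_add))
      rw [trs_restr hT hB.1 hsT y3 y1 hb b1] at h2
      exact trs_eq hT y3 r1 (trs_sub hT y3 r1 e1 (trs_cmp hT y3 e1 h2 (y2.le.trans h1)) r3
        (y2.trans r2.symm).le) (r2.trans y2.symm).le
theorem subT_cl (hκ : Order.IsSuccLimit κ) (hT : Cl N κ T) (ht : t ∈ T)
    (hB : Cuts κ (lh t) z B) (he : ExtM T t z B e) : Cl N κ (subT T t B e) := by
  refine ⟨subT_tree hT.1 ht hB he, fun s hs => ?_, fun C hC hch η hη hb => ?_⟩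
  · by_cases hl : (lh s).toZFSet ∈ topS z B
    · obtain ⟨s', h⟩ := hT.2.1 s (mem_sep.1 hs).1
      exact ⟨s', subT_split hT.1 ht hB he hs hl h, h.2⟩
    · exact (subT_uniq hκ hT.1 ht hB he hs hl).exists
  · have hu : (⋃₀ C : V) ∈ T :=
      hT.2.2 C hC ⟨fun c hc => (mem_sep.1 (hch.1 hc)).1, hch.2⟩ η hη hb
    have hcu : ∀ c ∈ C, c ⊆ (⋃₀ C : V) := fun c hc w hw => mem_sUnion.2 ⟨c, hc, hw⟩
    have key : ∀ y : V, (∀ c ∈ C, c ⊆ y ∨ y ⊆ c) → (⋃₀ C : V) ⊆ y ∨ y ⊆ (⋃₀ C : V) := by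
      intro y hy
      by_cases h : ∃ c ∈ C, y ⊆ c
      · obtain ⟨c, hc, h⟩ := h
        exact Or.inr fun w hw => hcu c hc (h hw)
      · refine Or.inl fun w hw => ?_
        obtain ⟨c, hc, hw⟩ := mem_sUnion.1 hw
        exact (hy c hc).resolve_right (fun h' => h ⟨c, hc, h'⟩) hw
    have hc := key t fun c hc => (mem_sep.1 (hch.1 hc)).2.1
    refine mem_sep.2 ⟨hu, hc, fun b hb' hl => key _ fun c hcC => ?_⟩
    obtain ⟨c1, -, c3⟩ := mem_sep.1 (hch.1 hcC)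
    obtain ⟨r1, r2, r3, -, r5, -⟩ := trs_base hT.1 ht hB he hu hc hb' hl
    rcases le_total b.rank (lh c) with h | h
    · rw [trs_restr hT.1 hB.1 c1 hu (hcu c hcC) hb' h]
      exact c3 b hb' h
    · exact Or.inl fun w hw => r5 (trs_sub hT.1 c1 r1 hu (hcu c hcC) r3 (h.trans r2.ge) hw)
theorem subT_strong (hk : RegK N κ) (hT : T ∈ N) (hB' : B ∈ N) (he' : e ∈ N)
    (hw : WeakRegular N κ T) (ht : t ∈ T) (hB : Cuts κ (lh t) z B) (he : ExtM T t z B e) :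
    IsStrong N κ T (subT T t B e) (topS z B) := by
  haveI : In N T := ⟨hT⟩
  haveI : In N B := ⟨hB'⟩
  haveI : In N e := ⟨he'⟩
  haveI : In N t := ⟨IsZ.trans T hT t ht⟩
  have hS : subT T t B e ∈ N := memV_of N _
  have hsub : subT T t B e ⊆ T := fun x hx => (mem_sep.1 hx).1
  have hcl := subT_cl hk.2.2.1 (cl_of_weak hk hT hw) ht hB he
  refine ⟨hsub, weak_of_cl hk hS hcl (InjIn.trans (InjIn.of_subset hS hsub) hw.2.1.1)
    fun ζ hζ => ?_, fun hsp s hs => ?_, fun ζ s hs hl => ?_⟩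
  · obtain ⟨α, hα, hi⟩ := hw.2.2.1 ζ hζ
    haveI : In N κ := ⟨hk.2.1⟩
    haveI : In N ζ := ⟨IsZ.ord_mem_of_le N hk.2.1 hζ.le⟩
    exact ⟨α, hα, InjIn.trans (InjIn.of_subset (memV_of N _)
      fun x hx => mem_sep.2 ⟨hsub (mem_sep.1 hx).1, (mem_sep.1 hx).2⟩) hi⟩
  · obtain ⟨b, hb, -, b2⟩ := hB.2.2.1 (max (lh s) (lh t))
      (max_lt (hw.1.lv (hsub hs)).1 (hw.1.lv ht).1) (le_max_right _ _)
    obtain ⟨y, hy, y1, y2⟩ := hcl.ext hk hS hs ((le_max_left _ _).trans b2) (hB.2.1 b hb).2.2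
    have hl : (lh y).toZFSet ∈ topS z B := mem_img.2 ⟨b, hb, by rw [y2]⟩
    obtain ⟨u, u', h1, h2, h3⟩ := hsp y (hsub hy)
    exact ⟨y, hy, y1, u, u', ⟨subT_split hw.1 ht hB he hy hl h1, h1.2⟩,
      ⟨subT_split hw.1 ht hB he hy hl h2, h2.2⟩, h3⟩
  · rw [← hl.spec.2.2]
    exact ⟨subT_uniq hk.2.2.1 hw.1 ht hB he hs,
      fun h u hu => subT_split hw.1 ht hB he hs h hu⟩

end Pool.Agent.Lib.MP_c8ac39_lc.WF
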