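import Pool.Agent.Lib.MP_c8ac39_lc.WF.TrA
import Pool.Agent.Lib.MP_c8ac39_lc.WF.TrS

/-! # From the dense set version to strong subtrees -/

namespace Pool.Agent.Lib.MP_c8ac39_lc.WF

open Ordinal ZFSet Pool.Agent.Lib.MP_f9eb18_lc Pool.Agent.Lib.MP_f9eb18_lc.W
set_option linter.style.haveILetI false
set_option linter.unusedVariables false
set_option linter.unusedSectionVars false
set_option synthInstance.maxSize 100000

variable {N : Set V} [IsZFC N] {κ : Ordinal.{0}}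

/-- the base point can be moved to one level -/
theorem dsp_level (hk : RegK N κ) {n : ℕ} {𝕋 c t j : V} (h𝕋 : 𝕋 ∈ N)
    (hw : ∀ i ∈ natZ n, WeakRegular N κ (app 𝕋 i)) (ht : t ∈ Tup N (natZ n) 𝕋)
    (h : DSP N κ (natZ n) 𝕋 c t j) : ∃ ξ₀ < κ, ∃ t' ∈ Tup N (natZ n) 𝕋,
      (∀ i ∈ natZ n, lh (app t' i) = ξ₀) ∧ DSP N κ (natZ n) 𝕋 c t' j := by
  haveI : In N κ := ⟨hk.2.1⟩
  haveI : In N 𝕋 := ⟨h𝕋⟩
  obtain ⟨t0, t1, t2, t3⟩ := mem_Tup.1 ht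
  haveI : In N t := ⟨t0⟩
  have hTN : ∀ i, app 𝕋 i ∈ N := IsZ.app_mem N h𝕋
  have hξ : osup (natZ n) (fun i => lh (app t i)) < κ :=
    (bd_natZ hk.2.2.1 n).osup_lt (memV_of N _) _ fun i hi => ((hw i hi).1.lv (t3 i hi)).1
  have ex : ∀ i, ∃ s, i ∈ natZ n → s ∈ app 𝕋 i ∧ app t i ⊆ s ∧
      lh s = osup (natZ n) fun i => lh (app t i) := fun i => by
    by_cases hi : i ∈ natZ n
    · obtain ⟨s, hs⟩ := (cl_of_weak hk (hTN i) (hw i hi)).ext hk (hTN i) (t3 i hi)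
        (le_osup (fun i => lh (app t i)) hi) hξ
      exact ⟨s, fun _ => hs⟩
    · exact ⟨∅, fun k => absurd k hi⟩
  choose f hf using ex
  refine ⟨_, hξ, lam (natZ n) f, lam_mem_Tup h𝕋 fun i hi => (hf i hi).1,
    fun i hi => by rw [app_lam _ hi]; exact (hf i hi).2.2, fun ξ hξ' k => ?_⟩
  have hs : ∀ i ∈ natZ n, app t i ⊆ app (lam (natZ n) f) i := fun i hi => by
    rw [app_lam _ hi]; exact (hf i hi).2.1
  obtain ⟨ζ, z1, z2, e, he, e1, e2⟩ := h ξ hξ' fun i hi => by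
    refine le_trans ?_ (k i hi)
    rw [app_lam _ hi, (hf i hi).2.2]
    exact le_osup (fun i => lh (app t i)) hi
  exact ⟨ζ, z1, z2, e, he, fun i hi s s1 s2 s3 => e1 i hi s s1 s2 ((hs i hi).trans s3),
    fun z hz a1 a2 => e2 z hz a1 fun i hi => ⟨(a2 i hi).1, (hs i hi).trans (a2 i hi).2⟩⟩
theorem hl_of_coh (hk : RegK N κ) {n : ℕ} (hn : 0 < n) {σ : Ordinal.{0}} (hσ : σ < κ)
    (h : COH N κ (natZ n) σ.toZFSet) : HL N (natZ n) σ.toZFSet κ := by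
  intro 𝕋 h𝕋 D hD c hc hseq hreg hDm hcf
  obtain ⟨f1, f2⟩ := isSeq_iff.1 hseq
  haveI : In N κ := ⟨hk.2.1⟩
  haveI : In N 𝕋 := ⟨h𝕋⟩
  haveI : In N c := ⟨hc⟩
  have hl := hk.2.2.1
  have hTN : ∀ i, app 𝕋 i ∈ N := IsZ.app_mem N h𝕋
  have hw : ∀ i ∈ natZ n, WeakRegular N κ (app 𝕋 i) := fun i hi =>
    (hreg i _ (f1.pair_app_mem (f2 ▸ hi))).1
  obtain ⟨c1, c2, c3⟩ := isFunc_iff.1 hcf
  have hDz : ∀ z ∈ N, ∀ ζ < κ, IsTup (natZ n) 𝕋 z → (∀ i ∈ natZ n, lh (app z i) = ζ) → z ∈ D :=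
    fun z hz ζ hζ a1 a2 => (hDm z).2 ⟨hz, ζ, hζ, (inLevel_iff f1 f2).2
      ⟨a1, fun i hi => a2 i hi ▸ (hw i hi).1.lv (a1.2.2 i hi)⟩⟩
  obtain ⟨t0, ht0, j, hj, hd0⟩ := dsp_of_coh hk hσ h h𝕋 hc hw fun z hz ζ hζ a1 a2 =>
    c3 z (hDz z hz ζ hζ a1 a2)
  obtain ⟨ξ₀, hξ₀, t, ht, tl, hd⟩ := dsp_level hk h𝕋 hw ht0 hd0
  obtain ⟨tN, -, -, t3⟩ := mem_Tup.1 ht
  haveI : In N t := ⟨tN⟩
  haveI : In N j := ⟨IsZ.trans _ (IsZ.ord_mem_of_le N hk.2.1 hσ.le) _ hj⟩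
  haveI : In N ξ₀ := ⟨IsZ.ord_mem_of_le N hk.2.1 hξ₀.le⟩
  obtain ⟨ch, hch, -, -, H⟩ := choice_fn N (fun x y => ξ₀ ≤ x.rank → (fst y).rank < κ ∧
      x.rank < (fst y).rank ∧ EX N (natZ n) 𝕋 c t j x.rank (fst y).rank (snd y)) hk.2.1
    fun x hx => by
      by_cases k : ξ₀ ≤ x.rank
      · obtain ⟨ζ, z1, z2, e, he, z3⟩ := hd _ (mem_ord hx).2 fun i hi => (tl i hi).le.trans k
        refine ⟨pair ζ.toZFSet e, (IsZ.pair_mem_iff N).2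
          ⟨IsZ.ord_mem_of_le N hk.2.1 z1.le, he⟩, fun _ => ?_⟩
        rw [fst_pair, snd_pair, rank_toZFSet]
        exact ⟨z1, z2, z3⟩
      · exact ⟨∅, IsZ.empty_mem N, fun k' => absurd k' k⟩
  haveI : In N ch := ⟨hch⟩
  obtain ⟨z, hz⟩ : ∃ z, z = sq κ fun ξ => (fst (app ch ξ.toZFSet)).rank := ⟨_, rfl⟩
  have hzN : z ∈ N := hz ▸ memV_of N _
  haveI : In N z := ⟨hzN⟩
  have H' : ∀ ξ < κ, ξ₀ ≤ ξ → (oat z ξ : Ordinal.{0}) < κ ∧ ξ < oat z ξ ∧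
      EX N (natZ n) 𝕋 c t j ξ (oat z ξ) (snd (app ch ξ.toZFSet)) := fun ξ hξ k => by
    have k1 := H _ (toZFSet_mem_toZFSet_iff.2 hξ) (by rwa [rank_toZFSet])
    rw [hz, oat_sq _ hξ]
    rwa [rank_toZFSet] at k1
  obtain ⟨B, hBN, hB⟩ := exists_cuts (ξ₀ := ξ₀) hk.2.1 hzN fun ξ hξ k =>
    ⟨(H' ξ hξ k).2.1, (H' ξ hξ k).1⟩
  haveI : In N B := ⟨hBN⟩
  obtain ⟨e, he⟩ : ∃ e, e = lam (natZ n) fun i => lam (app 𝕋 i) fun s =>
    app (snd (app ch (lh s).toZFSet)) (pair i s) := ⟨_, rfl⟩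
  have heN : e ∈ N := he ▸ memV_of N _
  haveI : In N e := ⟨heN⟩
  have hea : ∀ i ∈ natZ n, ∀ s ∈ app 𝕋 i,
      app (app e i) s = app (snd (app ch (lh s).toZFSet)) (pair i s) := fun i hi s hs => by
    rw [he, app_lam _ hi, app_lam _ hs]
  have hBi : ∀ i ∈ natZ n, Cuts κ (lh (app t i)) z B := fun i hi => by rwa [tl i hi]
  have hE : ∀ i ∈ natZ n, ExtM (app 𝕋 i) (app t i) z B (app e i) := fun i hi b hb s hs s1 s2 => by
    rw [hea i hi s hs, s1]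
    exact (H' _ (mem_ord (hB.1 hb)).2 (hB.2.1 b hb).1).2.2.1 i hi s hs s1 s2
  obtain ⟨𝕊, h𝕊⟩ : ∃ 𝕊, 𝕊 = lam (natZ n) fun i => subT (app 𝕋 i) (app t i) B (app e i) :=
    ⟨_, rfl⟩
  have hSN : 𝕊 ∈ N := h𝕊 ▸ memV_of N _
  have g1 : IsFn 𝕊 := h𝕊 ▸ isFn_lam _ _
  have g2 : dom 𝕊 = natZ n := h𝕊 ▸ dom_lam _ _
  have hSi : ∀ i ∈ natZ n, app 𝕊 i = subT (app 𝕋 i) (app t i) B (app e i) := fun i hi => by
    rw [h𝕊, app_lam _ hi]
  have hst : ∀ i ∈ natZ n, IsStrong N κ (app 𝕋 i) (app 𝕊 i) (topS z B) := fun i hi =>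
    hSi i hi ▸ subT_strong hk (hTN i) hBN (IsZ.app_mem N heN i) (hw i hi) (t3 i hi) (hBi i hi)
      (hE i hi)
  refine ⟨topS z B, memV_of N _, 𝕊, hSN, j, hj, fun a ha => ?_, fun ζ hζ => ?_,
    isSeq_iff.2 ⟨g1, g2⟩, fun i T S k1 k2 => ?_, fun ζ hζ => ?_⟩
  · obtain ⟨b, hb, rfl⟩ := mem_img.1 ha
    exact toZFSet_mem_toZFSet_iff.2 (hB.2.1 b hb).2.2
  · obtain ⟨b, hb, -, k⟩ := hB.2.2.1 _ (max_lt hζ hξ₀) (le_max_right _ _)
    exact ⟨_, mem_img.2 ⟨b, hb, rfl⟩, (le_max_left _ _).trans k⟩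
  · rw [← f1.app_eq k1, ← g1.app_eq k2]
    exact hst i (f2 ▸ mem_dom.2 ⟨_, k1⟩)
  obtain ⟨b, hb, eb⟩ := mem_img.1 hζ
  obtain rfl : oat z b.rank = ζ := toZFSet_injective eb
  obtain ⟨b1, b2, b3⟩ := hB.2.1 b hb
  constructor
  · have ex : ∀ i, ∃ s, i ∈ natZ n → s ∈ app 𝕊 i ∧ lh s = oat z b.rank := fun i => by
      by_cases hi : i ∈ natZ n
      · have k := cl_of_weak hk (IsZ.app_mem N hSN i) (hst i hi).2.1
        obtain ⟨s, s1, -, s2⟩ := k.ext hk (IsZ.app_mem N hSN i) (k.empty_mem hk)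
          (η := oat z b.rank) (by
            rw [show lh ∅ = 0 from by
              rw [lh, (ZFSet.eq_empty (dom ∅)).2 fun x hx => by
                obtain ⟨y, hy⟩ := mem_dom.1 hx
                exact notMem_empty _ hy, rank_empty]]
            exact zero_le) b3
        exact ⟨s, fun _ => ⟨s1, s2⟩⟩
      · exact ⟨∅, fun k => absurd k hi⟩
    choose f hf using ex
    obtain ⟨k1, k2⟩ := mem_Tup.1 (lam_mem_Tup hSN fun i hi => (hf i hi).1)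
    refine ⟨_, k1, (inLevel_iff g1 g2).2 ⟨k2, fun i hi => ?_⟩⟩
    rw [app_lam _ hi, ← (hf i hi).2]
    exact (hst i hi).2.1.1.lv (hf i hi).1
  · intro w hw' k
    obtain ⟨w1, w2⟩ := (inLevel_iff g1 g2).1 k
    haveI : In N w := ⟨hw'⟩
    haveI : In N b := ⟨IsZ.trans _ hBN _ hb⟩
    have top := fun i (hi : i ∈ natZ n) => subT_top (hw i hi).1 (t3 i hi) (hBi i hi) (hE i hi) hb
      (hSi i hi ▸ w1.2.2 i hi) (w2 i hi).spec.2.2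
    have hwD : w ∈ D := hDz w hw' _ b3 ⟨w1.1, w1.2.1, fun i hi => (hst i hi).1 (w1.2.2 i hi)⟩
      fun i hi => (w2 i hi).spec.2.2
    have k1 := (H' _ (mem_ord (hB.1 hb)).2 b1).2.2.2 (lam (natZ n) fun i => restr (app w i) b)
      (memV_of N _) ⟨isFn_lam _ _, dom_lam _ _, fun i hi => by
        rw [app_lam _ hi]; exact (top i hi).1⟩ fun i hi => by
        rw [app_lam _ hi]; exact ⟨(top i hi).2.1, (top i hi).2.2.1⟩
    have k2 : (lam (natZ n) fun i => app (snd (app ch b.rank.toZFSet))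
        (pair i (app (lam (natZ n) fun i => restr (app w i) b) i))) = w := by
      refine IsFn.ext (isFn_lam _ _) w1.1 (by rw [dom_lam, w1.2.1]) fun i hi => ?_
      rw [dom_lam] at hi
      rw [app_lam _ hi, app_lam _ hi, ← (top i hi).2.1, ← hea i hi _ (top i hi).1]
      exact (top i hi).2.2.2.symm
    rw [k2] at k1
    exact k1 ▸ c1.pair_app_mem (c2 ▸ hwD)

end Pool.Agent.Lib.MP_c8ac39_lc.WF
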