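import Pool.Agent.Lib.MP_c8ac39_lc.WF.Cx
import Pool.Agent.Lib.MP_c8ac39_lc.WF.Emb
import Pool.Agent.Lib.MP_c8ac39_lc.WF.Ml
import Pool.Agent.Lib.MP_c8ac39_lc.WF.Ms
import Pool.Agent.Lib.MP_c8ac39_lc.WF.Hz3
import Pool.Agent.Lib.MP_c8ac39_lc.WF.TrB

/-! # Assembly -/

namespace Pool.Agent.Lib.MP_c8ac39_lc.WF

open Ordinal ZFSet Pool.Agent.Lib.MP_f9eb18_lc Pool.Agent.Lib.MP_f9eb18_lc.W
set_option linter.style.haveILetI false
set_option linter.unusedVariables false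
set_option linter.unusedSectionVars false
set_option synthInstance.maxSize 100000

theorem t1_gext {N : Set V} [IsZFC N] {κ : Ordinal.{0}} (h : T0 N κ) :
    ∃ P ∈ N, P.Nonempty ∧ ∀ G, Gen N P (LEo P) G → T1 (gext N G) := by
  obtain ⟨U, S, L, C⟩ := exists_ctx h
  refine ⟨_, C.PP_mem, (nonempty_def _).2 ⟨_, C.pp_empty⟩, fun G hG => ?_⟩
  haveI := zfc_gext C.PP_mem hG
  have hk := C.regK_gext hG
  exact ⟨inferInstance, κ, meas_of_ml C.gm (subset_gext C.PP_mem hG C.gm.2.1) hk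
    fun f hf γ hγ => C.ml hG hf hγ, fun d hd σ hσ _ => hl_of_coh hk hd hσ (C.coh_gext hG d hσ)⟩

theorem strong_mem {N : Set V} [IsZ N] {κ γ : Ordinal.{0}} (h : Strong N κ γ) :
    κ.toZFSet ∈ N := by
  obtain ⟨H, -, M, -, j, hj, -, -, -, -, -, k, -, hk⟩ := h
  exact ((IsZ.pair_mem_iff N).1 (IsZ.trans j hj _ hk)).1

theorem exists_ctm_t2 {d : ℕ} {U : Set V} (h : T2 d U) :
    ∃ M : V, (M : Set V).Countable ∧ T2 d (M : Set V) := by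
  obtain ⟨hU, κ, hκ⟩ := h
  obtain ⟨M, j, hc, ht, he, hp⟩ := exists_ctm U (fun _ => κ.toZFSet) fun _ => strong_mem hκ
  obtain ⟨y, hy, hj⟩ := hp 0
  haveI : IsZFC (M : Set V) := he.isZFC_left (fun x hx z hz => ht x hx hz) ⟨_, hy⟩
  refine ⟨M, hc, inferInstance, y.rank, ?_⟩
  refine (he.iff1 pP (fun N (o : Ordinal.{0}) => Strong N o (o + d)) (IsZ.rank_mem _ hy)).2 ?_
  rw [← he.rank_map hy, hj, rank_toZFSet]
  exact hκ

theorem main (d : ℕ) (hd : 2 ≤ d) (U : Set V) (hU : T2 d U) :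
    ∃ W : Set V, IsZFC W ∧ (∃ N ∈ W, T1 (N : Set V)) ∧ ¬ ∃ N ∈ W, T2 d (N : Set V) := by
  obtain ⟨M, ⟨hc, hM, κ, hκ⟩, hmin⟩ := (InvImage.wf ZFSet.rank wellFounded_lt).has_min
    {M : V | (M : Set V).Countable ∧ T2 d (M : Set V)} (exists_ctm_t2 hU)
  obtain ⟨H, M', j, E⟩ := emb_of_strong hd hκ
  haveI := E.inac.isZFC_Vs
  obtain ⟨μ, -, h0⟩ := E.t0
  obtain ⟨P, hP, hne, h1⟩ := t1_gext h0
  have hs : (Vs (M : Set V) κ : Set V) ⊆ (M : Set V) := fun x hx => (mem_Vs.1 hx).1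
  obtain ⟨p, hp⟩ := (nonempty_def _).1 hne
  obtain ⟨G, hG, -⟩ := exists_gen hc (isPO_LEo P) hp
  haveI := zfc_gext (hs hP) hG
  haveI : In (M : Set V) κ := ⟨E.inac.2.1⟩
  refine ⟨gext (M : Set V) G, inferInstance, ⟨_, f0c_img (hs hP) hG (memV_of _ (Vs (M : Set V) κ)),
    ?_⟩, fun ⟨N, hN, h2⟩ => hmin N ⟨(gext_countable hc G).mono fun x hx => IsZ.trans N hN x hx, h2⟩
      ?_⟩
  · rw [coe_img_val]
    exact h1 G (hG.mono hs)
  · have h3 : N.rank.toZFSet ∈ M := ord_mem_of_gext (IsZ.rank_mem _ hN)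
    have h4 := rank_lt_of_mem h3
    rwa [rank_toZFSet] at h4

end Pool.Agent.Lib.MP_c8ac39_lc.WF
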