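import Pool.Agent.Lib.MP_c8ac39_lc.WF.Gm

/-! # The forcing: basic facts -/

namespace Pool.Agent.Lib.MP_c8ac39_lc.WF

open Ordinal ZFSet Pool.Agent.Lib.MP_f9eb18_lc Pool.Agent.Lib.MP_f9eb18_lc.W
set_option linter.style.haveILetI false
set_option linter.unusedVariables false
set_option linter.unusedSectionVars false
set_option synthInstance.maxSize 100000

variable {N : Set V} {κ : Ordinal.{0}} {U S L p q r : V} {α μ : Ordinal.{0}}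

@[simp] theorem mem_lo {x : V} : x ∈ lo p α ↔ x ∈ p ∧ lv x ≤ α := mem_sep
@[simp] theorem mem_hi {x : V} : x ∈ hi p α ↔ x ∈ p ∧ α < lv x := mem_sep
@[simp] theorem mem_atl {x : V} : x ∈ atl p α ↔ x ∈ p ∧ lv x = α := mem_sep
theorem lv_pair (x y : V) : lv (pair x y) = (fst x).rank := by simp [lv]
theorem low_lo : Low (lo p α) α := fun x hx => (mem_lo.1 hx).2
theorem mem_LEo {P : V} : pair q p ∈ LEo P ↔ q ∈ P ∧ p ∈ P ∧ p ⊆ q := by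
  unfold LEo
  exact pair_mem_rel
theorem isPO_LEo (P : V) : IsPO P (LEo P) := by
  refine ⟨by unfold LEo rel; exact sep_subset, fun p hp => mem_LEo.2 ⟨hp, hp, fun _ h => h⟩,
    fun p hp q hq r hr h1 h2 => mem_LEo.2 ⟨hp, hr, fun x hx => ?_⟩⟩
  exact (mem_LEo.1 h1).2.2 ((mem_LEo.1 h2).2.2 hx)
theorem isFn_sub (h : IsFn p) (hs : q ⊆ p) : IsFn q := by
  exact ⟨fun x hx => h.1 x (hs hx), fun x y y' h1 h2 => h.2 x y y' (hs h1) (hs h2)⟩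
theorem Shape.sub (h : Shape S L p) (hs : q ⊆ p) : Shape S L q := by
  exact ⟨isFn_sub h.1 hs, fun x hx => h.2 x (hs hx)⟩
/-- a union of a directed family of functions -/
theorem isFn_of_dir (h : ∀ x ∈ p, ∀ y ∈ p, ∃ f, IsFn f ∧ x ∈ f ∧ y ∈ f) : IsFn p := by
  refine ⟨fun x hx => ?_, fun x y y' h1 h2 => ?_⟩
  · obtain ⟨f, hf, h1, -⟩ := h x hx x hx
    exact hf.1 x h1
  · obtain ⟨f, hf, h3, h4⟩ := h _ h1 _ h2
    exact hf.2 x y y' h3 h4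
theorem isFn_glue (hr : IsFn r) (hp : IsFn p) (hl : Low r α) (hs : lo p α ⊆ r) :
    IsFn (r ∪ p) := by
  have key : ∀ x y y', pair x y ∈ r → pair x y' ∈ p → y = y' := fun x y y' h1 h2 => by
    refine hr.2 x y y' h1 (hs (mem_lo.2 ⟨h2, ?_⟩))
    have := hl _ h1
    rwa [lv_pair] at this ⊢
  refine ⟨fun x hx => (mem_union.1 hx).elim (hr.1 x) (hp.1 x), fun x y y' h1 h2 => ?_⟩
  rcases mem_union.1 h1 with h1 | h1 <;> rcases mem_union.1 h2 with h2 | h2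
  · exact hr.2 x y y' h1 h2
  · exact key x y y' h1 h2
  · exact (key x y' y h2 h1).symm
  · exact hp.2 x y y' h1 h2
theorem Ctx.inac (C : Ctx N κ U S L) : Inac N κ := C.gm.1
theorem Ctx.limL (C : Ctx N κ U S L) (h : α < κ) : Order.IsSuccLimit (oat L α : Ordinal.{0}) :=
  (C.ltL α h).2.limit (lt_of_le_of_lt zero_le (C.ltL α h).1)
theorem Ctx.lv_spec (C : Ctx N κ U S L) (h : Shape S L p) {x : V} (hx : x ∈ p) :
    fst (fst x) = (lv x).toZFSet ∧ (lv x).toZFSet ∈ S ∧ lv x < κ ∧ Inac N (lv x) ∧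
      Mp L (lv x) := by
  have h1 := (h.2 x hx).1
  have h2 := mem_ord (C.subS h1)
  have h3 := C.inS _ h1
  exact ⟨h2.1, h2.1 ▸ h1, h2.2, h3.1, h3.2⟩
theorem Ctx.gap (C : Ctx N κ U S L) (h : Shape S L p) {x : V} (hx : x ∈ p)
    (hl : lv x ≤ oat L α) : lv x ≤ α := by
  by_contra h1
  exact ((C.lv_spec h hx).2.2.2.2 α (not_le.1 h1)).not_ge hl
theorem Ctx.rank_lt (C : Ctx N κ U S L) (h : Shape S L p) {x : V} (hx : x ∈ p) :
    x.rank < oat L (lv x) := by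
  obtain ⟨-, h1, h2, h3⟩ := h.2 x hx
  have h4 := (C.lv_spec h hx).2.2.1
  have h5 := C.limL h4
  have h6 := (C.ltL _ h4).1
  have h7 : (fst x).rank < oat L (lv x) := by
    rw [h1, rank_pair_lt h5]
    exact ⟨h6, h2⟩
  have h8 : (pair (fst x) (snd x)).rank < oat L (lv x) :=
    (rank_pair_lt h5).2 ⟨h7, (rank_lt_of_mem h3).trans h6⟩
  rwa [← h.1.1 x hx] at h8
theorem Ctx.mem_PP [IsZFC N] (C : Ctx N κ U S L) : p ∈ PP N κ S L ↔ Cnd N κ S L p := by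
  refine ⟨fun h => (mem_sep.1 h).2, fun h => mem_sep.2 ⟨mem_pw.2 ⟨h.1, fun x hx => ?_⟩, h⟩⟩
  exact mem_Vs.2 ⟨IsZ.trans _ h.1 _ hx,
    (C.rank_lt h.2.1 hx).trans (C.mapL _ (C.lv_spec h.2.1 hx).2.2.1)⟩
theorem Ctx.PP_mem [IsZFC N] (C : Ctx N κ U S L) : PP N κ S L ∈ N := by
  haveI : In N κ := ⟨C.inac.2.1⟩
  haveI : In N S := ⟨C.memS⟩
  haveI : In N L := ⟨C.memL⟩
  exact memV_of N _
theorem Ctx.low_rank [IsZFC N] (C : Ctx N κ U S L) (hp : p ∈ PP N κ S L) (hl : Low p α)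
    (hα : α < κ) : p.rank ≤ oat L α := by
  exact rank_le_iff.2 fun x hx =>
    (C.rank_lt (C.mem_PP.1 hp).2.1 hx).trans_le (C.monoL α hα _ (hl x hx))

theorem Loc.mono [IsZ N] (h0 : 0 < μ) (hμ : μ.toZFSet ∈ N) (h : Loc N μ p) (hq : q ∈ N)
    (hs : ∀ x ∈ q, lv x ≤ μ → x ∈ p) : Loc N μ q := by
  haveI : In N μ := ⟨hμ⟩
  haveI : In N q := ⟨hq⟩
  obtain ⟨⟨f, hf, h1, h2⟩, h3⟩ := h
  refine ⟨⟨f, hf, h1, fun x hx hl => h2 x (hs x hx hl.le) hl⟩,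
    Bd.sub h0 h3 (memV_of N _) fun x hx => ?_⟩
  obtain ⟨h4, h5⟩ := mem_atl.1 hx
  exact mem_atl.2 ⟨hs x h4 h5.le, h5⟩
theorem Loc.union [IsZ N] (hμ : μ.toZFSet ∈ N) (h : Loc N μ p) (h' : Loc N μ q) :
    Loc N μ (p ∪ q) := by
  obtain ⟨⟨f, hf, h1, h2⟩, h3⟩ := h
  obtain ⟨⟨g, hg, k1, k2⟩, k3⟩ := h'
  haveI : In N μ := ⟨hμ⟩
  haveI : In N f := ⟨hf⟩
  haveI : In N g := ⟨hg⟩
  refine ⟨⟨sq μ (fun β => max (oat f β : Ordinal.{0}) (oat g β)), memV_of N _,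
    (mp_sq le_rfl).2 fun β hβ => max_lt (h1 β hβ) (k1 β hβ), fun x hx hl hm => ?_⟩, ?_⟩
  · rw [mp_sq hl.le] at hm
    rcases mem_union.1 hx with hx | hx
    · exact h2 x hx hl fun β hβ => (max_lt_iff.1 (hm β hβ)).1
    · exact k2 x hx hl fun β hβ => (max_lt_iff.1 (hm β hβ)).2
  · have e : atl (p ∪ q) μ = atl p μ ∪ atl q μ := by
      ext x
      simp only [mem_atl, mem_union]
      tauto
    rw [e]
    exact h3.union k3
theorem Loc.bU [IsT N] (hμ : μ.toZFSet ∈ N) {I s : V} (hI : I ∈ N) (hs : s ∈ N) (hb : Bd N μ I)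
    (h : ∀ i ∈ I, Loc N μ (app s i)) : Loc N μ (bU I (app s)) := by
  haveI : In N μ := ⟨hμ⟩
  haveI : In N I := ⟨hI⟩
  haveI : In N s := ⟨hs⟩
  obtain ⟨G, hG, -, -, H⟩ := choice_fn N
    (fun i g => Mp g μ ∧ ∀ x ∈ app s i, lv x < μ → ¬ Mp g (lv x)) hI fun i hi => (h i hi).1
  haveI : In N G := ⟨hG⟩
  refine ⟨⟨sq μ (fun β => osup I fun i => (oat (app G i) β : Ordinal.{0})), memV_of N _,
    (mp_sq le_rfl).2 fun β hβ => ?_, fun x hx hl hm => ?_⟩, ?_⟩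
  · haveI : In N β := ⟨IsZ.ord_mem_of_le N hμ hβ.le⟩
    exact hb.osup_lt hI _ fun i hi => (H i hi).1 β hβ
  · rw [mp_sq hl.le] at hm
    obtain ⟨i, hi, hx⟩ := mem_bU.1 hx
    exact (H i hi).2 x hx hl fun β hβ =>
      (le_osup (fun i => (oat (app G i) β : Ordinal.{0})) hi).trans_lt (hm β hβ)
  · have e : atl (W.bU I (app s)) μ = W.bU I (app (lam I fun i => atl (app s i) μ)) := by
      ext x
      simp only [mem_atl, mem_bU]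
      constructor
      · rintro ⟨⟨i, hi, hx⟩, hl⟩
        exact ⟨i, hi, by rw [app_lam _ hi]; exact mem_atl.2 ⟨hx, hl⟩⟩
      · rintro ⟨i, hi, hx⟩
        rw [app_lam _ hi] at hx
        exact ⟨⟨i, hi, (mem_atl.1 hx).1⟩, (mem_atl.1 hx).2⟩
    rw [e]
    exact Bd.bU hI (memV_of N _) hb fun i hi => by rw [app_lam _ hi]; exact (h i hi).2
theorem po_bd_none {a : V} (h0 : 0 < μ) (h : ∀ x, x ∉ a) : Bd N μ a :=
  fun f _ _ => ⟨0, h0, fun x hx => (h x hx).elim⟩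
theorem po_const [IsZ N] (hμ : μ.toZFSet ∈ N) (hα : α < μ) :
    ∃ f ∈ N, Mp f μ ∧ (0 < α → ¬ Mp f α) := by
  haveI : In N μ := ⟨hμ⟩
  haveI : In N α := ⟨IsZ.ord_mem_of_le N hμ hα.le⟩
  refine ⟨sq μ (fun _ => α), memV_of N _, (mp_sq le_rfl).2 fun _ _ => hα, fun h0 h => ?_⟩
  exact lt_irrefl _ ((mp_sq hα.le).1 h 0 h0)
theorem Ctx.pp_empty [IsZFC N] (C : Ctx N κ U S L) : (∅ : V) ∈ PP N κ S L := by
  refine C.mem_PP.2 ⟨IsZ.empty_mem N, ⟨⟨fun x hx => (notMem_empty x hx).elim,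
    fun x y _ hx => (notMem_empty _ hx).elim⟩, fun x hx => (notMem_empty x hx).elim⟩,
    fun μ _ hμ => ?_⟩
  obtain ⟨f, hf, hm, -⟩ := po_const hμ.2.1 hμ.2.2.1.pos
  exact ⟨⟨f, hf, hm, fun x hx => (notMem_empty x hx).elim⟩,
    po_bd_none hμ.2.2.1.pos fun x hx => notMem_empty x (mem_atl.1 hx).1⟩
theorem Ctx.pp_sub [IsZFC N] (C : Ctx N κ U S L) (hp : p ∈ PP N κ S L) (hq : q ∈ N)
    (hs : q ⊆ p) : q ∈ PP N κ S L := by
  obtain ⟨-, h2, h3⟩ := C.mem_PP.1 hp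
  exact C.mem_PP.2 ⟨hq, h2.sub hs, fun μ hle hμ =>
    (h3 μ hle hμ).mono hμ.2.2.1.pos hμ.2.1 hq fun x hx _ => hs hx⟩
theorem Ctx.pp_union [IsZFC N] (C : Ctx N κ U S L) (hp : p ∈ PP N κ S L) (hq : q ∈ PP N κ S L)
    (hf : IsFn (p ∪ q)) : p ∪ q ∈ PP N κ S L := by
  obtain ⟨h1, h2, h3⟩ := C.mem_PP.1 hp
  obtain ⟨k1, k2, k3⟩ := C.mem_PP.1 hq
  haveI : In N p := ⟨h1⟩
  haveI : In N q := ⟨k1⟩
  refine C.mem_PP.2 ⟨memV_of N _, ⟨hf, fun x hx => ?_⟩, fun μ hle hμ =>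
    (h3 μ hle hμ).union hμ.2.1 (k3 μ hle hμ)⟩
  rcases mem_union.1 hx with h | h
  · exact h2.2 x h
  · exact k2.2 x h
theorem Ctx.pp_lo [IsZFC N] (C : Ctx N κ U S L) (hp : p ∈ PP N κ S L) (hα : α ≤ κ) :
    lo p α ∈ PP N κ S L := by
  haveI : In N p := ⟨(C.mem_PP.1 hp).1⟩
  haveI : In N α := ⟨IsZ.ord_mem_of_le N C.inac.2.1 hα⟩
  exact C.pp_sub hp (memV_of N _) fun x hx => (mem_lo.1 hx).1
theorem Ctx.pp_glue [IsZFC N] (C : Ctx N κ U S L) (hr : r ∈ PP N κ S L) (hp : p ∈ PP N κ S L)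
    (hl : Low r α) (hs : lo p α ⊆ r) : r ∪ p ∈ PP N κ S L := by
  exact C.pp_union hr hp (isFn_glue (C.mem_PP.1 hr).2.1.1 (C.mem_PP.1 hp).2.1.1 hl hs)
theorem Ctx.pp_hi [IsZFC N] (C : Ctx N κ U S L) (hr : r ∈ PP N κ S L) (hp : p ∈ PP N κ S L)
    (hl : Low r α) (hα : α ≤ κ) : r ∪ hi p α ∈ PP N κ S L := by
  haveI : In N p := ⟨(C.mem_PP.1 hp).1⟩
  haveI : In N α := ⟨IsZ.ord_mem_of_le N C.inac.2.1 hα⟩
  have h1 : hi p α ∈ PP N κ S L := C.pp_sub hp (memV_of N _) fun x hx => (mem_hi.1 hx).1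
  refine C.pp_glue hr h1 hl fun x hx => ?_
  obtain ⟨h2, h3⟩ := mem_lo.1 hx
  exact absurd (mem_hi.1 h2).2 (not_lt.2 h3)
/-- small functions that live on one level are conditions -/
theorem Ctx.pp_level [IsZFC N] (C : Ctx N κ U S L) (hα : α.toZFSet ∈ S) (hp : p ∈ N)
    (hs : Shape S L p) (hl : ∀ x ∈ p, lv x = α) (hb : Bd N α p) : p ∈ PP N κ S L := by
  have hI : Inac N α := by
    have := (C.inS _ hα).1
    rwa [rank_toZFSet] at this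
  refine C.mem_PP.2 ⟨hp, hs, fun μ _ hμ => ?_⟩
  have h0 : 0 < μ := hμ.2.2.1.pos
  rcases lt_trichotomy α μ with h | h | h
  · obtain ⟨f, hf, hm, hn⟩ := po_const hμ.2.1 h
    refine ⟨⟨f, hf, hm, fun x hx _ => ?_⟩, po_bd_none h0 fun x hx => ?_⟩
    · rw [hl x hx]; exact hn hI.2.2.1.pos
    · obtain ⟨h1, h2⟩ := mem_atl.1 hx
      exact h.ne ((hl x h1).symm.trans h2)
  · subst h
    obtain ⟨f, hf, hm, -⟩ := po_const hμ.2.1 h0
    haveI : In N p := ⟨hp⟩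
    haveI : In N α := ⟨hμ.2.1⟩
    exact ⟨⟨f, hf, hm, fun x hx h1 => absurd h1 (by rw [hl x hx]; exact lt_irrefl _)⟩,
      hb.sub h0 (memV_of N _) fun x hx => (mem_atl.1 hx).1⟩
  · obtain ⟨f, hf, hm, -⟩ := po_const hμ.2.1 h0
    refine ⟨⟨f, hf, hm, fun x hx h1 => absurd h1 (by rw [hl x hx]; exact not_lt.2 h.le)⟩,
      po_bd_none h0 fun x hx => ?_⟩
    obtain ⟨h1, h2⟩ := mem_atl.1 hx
    exact h.ne' ((hl x h1).symm.trans h2)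
theorem Ctx.good_mono [IsZFC N] (C : Ctx N κ U S L) {J D : V} (hα : α ≤ κ)
    (hD : ∀ j ∈ J, OD (PP N κ S L) (app D j)) (hq : q ∈ PP N κ S L) (hs : p ⊆ q)
    (h : Good (PP N κ S L) α J D p) : Good (PP N κ S L) α J D q := by
  intro j hj r hr hl
  obtain ⟨r', hr', hl', hs', hm⟩ := h j hj r hr hl
  refine ⟨r', hr', hl', hs', (hD j hj).2.2 _ hm _ (C.pp_hi hr' hq hl' hα) fun x hx => ?_⟩
  rcases mem_union.1 hx with h1 | h1
  · exact mem_union.2 (Or.inl h1)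
  · exact mem_union.2 (Or.inr (mem_hi.2 ⟨hs (mem_hi.1 h1).1, (mem_hi.1 h1).2⟩))

end Pool.Agent.Lib.MP_c8ac39_lc.WF
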