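import Pool.Agent.Lib.MP_c8ac39_lc.WF.Gm

/-! # A polarized partition theorem for pairs of tuples -/

namespace Pool.Agent.Lib.MP_c8ac39_lc.WF

open Ordinal ZFSet Pool.Agent.Lib.MP_f9eb18_lc Pool.Agent.Lib.MP_f9eb18_lc.W
set_option linter.style.haveILetI false
set_option linter.unusedVariables false
set_option linter.unusedSectionVars false
set_option synthInstance.maxSize 100000

variable {N : Set V} [IsZFC N]

/-- add the top coordinate -/
noncomputable def pr_ins (m z a : V) : V := insert (pair m a) z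
/-- the three values attached to a pair of top coordinates -/
noncomputable def pr_tri (m F a b z w : V) : V :=
  pair (app F (pair (pr_ins m z a) (pr_ins m w b)))
    (pair (app F (pair (pr_ins m z b) (pr_ins m w a))) (app F (pair (pr_ins m z a) (pr_ins m w a))))
/-- the colour of a pair of top coordinates -/
noncomputable def pr_G (m F T a b : V) : V :=
  lam (prod T T) fun w => pr_tri m F a b (fst w) (snd w)

theorem pr_mem {m F T K : V} (hm : m ∈ N) (hF : F ∈ N) (hT : T ∈ N) (hK : K ∈ N) :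
    lam (prod K K) (fun p => pr_G m F T (fst p) (snd p)) ∈ N := by
  haveI : In N m := ⟨hm⟩
  haveI : In N F := ⟨hF⟩
  haveI : In N T := ⟨hT⟩
  haveI : In N K := ⟨hK⟩
  unfold pr_G pr_tri pr_ins
  exact memV_of N _

theorem pr_ord {x : V} (h : x.IsOrdinal) : x = x.rank.toZFSet := h.toZFSet_rank_eq.symm

theorem pr_tri_case {κ : Ordinal.{0}} {U A a b : V} (h : GM N κ U) (hA : A ∈ U) (ha : a ∈ A)
    (hb : b ∈ A) : a ∈ b ∨ a = b ∨ b ∈ a := by
  rw [(h.ord hA ha).1, (h.ord hA hb).1]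
  rcases lt_trichotomy a.rank b.rank with c | c | c
  · exact Or.inl (toZFSet_mem_toZFSet_iff.2 c)
  · exact Or.inr (Or.inl (by rw [c]))
  · exact Or.inr (Or.inr (toZFSet_mem_toZFSet_iff.2 c))

theorem pr_above {κ : Ordinal.{0}} {U A a : V} (h : GM N κ U) (hA : A ∈ U) (ha : a ∈ A) :
    ∃ b ∈ A, a ∈ b := by
  obtain ⟨b, hb, hlt, -⟩ := h.unb hA (h.ord hA ha).2
  refine ⟨b, hb, ?_⟩
  rw [(h.ord hA ha).1, (h.ord hA hb).1]
  exact toZFSet_mem_toZFSet_iff.2 hlt

theorem pr (n : ℕ) {ρ : Ordinal.{0}} {Λ W F : V} (h : Blk N n ρ Λ W) (hF : F ∈ N)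
    (hb : ∀ z ∈ Tup N (natZ n) Λ, ∀ w ∈ Tup N (natZ n) Λ, (app F (pair z w)).rank < ρ) :
    ∃ H ∈ N, (∀ i < n, app H (natZ i) ∈ app W (natZ i)) ∧
      ∀ z ∈ Tup N (natZ n) H, ∀ w ∈ Tup N (natZ n) H, ∀ z' ∈ Tup N (natZ n) H,
        ∀ w' ∈ Tup N (natZ n) H, Pat (natZ n) z w z' w' → app F (pair z w) = app F (pair z' w') := by
  classical
  induction n generalizing ρ F with
  | zero =>
    refine ⟨∅, IsZ.empty_mem N, fun i hi => absurd hi (Nat.not_lt_zero i), ?_⟩
    intro z hz w hw z' hz' w' hw' _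
    rw [tup_zero.1 hz, tup_zero.1 hw, tup_zero.1 hz', tup_zero.1 hw']
  | succ n ih =>
    obtain ⟨hΛ, hW, hB⟩ := h
    obtain ⟨hord, hρ, hgm, hlt⟩ := hB n (Nat.lt_succ_self n)
    have hK := pr_ord hord
    generalize (app Λ (natZ n)).rank = κ at hρ hgm hK
    have hin : Inac N κ := hgm.1
    have hlim := hin.2.2.1
    have hrk : ∀ i ∈ natZ n, (app Λ i).rank < κ := by
      intro i hi
      obtain ⟨k, hk, rfl⟩ := mem_natZ.1 hi
      have := hlt k hk
      rw [hK] at this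
      exact (mem_ord this).2
    have hT : Tup N (natZ n) Λ ∈ N := by
      haveI : In N Λ := ⟨hΛ⟩
      haveI : In N (natZ n) := ⟨IsZ.natZ_mem N n⟩
      exact memV_of N _
    have hTr : (Tup N (natZ n) Λ).rank < κ :=
      (bd_tup hlim hΛ n fun i hi => bd_of_rank hin (IsZ.app_mem N hΛ i) (hrk i hi)).rank_lt hT
        fun z hz => tup_rank hlim hz fun i hi => (hrk i hi).le
    have hval : ∀ o : Ordinal.{0}, Order.IsSuccLimit o → ρ ≤ o → ∀ a ∈ κ.toZFSet,
        ∀ b ∈ κ.toZFSet, ∀ z ∈ Tup N (natZ n) Λ, ∀ w ∈ Tup N (natZ n) Λ,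
        (pr_tri (natZ n) F a b z w).rank < o := by
      intro o ho hle a ha b hb' z hz w hw
      rw [← hK] at ha hb'
      unfold pr_tri
      rw [rank_pair_lt ho, rank_pair_lt ho]
      exact ⟨(hb _ (tup_insert hΛ hz ha) _ (tup_insert hΛ hw hb')).trans_le hle,
        (hb _ (tup_insert hΛ hz hb') _ (tup_insert hΛ hw ha)).trans_le hle,
        (hb _ (tup_insert hΛ hz ha) _ (tup_insert hΛ hw ha)).trans_le hle⟩
    have happ : ∀ a ∈ κ.toZFSet, ∀ b ∈ κ.toZFSet,
        app (lam (prod κ.toZFSet κ.toZFSet)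
          (fun p => pr_G (natZ n) F (Tup N (natZ n) Λ) (fst p) (snd p))) (pair a b) =
          pr_G (natZ n) F (Tup N (natZ n) Λ) a b := by
      intro a ha b hb'
      rw [app_lam _ (pair_mem_prod.2 ⟨ha, hb'⟩)]
      simp
    have hF' := pr_mem (IsZ.natZ_mem N n) hF hT hin.2.1
    have ho : Order.IsSuccLimit (max (Tup N (natZ n) Λ).rank ρ + ω) :=
      isSuccLimit_add _ isSuccLimit_omega0
    obtain ⟨A, hA, y, hy⟩ := hgm.pairs hF'
      (ρ := Order.succ (max (Tup N (natZ n) Λ).rank ρ + ω))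
      (hlim.succ_lt (hin.add_lt (max_lt hTr hρ) hin.1).1) (by
        intro a ha b hb'
        rw [happ a ha b hb', Order.lt_succ_iff, rank_le_iff]
        intro x hx
        obtain ⟨w, hw, rfl⟩ := mem_lam.1 hx
        obtain ⟨z1, h1, z2, h2, rfl⟩ := mem_prod.1 hw
        have hle : (Tup N (natZ n) Λ).rank ≤ max (Tup N (natZ n) Λ).rank ρ + ω :=
          (le_max_left _ _).trans le_self_add
        rw [rank_pair_lt ho, rank_pair_lt ho]
        refine ⟨⟨(rank_lt_of_mem h1).trans_le hle, (rank_lt_of_mem h2).trans_le hle⟩, ?_⟩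
        simp only [fst_pair, snd_pair]
        exact hval _ ho ((le_max_right _ _).trans le_self_add) a ha b hb' z1 h1 z2 h2)
    have hAκ : A ⊆ κ.toZFSet := (hgm.2.2.1 A hA).1
    have key : ∀ a ∈ A, ∀ b ∈ A, a ∈ b → ∀ z ∈ Tup N (natZ n) Λ, ∀ w ∈ Tup N (natZ n) Λ,
        app y (pair z w) = pr_tri (natZ n) F a b z w := by
      intro a ha b hb' hab z hz w hw
      rw [← hy a ha b hb' hab, happ a (hAκ ha) b (hAκ hb'), pr_G,
        app_lam _ (pair_mem_prod.2 ⟨hz, hw⟩)]
      simp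
    obtain ⟨a0, ha0⟩ := (nonempty_def _).1 (hgm.2.2.1 A hA).2
    obtain ⟨b0, hb0, hab0⟩ := pr_above hgm hA ha0
    have hyN : y ∈ N := hy a0 ha0 b0 hb0 hab0 ▸ IsZ.app_mem N hF' _
    obtain ⟨H, hH, hHW, hHP⟩ := ih (ρ := ρ + ω) (F := y)
      ⟨hΛ, hW, fun i hi => by
        obtain ⟨g1, g2, g3, g4⟩ := hB i (Nat.lt_succ_of_lt hi)
        exact ⟨g1, (g3.1.add_lt g2 g3.1.1).1, g3, g4⟩⟩ hyN (by
        intro z hz w hw
        rw [key a0 ha0 b0 hb0 hab0 z hz w hw]
        exact hval _ (isSuccLimit_add _ isSuccLimit_omega0) le_self_add a0 (hAκ ha0) b0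
          (hAκ hb0) z hz w hw)
    have hAN : A ∈ N := IsZ.trans _ hgm.2.1 _ hA
    have hlow : ∀ i ∈ natZ n,
        app (lam (natZ (n + 1)) fun i => if i = natZ n then A else app H i) i = app H i := by
      intro i hi
      obtain ⟨k, hk, rfl⟩ := mem_natZ.1 hi
      rw [app_lam _ (natZ_mem_natZ.2 (Nat.lt_succ_of_lt hk)),
        if_neg (fun e => hk.ne (natZ_inj.1 e))]
    have htop : app (lam (natZ (n + 1)) fun i => if i = natZ n then A else app H i) (natZ n) =
        A := by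
      rw [app_lam _ (natZ_mem_natZ.2 (Nat.lt_succ_self n)), if_pos rfl]
    have hH'N : (lam (natZ (n + 1)) fun i => if i = natZ n then A else app H i) ∈ N := by
      refine tup_mem (n := n + 1) (isFn_lam _ _) (dom_lam _ _) fun i hi => ?_
      rw [app_lam _ hi]
      split_ifs
      · exact hAN
      · exact IsZ.app_mem N hH i
    generalize (lam (natZ (n + 1)) fun i => if i = natZ n then A else app H i) = H'
      at hlow htop hH'N
    have hsub : Tup N (natZ n) H ⊆ Tup N (natZ n) Λ := Tup_mono fun i hi => by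
      obtain ⟨k, hk, rfl⟩ := mem_natZ.1 hi
      obtain ⟨g1, g2, g3, g4⟩ := hB k (Nat.lt_succ_of_lt hk)
      have := (g3.2.2.1 _ (hHW k hk)).1
      rwa [← pr_ord g1] at this
    have hdec : ∀ z ∈ Tup N (natZ (n + 1)) H', ∃ u ∈ Tup N (natZ n) H, ∃ a ∈ A,
        z = pr_ins (natZ n) u a ∧ app z (natZ n) = a ∧ ∀ i ∈ natZ n, app u i = app z i := by
      intro z hz
      obtain ⟨g1, g2, g3, g4⟩ := tup_restr hz
      exact ⟨_, Tup_mono (fun i hi => by rw [hlow i hi]) g1, _, htop ▸ g2, g3, rfl, g4⟩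
    refine ⟨H', hH'N, fun i hi => ?_, ?_⟩
    · rcases Nat.lt_succ_iff_lt_or_eq.1 hi with c | rfl
      · rw [hlow _ (natZ_mem_natZ.2 c)]; exact hHW i c
      · rw [htop]; exact hA
    · intro z hz w hw z' hz' w' hw' hp
      obtain ⟨u, hu, a, ha, e1, t1, r1⟩ := hdec z hz
      obtain ⟨v, hv, b, hb', e2, t2, r2⟩ := hdec w hw
      obtain ⟨u', hu', a', ha', e3, t3, r3⟩ := hdec z' hz'
      obtain ⟨v', hv', b', hb'', e4, t4, r4⟩ := hdec w' hw'
      have hE : app y (pair u v) = app y (pair u' v') := hHP u hu v hv u' hu' v' hv' fun i hi => by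
        obtain ⟨k, hk, rfl⟩ := mem_natZ.1 hi
        rw [r1 _ hi, r2 _ hi, r3 _ hi, r4 _ hi]
        exact hp _ (natZ_mem_natZ.2 (Nat.lt_succ_of_lt hk))
      have hp' := hp _ (natZ_mem_natZ.2 (Nat.lt_succ_self n))
      rw [t1, t2, t3, t4] at hp'
      rw [e1, e2, e3, e4]
      rcases pr_tri_case hgm hA ha hb' with c | c | c
      · rw [key a ha b hb' c u (hsub hu) v (hsub hv),
          key a' ha' b' hb'' (hp'.1.1 c) u' (hsub hu') v' (hsub hv')] at hE
        exact (pair_inj.1 hE).1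
      · subst c
        have c' : a' = b' := by
          rcases pr_tri_case hgm hA ha' hb'' with d | d | d
          · exact absurd (hp'.1.2 d) (mem_irrefl _)
          · exact d
          · exact absurd (hp'.2.2 d) (mem_irrefl _)
        subst c'
        obtain ⟨d, hd, had⟩ := pr_above hgm hA ha
        obtain ⟨d', hd', had'⟩ := pr_above hgm hA ha'
        rw [key a ha d hd had u (hsub hu) v (hsub hv),
          key a' ha' d' hd' had' u' (hsub hu') v' (hsub hv')] at hE
        exact (pair_inj.1 (pair_inj.1 hE).2).2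
      · rw [key b hb' a ha c u (hsub hu) v (hsub hv),
          key b' hb'' a' ha' (hp'.2.1 c) u' (hsub hu') v' (hsub hv')] at hE
        exact (pair_inj.1 (pair_inj.1 hE).2).1

end Pool.Agent.Lib.MP_c8ac39_lc.WF
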