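import Pool.Agent.Lib.MP_c8ac39_lc.WF.Base

/-! # Smallness and tuples -/

namespace Pool.Agent.Lib.MP_c8ac39_lc.WF

open Ordinal ZFSet Pool.Agent.Lib.MP_f9eb18_lc Pool.Agent.Lib.MP_f9eb18_lc.W
set_option linter.style.haveILetI false
set_option linter.unusedVariables false
set_option linter.unusedSectionVars false
set_option synthInstance.maxSize 100000

variable {N : Set V} {o : Ordinal.{0}} {a b : V}

theorem bd_iff : Bd N o a ↔ z5c_B N o a := Iff.rfl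
theorem Bd.of_inj [IsZ N] (h0 : 0 < o) (hi : InjIn N a b) (h : Bd N o b) : Bd N o a :=
  z5c_inj h0 hi h
theorem Bd.sub [IsZ N] (h0 : 0 < o) (h : Bd N o b) (ha : a ∈ N) (hs : a ⊆ b) : Bd N o a :=
  Bd.of_inj h0 (InjIn.of_subset ha hs) h
theorem bd_of_rank (h : Inac N o) (ha : a ∈ N) (hr : a.rank < o) : Bd N o a := h.2.2.2 a ha hr
theorem Bd.rank_lt [IsZ N] (h : Bd N o a) (ha : a ∈ N) (hb : ∀ x ∈ a, x.rank < o) : a.rank < o :=
  z5c_rank h ha hb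
theorem Bd.small [IsT N] (h0 : 0 < o) (ho : o.toZFSet ∈ N) (h : Bd N o a) (ha : a ∈ N) :
    Small N o a := z5c_small h0 ho h ha
theorem RegK.bd [IsZ N] (h : RegK N o) (hs : Small N o a) : Bd N o a := by
  obtain ⟨α, hα, hi⟩ := hs
  exact Bd.of_inj h.2.2.1.pos hi (h.2.2.2 α hα)
theorem Bd.osup_lt [IsZ N] (h : Bd N o a) (ha : a ∈ N) (c : V → Ordinal.{0})
    [UF (loc N) (fun _ v => c (vr v 0))] (hc : ∀ x ∈ a, c x < o) : osup a c < o := by
  obtain ⟨γ, h1, h2⟩ := z5c_ord h ha c hc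
  exact (osup_le_iff.2 fun x hx => (h2 x hx).le).trans_lt h1
theorem mp_sq {o' : Ordinal.{0}} {f : Ordinal.{0} → Ordinal.{0}} (hle : o ≤ o') :
    Mp (sq o' f) o ↔ ∀ β < o, f β < o :=
  forall_congr' fun β => forall_congr' fun hβ => by rw [oat_sq f (hβ.trans_le hle)]
theorem mem_ord {x : V} (h : x ∈ o.toZFSet) : x = x.rank.toZFSet ∧ x.rank < o := by
  obtain ⟨β, hβ, rfl⟩ := mem_toZFSet_iff.1 h
  rw [rank_toZFSet]; exact ⟨rfl, hβ⟩
theorem mem_natZ {n : ℕ} {x : V} : x ∈ natZ n ↔ ∃ i < n, natZ i = x := by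
  constructor
  · intro h
    have h1 : x ∈ ((n : ℕ) : Ordinal.{0}).toZFSet := h
    obtain ⟨β, hβ, rfl⟩ := mem_toZFSet_iff.1 h1
    obtain ⟨i, rfl⟩ := lt_omega0.1 (hβ.trans (natCast_lt_omega0 n))
    exact ⟨i, by exact_mod_cast hβ, rfl⟩
  · rintro ⟨i, hi, rfl⟩
    exact natZ_mem_natZ.2 hi

theorem bd_empty (h0 : 0 < o) : Bd N o ∅ := by
  exact fun f _ _ => ⟨0, h0, fun x hx => absurd hx (notMem_empty x)⟩
theorem bd_singleton (ho : Order.IsSuccLimit o) (x : V) : Bd N o {x} := by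
  intro f _ hb
  refine ⟨Order.succ (app f x).rank, ho.succ_lt (hb x (mem_singleton.2 rfl)), fun y hy => ?_⟩
  rw [mem_singleton.1 hy]
  exact Order.lt_succ _
theorem Bd.union (h : Bd N o a) (h' : Bd N o b) : Bd N o (a ∪ b) := by
  intro f hf hb
  obtain ⟨γ, h1, h2⟩ := h f hf fun x hx => hb x (mem_union.2 (Or.inl hx))
  obtain ⟨γ', h3, h4⟩ := h' f hf fun x hx => hb x (mem_union.2 (Or.inr hx))
  refine ⟨max γ γ', max_lt h1 h3, fun x hx => ?_⟩
  rcases mem_union.1 hx with hx | hx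
  · exact lt_max_of_lt_left (h2 x hx)
  · exact lt_max_of_lt_right (h4 x hx)
theorem Bd.bU [IsZ N] {I s : V} (hI : I ∈ N) (hs : s ∈ N) (h : Bd N o I)
    (h' : ∀ i ∈ I, Bd N o (app s i)) : Bd N o (bU I (app s)) := by
  intro f hf hb
  haveI : In N f := ⟨hf⟩
  haveI : In N s := ⟨hs⟩
  obtain ⟨γ, hγ, H⟩ := z5c_ord h hI (fun i => osup (app s i) fun x => (app f x).rank)
    fun i hi => by
      obtain ⟨δ, h1, h2⟩ := h' i hi f hf fun x hx => hb x (mem_bU.2 ⟨i, hi, hx⟩)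
      exact (osup_le_iff.2 fun x hx => (h2 x hx).le).trans_lt h1
  refine ⟨γ, hγ, fun x hx => ?_⟩
  obtain ⟨i, hi, hx⟩ := mem_bU.1 hx
  exact (le_osup (fun x => (app f x).rank) hx).trans_lt (H i hi)
theorem Bd.img [IsZ N] (h : Bd N o a) (ha : a ∈ N) (g : V → V)
    [UF (loc N) (fun _ v => g (vr v 0))] : Bd N o (img g a) := by
  intro f hf hb
  haveI : In N f := ⟨hf⟩
  obtain ⟨γ, hγ, H⟩ := z5c_ord h ha (fun x => (app f (g x)).rank)
    fun x hx => hb _ (mem_img.2 ⟨x, hx, rfl⟩)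
  refine ⟨γ, hγ, fun y hy => ?_⟩
  obtain ⟨x, hx, rfl⟩ := mem_img.1 hy
  exact H x hx
theorem Bd.prod [IsZ N] (h : Bd N o a) (h' : Bd N o b) (ha : a ∈ N) (hb : b ∈ N) :
    Bd N o (prod a b) := by
  intro f hf hf'
  haveI : In N f := ⟨hf⟩
  haveI : In N b := ⟨hb⟩
  obtain ⟨γ, hγ, H⟩ := z5c_ord h ha (fun x => osup b fun y => (app f (pair x y)).rank)
    fun x hx => by
      haveI : In N x := ⟨IsZ.trans _ ha _ hx⟩
      exact h'.osup_lt hb (fun y => (app f (pair x y)).rank)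
        fun y hy => hf' _ (pair_mem_prod.2 ⟨hx, hy⟩)
  refine ⟨γ, hγ, fun w hw => ?_⟩
  obtain ⟨x, hx, y, hy, rfl⟩ := mem_prod.1 hw
  exact (le_osup (fun y => (app f (pair x y)).rank) hy).trans_lt (H x hx)
theorem bd_natZ [IsZ N] (ho : Order.IsSuccLimit o) (n : ℕ) : Bd N o (natZ n) := by
  induction n with
  | zero =>
    have e : natZ 0 = ∅ := (eq_empty _).2 fun x hx => by
      obtain ⟨i, hi, -⟩ := mem_natZ.1 hx
      exact absurd hi (Nat.not_lt_zero i)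
    rw [e]
    exact bd_empty ho.pos
  | succ n ih =>
    rw [z4a_natZ_succ, insert_eq]
    exact (bd_singleton ho _).union ih
/-- smallness goes up to larger inaccessibles -/
theorem Bd.up [IsT N] {o' : Ordinal.{0}} (h : Bd N o a) (ha : a ∈ N) (h0 : 0 < o) (hle : o ≤ o')
    (h' : Inac N o') : Bd N o' a := by
  obtain ⟨α, hα, hi⟩ := h.small h0 (IsZ.ord_mem_of_le N h'.2.1 hle) ha
  exact Bd.of_inj (h0.trans_le hle) hi (z5c_inacB h' (hα.trans_le hle))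
/-- an unbounded subset of an inaccessible keeps many elements outside a small set -/
theorem exists_inj_avoid [IsT N] {K B : V} {ρ : Ordinal.{0}} (ho : Inac N o) (hK : K ∈ N)
    (hs : K ⊆ o.toZFSet) (hu : ∀ b ∈ o.toZFSet, ∃ a ∈ K, b ∈ a) (hB : B ∈ N) (hb : Bd N o B)
    (hρ : ρ < o) : ∃ f ∈ N, IsInj f ρ.toZFSet (K \ B) := by
  haveI : In N K := ⟨hK⟩
  haveI : In N B := ⟨hB⟩
  have hD : K \ B ∈ N := memV_of N (K \ B)
  have h0 : 0 < o := ho.2.2.1.pos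
  obtain ⟨p, hp, f, hf, hi, hr⟩ := exists_ord_bij hD
  rcases le_or_gt ρ p with hle | hlt
  · exact (InjIn.of_subset (IsZ.ord_mem_of_le N hp hle)
      (toZFSet_subset_toZFSet_iff.2 hle)).trans ⟨f, hf, hi⟩
  · exfalso
    have h1 : InjIn N (K \ B) p.toZFSet := injIn_of_surj hf hp hD fun y hy => by
      obtain ⟨h1, h2, -⟩ := isFunc_iff.1 hi.1
      obtain ⟨x, hx⟩ := mem_ran.1 (hr ▸ hy)
      exact ⟨x, h2 ▸ mem_dom.2 ⟨y, hx⟩, h1.app_eq hx⟩
    have h2 : Bd N o (K \ B) := Bd.of_inj h0 h1 (z5c_inacB ho (hlt.trans hρ))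
    have h3 : Bd N o K := (h2.union hb).sub h0 hK fun x hx => by
      by_cases hx' : x ∈ B
      · exact mem_union.2 (Or.inr hx')
      · exact mem_union.2 (Or.inl (mem_sdiff.2 ⟨hx, hx'⟩))
    have h4 : K.rank < o := h3.rank_lt hK fun x hx => z5c_mem (hs hx)
    obtain ⟨c, hc, hc'⟩ := hu _ (toZFSet_mem_toZFSet_iff.2 h4)
    have h5 := (rank_lt_of_mem hc').trans (rank_lt_of_mem hc)
    rw [rank_toZFSet] at h5
    exact h5.false

theorem sm_succ {n : ℕ} {x : V} : x ∈ natZ (n + 1) ↔ x ∈ natZ n ∨ x = natZ n := by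
  rw [mem_natZ, mem_natZ]
  constructor
  · rintro ⟨i, hi, rfl⟩
    rcases Nat.lt_succ_iff_lt_or_eq.1 hi with h | rfl
    · exact Or.inl ⟨i, h, rfl⟩
    · exact Or.inr rfl
  · rintro (⟨i, hi, rfl⟩ | rfl)
    · exact ⟨i, Nat.lt_succ_of_lt hi, rfl⟩
    · exact ⟨n, Nat.lt_succ_self n, rfl⟩
theorem sm_elt {z p : V} (h : IsFn z) (hp : p ∈ z) : ∃ i ∈ dom z, pair i (app z i) = p := by
  rw [h.eq_lam] at hp
  exact mem_lam.1 hp
theorem sm_bound (ho : Order.IsSuccLimit o) (c : ℕ → Ordinal.{0}) (n : ℕ)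
    (h : ∀ i < n, c i < o) : ∃ γ < o, ∀ i < n, c i < γ := by
  induction n with
  | zero => exact ⟨0, ho.pos, fun i hi => absurd hi (Nat.not_lt_zero i)⟩
  | succ n ih =>
    obtain ⟨γ, h1, h2⟩ := ih fun i hi => h i (Nat.lt_succ_of_lt hi)
    refine ⟨max γ (Order.succ (c n)), max_lt h1 (ho.succ_lt (h n (Nat.lt_succ_self n))),
      fun i hi => ?_⟩
    rcases Nat.lt_succ_iff_lt_or_eq.1 hi with h3 | rfl
    · exact (h2 i h3).trans_le (le_max_left _ _)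
    · exact (Order.lt_succ _).trans_le (le_max_right _ _)

theorem mem_Tup {d K z : V} : z ∈ Tup N d K ↔ z ∈ N ∧ IsTup d K z := by
  rw [Tup, mem_sep, mem_pw]
  refine ⟨fun h => ⟨h.1.1, h.2⟩, fun h => ⟨⟨h.1, fun p hp => ?_⟩, h.2⟩⟩
  obtain ⟨h1, h2, h3⟩ := h.2
  obtain ⟨i, hi, rfl⟩ := sm_elt h1 hp
  rw [h2] at hi
  obtain ⟨w, hw, hy⟩ := mem_sUnion.1 (h3 i hi)
  exact pair_mem_prod.2 ⟨hi, mem_sUnion.2 ⟨w, (mem_sep.1 hw).1, hy⟩⟩
theorem tup_mem [IsZ N] {n : ℕ} {z : V} (h1 : IsFn z) (h2 : dom z = natZ n)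
    (h3 : ∀ i ∈ natZ n, app z i ∈ N) : z ∈ N := by
  refine IsZ.finite_mem N (((Set.finite_Iio n).image
    fun i => pair (natZ i) (app z (natZ i))).subset fun p hp => ?_) fun p hp => ?_
  · obtain ⟨i, hi, rfl⟩ := sm_elt h1 hp
    rw [h2] at hi
    obtain ⟨k, hk, rfl⟩ := mem_natZ.1 hi
    exact ⟨k, hk, rfl⟩
  · obtain ⟨i, hi, rfl⟩ := sm_elt h1 hp
    rw [h2] at hi
    exact (IsZ.pair_mem_iff N).2 ⟨IsZ.trans _ (IsZ.natZ_mem N n) _ hi, h3 i hi⟩
theorem lam_mem_Tup [IsZ N] {n : ℕ} {K : V} (hK : K ∈ N) {f : V → V}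
    (h : ∀ i ∈ natZ n, f i ∈ app K i) : lam (natZ n) f ∈ Tup N (natZ n) K := by
  refine mem_Tup.2 ⟨tup_mem (isFn_lam _ _) (dom_lam _ _) fun i hi => ?_, isFn_lam _ _,
    dom_lam _ _, fun i hi => ?_⟩
  · rw [app_lam f hi]
    exact IsZ.trans _ (IsZ.app_mem N hK i) _ (h i hi)
  · rw [app_lam f hi]
    exact h i hi
theorem Tup_mono {d K K' : V} (h : ∀ i ∈ d, app K i ⊆ app K' i) : Tup N d K ⊆ Tup N d K' := by
  intro z hz
  obtain ⟨h0, h1, h2, h3⟩ := mem_Tup.1 hz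
  exact mem_Tup.2 ⟨h0, h1, h2, fun i hi => h i hi (h3 i hi)⟩
theorem tup_zero [IsZ N] {K z : V} : z ∈ Tup N (natZ 0) K ↔ z = ∅ := by
  have h0 : ∀ x, x ∉ natZ 0 := fun x hx => by
    obtain ⟨i, hi, -⟩ := mem_natZ.1 hx
    exact Nat.not_lt_zero i hi
  rw [mem_Tup]
  constructor
  · rintro ⟨-, h1, h2, -⟩
    refine (ZFSet.eq_empty z).2 fun p hp => ?_
    obtain ⟨i, hi, -⟩ := sm_elt h1 hp
    exact h0 i (h2 ▸ hi)
  · rintro rfl
    refine ⟨IsZ.empty_mem N, ⟨fun p hp => absurd hp (notMem_empty p),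
      fun x y y' h _ => absurd h (notMem_empty _)⟩, ?_, fun i hi => absurd hi (h0 i)⟩
    ext x
    rw [mem_dom]
    exact ⟨fun ⟨y, hy⟩ => absurd hy (notMem_empty _), fun hx => absurd hx (h0 x)⟩
theorem tup_restr [IsZ N] {n : ℕ} {K z : V} (h : z ∈ Tup N (natZ (n + 1)) K) :
    restr z (natZ n) ∈ Tup N (natZ n) K ∧ app z (natZ n) ∈ app K (natZ n) ∧
      z = insert (pair (natZ n) (app z (natZ n))) (restr z (natZ n)) ∧
      ∀ i ∈ natZ n, app (restr z (natZ n)) i = app z i := by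
  obtain ⟨h0, h1, h2, h3⟩ := mem_Tup.1 h
  have hf : IsFn (restr z (natZ n)) := ⟨fun p hp => h1.1 p (mem_sep.1 hp).1,
    fun x y y' a b => h1.2 x y y' (pair_mem_restr.1 a).1 (pair_mem_restr.1 b).1⟩
  have hp : ∀ i ∈ natZ (n + 1), pair i (app z i) ∈ z := fun i hi => h1.pair_app_mem (h2 ▸ hi)
  have ha : ∀ i ∈ natZ n, app (restr z (natZ n)) i = app z i := fun i hi =>
    hf.app_eq (pair_mem_restr.2 ⟨hp i (sm_succ.2 (Or.inl hi)), hi⟩)
  have hd : dom (restr z (natZ n)) = natZ n := by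
    ext x
    rw [mem_dom]
    exact ⟨fun ⟨y, hy⟩ => (pair_mem_restr.1 hy).2,
      fun hx => ⟨_, pair_mem_restr.2 ⟨hp x (sm_succ.2 (Or.inl hx)), hx⟩⟩⟩
  refine ⟨mem_Tup.2 ⟨tup_mem hf hd fun i hi => ?_, hf, hd, fun i hi => ?_⟩,
    h3 _ (sm_succ.2 (Or.inr rfl)), ?_, ha⟩
  · rw [ha i hi]
    exact IsZ.app_mem N h0 i
  · rw [ha i hi]
    exact h3 i (sm_succ.2 (Or.inl hi))
  · refine ZFSet.ext fun p => ?_
    rw [mem_insert_iff]
    constructor
    · intro hz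
      obtain ⟨i, hi, rfl⟩ := sm_elt h1 hz
      rw [h2] at hi
      rcases sm_succ.1 hi with h4 | rfl
      · exact Or.inr (pair_mem_restr.2 ⟨hz, h4⟩)
      · exact Or.inl rfl
    · rintro (rfl | h4)
      · exact hp _ (sm_succ.2 (Or.inr rfl))
      · exact (mem_sep.1 h4).1
theorem tup_insert [IsZ N] {n : ℕ} {K z x : V} (hK : K ∈ N) (h : z ∈ Tup N (natZ n) K)
    (hx : x ∈ app K (natZ n)) : insert (pair (natZ n) x) z ∈ Tup N (natZ (n + 1)) K := by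
  obtain ⟨h0, h1, h2, h3⟩ := mem_Tup.1 h
  have hn : ∀ y, pair (natZ n) y ∉ z := fun y hy =>
    mem_irrefl (natZ n) (by have := mem_dom.2 ⟨y, hy⟩; rwa [h2] at this)
  have hf : IsFn (insert (pair (natZ n) x) z) := by
    refine ⟨fun p hp => ?_, fun u y y' a b => ?_⟩
    · rcases mem_insert_iff.1 hp with rfl | hp
      · rw [fst_pair, snd_pair]
      · exact h1.1 p hp
    · rcases mem_insert_iff.1 a with a | a <;> rcases mem_insert_iff.1 b with b | b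
      · rw [(pair_inj.1 a).2, (pair_inj.1 b).2]
      · rw [(pair_inj.1 a).1] at b
        exact absurd b (hn _)
      · rw [(pair_inj.1 b).1] at a
        exact absurd a (hn _)
      · exact h1.2 u y y' a b
  have hd : dom (insert (pair (natZ n) x) z) = natZ (n + 1) := by
    ext u
    rw [mem_dom, sm_succ]
    constructor
    · rintro ⟨y, hy⟩
      rcases mem_insert_iff.1 hy with hy | hy
      · exact Or.inr (pair_inj.1 hy).1
      · exact Or.inl (h2 ▸ mem_dom.2 ⟨y, hy⟩)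
    · rintro (hu | rfl)
      · exact ⟨_, mem_insert_iff.2 (Or.inr (h1.pair_app_mem (h2 ▸ hu)))⟩
      · exact ⟨x, mem_insert_iff.2 (Or.inl rfl)⟩
  have hv : ∀ i ∈ natZ (n + 1), app (insert (pair (natZ n) x) z) i ∈ app K i := fun i hi => by
    rcases sm_succ.1 hi with h4 | rfl
    · rw [hf.app_eq (mem_insert_iff.2 (Or.inr (h1.pair_app_mem (h2 ▸ h4))))]
      exact h3 i h4
    · rw [hf.app_eq (mem_insert_iff.2 (Or.inl rfl))]
      exact hx
  exact mem_Tup.2 ⟨tup_mem hf hd fun i hi => IsZ.trans _ (IsZ.app_mem N hK i) _ (hv i hi),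
    hf, hd, hv⟩
theorem tup_rank {n : ℕ} {K z : V} (ho : Order.IsSuccLimit o) (h : z ∈ Tup N (natZ n) K)
    (hK : ∀ i ∈ natZ n, (app K i).rank ≤ o) : z.rank < o := by
  obtain ⟨-, h1, h2, h3⟩ := mem_Tup.1 h
  obtain ⟨γ, g1, g2⟩ := sm_bound ho (fun i => (pair (natZ i) (app z (natZ i))).rank) n
    fun i hi => (rank_pair_lt ho).2 ⟨by
      rw [rank_natZ]
      exact (natCast_lt_omega0 i).trans_le (omega0_le_of_isSuccLimit ho),
      (rank_lt_of_mem (h3 _ (natZ_mem_natZ.2 hi))).trans_le (hK _ (natZ_mem_natZ.2 hi))⟩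
  refine lt_of_le_of_lt (rank_le_iff.2 fun p hp => ?_) g1
  obtain ⟨i, hi, rfl⟩ := sm_elt h1 hp
  rw [h2] at hi
  obtain ⟨k, hk, rfl⟩ := mem_natZ.1 hi
  exact g2 k hk
theorem bd_tup [IsZFC N] (ho : Order.IsSuccLimit o) {K : V} (hK : K ∈ N) (n : ℕ)
    (h : ∀ i ∈ natZ n, Bd N o (app K i)) : Bd N o (Tup N (natZ n) K) := by
  haveI : In N K := ⟨hK⟩
  have hT : ∀ m : ℕ, Tup N (natZ m) K ∈ N := fun m => by
    haveI : In N (natZ m) := ⟨IsZ.natZ_mem N m⟩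
    exact memV_of N _
  induction n with
  | zero =>
    have : Tup N (natZ 0) K = {∅} := ZFSet.ext fun z => by rw [tup_zero, mem_singleton]
    rw [this]
    exact bd_singleton ho _
  | succ n ih =>
    have h1 := ih fun i hi => h i (sm_succ.2 (Or.inl hi))
    have h2 := h _ (sm_succ.2 (Or.inr rfl))
    have m1 := hT n
    have m2 := IsZ.app_mem N hK (natZ n)
    have m3 : prod (Tup N (natZ n) K) (app K (natZ n)) ∈ N := by
      generalize Tup N (natZ n) K = A at m1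
      generalize app K (natZ n) = B at m2
      haveI : In N A := ⟨m1⟩
      haveI : In N B := ⟨m2⟩
      exact memV_of N _
    obtain ⟨t, ht⟩ : ∃ t, t = natZ n := ⟨_, rfl⟩
    haveI : In N t := ⟨ht ▸ IsZ.natZ_mem N n⟩
    refine ((h1.prod h2 m1 m2).img m3 fun w => insert (pair t (snd w)) (fst w)).sub ho.pos
      (hT _) fun z hz => ?_
    obtain ⟨r1, r2, r3, -⟩ := tup_restr hz
    refine mem_img.2 ⟨pair (restr z (natZ n)) (app z (natZ n)), pair_mem_prod.2 ⟨r1, r2⟩, ?_⟩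
    rw [fst_pair, snd_pair, ht]
    exact r3.symm

end Pool.Agent.Lib.MP_c8ac39_lc.WF
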