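import Pool.Agent.Lib.MP_c8ac39_lc.WF.Sm

/-! # Trees: basic facts -/

namespace Pool.Agent.Lib.MP_c8ac39_lc.WF

open Ordinal ZFSet Pool.Agent.Lib.MP_f9eb18_lc Pool.Agent.Lib.MP_f9eb18_lc.W
set_option linter.style.haveILetI false
set_option linter.unusedVariables false
set_option linter.unusedSectionVars false
set_option synthInstance.maxSize 100000

variable {N : Set V} {κ ζ η : Ordinal.{0}} {T s s' t : V}

theorem tr0_val (h : Lv κ t ζ) {x y : V} (hp : pair x y ∈ t) :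
    x ∈ ζ.toZFSet ∧ y ∈ κ.toZFSet := pair_mem_prod.1 (h.2.1 hp)
theorem tr0_lv (hη : η < κ) (h1 : IsFn t) (h2 : dom t = η.toZFSet)
    (h3 : ∀ x y, pair x y ∈ t → y ∈ κ.toZFSet) : Lv κ t η :=
  ⟨hη, isFunc_iff.2 ⟨h1, h2, fun x hx => h3 x _ (h1.pair_app_mem (h2 ▸ hx))⟩⟩
theorem tr0_fn_sub (h1 : IsFn t) (h : s ⊆ t) : IsFn s :=
  ⟨fun p hp => h1.1 p (h hp), fun x y y' a b => h1.2 x y y' (h a) (h b)⟩
theorem Lv.spec (h : Lv κ t ζ) : IsFn t ∧ dom t = ζ.toZFSet ∧ lh t = ζ := by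
  obtain ⟨h1, h2, -⟩ := isFunc_iff.1 h.2
  exact ⟨h1, h2, by rw [lh, h2, rank_toZFSet]⟩
theorem IsTree.lv (h : IsTree κ T) (ht : t ∈ T) : Lv κ t (lh t) := by
  obtain ⟨ζ, hζ⟩ := (h t ht).1
  rw [hζ.spec.2.2]; exact hζ
theorem Lv.restr (h : Lv κ t ζ) (hη : η ≤ ζ) :
    Lv κ (restr t η.toZFSet) η ∧ restr t η.toZFSet ⊆ t := by
  have hs : W.restr t η.toZFSet ⊆ t := fun p hp => (mem_sep.1 hp).1
  refine ⟨tr0_lv (hη.trans_lt h.1) (tr0_fn_sub h.spec.1 hs) ?_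
    fun x y hp => (tr0_val h (hs hp)).2, hs⟩
  ext x
  rw [mem_dom]
  refine ⟨fun ⟨y, hy⟩ => (pair_mem_restr.1 hy).2, fun hx => ?_⟩
  obtain ⟨y, hy⟩ := mem_dom.1 (h.spec.2.1 ▸ toZFSet_subset_toZFSet_iff.2 hη hx : x ∈ dom t)
  exact ⟨y, pair_mem_restr.2 ⟨hy, hx⟩⟩
theorem Lv.eq_restr (hs : Lv κ s η) (ht : Lv κ t ζ) (h : s ⊆ t) :
    η ≤ ζ ∧ s = W.restr t η.toZFSet := by
  constructor
  · refine toZFSet_subset_toZFSet_iff.1 fun x hx => ?_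
    obtain ⟨y, hy⟩ := mem_dom.1 (hs.spec.2.1 ▸ hx : x ∈ dom s)
    exact (tr0_val ht (h hy)).1
  · ext p
    constructor
    · intro hp
      have e := hs.spec.1.1 p hp
      rw [e] at hp ⊢
      exact pair_mem_restr.2 ⟨h hp, (tr0_val hs hp).1⟩
    · intro hp
      have e := ht.spec.1.1 p (mem_sep.1 hp).1
      rw [e] at hp ⊢
      obtain ⟨h1, h2⟩ := pair_mem_restr.1 hp
      obtain ⟨y, hy⟩ := mem_dom.1 (hs.spec.2.1 ▸ h2 : fst p ∈ dom s)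
      rw [ht.spec.1.2 _ _ _ h1 (h hy)]
      exact hy
/-- initial segments of one sequence are comparable -/
theorem Lv.sub_of_le {ξ : Ordinal.{0}} (hs : Lv κ s η) (hs' : Lv κ s' ξ) (ht : Lv κ t ζ)
    (h : s ⊆ t) (h' : s' ⊆ t) (hle : η ≤ ξ) : s ⊆ s' := by
  rw [(hs.eq_restr ht h).2, (hs'.eq_restr ht h').2]
  intro p hp
  exact mem_sep.2 ⟨(mem_sep.1 hp).1, toZFSet_subset_toZFSet_iff.2 hle (mem_sep.1 hp).2⟩
theorem Lv.eq_of_sub (hs : Lv κ s η) (ht : Lv κ t η) (h : s ⊆ t) : s = t := by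
  have h1 : t ⊆ s := ht.sub_of_le hs ht (fun _ hx => hx) h le_rfl
  ext x
  exact ⟨fun hx => h hx, fun hx => h1 hx⟩
theorem IsTree.restr_mem (h : IsTree κ T) (ht : t ∈ T) (hη : η ≤ lh t) :
    restr t η.toZFSet ∈ T ∧ lh (restr t η.toZFSet) = η := by
  obtain ⟨h1, h2⟩ := (h.lv ht).restr hη
  exact ⟨(h t ht).2 _ η h1 h2, h1.spec.2.2⟩
theorem isSucc_iff (h : IsTree κ T) (ht : Lv κ t ζ) :
    IsSucc κ T t s ↔ s ∈ T ∧ t ⊆ s ∧ lh s = ζ + 1 := by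
  constructor
  · rintro ⟨h1, h2, ξ, h3, h4⟩
    exact ⟨h1, h2, by rw [h4.spec.2.2, ← h3.spec.2.2, ht.spec.2.2]⟩
  · rintro ⟨h1, h2, h3⟩
    exact ⟨h1, h2, ζ, ht, h3 ▸ h.lv h1⟩
/-- the union of a bounded chain of sequences is a sequence -/
theorem lv_sUnion {C : V} (h : IsTree κ T) (hC : IsChn T C) (hη : η < κ)
    (hb : ∀ t ∈ C, lh t ≤ η) : Lv κ (⋃₀ C) (lh (⋃₀ C)) ∧ lh (⋃₀ C) ≤ η := by
  have hl : ∀ t ∈ C, Lv κ t (lh t) := fun t ht => h.lv (hC.1 ht)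
  have hf : IsFn (⋃₀ C : V) := by
    refine ⟨fun p hp => ?_, fun x y y' a b => ?_⟩
    · obtain ⟨t, ht, hp⟩ := mem_sUnion.1 hp
      exact (hl t ht).spec.1.1 p hp
    · obtain ⟨t, ht, a⟩ := mem_sUnion.1 a
      obtain ⟨s, hs, b⟩ := mem_sUnion.1 b
      rcases hC.2 s hs t ht with e | e
      · exact (hl t ht).spec.1.2 x y y' a (e b)
      · exact (hl s hs).spec.1.2 x y y' (e a) b
  have hd : ∀ x, x ∈ dom (⋃₀ C : V) ↔ ∃ t ∈ C, x ∈ (lh t).toZFSet := by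
    intro x
    rw [mem_dom]
    constructor
    · rintro ⟨y, hy⟩
      obtain ⟨t, ht, hy⟩ := mem_sUnion.1 hy
      exact ⟨t, ht, (tr0_val (hl t ht) hy).1⟩
    · rintro ⟨t, ht, hx⟩
      obtain ⟨y, hy⟩ := mem_dom.1 ((hl t ht).spec.2.1 ▸ hx : x ∈ dom t)
      exact ⟨y, mem_sUnion.2 ⟨t, ht, hy⟩⟩
  have hle : lh (⋃₀ C) ≤ η := by
    refine ZFSet.rank_le_iff.2 fun x hx => ?_
    obtain ⟨t, ht, hx⟩ := (hd x).1 hx
    exact (mem_ord hx).2.trans_le (hb t ht)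
  refine ⟨tr0_lv (hle.trans_lt hη) hf ?_ fun x y hp => ?_, hle⟩
  · ext x
    constructor
    · intro hx
      obtain ⟨t, ht, hx'⟩ := (hd x).1 hx
      rw [(mem_ord hx').1]
      exact toZFSet_mem_toZFSet_iff.2 (rank_lt_of_mem hx)
    · intro hx
      obtain ⟨β, hβ, rfl⟩ := mem_toZFSet_iff.1 hx
      by_contra hn
      refine absurd hβ (not_lt.2 (ZFSet.rank_le_iff.2 fun y hy => ?_))
      obtain ⟨t, ht, hy'⟩ := (hd y).1 hy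
      by_contra hc
      exact hn ((hd _).2 ⟨t, ht,
        toZFSet_mem_toZFSet_iff.2 ((not_lt.1 hc).trans_lt (mem_ord hy').2)⟩)
  · obtain ⟨t, ht, hp⟩ := mem_sUnion.1 hp
    exact (tr0_val (hl t ht) hp).2
theorem isSeq_iff {z δ : V} : IsSeq z δ ↔ IsFn z ∧ dom z = δ := by
  constructor
  · rintro ⟨h1, h2⟩
    have h3 : ∀ x y, pair x y ∈ z → x ∈ δ := by
      intro x y hp
      obtain ⟨a, ha, b, e⟩ := h1 _ hp
      rw [(pair_inj.1 e).1]; exact ha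
    refine ⟨⟨fun p hp => ?_, fun x y y' a b => (h2 x (h3 x y a)).unique a b⟩, ?_⟩
    · obtain ⟨a, -, b, rfl⟩ := h1 p hp
      rw [fst_pair, snd_pair]
    · ext x
      rw [mem_dom]
      exact ⟨fun ⟨y, hy⟩ => h3 x y hy, fun hx => (h2 x hx).exists⟩
  · rintro ⟨h1, rfl⟩
    refine ⟨fun p hp => ⟨fst p, mem_dom.2 ⟨snd p, h1.1 p hp ▸ hp⟩, snd p, h1.1 p hp⟩,
      fun a ha => ?_⟩
    obtain ⟨b, hb⟩ := mem_dom.1 ha
    exact ⟨b, hb, fun b' hb' => h1.2 a b' b hb' hb⟩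
theorem inLevel_iff {δ 𝕋 z : V} (h1 : IsFn 𝕋) (h2 : dom 𝕋 = δ) : InLevel κ δ 𝕋 ζ z ↔
    IsTup δ 𝕋 z ∧ ∀ i ∈ δ, Lv κ (app z i) ζ := by
  rw [InLevel, isSeq_iff]
  constructor
  · rintro ⟨⟨a, b⟩, c⟩
    have key : ∀ i ∈ δ, app z i ∈ app 𝕋 i ∧ Lv κ (app z i) ζ := fun i hi =>
      c i _ _ (h1.pair_app_mem (h2 ▸ hi)) (a.pair_app_mem (b ▸ hi))
    exact ⟨⟨a, b, fun i hi => (key i hi).1⟩, fun i hi => (key i hi).2⟩
  · rintro ⟨⟨a, b, c⟩, d⟩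
    refine ⟨⟨a, b⟩, fun j T x e1 e2 => ?_⟩
    have hj : j ∈ δ := b ▸ mem_dom.2 ⟨x, e2⟩
    rw [← h1.app_eq e1, ← a.app_eq e2]
    exact ⟨c j hj, d j hj⟩

end Pool.Agent.Lib.MP_c8ac39_lc.WF
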