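import Pool.Agent.Lib.MP_c8ac39_lc.WF.Tr0

/-! # Closed trees -/

namespace Pool.Agent.Lib.MP_c8ac39_lc.WF

open Ordinal ZFSet Pool.Agent.Lib.MP_f9eb18_lc Pool.Agent.Lib.MP_f9eb18_lc.W
set_option linter.style.haveILetI false
set_option linter.unusedVariables false
set_option linter.unusedSectionVars false
set_option synthInstance.maxSize 100000

variable {N : Set V} [IsZFC N] {κ ζ η : Ordinal.{0}} {T t : V}

theorem tr1a_out (hk : RegK N κ) (hT : T ∈ N) (h : WeakRegular N κ T) {u : V} (hu : u ∈ N)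
    (hl : Lv κ u ζ) : ∃ c ∈ T, ¬ c ⊆ u ∧ ∀ x ∈ T, x ⊆ u → c ⊆ x ∨ x ⊆ c := by
  by_contra hc
  haveI : In N T := ⟨hT⟩
  haveI : In N u := ⟨hu⟩
  have hB : ZFSet.sep (fun x => x ⊆ u) T ∈ N := memV_of N _
  haveI : In N (ZFSet.sep (fun x => x ⊆ u) T) := ⟨hB⟩
  have hb : IsBranch N T (ZFSet.sep (fun x => x ⊆ u) T) := by
    refine ⟨⟨fun x hx => (mem_sep.1 hx).1, fun x hx y hy => ?_⟩, fun C hC h1 h2 => ?_⟩
    · obtain ⟨a1, a2⟩ := mem_sep.1 hx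
      obtain ⟨b1, b2⟩ := mem_sep.1 hy
      rcases le_total (lh x) (lh y) with e | e
      · exact Or.inl (Lv.sub_of_le (h.1.lv a1) (h.1.lv b1) hl a2 b2 e)
      · exact Or.inr (Lv.sub_of_le (h.1.lv b1) (h.1.lv a1) hl b2 a2 e)
    · ext c
      refine ⟨fun hx => mem_sep.2 ⟨h1.1 hx, ?_⟩, fun hx => h2 hx⟩
      by_contra h3
      exact hc ⟨c, h1.1 hx, h3, fun x a b => h1.2 c hx x (h2 (mem_sep.2 ⟨a, b⟩))⟩
  refine (h.2.2.2 _ hB hb).2 _ hB (fun _ hx => hx) (fun x hx => ⟨x, hx, fun _ hz => hz⟩)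
    ⟨ζ + 1, hk.2.2.1.succ_lt hl.1, lam (ZFSet.sep (fun x => x ⊆ u) T) fun x => (lh x).toZFSet,
      memV_of N _, isInj_lam (fun x hx => ?_) fun x hx y hy e => ?_⟩
  · obtain ⟨a1, a2⟩ := mem_sep.1 hx
    exact toZFSet_mem_toZFSet_iff.2
      ((Lv.eq_restr (h.1.lv a1) hl a2).1.trans_lt (lt_add_one _))
  · obtain ⟨a1, a2⟩ := mem_sep.1 hx
    obtain ⟨b1, b2⟩ := mem_sep.1 hy
    have e1 : lh x = lh y := toZFSet_injective e
    rw [(Lv.eq_restr (h.1.lv a1) hl a2).2, (Lv.eq_restr (h.1.lv b1) hl b2).2, e1]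
theorem cl_of_weak (hk : RegK N κ) (hT : T ∈ N) (h : WeakRegular N κ T) : Cl N κ T := by
  refine ⟨h.1, fun t ht => ?_, fun C hC h1 η hη h2 => ?_⟩
  · have hl := h.1.lv ht
    obtain ⟨c, hc, h1, h2⟩ := tr1a_out hk hT h (IsZ.trans _ hT _ ht) hl
    have h3 : t ⊆ c := (h2 t ht fun _ hx => hx).resolve_left h1
    have h4 : lh t < lh c := by
      refine lt_of_le_of_ne (Lv.eq_restr hl (h.1.lv hc) h3).1 fun e => h1 ?_
      rw [← Lv.eq_of_sub hl (e ▸ h.1.lv hc) h3]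
    have h5 : lh t + 1 ≤ lh c := Order.add_one_le_of_lt h4
    obtain ⟨h6, h7⟩ := h.1.restr_mem hc h5
    obtain ⟨h8, h9⟩ := (h.1.lv hc).restr h5
    exact ⟨_, (isSucc_iff h.1 hl).2
      ⟨h6, Lv.sub_of_le hl h8 (h.1.lv hc) h3 h9 (lt_add_one _).le, h7⟩⟩
  · haveI : In N C := ⟨hC⟩
    have hl := (lv_sUnion h.1 h1 hη h2).1
    obtain ⟨c, hc, h3, h4⟩ := tr1a_out hk hT h (memV_of N (⋃₀ C)) hl
    refine (h.1 c hc).2 _ _ hl fun p hp => ?_
    obtain ⟨x, hx, hp⟩ := mem_sUnion.1 hp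
    have h5 : x ⊆ ⋃₀ C := fun z hz => mem_sUnion.2 ⟨x, hx, hz⟩
    rcases h4 x (h1.1 hx) h5 with e | e
    · exact absurd (fun z hz => h5 (e hz)) h3
    · exact e hp
theorem Cl.ext (hk : RegK N κ) (hT : T ∈ N) (h : Cl N κ T) (ht : t ∈ T) (h1 : lh t ≤ η)
    (h2 : η < κ) : ∃ s ∈ T, t ⊆ s ∧ lh s = η := by
  haveI : In N T := ⟨hT⟩
  haveI : In N t := ⟨IsZ.trans _ hT _ ht⟩
  haveI : In N η := ⟨IsZ.trans _ hk.2.1 _ (toZFSet_mem_toZFSet_iff.2 h2)⟩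
  obtain ⟨s, hs, -, hd, H⟩ := trans_dc N (fun s y => y ∈ T ∧ t ⊆ y ∧
      (∀ g ∈ dom s, app s g ⊆ y) ∧ lh y = max (lh t) (dom s).rank) (mem_of N (η + 1)) (by
    intro α hα s hs _ hd H
    have hαη : α ≤ η := Order.lt_add_one_iff.1 hα
    haveI : In N s := ⟨hs⟩
    have K : ∀ β < α, app s β.toZFSet ∈ T ∧ t ⊆ app s β.toZFSet ∧
        (∀ γ < β, app s γ.toZFSet ⊆ app s β.toZFSet) ∧ lh (app s β.toZFSet) = max (lh t) β := by
      intro β hβ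
      obtain ⟨a1, a2, a3, a4⟩ := H β hβ
      rw [z5a_dom hd hβ.le] at a3 a4
      rw [rank_toZFSet] at a4
      refine ⟨a1, a2, fun γ hγ => ?_, a4⟩
      have a5 := a3 _ (toZFSet_mem_toZFSet_iff.2 hγ)
      rwa [show app (restr s β.toZFSet) γ.toZFSet = app s γ.toZFSet from
        oat_restr (α := V) hγ] at a5
    have hC : insert t (img (app s) (dom s)) ∈ N := memV_of N _
    have hm : ∀ x, x ∈ insert t (img (app s) (dom s)) ↔
        x = t ∨ ∃ β < α, app s β.toZFSet = x := by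
      intro x
      rw [mem_insert_iff, mem_img, hd]
      refine or_congr_right ⟨fun ⟨g, hg, e⟩ => ?_, fun ⟨β, hβ, e⟩ =>
        ⟨_, toZFSet_mem_toZFSet_iff.2 hβ, e⟩⟩
      obtain ⟨β, hβ, rfl⟩ := mem_toZFSet_iff.1 hg
      exact ⟨β, hβ, e⟩
    generalize insert t (img (app s) (dom s)) = C at hC hm
    have hch : IsChn T C := by
      refine ⟨fun x hx => ?_, fun x hx y hy => ?_⟩
      · rcases (hm x).1 hx with rfl | ⟨β, hβ, rfl⟩
        · exact ht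
        · exact (K β hβ).1
      · rcases (hm x).1 hx with e1 | ⟨β, hβ, rfl⟩ <;> rcases (hm y).1 hy with e2 | ⟨γ, hγ, rfl⟩
        · rw [e1, e2]
          exact Or.inl fun _ hz => hz
        · rw [e1]
          exact Or.inl (K γ hγ).2.1
        · rw [e2]
          exact Or.inr (K β hβ).2.1
        · rcases lt_trichotomy β γ with e | e | e
          · exact Or.inl ((K γ hγ).2.2.1 β e)
          · rw [e]
            exact Or.inl fun _ hz => hz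
          · exact Or.inr ((K β hβ).2.2.1 γ e)
    have hb : ∀ x ∈ C, lh x ≤ max (lh t) α := by
      intro x hx
      rcases (hm x).1 hx with rfl | ⟨β, hβ, rfl⟩
      · exact le_max_left _ _
      · rw [(K β hβ).2.2.2]
        exact max_le_max le_rfl hβ.le
    have hκ : max (lh t) α < κ := (max_le h1 hαη).trans_lt h2
    have hu := h.2.2 C hC hch _ hκ hb
    have hle := (lv_sUnion h.1 hch hκ hb).2
    have hsub : ∀ x ∈ C, x ⊆ ⋃₀ C := fun x hx z hz => mem_sUnion.2 ⟨x, hx, hz⟩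
    have htu : t ⊆ ⋃₀ C := hsub t ((hm t).2 (Or.inl rfl))
    have hsu : ∀ β < α, app s β.toZFSet ⊆ ⋃₀ C := fun β hβ =>
      hsub _ ((hm _).2 (Or.inr ⟨β, hβ, rfl⟩))
    have fin : ∀ y ∈ T, ⋃₀ C ⊆ y → lh y = max (lh t) α → ∃ y ∈ N, y ∈ T ∧ t ⊆ y ∧
        (∀ g ∈ dom s, app s g ⊆ y) ∧ lh y = max (lh t) (dom s).rank := by
      intro y hy a b
      refine ⟨y, IsZ.trans _ hT _ hy, hy, fun z hz => a (htu hz), fun g hg => ?_, ?_⟩
      · rw [hd] at hg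
        obtain ⟨β, hβ, rfl⟩ := mem_toZFSet_iff.1 hg
        exact fun z hz => a (hsu β hβ hz)
      · rw [hd, rank_toZFSet, b]
    rcases hle.eq_or_lt with e | e
    · exact fin _ hu (fun _ hz => hz) e
    · obtain ⟨y, hy⟩ := h.2.1 _ hu
      obtain ⟨b1, b2, b3⟩ := (isSucc_iff h.1 (h.1.lv hu)).1 hy
      refine fin y b1 b2 (le_antisymm (b3 ▸ Order.add_one_le_of_lt e) (max_le ?_ ?_))
      · rw [b3]
        exact (Lv.eq_restr (h.1.lv ht) (h.1.lv hu) htu).1.trans (lt_add_one _).le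
      · rw [b3]
        by_contra hc
        have hc' : lh (⋃₀ C) + 1 < α := not_le.1 hc
        have b4 := (Lv.eq_restr (h.1.lv (K _ hc').1) (h.1.lv hu) (hsu _ hc')).1
        rw [(K _ hc').2.2.2] at b4
        exact absurd ((le_max_right _ _).trans b4) (not_le.2 (lt_add_one _)))
  obtain ⟨a1, a2, -, a4⟩ := H η (lt_add_one η)
  rw [z5a_dom hd (lt_add_one η).le, rank_toZFSet, max_eq_right h1] at a4
  exact ⟨_, a1, a2, a4⟩
theorem Cl.empty_mem (hk : RegK N κ) (h : Cl N κ T) : (∅ : V) ∈ T := by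
  have h1 := h.2.2 ∅ (IsZ.empty_mem N) ⟨fun x hx => absurd hx (notMem_empty x),
    fun x hx => absurd hx (notMem_empty x)⟩ 0 (omega0_pos.trans hk.1)
    fun x hx => absurd hx (notMem_empty x)
  rwa [sUnion_empty] at h1
theorem tr1w_inj (hk : RegK N κ) {A : V} (hA : A ∈ N) (h : ∀ η < κ, ∃ s ∈ A, lh s = η) :
    CardLe N κ.toZFSet A := by
  haveI : In N A := ⟨hA⟩
  refine injIn_of_surj (f := lam A fun t => (lh t).toZFSet) (memV_of N _) hA hk.2.1 fun y hy => ?_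
  obtain ⟨e, hr⟩ := mem_ord hy
  obtain ⟨s, hs, h1⟩ := h y.rank hr
  exact ⟨s, hs, by rw [app_lam _ hs, h1, ← e]⟩
theorem tr1w_max {B s : V} (hT : T ∈ N) (hB : B ∈ N) (hb : IsBranch N T B) (hs : s ∈ T)
    (hc : ∀ t ∈ B, s ⊆ t ∨ t ⊆ s) : s ∈ B := by
  haveI : In N B := ⟨hB⟩
  haveI : In N s := ⟨IsZ.trans _ hT _ hs⟩
  have e := hb.2 (insert s B) (memV_of N _) ⟨fun x hx => ?_, fun x hx y hy => ?_⟩
    fun x hx => mem_insert_of_mem _ hx
  · rw [← e]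
    exact mem_insert s B
  · rcases mem_insert_iff.1 hx with rfl | hx
    · exact hs
    · exact hb.1.1 hx
  · rcases mem_insert_iff.1 hx with h1 | h1 <;> rcases mem_insert_iff.1 hy with h2 | h2
    · rw [h1, h2]
      exact Or.inl fun _ hz => hz
    · rw [h1]
      exact hc y h2
    · rw [h2]
      exact (hc x h1).symm
    · exact hb.1.2 x h1 y h2
theorem tr1w_unb {B : V} (hT : T ∈ N) (h : Cl N κ T) (hB : B ∈ N) (hb : IsBranch N T B)
    (hη : η < κ) : ∃ s ∈ B, η < lh s := by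
  by_contra hc
  have hle : ∀ t ∈ B, lh t ≤ η := fun t ht => le_of_not_gt fun h1 => hc ⟨t, ht, h1⟩
  have hu := h.2.2 B hB hb.1 η hη hle
  obtain ⟨s, hs⟩ := h.2.1 _ hu
  obtain ⟨h1, h2, h3⟩ := (isSucc_iff h.1 (h.1.lv hu)).1 hs
  have h4 : s ∈ B := tr1w_max hT hB hb h1 fun t ht =>
    Or.inr fun x hx => h2 (mem_sUnion.2 ⟨t, ht, hx⟩)
  have h5 : s ⊆ ⋃₀ B := fun x hx => mem_sUnion.2 ⟨s, h4, hx⟩
  have h6 := (Lv.eq_restr (h.1.lv h1) (h.1.lv hu) h5).1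
  rw [h3] at h6
  exact absurd h6 (not_le.2 (lt_add_one _))
theorem tr1w_all {B : V} (hT : T ∈ N) (h : Cl N κ T) (hB : B ∈ N) (hb : IsBranch N T B)
    (hη : η < κ) : ∃ s ∈ B, lh s = η := by
  obtain ⟨s, hs, h1⟩ := tr1w_unb hT h hB hb hη
  have hsT : s ∈ T := hb.1.1 hs
  obtain ⟨h2, h3⟩ := h.1.restr_mem hsT h1.le
  obtain ⟨h4, h5⟩ := (h.1.lv hsT).restr h1.le
  refine ⟨_, tr1w_max hT hB hb h2 fun t ht => ?_, h3⟩
  have htT : t ∈ T := hb.1.1 ht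
  rcases hb.1.2 s hs t ht with h6 | h6
  · exact Or.inl fun x hx => h6 (h5 hx)
  · rcases le_total η (lh t) with h7 | h7
    · exact Or.inl (Lv.sub_of_le h4 (h.1.lv htT) (h.1.lv hsT) h5 h6 h7)
    · exact Or.inr (Lv.sub_of_le (h.1.lv htT) h4 (h.1.lv hsT) h6 h5 h7)
theorem weak_of_cl (hk : RegK N κ) (hT : T ∈ N) (h : Cl N κ T) (hi : CardLe N T κ.toZFSet)
    (hl : ∀ ζ < κ, Small N κ (ZFSet.sep (fun t => Lv κ t ζ) T)) : WeakRegular N κ T := by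
  refine ⟨h.1, ⟨hi, tr1w_inj hk hT fun η hη => ?_⟩, hl, fun B hB hb => ⟨⟨B, hB, fun _ hx => hx,
    fun t ht => ⟨t, ht, fun _ hx => hx⟩, InjIn.trans (InjIn.of_subset hB hb.1.1) hi,
    tr1w_inj hk hB fun η hη => tr1w_all hT h hB hb hη⟩, fun C hC h1 h2 h3 => ?_⟩⟩
  · have e : dom (∅ : V) = ∅ := (eq_empty _).2 fun x hx => by
      obtain ⟨y, hy⟩ := mem_dom.1 hx
      exact notMem_empty _ hy
    have e0 : lh (∅ : V) ≤ η := by
      rw [lh, e, rank_empty]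
      exact zero_le
    obtain ⟨s, hs, -, h4⟩ := h.ext hk hT (h.empty_mem hk) e0 hη
    exact ⟨s, hs, h4⟩
  · obtain ⟨γ, h4, h5⟩ := z5c_ord (hk.bd h3) hC (fun x => lh x)
      fun x hx => (h.1.lv (hb.1.1 (h1 hx))).1
    obtain ⟨t, ht, h6⟩ := tr1w_all hT h hB hb h4
    obtain ⟨s, hs, h7⟩ := h2 t ht
    have h8 := (Lv.eq_restr (h.1.lv (hb.1.1 ht)) (h.1.lv (hb.1.1 (h1 hs))) h7).1
    rw [h6] at h8
    exact absurd (h5 s hs) (not_lt.2 h8)

end Pool.Agent.Lib.MP_c8ac39_lc.WF
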