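import Pool.Agent.Lib.MP_c8ac39_lc.WF.TrW

/-! # The dense set version -/

namespace Pool.Agent.Lib.MP_c8ac39_lc.WF

open Ordinal ZFSet Pool.Agent.Lib.MP_f9eb18_lc Pool.Agent.Lib.MP_f9eb18_lc.W
set_option linter.style.haveILetI false
set_option linter.unusedVariables false
set_option linter.unusedSectionVars false
set_option synthInstance.maxSize 100000

variable {N : Set V} [IsZFC N] {κ : Ordinal.{0}}

/-- `ξ` shows that the dense set version fails at `w = (t, j)` -/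
def tra_Bad (N : Set V) (κ : Ordinal.{0}) (d 𝕋 c w : V) (ξ : Ordinal.{0}) : Prop :=
  (∀ i ∈ d, lh (app (fst w) i) ≤ ξ) ∧ ¬ ∃ ζ < κ, ξ < ζ ∧ ∃ e ∈ N, EX N d 𝕋 c (fst w) (snd w) ξ ζ e
instance tra_ud {F : Fr} {D : Set V → (ℕ → V) → Set V} {a b c e : Set V → (ℕ → V) → V}
    {o p : Set V → (ℕ → V) → Ordinal.{0}} [UC F D] [UF F o] [UF F a] [UF F b] [UF F c] [UF F e]
    [UF F p] :
    UD F (fun M v => tra_Bad (D M v) (o M v) (a M v) (b M v) (c M v) (e M v) (p M v)) := by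
  have := UF.lift (F := F) a; have := UF.lift (F := F) b; have := UF.lift (F := F) c
  have := UF.lift (F := F) e; have := UF.lift (F := F) p; have := UC.lift (F := F) D
  unfold tra_Bad; infer_instance

theorem tra_app {f x : V} {ζ : Ordinal.{0}} (h0 : 0 < ζ) (hf : IsFn f)
    (hs : f ⊆ prod ζ.toZFSet ζ.toZFSet) : (app f x).rank < ζ := by
  by_cases hx : x ∈ dom f
  · exact (mem_ord (pair_mem_prod.1 (hs (hf.pair_app_mem hx))).2).2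
  · rwa [app_of_not_mem_dom hx, rank_empty]

theorem tra_mem_U {K i x : V} (h : x ∈ app K i) : x ∈ (⋃₀ (ran K) : V) := by
  obtain ⟨y, hy, hx⟩ := mem_sUnion.1 h
  exact mem_sUnion.2 ⟨y, (mem_sep.1 hy).1, hx⟩

theorem dsp_of_coh (hk : RegK N κ) {n : ℕ} {σ : Ordinal.{0}} (hσ : σ < κ)
    (h : COH N κ (natZ n) σ.toZFSet) {𝕋 c : V} (h𝕋 : 𝕋 ∈ N) (hc : c ∈ N)
    (hw : ∀ i ∈ natZ n, WeakRegular N κ (app 𝕋 i))
    (hc' : ∀ z ∈ N, ∀ ζ < κ, IsTup (natZ n) 𝕋 z → (∀ i ∈ natZ n, lh (app z i) = ζ) →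
      app c z ∈ σ.toZFSet) :
    ∃ t ∈ Tup N (natZ n) 𝕋, ∃ j ∈ σ.toZFSet, DSP N κ (natZ n) 𝕋 c t j := by
  by_contra hno
  haveI : In N κ := ⟨hk.2.1⟩
  haveI : In N σ := ⟨IsZ.ord_mem_of_le N hk.2.1 hσ.le⟩
  haveI : In N 𝕋 := ⟨h𝕋⟩
  haveI : In N c := ⟨hc⟩
  have hl := hk.2.2.1
  have hTN : ∀ i, app 𝕋 i ∈ N := IsZ.app_mem N h𝕋
  have hcl : ∀ i ∈ natZ n, Cl N κ (app 𝕋 i) := fun i hi => cl_of_weak hk (hTN i) (hw i hi)
  obtain ⟨cd, hcd, -, -, hi⟩ := choice_fn N (fun i f => IsInj f (app 𝕋 i) κ.toZFSet)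
    (memV_of N (natZ n)) fun i hi => (hw i hi).2.1.1
  haveI : In N cd := ⟨hcd⟩
  have hcdN : ∀ i, app cd i ∈ N := IsZ.app_mem N hcd
  have hcode : ∀ i ∈ natZ n, ∀ y ∈ app 𝕋 i, app (app cd i) y ∈ κ.toZFSet := fun i k y hy =>
    (isFunc_iff.1 (hi i k).1).2.2 y hy
  have hbad : ∀ w ∈ prod (Tup N (natZ n) 𝕋) σ.toZFSet,
      olst κ (tra_Bad N κ (natZ n) 𝕋 c w) < κ := fun w hw' => by
    obtain ⟨t, ht, j, hj, rfl⟩ := mem_prod.1 hw'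
    by_contra k
    refine hno ⟨t, ht, j, hj, fun ξ hξ h1 => ?_⟩
    by_contra h2
    exact k ((olst_le_of hξ ⟨by simpa only [fst_pair] using h1,
      by simpa only [fst_pair, snd_pair] using h2⟩).trans_lt hξ)
  obtain ⟨b, hb⟩ : ∃ b, b = lam (prod (Tup N (natZ n) 𝕋) σ.toZFSet) fun w =>
    (olst κ fun ξ => tra_Bad N κ (natZ n) 𝕋 c w ξ).toZFSet := ⟨_, rfl⟩
  obtain ⟨F, hF, F1, F2, F3⟩ := exists_bound hk h𝕋 hcd (mem_of N σ) (b := b) (hb ▸ memV_of N _)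
    (hk.2.2.2 σ hσ) hw hi fun w => by
      by_cases k : w ∈ prod (Tup N (natZ n) 𝕋) σ.toZFSet
      · rw [hb, app_lam _ k, rank_toZFSet]; exact hbad w k
      · rw [app_of_not_mem_dom (by rwa [hb, dom_lam]), rank_empty]; exact hl.pos
  obtain ⟨ζ, hζ, h0, hFζ, H⟩ := h F hF F1
  haveI : In N ζ := ⟨IsZ.ord_mem_of_le N hk.2.1 hζ.le⟩
  obtain ⟨X, hX⟩ : ∃ X, X = rel (natZ n) (⋃₀ (ran 𝕋)) fun i s => s ∈ app 𝕋 i ∧ lh s ≤ ζ :=
    ⟨_, rfl⟩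
  obtain ⟨ex, hex, -, -, E⟩ := choice_fn N (fun w y => y ∈ app 𝕋 (fst w) ∧ snd w ⊆ y ∧ lh y = ζ)
    (a := X) (hX ▸ memV_of N _) fun w hw' => by
      obtain ⟨i, k, s, -, rfl, s1, s2⟩ := mem_rel.1 (hX ▸ hw')
      obtain ⟨y, y1, y2⟩ := (hcl i k).ext hk (hTN i) s1 s2 hζ
      exact ⟨y, IsZ.trans _ (hTN i) _ y1, by rw [fst_pair, snd_pair]; exact ⟨y1, y2⟩⟩
  haveI : In N ex := ⟨hex⟩
  have E' : ∀ i ∈ natZ n, ∀ g ∈ N, IsFn g → g ⊆ prod ζ.toZFSet ζ.toZFSet →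
      app ex (pair i (pre (app 𝕋 i) (app cd i) g ζ)) ∈ app 𝕋 i ∧
      pre (app 𝕋 i) (app cd i) g ζ ⊆ app ex (pair i (pre (app 𝕋 i) (app cd i) g ζ)) ∧
      lh (app ex (pair i (pre (app 𝕋 i) (app cd i) g ζ))) = ζ := fun i k g hg g1 g2 => by
    obtain ⟨p1, p2⟩ := pre_mem (hTN i) (hcdN i) hg (mem_of N ζ) (hcl i k)
      (isInj_iff.1 (hi i k)).2 hζ fun γ _ y hy e =>
        (F2 i k y hy).1.trans (hFζ _ (e ▸ tra_app h0 g1 g2)).le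
    have := E (pair i (pre (app 𝕋 i) (app cd i) g ζ)) (by
      rw [hX]; exact mem_rel.2 ⟨i, k, _, tra_mem_U p1, rfl, p1, p2⟩)
    simpa only [fst_pair, snd_pair] using this
  obtain ⟨Z, hZ⟩ : ∃ Z, Z = ZFSet.sep (FT (natZ n) ζ)
    (pw N (prod (natZ n) (pw N (prod ζ.toZFSet ζ.toZFSet)))) := ⟨_, rfl⟩
  have hZN : Z ∈ N := hZ ▸ memV_of N _
  haveI : In N Z := ⟨hZN⟩
  have hZm : ∀ z ∈ N, FT (natZ n) ζ z → z ∈ Z := fun z hz k => by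
    rw [hZ]
    refine mem_sep.2 ⟨mem_pw.2 ⟨hz, fun p hp => ?_⟩, k⟩
    rw [k.1.eq_lam] at hp
    obtain ⟨i, i1, rfl⟩ := mem_lam.1 hp
    rw [k.2.1] at i1
    exact pair_mem_prod.2 ⟨i1, mem_pw.2 ⟨IsZ.app_mem N hz i, (k.2.2 i i1).2⟩⟩
  obtain ⟨χ, hχ⟩ : ∃ χ, χ = lam Z fun z => app c (lam (natZ n) fun i =>
    app ex (pair i (pre (app 𝕋 i) (app cd i) (app z i) ζ))) := ⟨_, rfl⟩
  obtain ⟨ξ, hξ, η, hη, u, hu, j, hj, u1, u2⟩ := H χ (hχ ▸ memV_of N _) fun z hz k => by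
    haveI : In N z := ⟨hz⟩
    rw [hχ, app_lam _ (hZm z hz k)]
    have k1 := fun i i1 => E' i i1 _ (IsZ.app_mem N hz i) (k.2.2 i i1).1 (k.2.2 i i1).2
    exact hc' _ (memV_of N _) ζ hζ ⟨isFn_lam _ _, dom_lam _ _, fun i i1 => by
      rw [app_lam _ i1]; exact (k1 i i1).1⟩ fun i i1 => by rw [app_lam _ i1]; exact (k1 i i1).2.2
  have hηκ := hη.trans hζ
  have ht := fun i (k : i ∈ natZ n) => pre_mem (β := ξ) (hTN i) (hcdN i) (IsZ.app_mem N hu i)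
    (IsZ.ord_mem_of_le N hk.2.1 (hξ.trans hζ).le) (hcl i k) (isInj_iff.1 (hi i k)).2 hηκ
    fun γ hγ y hy e => (F2 i k y hy).1.trans (e ▸ u1 i k γ hγ).le
  obtain ⟨t, htt⟩ : ∃ t, t = lam (natZ n) fun i => pre (app 𝕋 i) (app cd i) (app u i) ξ :=
    ⟨_, rfl⟩
  have hti : ∀ i ∈ natZ n, app t i = pre (app 𝕋 i) (app cd i) (app u i) ξ := fun i k => by
    rw [htt, app_lam _ k]
  have htT : t ∈ Tup N (natZ n) 𝕋 := htt ▸ lam_mem_Tup h𝕋 fun i k => (ht i k).1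
  have hw' : pair t j ∈ prod (Tup N (natZ n) 𝕋) σ.toZFSet := pair_mem_prod.2 ⟨htT, hj⟩
  have b1 := F3 η hηκ t htT (fun i k => hti i k ▸ (ht i k).2) j hj
  rw [hb, app_lam _ hw', rank_toZFSet] at b1
  have b2 := olst_spec (hbad _ hw')
  generalize olst κ (fun ξ => tra_Bad N κ (natZ n) 𝕋 c (pair t j) ξ) = β at b1 b2
  have hβ : β < ζ := b1.trans_lt (hFζ η hη)
  obtain ⟨a, ha, a1, a2⟩ := u2 _ (hFζ β hβ)
  haveI : In N a := ⟨ha⟩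
  refine b2.2 ⟨ζ, hζ, hβ, lam (prod (natZ n) (⋃₀ (ran 𝕋))) fun w => app ex (pair (fst w)
    (pre (app 𝕋 (fst w)) (app cd (fst w)) (app a (pair (fst w) (app (app cd (fst w)) (snd w)))) ζ)),
    memV_of N _, ?_⟩
  rw [fst_pair, snd_pair]
  have A : ∀ i ∈ natZ n, ∀ s ∈ app 𝕋 i, lh s = β → app (app cd i) s ∈ (oat F β : Ordinal.{0}).toZFSet :=
    fun i k s hs e => by
      rw [(mem_ord (hcode i k s hs)).1]
      exact toZFSet_mem_toZFSet_iff.2 (e ▸ (F2 i k s hs).2)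
  refine ⟨fun i k s hs e st => ?_, fun z hz z1 z2 => ?_⟩
  · rw [app_lam _ (pair_mem_prod.2 ⟨k, tra_mem_U hs⟩), fst_pair, snd_pair]
    obtain ⟨c1, c2⟩ := mem_ord (A i k s hs e)
    obtain ⟨g1, g2, g3, g4⟩ := a1 i k _ c2
    rw [← c1] at g1 g2 g3 g4
    obtain ⟨e1, e2, e3⟩ := E' i k _ (IsZ.app_mem N ha _) g1 g2
    refine ⟨e1, subset_trans (pre_jump hs g4.symm ?_ hξ) e2, e3⟩
    rw [pre_congr g3, ← hti i k]
    exact st
  · haveI : In N z := ⟨hz⟩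
    have k1 : ∀ i ∈ natZ n, app (lam (natZ n) fun i => app (app cd i) (app z i)) i ∈
        (oat F β : Ordinal.{0}).toZFSet := fun i k => by
      rw [app_lam _ k]; exact A i k _ (z1.2.2 i k) (z2 i k).1
    have k2 := a2 _ (memV_of N (lam (natZ n) fun i => app (app cd i) (app z i))) (isFn_lam _ _)
      (dom_lam _ _) k1
    rw [hχ, app_lam _ (hZm _ (memV_of N _) ⟨isFn_lam _ _, dom_lam _ _, fun i k => by
      obtain ⟨c1, c2⟩ := mem_ord (k1 i k)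
      obtain ⟨g1, g2, -⟩ := a1 i k _ c2
      rw [← c1] at g1 g2
      rw [app_lam _ k]; exact ⟨g1, g2⟩⟩)] at k2
    rw [← k2]
    refine congrArg (app c) (z2a_congr fun i k => ?_)
    rw [app_lam _ (pair_mem_prod.2 ⟨k, tra_mem_U (z1.2.2 i k)⟩), fst_pair, snd_pair,
      app_lam _ k, app_lam _ k]

end Pool.Agent.Lib.MP_c8ac39_lc.WF
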