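import Pool.Agent.Lib.MP_c8ac39_lc.WF.Tr1

/-! # Walks along a tree and the bounding function -/

namespace Pool.Agent.Lib.MP_c8ac39_lc.WF

open Ordinal ZFSet Pool.Agent.Lib.MP_f9eb18_lc Pool.Agent.Lib.MP_f9eb18_lc.W
set_option linter.style.haveILetI false
set_option linter.unusedVariables false
set_option linter.unusedSectionVars false
set_option synthInstance.maxSize 100000

/-- the node reached at step `β` when `g` proposes codes (`c` codes the nodes of `T`) -/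
noncomputable def wk (T c g : V) : Ordinal.{0} → V :=
  orec fun β s => (⋃₀ (ran s) : V) ∪
    ⋃₀ (ZFSet.sep (fun y => app c y = app g β.toZFSet ∧ (⋃₀ (ran s) : V) ⊆ y) T)
/-- the node reached before step `β` -/
noncomputable def pre (T c g : V) (β : Ordinal.{0}) : V := ⋃₀ (ran (sq β (wk T c g)))

instance uf_pre {F : Fr} {a b c : Set V → (ℕ → V) → V} {o : Set V → (ℕ → V) → Ordinal.{0}}
    [UF F a] [UF F b] [UF F c] [UF F o] :
    UF F (fun M v => pre (a M v) (b M v) (c M v) (o M v)) := by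
  have := UF.lift (F := F) a; have := UF.lift (F := F) b; have := UF.lift (F := F) c
  unfold pre wk; infer_instance

variable {N : Set V} [IsZFC N] {κ η β β' : Ordinal.{0}} {T c g g' y : V}

theorem trw_ran {f : Ordinal.{0} → V} : y ∈ ran (sq β f) ↔ ∃ γ < β, y = f γ := by
  rw [mem_ran]
  constructor
  · rintro ⟨x, hx⟩
    obtain ⟨h1, h2⟩ := pair_mem_lam.1 hx
    exact ⟨x.rank, (rank_lt_of_mem h1).trans_eq (rank_toZFSet _), h2⟩
  · rintro ⟨γ, h1, rfl⟩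
    refine ⟨γ.toZFSet, pair_mem_lam.2 ⟨toZFSet_mem_toZFSet_iff.2 h1, ?_⟩⟩
    rw [rank_toZFSet]
    rfl
theorem trw_wk (T c g : V) (β : Ordinal.{0}) : wk T c g β = pre T c g β ∪
    ⋃₀ (ZFSet.sep (fun y => app c y = app g β.toZFSet ∧ pre T c g β ⊆ y) T) :=
  orec_eq _ _
theorem trw_pre_wk : pre T c g β ⊆ wk T c g β := fun z hz => by
  rw [trw_wk]
  exact mem_union.2 (Or.inl hz)
theorem trw_wk_pre (hβ : β < β') : wk T c g β ⊆ pre T c g β' := fun z hz =>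
  mem_sUnion.2 ⟨_, trw_ran.2 ⟨β, hβ, rfl⟩, hz⟩
theorem trw_cases (hi : ∀ x ∈ T, ∀ y ∈ T, app c x = app c y → x = y) :
    wk T c g β = pre T c g β ∨ (wk T c g β ∈ T ∧ app c (wk T c g β) = app g β.toZFSet) := by
  by_cases h : ∃ y ∈ T, app c y = app g β.toZFSet ∧ pre T c g β ⊆ y
  · obtain ⟨y, hy, h1, h2⟩ := h
    have e : wk T c g β = y := by
      rw [trw_wk]
      ext z
      rw [mem_union, mem_sUnion]
      constructor
      · rintro (hz | ⟨w, hw, hz⟩)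
        · exact h2 hz
        · obtain ⟨w1, w2, -⟩ := mem_sep.1 hw
          exact hi w w1 y hy (w2.trans h1.symm) ▸ hz
      · exact fun hz => Or.inr ⟨y, mem_sep.2 ⟨hy, h1, h2⟩, hz⟩
    exact Or.inr (e ▸ ⟨hy, h1⟩)
  · refine Or.inl ?_
    rw [trw_wk]
    ext z
    rw [mem_union, mem_sUnion]
    exact ⟨fun hz => hz.elim id fun ⟨w, hw, _⟩ => absurd ⟨w, mem_sep.1 hw⟩ h, Or.inl⟩

theorem pre_congr (h : ∀ γ < β, app g γ.toZFSet = app g' γ.toZFSet) :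
    pre T c g β = pre T c g' β := by
  induction β using WellFoundedLT.induction with
  | ind β ih =>
    unfold pre
    rw [sq_congr (g := wk T c g') fun γ hγ => ?_]
    rw [trw_wk, trw_wk, ih γ hγ fun δ hδ => h δ (hδ.trans hγ), h γ hγ]
theorem pre_jump (hy : y ∈ T) (hc : app c y = app g β.toZFSet) (hs : pre T c g β ⊆ y)
    (hβ : β < β') : y ⊆ pre T c g β' := by
  refine fun z hz => trw_wk_pre hβ ?_
  rw [trw_wk]
  exact mem_union.2 (Or.inr (mem_sUnion.2 ⟨y, mem_sep.2 ⟨hy, hc, hs⟩, hz⟩))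
theorem pre_mem (hT : T ∈ N) (hc : c ∈ N) (hg : g ∈ N) (hβ : β.toZFSet ∈ N) (h : Cl N κ T)
    (hi : ∀ x ∈ T, ∀ y ∈ T, app c x = app c y → x = y) (hη : η < κ)
    (hb : ∀ γ < β, ∀ y ∈ T, app c y = app g γ.toZFSet → lh y ≤ η) :
    pre T c g β ∈ T ∧ lh (pre T c g β) ≤ η := by
  induction β using WellFoundedLT.induction with
  | ind β ih =>
    have h1 : ∀ γ < β, wk T c g γ ∈ T ∧ lh (wk T c g γ) ≤ η := fun γ hγ => by
      rcases trw_cases (g := g) (β := γ) hi with e | ⟨e1, e2⟩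
      · rw [e]
        exact ih γ hγ (IsZ.trans _ hβ _ (toZFSet_mem_toZFSet_iff.2 hγ))
          fun δ hδ => hb δ (hδ.trans hγ)
      · exact ⟨e1, hb γ hγ _ e1 e2⟩
    have h2 : IsChn T (ran (sq β (wk T c g))) := by
      refine ⟨fun y hy => ?_, fun s hs t ht => ?_⟩
      · obtain ⟨γ, hγ, rfl⟩ := trw_ran.1 hy
        exact (h1 γ hγ).1
      · obtain ⟨γ, -, rfl⟩ := trw_ran.1 hs
        obtain ⟨δ, -, rfl⟩ := trw_ran.1 ht
        rcases lt_trichotomy γ δ with e | rfl | e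
        · exact Or.inl fun z hz => trw_pre_wk (trw_wk_pre e hz)
        · exact Or.inl fun z hz => hz
        · exact Or.inr fun z hz => trw_pre_wk (trw_wk_pre e hz)
    have h3 : ∀ t ∈ ran (sq β (wk T c g)), lh t ≤ η := fun t ht => by
      obtain ⟨γ, hγ, rfl⟩ := trw_ran.1 ht
      exact (h1 γ hγ).2
    haveI : In N T := ⟨hT⟩
    haveI : In N c := ⟨hc⟩
    haveI : In N g := ⟨hg⟩
    haveI : In N β := ⟨hβ⟩
    have h4 : ran (sq β (wk T c g)) ∈ N := by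
      unfold wk
      exact memV_of N _
    exact ⟨h.2.2 _ h4 h2 η hη h3, (lv_sUnion h.1 h2 hη h3).2⟩
theorem trw_fin (ho : Order.IsSuccLimit κ) {n : ℕ} (c : V → Ordinal.{0})
    (h : ∀ i ∈ natZ n, c i < κ) : osup (natZ n) c < κ := by
  obtain ⟨γ, h1, h2⟩ := sm_bound ho (fun i => c (natZ i)) n fun i hi => h _ (natZ_mem_natZ.2 hi)
  refine lt_of_le_of_lt (osup_le_iff.2 fun x hx => ?_) h1
  obtain ⟨i, hi, rfl⟩ := mem_natZ.1 hx
  exact (h2 i hi).le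
theorem trw_level (hk : RegK N κ) (h : WeakRegular N κ T) (hβ : β < κ) :
    Bd N κ (ZFSet.sep (fun t => lh t = β) T) := by
  have e : ZFSet.sep (fun t => lh t = β) T = ZFSet.sep (fun t => Lv κ t β) T := by
    ext t
    rw [mem_sep, mem_sep]
    exact and_congr_right fun ht => ⟨fun e => e ▸ h.1.lv ht, fun e => e.spec.2.2⟩
  rw [e]
  exact hk.bd (h.2.2.1 β hβ)
theorem trw_below (hk : RegK N κ) (hT : T ∈ N) (h : WeakRegular N κ T) (hβ : β < κ) :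
    Bd N κ (ZFSet.sep (fun t => lh t ≤ β) T) := by
  have h1 : Order.succ β < κ := hk.2.2.1.succ_lt hβ
  have m0 : β.toZFSet ∈ N := IsZ.ord_mem_of_le N hk.2.1 hβ.le
  have m1 : (Order.succ β).toZFSet ∈ N := IsZ.ord_mem_of_le N hk.2.1 h1.le
  obtain ⟨I, hI⟩ : ∃ I, I = (Order.succ β).toZFSet := ⟨_, rfl⟩
  haveI : In N T := ⟨hT⟩
  haveI : In N β := ⟨m0⟩
  haveI : In N I := ⟨hI ▸ m1⟩
  have m2 : lam I (fun z => ZFSet.sep (fun t => lh t = z.rank) T) ∈ N := memV_of N _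
  have h2 := Bd.bU (hI ▸ m1 : I ∈ N) m2 (hI ▸ hk.2.2.2 _ h1) fun i hi => by
    rw [app_lam _ hi]
    exact trw_level hk h ((mem_ord (hI ▸ hi)).2.trans h1)
  refine h2.sub hk.2.2.1.pos (sep_mem N _ hT) fun t ht => ?_
  obtain ⟨h3, h4⟩ := mem_sep.1 ht
  have h5 : (lh t).toZFSet ∈ I := hI ▸ toZFSet_mem_toZFSet_iff.2 (Order.lt_succ_iff.2 h4)
  refine mem_bU.2 ⟨_, h5, ?_⟩
  rw [app_lam _ h5, rank_toZFSet]
  exact mem_sep.2 ⟨h3, rfl⟩
/-- a function that bounds lengths of coded nodes, codes of levels and a function `b` on tuples -/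
theorem exists_bound (hk : RegK N κ) {n : ℕ} {𝕋 cd σ b : V} (h𝕋 : 𝕋 ∈ N) (hcd : cd ∈ N)
    (hσ : σ ∈ N) (hb : b ∈ N) (hs : Bd N κ σ) (hw : ∀ i ∈ natZ n, WeakRegular N κ (app 𝕋 i))
    (hi : ∀ i ∈ natZ n, IsInj (app cd i) (app 𝕋 i) κ.toZFSet)
    (hb' : ∀ w, (app b w).rank < κ) :
    ∃ F ∈ N, Mp F κ ∧ (∀ i ∈ natZ n, ∀ y ∈ app 𝕋 i,
        lh y ≤ oat F (app (app cd i) y).rank ∧ (app (app cd i) y).rank < oat F (lh y)) ∧
      ∀ β < κ, ∀ t ∈ Tup N (natZ n) 𝕋, (∀ i ∈ natZ n, lh (app t i) ≤ β) → ∀ j ∈ σ,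
        (app b (pair t j)).rank ≤ oat F β := by
  have ho := hk.2.2.1
  obtain ⟨d, hd⟩ : ∃ d, d = natZ n := ⟨_, rfl⟩
  haveI : In N 𝕋 := ⟨h𝕋⟩
  haveI : In N cd := ⟨hcd⟩
  haveI : In N σ := ⟨hσ⟩
  haveI : In N b := ⟨hb⟩
  haveI : In N κ := ⟨hk.2.1⟩
  haveI : In N d := ⟨hd ▸ IsZ.natZ_mem N n⟩
  have hlh : ∀ i ∈ natZ n, ∀ y ∈ app 𝕋 i, lh y < κ := fun i hi' y hy => ((hw i hi').1.lv hy).1
  have hcode : ∀ i ∈ natZ n, ∀ y ∈ app 𝕋 i, app (app cd i) y ∈ κ.toZFSet :=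
    fun i hi' y hy => (isFunc_iff.1 (hi i hi').1).2.2 y hy
  have mF : sq κ (fun β => max (max
      (osup d fun i => osup (ZFSet.sep (fun y => (app (app cd i) y).rank = β) (app 𝕋 i)) lh)
      (osup d fun i => osup (ZFSet.sep (fun y => lh y = β) (app 𝕋 i))
        fun y => Order.succ (app (app cd i) y).rank))
      (osup (prod (Tup N d (lam d fun i => ZFSet.sep (fun y => lh y ≤ β) (app 𝕋 i))) σ)
        fun w => (app b w).rank)) ∈ N := memV_of N _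
  subst hd
  refine ⟨_, mF, (mp_sq le_rfl).2 fun β hβ => max_lt (max_lt ?_ ?_) ?_, fun i hi' y hy => ⟨?_, ?_⟩,
    fun β hβ t ht hl j hj => ?_⟩
  · refine trw_fin ho _ fun i hi' => ?_
    by_cases h : ∃ y ∈ app 𝕋 i, (app (app cd i) y).rank = β
    · obtain ⟨y, hy, e⟩ := h
      refine lt_of_le_of_lt (osup_le_iff.2 fun z hz => ?_) (hlh i hi' y hy)
      obtain ⟨h1, h2⟩ := mem_sep.1 hz
      rw [(isInj_iff.1 (hi i hi')).2 z h1 y hy (by
        rw [(mem_ord (hcode i hi' z h1)).1, (mem_ord (hcode i hi' y hy)).1, h2, e])]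
    · refine lt_of_le_of_lt (osup_le_iff.2 fun z hz => ?_) ho.pos
      exact absurd ⟨z, mem_sep.1 hz⟩ h
  · refine trw_fin ho _ fun i hi' => ?_
    obtain ⟨γ, h1, h2⟩ := trw_level hk (hw i hi') hβ _ (IsZ.app_mem N hcd i)
      fun y hy => (mem_ord (hcode i hi' y (mem_sep.1 hy).1)).2
    exact lt_of_le_of_lt (osup_le_iff.2 fun y hy => Order.succ_le_of_lt (h2 y hy)) h1
  · obtain ⟨d, hd⟩ : ∃ d, d = natZ n := ⟨_, rfl⟩
    haveI : In N d := ⟨hd ▸ IsZ.natZ_mem N n⟩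
    haveI : In N β := ⟨IsZ.ord_mem_of_le N hk.2.1 hβ.le⟩
    have m1 : (lam d fun i => ZFSet.sep (fun y => lh y ≤ β) (app 𝕋 i)) ∈ N := memV_of N _
    have m2 : Tup N d (lam d fun i => ZFSet.sep (fun y => lh y ≤ β) (app 𝕋 i)) ∈ N := memV_of N _
    subst hd
    obtain ⟨γ, h1, h2⟩ := (bd_tup ho m1 n fun i hi' => by
      rw [app_lam _ hi']
      exact trw_below hk (IsZ.app_mem N h𝕋 i) (hw i hi') hβ).prod hs m2 hσ b hb fun w _ => hb' w
    exact lt_of_le_of_lt (osup_le_iff.2 fun w hw' => (h2 w hw').le) h1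
  · rw [oat_sq _ (mem_ord (hcode i hi' y hy)).2]
    refine le_max_of_le_left (le_max_of_le_left (le_trans ?_ (le_osup _ hi')))
    exact le_osup lh (mem_sep.2 ⟨hy, rfl⟩)
  · rw [oat_sq _ (hlh i hi' y hy)]
    refine lt_max_of_lt_left (lt_max_of_lt_right (lt_of_lt_of_le ?_ (le_osup _ hi')))
    exact (Order.lt_succ _).trans_le (le_osup (fun y => Order.succ (app (app cd i) y).rank)
      (mem_sep.2 ⟨hy, rfl⟩))
  · rw [oat_sq _ hβ]
    refine le_max_of_le_right (le_osup (fun w => (app b w).rank) (pair_mem_prod.2 ⟨?_, hj⟩))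
    obtain ⟨h0, h1, h2, h3⟩ := mem_Tup.1 ht
    refine mem_Tup.2 ⟨h0, h1, h2, fun i hi' => ?_⟩
    rw [app_lam _ hi']
    exact mem_sep.2 ⟨h3 i hi', hl i hi'⟩

end Pool.Agent.Lib.MP_c8ac39_lc.WF
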