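import Pool.Agent.Lib.MP_c8ac39_lc.WF.Po

/-! # Closure of the upper part of the forcing -/

namespace Pool.Agent.Lib.MP_c8ac39_lc.WF

open Ordinal ZFSet Pool.Agent.Lib.MP_f9eb18_lc Pool.Agent.Lib.MP_f9eb18_lc.W
set_option linter.style.haveILetI false
set_option linter.unusedVariables false
set_option linter.unusedSectionVars false
set_option synthInstance.maxSize 100000

variable {N : Set V} [IsZFC N] {κ : Ordinal.{0}} {U S L p : V} {α : Ordinal.{0}}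

theorem uc_dom_restr {s a : V} (h : a ⊆ dom s) : dom (restr s a) = a := by
  ext x
  simp only [mem_dom, pair_mem_restr]
  exact ⟨fun ⟨_, _, hx⟩ => hx, fun hx => (mem_dom.1 (h hx)).imp fun _ hy => ⟨hy, hx⟩⟩

theorem uc_app_restr {s a x : V} (h : x ∈ a) : app (restr s a) x = app s x := by
  unfold app
  congr 1
  ext y
  simp only [mem_sep, mem_ran, pair_mem_restr, h, and_true]
  exact and_congr_left fun hy => ⟨fun _ => ⟨_, hy⟩, fun _ => ⟨_, hy, h⟩⟩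

/-- the union of a short chain of conditions with the same lower part is a condition -/
theorem Ctx.chain (C : Ctx N κ U S L) (hp : p ∈ PP N κ S L) {s : V} (hs : s ∈ N)
    {β : Ordinal.{0}} (hβ : β.toZFSet ∈ N)
    (hb : ∀ μ ≤ κ, Inac N μ → oat L α < μ → Bd N μ β.toZFSet)
    (h : ∀ i ∈ β.toZFSet, app s i ∈ PP N κ S L ∧ p ⊆ app s i ∧ lo (app s i) α ⊆ p ∧
      ∀ k ∈ i, app s k ⊆ app s i) :
    p ∪ bU β.toZFSet (app s) ∈ PP N κ S L := by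
  have hp' := C.mem_PP.1 hp
  have h' := fun i hi => C.mem_PP.1 (h i hi).1
  haveI : In N p := ⟨hp'.1⟩
  haveI : In N s := ⟨hs⟩
  haveI : In N β := ⟨hβ⟩
  have hu : p ∪ bU β.toZFSet (app s) ∈ N := memV_of N _
  refine C.mem_PP.2 ⟨hu, ⟨isFn_of_dir fun x hx y hy => ?_, fun x hx => ?_⟩, fun μ hμ hi => ?_⟩
  · rcases mem_union.1 hx with hx | hx <;> rcases mem_union.1 hy with hy | hy
    · exact ⟨p, hp'.2.1.1, hx, hy⟩
    · obtain ⟨k, hk, hy⟩ := mem_bU.1 hy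
      exact ⟨_, (h' k hk).2.1.1, (h k hk).2.1 hx, hy⟩
    · obtain ⟨i, hi, hx⟩ := mem_bU.1 hx
      exact ⟨_, (h' i hi).2.1.1, hx, (h i hi).2.1 hy⟩
    · obtain ⟨i, hi, hx⟩ := mem_bU.1 hx
      obtain ⟨k, hk, hy⟩ := mem_bU.1 hy
      obtain ⟨i, -, rfl⟩ := mem_toZFSet_iff.1 (id hi)
      obtain ⟨k, -, rfl⟩ := mem_toZFSet_iff.1 (id hk)
      rcases lt_trichotomy i k with e | rfl | e
      · exact ⟨_, (h' _ hk).2.1.1, (h _ hk).2.2.2 _ (toZFSet_mem_toZFSet_iff.2 e) hx, hy⟩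
      · exact ⟨_, (h' _ hk).2.1.1, hx, hy⟩
      · exact ⟨_, (h' _ hi).2.1.1, hx, (h _ hi).2.2.2 _ (toZFSet_mem_toZFSet_iff.2 e) hy⟩
  · rcases mem_union.1 hx with hx | hx
    · exact hp'.2.1.2 x hx
    · obtain ⟨i, hi, hx⟩ := mem_bU.1 hx
      exact (h' i hi).2.1.2 x hx
  · rcases lt_or_ge (oat L α : Ordinal.{0}) μ with hl | hl
    · exact Loc.union hi.2.1 (hp'.2.2 μ hμ hi)
        (Loc.bU hi.2.1 hβ hs (hb μ hμ hi hl) fun i hi' => (h' i hi').2.2 μ hμ hi)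
    · refine Loc.mono hi.2.2.1.pos hi.2.1 (hp'.2.2 μ hμ hi) hu fun x hx hx' => ?_
      rcases mem_union.1 hx with hx | hx
      · exact hx
      · obtain ⟨i, hi', hx⟩ := mem_bU.1 hx
        exact (h i hi').2.2.1 (mem_lo.2 ⟨hx, C.gap (h' i hi').2.1 hx (hx'.trans hl)⟩)
/-- one step -/
theorem Ctx.step (C : Ctx N κ U S L) (hα : α ≤ κ) (hp : p ∈ PP N κ S L) {r D : V}
    (hr : r ∈ PP N κ S L) (hl : Low r α) (hD : OD (PP N κ S L) D) :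
    ∃ q ∈ PP N κ S L, p ⊆ q ∧ lo q α ⊆ p ∧
      ∃ r' ∈ PP N κ S L, Low r' α ∧ r ⊆ r' ∧ r' ∪ hi q α ∈ D := by
  obtain ⟨t, ht, hs⟩ := hD.2.1 _ (C.pp_hi hr hp hl hα)
  have ht' := hD.1 ht
  refine ⟨lo p α ∪ hi t α, C.pp_hi (C.pp_lo hp hα) ht' low_lo hα, fun x hx => ?_, fun x hx => ?_,
    lo t α, C.pp_lo ht' hα, low_lo, fun x hx => ?_, ?_⟩
  · rcases le_or_gt (lv x) α with e | e
    · exact mem_union.2 (Or.inl (mem_lo.2 ⟨hx, e⟩))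
    · exact mem_union.2 (Or.inr (mem_hi.2 ⟨hs (mem_union.2 (Or.inr (mem_hi.2 ⟨hx, e⟩))), e⟩))
  · obtain ⟨h1, h2⟩ := mem_lo.1 hx
    rcases mem_union.1 h1 with h1 | h1
    · exact (mem_lo.1 h1).1
    · exact absurd (mem_hi.1 h1).2 (not_lt.2 h2)
  · exact mem_lo.2 ⟨hs (mem_union.2 (Or.inl hx)), hl x hx⟩
  · have e : lo t α ∪ hi (lo p α ∪ hi t α) α = t := by
      ext x
      simp only [mem_union, mem_lo, mem_hi]
      constructor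
      · rintro (h | ⟨h | h, h'⟩)
        · exact h.1
        · exact absurd h' (not_lt.2 h.2)
        · exact h.1
      · intro h
        rcases le_or_gt (lv x) α with e | e
        · exact Or.inl ⟨h, e⟩
        · exact Or.inr ⟨Or.inr ⟨h, e⟩, e⟩
    rw [e]
    exact ht
theorem Ctx.uc (C : Ctx N κ U S L) (hα : α < κ) {J D : V} (hJ : J ∈ N) (hD : D ∈ N)
    (hr : ∀ j ∈ J, j.rank ≤ oat L α) (hd : ∀ j ∈ J, OD (PP N κ S L) (app D j))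
    (hp : p ∈ PP N κ S L) :
    ∃ q ∈ PP N κ S L, p ⊆ q ∧ lo q α ⊆ p ∧ Good (PP N κ S L) α J D q := by
  obtain ⟨P, hP⟩ : ∃ P, P = PP N κ S L := ⟨_, rfl⟩
  haveI : In N P := ⟨hP ▸ C.PP_mem⟩
  haveI : In N α := ⟨IsZ.ord_mem_of_le N C.inac.2.1 hα.le⟩
  haveI : In N J := ⟨hJ⟩
  haveI : In N D := ⟨hD⟩
  haveI : In N p := ⟨(C.mem_PP.1 hp).1⟩
  obtain ⟨I, hI⟩ : ∃ I, I = prod J (ZFSet.sep (fun r => Low r α) P) := ⟨_, rfl⟩
  have hIN : I ∈ N := hI ▸ memV_of N _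
  have hI' : ∀ z, z ∈ I ↔ ∃ j ∈ J, ∃ r ∈ PP N κ S L, Low r α ∧ z = pair j r := fun z => by
    simp only [hI, hP, mem_prod, mem_sep, and_assoc]
  obtain ⟨o, ho, e, he, hinj, hran⟩ := exists_ord_bij hIN
  haveI : In N o := ⟨ho⟩
  haveI : In N e := ⟨he⟩
  obtain ⟨e1, e2, e3⟩ := isFunc_iff.1 hinj.1
  have hb : ∀ β ≤ o, ∀ μ ≤ κ, Inac N μ → oat L α < μ → Bd N μ β.toZFSet := by
    intro β hβ μ hμ hi hl
    have h1 : I.rank ≤ oat L α + 2 + 1 := ZFSet.rank_le_iff.2 fun z hz => by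
      obtain ⟨j, hj, r, hr', hlo, rfl⟩ := (hI' z).1 hz
      rw [rank_zpair]
      exact lt_of_le_of_lt (add_le_add_left (max_le (hr j hj) (C.low_rank hr' hlo hα)) _)
        (lt_add_one _)
    have h2 : (oat L α : Ordinal.{0}) + 2 + 1 < μ := by
      rw [← one_add_one_eq_two, ← add_assoc]
      exact hi.2.2.1.add_one_lt (hi.2.2.1.add_one_lt (hi.2.2.1.add_one_lt hl))
    exact (Bd.of_inj hi.2.2.1.pos ⟨e, he, hinj⟩ (bd_of_rank hi hIN (h1.trans_lt h2))).sub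
      hi.2.2.1.pos (IsZ.ord_mem_of_le N ho hβ) (toZFSet_monotone hβ)
  obtain ⟨s, hs, hf, hdm, h⟩ := trans_dc N (fun s y => y ∈ P ∧ p ⊆ y ∧ lo y α ⊆ p ∧
      (∀ g ∈ dom s, app s g ⊆ y) ∧ (dom s ∈ o.toZFSet → ∃ r' ∈ P, Low r' α ∧
        snd (app e (dom s)) ⊆ r' ∧ r' ∪ hi y α ∈ app D (fst (app e (dom s)))))
      (mem_of N (o + 1)) fun β hβ s hs hf hdm h => by
    have hβ' : β ≤ o := Order.lt_add_one_iff.1 hβ
    have h1 : ∀ i ∈ β.toZFSet, app s i ∈ PP N κ S L ∧ p ⊆ app s i ∧ lo (app s i) α ⊆ p ∧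
        ∀ k ∈ i, app s k ⊆ app s i := fun i hi => by
      obtain ⟨i, hi', rfl⟩ := mem_toZFSet_iff.1 hi
      obtain ⟨a1, a2, a3, a4, -⟩ := h i hi'
      refine ⟨hP ▸ a1, a2, a3, fun k hk => ?_⟩
      rw [uc_dom_restr (hdm ▸ toZFSet_monotone hi'.le)] at a4
      have a5 := a4 k hk
      rwa [uc_app_restr hk] at a5
    have hu := C.chain hp hs (IsZ.ord_mem_of_le N ho hβ') (hb β hβ') h1
    have u1 : p ⊆ p ∪ bU β.toZFSet (app s) := fun x hx => mem_union.2 (Or.inl hx)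
    have u2 : ∀ x ∈ p ∪ bU β.toZFSet (app s), lv x ≤ α → x ∈ p := fun x hx hl => by
      rcases mem_union.1 hx with hx | hx
      · exact hx
      · obtain ⟨i, hi, hx⟩ := mem_bU.1 hx
        exact (h1 i hi).2.2.1 (mem_lo.2 ⟨hx, hl⟩)
    have u3 : ∀ g ∈ β.toZFSet, app s g ⊆ p ∪ bU β.toZFSet (app s) := fun g hg x hx =>
      mem_union.2 (Or.inr (mem_bU.2 ⟨g, hg, hx⟩))
    rw [hdm, hP]
    by_cases hβo : β.toZFSet ∈ o.toZFSet
    · obtain ⟨j, hj, r, hr', hlo, ee⟩ := (hI' _).1 (e3 _ hβo)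
      obtain ⟨q, hq, q1, q2, r', q3⟩ := C.step hα.le hu hr' hlo (hd j hj)
      refine ⟨q, (C.mem_PP.1 hq).1, hq, fun x hx => q1 (u1 hx),
        fun x hx => u2 x (q2 hx) (mem_lo.1 hx).2, fun g hg x hx => q1 (u3 g hg hx), fun _ => ?_⟩
      rw [ee, fst_pair, snd_pair]
      exact ⟨r', q3⟩
    · exact ⟨_, (C.mem_PP.1 hu).1, hu, u1, fun x hx => u2 x (mem_lo.1 hx).1 (mem_lo.1 hx).2, u3,
        fun hh => absurd hh hβo⟩
  obtain ⟨a1, a2, a3, a4, -⟩ := h o (lt_add_one o)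
  rw [hP] at a1
  rw [uc_dom_restr (hdm ▸ toZFSet_monotone (lt_add_one o).le)] at a4
  refine ⟨_, a1, a2, a3, fun j hj r hr' hlo => ?_⟩
  obtain ⟨x, hx⟩ := mem_ran.1 (hran ▸ (hI' _).2 ⟨j, hj, r, hr', hlo, rfl⟩ : pair j r ∈ ran e)
  have hxo : x ∈ o.toZFSet := e2 ▸ mem_dom.2 ⟨_, hx⟩
  obtain ⟨β, hβ, rfl⟩ := mem_toZFSet_iff.1 (id hxo)
  obtain ⟨-, -, -, -, b5⟩ := h β (hβ.trans (lt_add_one o))
  rw [uc_dom_restr (hdm ▸ toZFSet_monotone (hβ.trans (lt_add_one o)).le), e1.app_eq hx, fst_pair,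
    snd_pair, hP] at b5
  obtain ⟨r', b1, b2, b3, b4⟩ := b5 hxo
  have b6 := a4 _ hxo
  rw [uc_app_restr hxo] at b6
  refine ⟨r', b1, b2, b3, (hd j hj).2.2 _ b4 _ (C.pp_hi b1 a1 b2 hα.le) fun y hy => ?_⟩
  rcases mem_union.1 hy with hy | hy
  · exact mem_union.2 (Or.inl hy)
  · exact mem_union.2 (Or.inr (mem_hi.2 ⟨b6 (mem_hi.1 hy).1, (mem_hi.1 hy).2⟩))

end Pool.Agent.Lib.MP_c8ac39_lc.WF
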